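import Pool.Agent.Work.MP_7d0410_sp.Interface

/-!
# Two runs of the same length (block SFT)
-/

set_option autoImplicit false

namespace Pool.Agent.Work.MP_7d0410_sp

open Finset Filter MeasureTheory ProbabilityTheory
open Pool.Agent.Work.MP_7d0410_cr
open scoped Classical Topology

theorem p_SFT : Stmt_SFT := by
  intro S q q' hq hq' hl hlt
  obtain ⟨g1, g2, g3⟩ := mem_runs.1 hq
  obtain ⟨f1, f2, f3⟩ := mem_runs.1 hq'
  have h2 : q.2 < q'.2 := by
    by_contra hcon
    push Not at hcon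
    have hsub : seg S q' ⊂ seg S q := by
      rw [Finset.ssubset_iff_of_subset]
      · refine ⟨q.1, mem_seg.2 ⟨g1, le_rfl, g3⟩, fun h => ?_⟩
        have := (mem_seg.1 h).2.1
        omega
      · intro m hm
        obtain ⟨e1, e2, e3⟩ := mem_seg.1 hm
        exact mem_seg.2 ⟨e1, by omega, by omega⟩
    have := Finset.card_lt_card hsub
    unfold len at hl
    omega
  refine ⟨h2, ?_⟩
  set A := seg S q \ seg S q' with hA
  set B := seg S q' \ seg S q with hB
  have hcard : A.card = B.card := by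
    have e1 := Finset.card_sdiff_add_card_inter (seg S q) (seg S q')
    have e2 := Finset.card_sdiff_add_card_inter (seg S q') (seg S q)
    rw [Finset.inter_comm] at e2
    unfold len at hl
    rw [hA, hB]
    omega
  have hqA : q.1 ∈ A := Finset.mem_sdiff.2 ⟨mem_seg.2 ⟨g1, le_rfl, g3⟩, fun h => by
    have := (mem_seg.1 h).2.1
    omega⟩
  have hqB : q'.2 ∈ B := Finset.mem_sdiff.2 ⟨mem_seg.2 ⟨f2, f3, le_rfl⟩, fun h => by
    have := (mem_seg.1 h).2.2
    omega⟩
  have hAle : ∀ m ∈ A, m ≤ q.2 := fun m hm => (mem_seg.1 (Finset.mem_sdiff.1 hm).1).2.2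
  have hBge : ∀ m ∈ B, q.2 ≤ m := by
    intro m hm
    by_contra hcon
    push Not at hcon
    obtain ⟨e1, e2, e3⟩ := mem_seg.1 (Finset.mem_sdiff.1 hm).1
    exact (Finset.mem_sdiff.1 hm).2 (mem_seg.2 ⟨e1, by omega, by omega⟩)
  have hA' : ∑ m ∈ A.erase q.1, m ≤ (A.erase q.1).card * q.2 := by
    rw [← smul_eq_mul, ← Finset.sum_const]
    exact Finset.sum_le_sum fun m hm => hAle m (Finset.mem_of_mem_erase hm)
  have hB' : (B.erase q'.2).card * q.2 ≤ ∑ m ∈ B.erase q'.2, m := by
    rw [← smul_eq_mul, ← Finset.sum_const]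
    exact Finset.sum_le_sum fun m hm => hBge m (Finset.mem_of_mem_erase hm)
  have hAc : (A.erase q.1).card = (B.erase q'.2).card := by
    rw [Finset.card_erase_of_mem hqA, Finset.card_erase_of_mem hqB, hcard]
  have hAs := Finset.add_sum_erase A (fun m => m) hqA
  have hBs := Finset.add_sum_erase B (fun m => m) hqB
  have hq1 : sm S q = ∑ m ∈ A, m + ∑ m ∈ seg S q ∩ seg S q', m := by
    unfold sm
    rw [hA, ← Finset.sum_union (Finset.disjoint_sdiff_inter _ _), Finset.sdiff_union_inter]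
  have hq2 : sm S q' = ∑ m ∈ B, m + ∑ m ∈ seg S q ∩ seg S q', m := by
    unfold sm
    rw [hB, Finset.inter_comm (seg S q) (seg S q'),
      ← Finset.sum_union (Finset.disjoint_sdiff_inter _ _), Finset.sdiff_union_inter]
  rw [hAc] at hA'
  omega

end Pool.Agent.Work.MP_7d0410_sp
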