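import Pool.Agent.Work.MP_7d0410_sp.Interface
import Pool.Agent.Work.MP_0b7501_nt.BT

/-! # BTT: Brun and Titchmarsh -/

set_option autoImplicit false

namespace Pool.Agent.Work.MP_7d0410_sp

open Finset Filter MeasureTheory ProbabilityTheory
open Pool.Agent.Work.MP_7d0410_cr

theorem p_BTT : Stmt_BTT := by
  refine ⟨70, by norm_num, fun y h hh => ?_⟩
  have h1 := Pool.Agent.Work.MP_0b7501_nt.brun_titchmarsh y h hh
  rw [← mul_div_assoc]
  exact h1

end Pool.Agent.Work.MP_7d0410_sp
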