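import Pool.Agent.Work.MP_7d0410_sp.Interface

/-!
# Tensorization of the variance
-/

set_option autoImplicit false

namespace Pool.Agent.Work.MP_7d0410_sp

open Finset Filter MeasureTheory ProbabilityTheory
open Pool.Agent.Work.MP_7d0410_cr
open scoped Classical Topology

lemma TEN_empty {p : ℕ → ℝ} (F : Finset ℕ → ℝ) : Ex p ∅ F = F ∅ := by
  unfold Ex wt
  simp

theorem p_TEN : Stmt_TEN := by
  intro p hp T
  induction T with
  | zero =>
    intro I c F _ _
    rw [Finset.range_zero, Finset.biUnion_empty, TEN_empty, TEN_empty]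
    simp
  | succ T ih =>
    intro I c F hdis hF
    set V : Finset ℕ := (Finset.range T).biUnion I with hV
    have hU : (Finset.range (T + 1)).biUnion I = V ∪ I T := by
      rw [Finset.range_add_one, Finset.biUnion_insert, Finset.union_comm]
    have hVI : Disjoint V (I T) := by
      rw [hV, Finset.disjoint_biUnion_left]
      intro i hi
      rw [Finset.mem_range] at hi
      exact hdis i T (by omega) (by omega) (by omega)
    have hmemV : ∀ t, t < T → I t ⊆ V := by
      intro t ht
      rw [hV]
      exact Finset.subset_biUnion_of_mem I (Finset.mem_range.2 ht)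
    rw [hU] at hF ⊢
    obtain ⟨m, hm⟩ : ∃ m, m = Ex p (V ∪ I T) F := ⟨_, rfl⟩
    obtain ⟨F', hF'⟩ : ∃ F' : Finset ℕ → ℝ, F' = fun S => Ex p (I T) (fun T' => F (S ∪ T')) :=
      ⟨_, rfl⟩
    have hmV : m = Ex p V F' := by
      rw [hm, Ex_union hVI, hF']
    rw [← hm, Ex_union hVI]
    -- the inner expectation
    have hinner : ∀ S ⊆ V, Ex p (I T) (fun T' => (F (S ∪ T') - m) ^ 2) ≤
        c T ^ 2 + (F' S - m) ^ 2 := by
      intro S hS
      have hdev : ∀ T' ⊆ I T, |F (S ∪ T') - F' S| ≤ c T := by
        intro T' hT'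
        have e : F (S ∪ T') - F' S = Ex p (I T) (fun T'' => F (S ∪ T') - F (S ∪ T'')) := by
          rw [Ex_sub, Ex_const, hF']
        rw [e]
        refine (abs_Ex_le hp _ _).trans (Ex_le_const hp fun T'' hT'' => ?_)
        refine hF T (by omega) _ (Finset.union_subset_union hS hT') _
          (Finset.union_subset_union hS hT'') ?_
        rw [Finset.union_sdiff_distrib, Finset.union_sdiff_distrib,
          Finset.sdiff_eq_empty_iff_subset.2 hT', Finset.sdiff_eq_empty_iff_subset.2 hT'']
      have hcT : 0 ≤ c T := (abs_nonneg _).trans (hdev ∅ (Finset.empty_subset _))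
      have e1 : Ex p (I T) (fun T' => (F (S ∪ T') - m) ^ 2) =
          Ex p (I T) (fun T' => (F (S ∪ T') - F' S) ^ 2) +
            Ex p (I T) (fun T' => (2 * (F' S - m)) * (F (S ∪ T') - F' S)) + (F' S - m) ^ 2 := by
        rw [← Ex_add, ← Ex_const (p := p) (I T) ((F' S - m) ^ 2), ← Ex_add]
        refine Ex_congr fun T' _ => ?_
        ring
      have e2 : Ex p (I T) (fun T' => (2 * (F' S - m)) * (F (S ∪ T') - F' S)) = 0 := by
        rw [Ex_const_mul, Ex_sub, Ex_const]
        have : Ex p (I T) (fun T' => F (S ∪ T')) = F' S := by rw [hF']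
        rw [this, sub_self, mul_zero]
      rw [e1, e2]
      have e3 : Ex p (I T) (fun T' => (F (S ∪ T') - F' S) ^ 2) ≤ c T ^ 2 := by
        refine Ex_le_const hp fun T' hT' => ?_
        rw [← sq_abs]
        exact pow_le_pow_left₀ (abs_nonneg _) (hdev T' hT') 2
      linarith
    have h1 : Ex p V (fun S => Ex p (I T) (fun T' => (F (S ∪ T') - m) ^ 2)) ≤
        Ex p V (fun S => c T ^ 2 + (F' S - m) ^ 2) := Ex_mono hp hinner
    rw [Ex_add, Ex_const] at h1
    have h2 : Ex p V (fun S => (F' S - Ex p V F') ^ 2) ≤ ∑ t ∈ Finset.range T, c t ^ 2 := by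
      refine ih I c F' (fun i j hi hj => hdis i j (by omega) (by omega)) ?_
      intro t ht S hS S' hS' hSS
      have e : F' S - F' S' = Ex p (I T) (fun T' => F (S ∪ T') - F (S' ∪ T')) := by
        rw [Ex_sub, hF']
      rw [e]
      refine (abs_Ex_le hp _ _).trans (Ex_le_const hp fun T' hT' => ?_)
      refine hF t (by omega) _ (Finset.union_subset_union hS hT') _
        (Finset.union_subset_union hS' hT') ?_
      rw [Finset.union_sdiff_distrib, Finset.union_sdiff_distrib, hSS]
    rw [← hmV] at h2
    rw [Finset.sum_range_succ]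
    linarith

end Pool.Agent.Work.MP_7d0410_sp
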