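import Pool.Agent.Work.MP_7d0410_sp.Interface

/-! # Block VAR (helper31, after helper25) -/

set_option autoImplicit false

namespace Pool.Agent.Work.MP_7d0410_sp

open Finset Filter MeasureTheory ProbabilityTheory
open Pool.Agent.Work.MP_7d0410_cr
open scoped Classical Topology

theorem VAR_tel (a l : ℝ) (hl : 0 ≤ l) (hal : l < a) (T : ℕ) :
    ∑ t ∈ Finset.range T, (l / (a + t * l)) ^ 2 ≤ l / (a - l) - l / (a + T * l - l) := by
  induction T with
  | zero => simp
  | succ T ih =>
    rw [Finset.sum_range_succ]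
    have hT : (0 : ℝ) ≤ T * l := by positivity
    set b : ℝ := a + T * l with hb
    have hb1 : 0 < b - l := by rw [hb]; linarith
    have hb2 : 0 < b := by linarith
    have h1 : a + ((T + 1 : ℕ) : ℝ) * l - l = b := by
      rw [hb]; push_cast; ring
    rw [h1]
    have h2 : (l / b) ^ 2 ≤ l / (b - l) - l / b := by
      rw [div_sub_div _ _ hb1.ne' hb2.ne', div_pow]
      rw [show l * b - (b - l) * l = l ^ 2 by ring]
      apply div_le_div_of_nonneg_left (by positivity) (by positivity)
      nlinarith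
    linarith

theorem p_VAR (hTEN : Stmt_TEN) (hINF : Pool.Agent.Work.MP_7d0410_cr.Stmt_INF) : Stmt_VAR := by
  intro p hp a x R G k ha hax hxa
  set l : ℕ := x / a + 1 with hl
  set U : Finset ℕ := Finset.Icc a (2 * x) with hU
  have hl1 : 1 ≤ l := Nat.le_add_left 1 _
  have hxal : x ≤ a * l := by
    rw [hl]
    exact (Nat.lt_mul_div_succ x (by omega)).le
  set T : ℕ := 2 * x + 1 with hT
  set I : ℕ → Finset ℕ := fun t => U.filter (fun m => a + t * l ≤ m ∧ m < a + t * l + l) with hI
  have hcover : (Finset.range T).biUnion I = U := by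
    ext m
    simp only [hI, Finset.mem_biUnion, Finset.mem_range, Finset.mem_filter]
    constructor
    · rintro ⟨t, _, hm, _⟩
      exact hm
    · intro hm
      have hm' := Finset.mem_Icc.1 hm
      refine ⟨(m - a) / l, ?_, hm, ?_, ?_⟩
      · have := Nat.div_le_self (m - a) l
        omega
      · have := Nat.div_mul_le_self (m - a) l
        omega
      · have := Nat.lt_div_mul_add (a := m - a) (b := l) (by omega)
        omega
  have hdis : ∀ i j, i < T → j < T → i ≠ j → Disjoint (I i) (I j) := by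
    intro i j _ _ hij
    rw [Finset.disjoint_left]
    intro m hm hm'
    simp only [hI, Finset.mem_filter] at hm hm'
    rcases Nat.lt_or_gt_of_ne hij with h | h
    · have := Nat.mul_le_mul_right l h
      rw [Nat.succ_mul] at this
      omega
    · have := Nat.mul_le_mul_right l h
      rw [Nat.succ_mul] at this
      omega
  have hsd : ∀ t, ∀ S ⊆ U, S \ Finset.Ico (a + t * l) (a + t * l + l) = S \ I t := by
    intro t S hS
    ext m
    simp only [hI, Finset.mem_sdiff, Finset.mem_filter, Finset.mem_Ico]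
    constructor
    · rintro ⟨h1, h2⟩
      exact ⟨h1, fun h => h2 h.2⟩
    · rintro ⟨h1, h2⟩
      exact ⟨h1, fun h => h2 ⟨hS h1, h⟩⟩
  have h := hTEN p hp T I (fun t => 4 * l * x / ((a + t * l : ℕ) : ℝ)) (fun S => (DD R G S x k : ℝ)) hdis
    (by
      rw [hcover]
      intro t _ S hS S' hS' hSS
      refine hINF S S' a x l (a + t * l) R G k ?_ ?_ ha (by omega) hxal ?_
      · intro m hm
        exact (Finset.mem_Icc.1 (hS hm)).1
      · intro m hm
        exact (Finset.mem_Icc.1 (hS' hm)).1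
      · rw [hsd t S hS, hsd t S' hS']
        exact hSS)
  rw [hcover] at h
  refine h.trans ?_
  -- numbers
  have ha' : (1 : ℝ) ≤ a := by exact_mod_cast ha
  have hax' : (a : ℝ) ≤ x := by exact_mod_cast hax
  have hxa' : 4 * (x : ℝ) ≤ (a : ℝ) ^ 2 := by exact_mod_cast hxa
  have hapos : (0 : ℝ) < a := by linarith
  have hlx : (l : ℝ) ≤ 2 * x / a := by
    have h1 : ((x / a : ℕ) : ℝ) ≤ (x : ℝ) / a := Nat.cast_div_le
    have h2 : (1 : ℝ) ≤ x / a := by
      rw [le_div_iff₀ hapos]; linarith
    have h3 : (l : ℝ) = ((x / a : ℕ) : ℝ) + 1 := by rw [hl]; push_cast; ring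
    rw [h3, mul_div_assoc]
    linarith
  have hla : 2 * (l : ℝ) ≤ a := by
    have h1 : 2 * x / (a : ℝ) ≤ a / 2 := by
      rw [div_le_iff₀ hapos]
      nlinarith
    linarith
  have hlpos : (0 : ℝ) < l := by exact_mod_cast hl1
  have hxpos : (0 : ℝ) < x := by linarith
  have hsum : ∑ t ∈ Finset.range T, (4 * l * x / ((a + t * l : ℕ) : ℝ)) ^ 2 =
      16 * (x : ℝ) ^ 2 * ∑ t ∈ Finset.range T, ((l : ℝ) / (a + t * l)) ^ 2 := by
    rw [Finset.mul_sum]
    apply Finset.sum_congr rfl
    intro t _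
    push_cast
    rw [div_pow, div_pow]
    ring
  rw [hsum]
  have htel := VAR_tel a l hlpos.le (by linarith) T
  have hT0 : 0 ≤ (l : ℝ) / (a + T * l - l) := by
    apply div_nonneg hlpos.le
    have : (0 : ℝ) ≤ T * l := by positivity
    linarith
  have h1 : (l : ℝ) / (a - l) ≤ 2 * l / a := by
    rw [div_le_div_iff₀ (by linarith) hapos]
    nlinarith
  have h2 : ∑ t ∈ Finset.range T, ((l : ℝ) / (a + t * l)) ^ 2 ≤ 2 * (2 * x / a) / a := by
    have h3 : 2 * (l : ℝ) / a ≤ 2 * (2 * x / a) / a := by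
      apply div_le_div_of_nonneg_right _ hapos.le
      linarith
    linarith
  calc 16 * (x : ℝ) ^ 2 * ∑ t ∈ Finset.range T, ((l : ℝ) / (a + t * l)) ^ 2
      ≤ 16 * (x : ℝ) ^ 2 * (2 * (2 * x / a) / a) := by
        apply mul_le_mul_of_nonneg_left h2 (by positivity)
    _ = 64 * (x : ℝ) ^ 3 / (a : ℝ) ^ 2 := by
        field_simp
        ring

end Pool.Agent.Work.MP_7d0410_sp
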