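import Pool.Agent.Work.MP_7d0410_sp.Interface
import Pool.Agent.Work.MP_7d0410_cr.B_C1B
import Pool.Agent.Work.MP_7d0410_cr.B_ONE

/-! # C1S: pairs in `AB` (helper55; edit of `MP_7d0410_cr/B_C1B.lean`) -/

set_option autoImplicit false

namespace Pool.Agent.Work.MP_7d0410_sp

open Finset Filter MeasureTheory ProbabilityTheory
open Pool.Agent.Work.MP_7d0410_cr
open scoped Classical

lemma C1S_mem {a d x G : ℕ} {S : Finset ℕ} (ha : 1 ≤ a) (hS : S ⊆ Finset.Icc a d)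
    {z : (ℕ × ℕ) × (ℕ × ℕ)} (hz : z ∈ AB S G x) :
    (⟨z.1.1, len S z.2, len S z.1⟩ : Σ _ : ℕ, Σ _ : ℕ, ℕ) ∈ C1B_J a x G := by
  obtain ⟨hz7, hz8, hz9, hz10, hz11⟩ := Finset.mem_filter.1 hz
  obtain ⟨r1, r2⟩ := Finset.mem_product.1 hz7
  obtain ⟨g1, g2, g3⟩ := mem_runs.1 r1
  obtain ⟨f1, f2, f3⟩ := mem_runs.1 r2
  have hb : a ≤ z.1.1 := (Finset.mem_Icc.1 (hS g1)).1
  have hl1 := len_pos r2
  have h1 := len_mul_le_sm S z.1
  have h2 := len_mul_le_sm S z.2
  have h3 := sm_le_len_mul S z.1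
  have h4 := sm_le_len_mul S z.2
  have hbx : z.1.1 ≤ x := by
    have : z.1.1 ∈ seg S z.1 := mem_seg.2 ⟨g1, le_rfl, g3⟩
    exact (le_sm_of_mem this).trans hz10
  set b := z.1.1
  set k := len S z.1
  set l := len S z.2
  have hb0 : 0 < b := lt_of_lt_of_le ha hb
  have hlx : l * b ≤ x := by
    calc l * b ≤ l * z.2.1 := Nat.mul_le_mul_left _ (by omega)
      _ ≤ x := by omega
  have hkl : l < k := by
    by_contra hcon
    push Not at hcon
    have e1 : k * z.1.2 ≤ l * z.1.2 := Nat.mul_le_mul_right _ hcon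
    have e2 : l * z.1.2 < l * z.2.1 := Nat.mul_lt_mul_of_pos_left hz8 (by omega)
    omega
  have hk2 : (k - l) * b ^ 2 ≤ 2 * G * x * l := by
    have e1 : k * b ≤ l * z.2.2 := by omega
    have e2 : (k - l) * b ≤ l * (z.2.2 - b) := by
      rw [Nat.sub_mul, Nat.mul_sub]
      omega
    calc (k - l) * b ^ 2 = b * ((k - l) * b) := by ring
      _ ≤ b * (l * (z.2.2 - b)) := Nat.mul_le_mul_left _ e2
      _ = l * (b * (z.2.2 - b)) := by ring
      _ ≤ l * (2 * G * x) := Nat.mul_le_mul_left _ hz11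
      _ = 2 * G * x * l := by ring
  refine Finset.mem_sigma.2 ⟨Finset.mem_Icc.2 ⟨hb, hbx⟩, Finset.mem_sigma.2 ⟨?_, ?_⟩⟩
  · exact Finset.mem_Icc.2 ⟨hl1, (Nat.le_div_iff_mul_le hb0).2 hlx⟩
  · refine Finset.mem_Ioc.2 ⟨hkl, ?_⟩
    have : k - l ≤ 2 * G * x * l / b ^ 2 :=
      (Nat.le_div_iff_mul_le (pow_pos hb0 2)).2 hk2
    have h' : k ≤ l + 2 * G * x * l / b ^ 2 := by omega
    exact h'

/-- `∑ 1 / b²` -/
lemma C1S_sq (a : ℕ) (ha : 2 ≤ a) (N : ℕ) :
    ∑ b ∈ Finset.Icc a N, 1 / (b : ℝ) ^ 2 ≤ 2 / (a : ℝ) := by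
  have h1 : Finset.Icc a N = Finset.Ioo (a - 1) (N + 1) := by
    ext b
    simp only [Finset.mem_Icc, Finset.mem_Ioo]
    omega
  have h2 := sum_Ioo_inv_sq_le (α := ℝ) (a - 1) (N + 1)
  have h3 : (((a - 1 : ℕ) : ℝ) + 1) = a := by
    have : a - 1 + 1 = a := by omega
    exact_mod_cast this
  rw [h3] at h2
  rw [h1]
  refine le_trans (le_of_eq (Finset.sum_congr rfl fun b _ => ?_)) h2
  rw [one_div]

/-- `∑_(l < L) l` -/
lemma C1S_gauss (L M : ℕ) :
    ∑ l ∈ Finset.Icc 1 M, (if l < L then (l : ℝ) else 0) ≤ (L : ℝ) ^ 2 / 2 := by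
  rw [← Finset.sum_filter]
  have h1 : ∑ l ∈ (Finset.Icc 1 M).filter (fun l => l < L), (l : ℝ) ≤
      ∑ l ∈ Finset.range L, (l : ℝ) := by
    refine Finset.sum_le_sum_of_subset_of_nonneg (fun l hl => ?_) (fun _ _ _ => Nat.cast_nonneg _)
    rw [Finset.mem_filter] at hl
    exact Finset.mem_range.2 hl.2
  refine h1.trans ?_
  have h2 : (∑ l ∈ Finset.range L, l) * 2 = L * (L - 1) := Finset.sum_range_id_mul_two L
  have h3 : (∑ l ∈ Finset.range L, (l : ℝ)) * 2 ≤ (L : ℝ) ^ 2 := by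
    have h4 : (∑ l ∈ Finset.range L, l) * 2 ≤ L ^ 2 := by
      rw [h2, pow_two]
      exact Nat.mul_le_mul_left _ (Nat.sub_le _ _)
    have h5 := (Nat.cast_le (α := ℝ)).2 h4
    push_cast at h5
    exact h5
  linarith

theorem p_C1S (h1 : Stmt_C1L) : Stmt_C1S := by
  intro p hp a d x G L B ha hB hh'
  set U := Finset.Icc a d with hU
  have ha0 : (0 : ℝ) < a := by
    have : 0 < a := by omega
    exact_mod_cast this
  have step1 : Ex p U (fun S => ((AB S G x).card : ℝ)) ≤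
      ∑ j ∈ C1B_J a x G, Ex p U (fun S => (((AB S G x).filter
        (fun z => z.1.1 = j.1 ∧ len S z.1 = j.2.2 ∧ len S z.2 = j.2.1)).card : ℝ)) := by
    rw [← Ex_sum]
    refine Ex_mono hp fun S hS => ?_
    have : AB S G x ⊆ (C1B_J a x G).biUnion (fun j => (AB S G x).filter
        (fun z => z.1.1 = j.1 ∧ len S z.1 = j.2.2 ∧ len S z.2 = j.2.1)) := by
      intro z hz
      refine Finset.mem_biUnion.2 ⟨⟨z.1.1, len S z.2, len S z.1⟩, C1S_mem (by omega) hS hz, ?_⟩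
      exact Finset.mem_filter.2 ⟨hz, rfl, rfl, rfl⟩
    have h := (Finset.card_le_card this).trans Finset.card_biUnion_le
    exact_mod_cast h
  have step2 : ∀ j ∈ C1B_J a x G, Ex p U (fun S => (((AB S G x).filter
        (fun z => z.1.1 = j.1 ∧ len S z.1 = j.2.2 ∧ len S z.2 = j.2.1)).card : ℝ)) ≤
        (if j.2.1 < L then (1 : ℝ) else 0) + B / (j.2.1 : ℝ) := by
    intro j hj
    obtain ⟨hj1, hj2⟩ := Finset.mem_sigma.1 hj
    obtain ⟨hj3, hj4⟩ := Finset.mem_sigma.1 hj2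
    have hBj : 0 ≤ B / (j.2.1 : ℝ) := div_nonneg hB (Nat.cast_nonneg _)
    split_ifs with hlt
    · refine (h1 p hp U x G j.1 j.2.2 j.2.1 1 ?_).trans (by linarith)
      intro m
      unfold hh
      refine Ex_le_const hp fun S _ => ?_
      have hl1 : 1 ≤ j.2.1 := (Finset.mem_Icc.1 hj3).1
      have h2 := p_ONE S j.2.1 m hl1
      have h3 : (rr S j.2.1 (m + 0)).card ≤
          ∑ ℓ ∈ Finset.range j.2.1, (rr S j.2.1 (m + ℓ)).card :=
        Finset.single_le_sum (f := fun ℓ => (rr S j.2.1 (m + ℓ)).card)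
          (fun _ _ => Nat.zero_le _) (Finset.mem_range.2 hl1)
      exact_mod_cast h3.trans h2
    · rw [zero_add]
      refine h1 p hp U x G j.1 j.2.2 j.2.1 _ ?_
      intro m
      exact hh' j.2.1 m (not_lt.1 hlt)
  have step3 : ∑ j ∈ C1B_J a x G, ((if j.2.1 < L then (1 : ℝ) else 0) + B / (j.2.1 : ℝ)) ≤
      ∑ b ∈ Finset.Icc a x, (G * x * (L : ℝ) ^ 2 * (1 / (b : ℝ) ^ 2) +
        2 * B * G * (x : ℝ) ^ 2 * (1 / (b : ℝ) ^ 3)) := by
    unfold C1B_J
    rw [Finset.sum_sigma]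
    refine Finset.sum_le_sum fun b hb => ?_
    rw [Finset.sum_sigma]
    have hb0 : (0 : ℝ) < b := by
      have := (Finset.mem_Icc.1 hb).1
      have : 0 < b := by omega
      exact_mod_cast this
    calc ∑ l ∈ Finset.Icc 1 (x / b), ∑ k ∈ Finset.Ioc l (l + 2 * G * x * l / b ^ 2),
          ((if l < L then (1 : ℝ) else 0) + B / (l : ℝ))
        ≤ ∑ l ∈ Finset.Icc 1 (x / b), (2 * G * (x : ℝ) / (b : ℝ) ^ 2 *
            (if l < L then (l : ℝ) else 0) + 2 * B * G * (x : ℝ) / (b : ℝ) ^ 2) := by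
          refine Finset.sum_le_sum fun l hl => ?_
          have hl0 : (0 : ℝ) < l := by
            have := (Finset.mem_Icc.1 hl).1
            exact_mod_cast this
          rw [Finset.sum_const, Nat.card_Ioc, nsmul_eq_mul, Nat.add_sub_cancel_left]
          have h2 : ((2 * G * x * l / b ^ 2 : ℕ) : ℝ) ≤ (2 * G * x * l : ℝ) / (b : ℝ) ^ 2 := by
            have := @Nat.cast_div_le ℝ _ _ _ (2 * G * x * l) (b ^ 2)
            push_cast at this
            exact this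
          have h3 : 0 ≤ (if l < L then (1 : ℝ) else 0) + B / (l : ℝ) := by
            have : 0 ≤ B / (l : ℝ) := div_nonneg hB hl0.le
            split_ifs <;> linarith
          calc ((2 * G * x * l / b ^ 2 : ℕ) : ℝ) * ((if l < L then (1 : ℝ) else 0) + B / (l : ℝ))
              ≤ (2 * G * x * l : ℝ) / (b : ℝ) ^ 2 *
                ((if l < L then (1 : ℝ) else 0) + B / (l : ℝ)) := mul_le_mul_of_nonneg_right h2 h3
            _ = 2 * G * (x : ℝ) / (b : ℝ) ^ 2 * (if l < L then (l : ℝ) else 0) +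
                2 * B * G * (x : ℝ) / (b : ℝ) ^ 2 := by
                split_ifs
                · field_simp
                · field_simp
                  ring
      _ = 2 * G * (x : ℝ) / (b : ℝ) ^ 2 *
            ∑ l ∈ Finset.Icc 1 (x / b), (if l < L then (l : ℝ) else 0) +
          ((x / b : ℕ) : ℝ) * (2 * B * G * (x : ℝ) / (b : ℝ) ^ 2) := by
          rw [Finset.sum_add_distrib, ← Finset.mul_sum, Finset.sum_const, Nat.card_Icc,
            nsmul_eq_mul, Nat.add_sub_cancel]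
      _ ≤ 2 * G * (x : ℝ) / (b : ℝ) ^ 2 * ((L : ℝ) ^ 2 / 2) +
          ((x : ℝ) / b) * (2 * B * G * (x : ℝ) / (b : ℝ) ^ 2) := by
          refine add_le_add ?_ ?_
          · exact mul_le_mul_of_nonneg_left (C1S_gauss L (x / b)) (by positivity)
          · exact mul_le_mul_of_nonneg_right Nat.cast_div_le (by positivity)
      _ = G * x * (L : ℝ) ^ 2 * (1 / (b : ℝ) ^ 2) +
          2 * B * G * (x : ℝ) ^ 2 * (1 / (b : ℝ) ^ 3) := by
          field_simp
  calc _ ≤ _ := step1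
    _ ≤ ∑ j ∈ C1B_J a x G, ((if j.2.1 < L then (1 : ℝ) else 0) + B / (j.2.1 : ℝ)) :=
        Finset.sum_le_sum step2
    _ ≤ _ := step3
    _ = G * x * (L : ℝ) ^ 2 * ∑ b ∈ Finset.Icc a x, (1 / (b : ℝ) ^ 2) +
        2 * B * G * (x : ℝ) ^ 2 * ∑ b ∈ Finset.Icc a x, (1 / (b : ℝ) ^ 3) := by
        rw [Finset.sum_add_distrib, Finset.mul_sum, Finset.mul_sum]
    _ ≤ G * x * (L : ℝ) ^ 2 * (2 / (a : ℝ)) +
        2 * B * G * (x : ℝ) ^ 2 * (2 / (a : ℝ) ^ 2) := by
        refine add_le_add ?_ ?_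
        · exact mul_le_mul_of_nonneg_left (C1S_sq a ha x) (by positivity)
        · exact mul_le_mul_of_nonneg_left (C1B_cube a ha x) (by positivity)
    _ = 2 * G * x * (L : ℝ) ^ 2 / a + 4 * B * G * (x : ℝ) ^ 2 / (a : ℝ) ^ 2 := by ring

end Pool.Agent.Work.MP_7d0410_sp
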