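import Pool.Agent.Work.MP_7d0410_sp.Interface

set_option autoImplicit false

namespace Pool.Agent.Work.MP_7d0410_sp

open Finset Filter MeasureTheory ProbabilityTheory
open Pool.Agent.Work.MP_7d0410_cr
open scoped Classical Topology

lemma MCK_seg (S : Finset ℕ) (z : ℕ) (q : ℕ × ℕ) : seg (S.erase z) q = (seg S q).erase z := by
  ext m
  rw [mem_seg, Finset.mem_erase, Finset.mem_erase, mem_seg]
  tauto

lemma MCK_FF (S : Finset ℕ) (r n z : ℕ) (hz : z ∈ S) :
    ((rr S r n).filter (fun q => q.1 < z ∧ z < q.2)).card = FF (S.erase z) r n z := by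
  unfold FF
  congr 1
  ext q
  rw [Finset.mem_filter, Finset.mem_filter]
  unfold rr
  rw [Finset.mem_filter, mem_runs, mem_runs]
  have key : q.1 < z → z < q.2 → len (S.erase z) q + 1 = len S q ∧
      sm (S.erase z) q + z = sm S q := by
    intro h1 h2
    have hzs : z ∈ seg S q := mem_seg.2 ⟨hz, h1.le, h2.le⟩
    constructor
    · unfold len
      rw [MCK_seg, Finset.card_erase_add_one hzs]
    · unfold sm
      rw [MCK_seg]
      exact Finset.sum_erase_add _ (fun m => m) hzs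
  constructor
  · rintro ⟨⟨⟨h1, h2, h3⟩, h4, h5⟩, h6, h7⟩
    obtain ⟨k1, k2⟩ := key h6 h7
    exact ⟨⟨Finset.mem_erase.2 ⟨by omega, h1⟩, Finset.mem_erase.2 ⟨by omega, h2⟩, h3⟩, h6, h7,
      k1.trans h4, k2.trans h5⟩
  · rintro ⟨⟨h1, h2, h3⟩, h6, h7, h8, h9⟩
    obtain ⟨k1, k2⟩ := key h6 h7
    exact ⟨⟨⟨(Finset.mem_erase.1 h1).2, (Finset.mem_erase.1 h2).2, h3⟩, k1.symm.trans h8,
      k2.symm.trans h9⟩, h6, h7⟩

lemma MCK_lt {c : ℝ} (hc : 0 < c) {z : ℕ} (hz : 2 ≤ z) (hp : ¬ z.Prime) : pp c z < 1 := by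
  rw [pp_not_prime hp]
  apply Real.rpow_lt_one_of_one_lt_of_neg
  · exact_mod_cast hz
  · linarith

theorem p_MCK : Stmt_MCK := by
  intro c hc V r n hV
  have h1 : Ex (pp c) V (fun S => ∑ q ∈ rr S r n, (KK S q : ℝ)) =
      Ex (pp c) V (fun S => ∑ z ∈ V.filter (fun z => ¬ z.Prime),
        (if z ∈ S then 1 else 0) * (FF (S.erase z) r n z : ℝ)) := by
    refine Ex_congr fun S hS => ?_
    have h2 : ∀ q : ℕ × ℕ, (KK S q : ℝ) = ∑ z ∈ V.filter (fun z => ¬ z.Prime),
        (if z ∈ S ∧ q.1 < z ∧ z < q.2 then (1 : ℝ) else 0) := by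
      intro q
      rw [← Finset.sum_filter, Finset.sum_const, nsmul_eq_mul, mul_one]
      unfold KK
      congr 2
      ext z
      rw [Finset.mem_filter, Finset.mem_filter, Finset.mem_filter]
      constructor
      · rintro ⟨h3, h4, h5⟩
        exact ⟨⟨hS h3, h4⟩, h3, h5⟩
      · rintro ⟨⟨_, h4⟩, h3, h5⟩
        exact ⟨h3, h4, h5⟩
    rw [Finset.sum_congr rfl fun q _ => h2 q, Finset.sum_comm]
    refine Finset.sum_congr rfl fun z _ => ?_
    by_cases hz : z ∈ S
    · rw [if_pos hz, one_mul, ← MCK_FF S r n z hz]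
      rw [← Finset.sum_filter, Finset.sum_const, nsmul_eq_mul, mul_one]
      congr 2
      ext q
      rw [Finset.mem_filter, Finset.mem_filter]
      constructor
      · rintro ⟨h3, _, h5⟩
        exact ⟨h3, h5⟩
      · rintro ⟨h3, h5⟩
        exact ⟨h3, hz, h5⟩
    · rw [if_neg hz, zero_mul]
      apply Finset.sum_eq_zero
      intro q _
      rw [if_neg]
      exact fun h => hz h.1
  rw [h1, Ex_sum]
  refine Finset.sum_congr rfl fun z hz => ?_
  rw [Finset.mem_filter] at hz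
  have h3 := Ex_insert (p := pp c) V z hz.1 (MCK_lt hc (hV z hz.1) hz.2)
    (fun S => (FF S r n z : ℝ))
  rw [h3]
  congr 1
  refine Ex_congr fun S _ => ?_
  split_ifs
  · rw [zero_mul]
  · rw [one_mul]

end Pool.Agent.Work.MP_7d0410_sp
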