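import Pool.Agent.Work.MP_7d0410_sp.Interface
import Pool.Agent.Work.MP_7d0410_cr.B_CO
import Pool.Agent.Work.MP_7d0410_cr.B_C1A

/-!
# The primes with a sparse random set added: collisions are rare (block CO)
-/

set_option autoImplicit false

namespace Pool.Agent.Work.MP_7d0410_sp

open Finset Filter MeasureTheory ProbabilityTheory
open Pool.Agent.Work.MP_7d0410_cr
open scoped Classical Topology

/-- powers of `x` beat constants -/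
lemma CO_pow (δ K : ℝ) (hδ : 0 < δ) : ∀ᶠ x : ℕ in atTop, K ≤ (x : ℝ) ^ δ := by
  have h1 : Tendsto (fun x : ℕ => (x : ℝ) ^ δ) atTop atTop :=
    (tendsto_rpow_atTop hδ).comp tendsto_natCast_atTop_atTop
  exact h1.eventually_ge_atTop K

/-- `L0 ≤ R1` for large `x` -/
lemma CO_L0 {c θ : ℝ} (h : Par c θ) : ∀ᶠ x : ℕ in atTop, L0 c θ x ≤ R1 θ x := by
  have t0 := h.t0
  have t1 := h.t1
  have hc := h.ceq
  have c0 := h.c0
  filter_upwards [CO_pow (1 / 4 - 9 * θ) 2 (by linarith), eventually_ge_atTop 1] with x hx hx1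
  have hX1 : (1 : ℝ) ≤ x := by exact_mod_cast hx1
  have hX : (0 : ℝ) < x := by linarith
  have e1 : (x : ℝ) ^ (2 * θ) * (A2 θ x : ℝ) ^ c ≤ (x : ℝ) ^ (1 / 4 : ℝ) := by
    have e2 : (A2 θ x : ℝ) ≤ (x : ℝ) ^ (1 / 2 + 8 * θ) := Nat.floor_le (by positivity)
    have e3 : (A2 θ x : ℝ) ^ c ≤ (x : ℝ) ^ ((1 / 2 + 8 * θ) * c) := by
      rw [Real.rpow_mul hX.le]
      exact Real.rpow_le_rpow (Nat.cast_nonneg _) e2 c0.le
    calc (x : ℝ) ^ (2 * θ) * (A2 θ x : ℝ) ^ c ≤ (x : ℝ) ^ (2 * θ) * (x : ℝ) ^ ((1 / 2 + 8 * θ) * c) := by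
          gcongr
      _ = (x : ℝ) ^ (2 * θ + (1 / 2 + 8 * θ) * c) := by rw [Real.rpow_add hX]
      _ ≤ (x : ℝ) ^ (1 / 4 : ℝ) := by
          refine Real.rpow_le_rpow_of_exponent_le hX1 ?_
          rw [hc]
          nlinarith [sq_nonneg θ]
  have e4 : (L0 c θ x : ℝ) ≤ (x : ℝ) ^ (1 / 4 : ℝ) + 1 := by
    unfold L0
    have := Nat.ceil_lt_add_one (a := (x : ℝ) ^ (2 * θ) * (A2 θ x : ℝ) ^ c) (by positivity)
    linarith
  have e5 : 1 ≤ (x : ℝ) ^ (1 / 4 : ℝ) := Real.one_le_rpow hX1 (by norm_num)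
  have e6 : (x : ℝ) ^ (1 / 2 - 9 * θ) ≤ R1 θ x := Nat.le_ceil _
  have e7 : 2 * (x : ℝ) ^ (1 / 4 : ℝ) ≤ (x : ℝ) ^ (1 / 2 - 9 * θ) := by
    have e8 : (x : ℝ) ^ (1 / 2 - 9 * θ) = (x : ℝ) ^ (1 / 4 - 9 * θ) * (x : ℝ) ^ (1 / 4 : ℝ) := by
      rw [← Real.rpow_add hX]
      congr 1
      ring
    rw [e8]
    gcongr
  have e9 : (L0 c θ x : ℝ) ≤ R1 θ x := by linarith
  exact_mod_cast e9

lemma CO_G1 {θ : ℝ} (hθ : 0 < θ) {x : ℕ} (hx : 1 ≤ x) : (G1 θ x : ℝ) ≤ 2 * (x : ℝ) ^ θ := by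
  have hX1 : (1 : ℝ) ≤ x := by exact_mod_cast hx
  unfold G1
  have h1 := Nat.ceil_lt_add_one (a := (x : ℝ) ^ θ) (by positivity)
  have h2 : 1 ≤ (x : ℝ) ^ θ := Real.one_le_rpow hX1 hθ.le
  linarith

lemma CO_A1 {θ : ℝ} {x : ℕ} (hx : 1 ≤ x) : (x : ℝ) ^ (1 + 8 * θ) ≤ (A1 θ x : ℝ) ^ 2 := by
  have hX : (0 : ℝ) < x := by exact_mod_cast hx
  have h1 : (x : ℝ) ^ (1 / 2 + 4 * θ) ≤ A1 θ x := Nat.le_ceil _
  have h2 : ((x : ℝ) ^ (1 / 2 + 4 * θ)) ^ 2 = (x : ℝ) ^ (1 + 8 * θ) := by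
    rw [← Real.rpow_natCast, ← Real.rpow_mul hX.le]
    congr 1
    push_cast
    ring
  rw [← h2]
  exact pow_le_pow_left₀ (by positivity) h1 2

theorem p_CO (h1 : Stmt_C1B) (h2 : Stmt_C2A) (h3 : Stmt_CRB) : Stmt_CO := by
  intro c θ hP η hη
  have t0 := hP.t0
  have t1 := hP.t1
  have hprob := prob_pp hP.c0
  filter_upwards [h1 c θ hP, h3 c θ hP, CO_L0 hP, CO_pow θ (4 / η) t0, CO_pow (7 * θ) 16 (by linarith),
    CO_log (1 / 2 - 12 * θ) (by linarith) (16 / η), CO_pow (4 * θ) (384 / η) (by linarith),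
    eventually_ge_atTop 1] with x k1 k3 k4 k5 k6 k7 k8 hx1
  have hX1 : (1 : ℝ) ≤ x := by exact_mod_cast hx1
  have hX : (0 : ℝ) < x := by linarith
  have hlog : 0 ≤ Real.log x := Real.log_nonneg hX1
  have hA : (x : ℝ) ^ (1 + 8 * θ) ≤ (A1 θ x : ℝ) ^ 2 := CO_A1 hx1
  have hA1 : 1 ≤ A1 θ x := by
    have : (1 : ℝ) ≤ A1 θ x := (Real.one_le_rpow hX1 (by linarith)).trans (Nat.le_ceil _)
    exact_mod_cast this
  have hG := CO_G1 t0 hx1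
  have hR : (x : ℝ) ^ (1 / 2 - 9 * θ) ≤ R1 θ x := Nat.le_ceil _
  have hR1 : 1 ≤ R1 θ x := by
    have : (1 : ℝ) ≤ R1 θ x := (Real.one_le_rpow hX1 (by linarith)).trans hR
    exact_mod_cast this
  rw [Finset.sum_add_distrib]
  -- the first sum
  have s1 : ∑ n ∈ Finset.Icc 1 x, T1 (pp c) (VV θ x) (R1 θ x) (G1 θ x) n ≤ 2 * (x : ℝ) ^ (1 - θ) := by
    have e1 : ∑ n ∈ Finset.Icc 1 x, T1 (pp c) (VV θ x) (R1 θ x) (G1 θ x) n ≤
        Ex (pp c) (VV θ x) (fun S => 2 * ((AB S (G1 θ x) x).card : ℝ)) := by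
      unfold T1
      rw [← Ex_sum]
      refine Ex_mono hprob fun S hS => ?_
      have hpos : ∀ m ∈ S, 1 ≤ m := by
        intro m hm
        have := (Finset.mem_Icc.1 (hS hm)).1
        omega
      exact_mod_cast p_C1A S (R1 θ x) (G1 θ x) x hpos
    refine e1.trans ?_
    rw [Ex_const_mul]
    linarith
  have s1' : 2 * (x : ℝ) ^ (1 - θ) ≤ η / 2 * x := by
    have e1 : (x : ℝ) ^ (1 - θ) * (x : ℝ) ^ θ = x := by
      rw [← Real.rpow_add hX]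
      have : 1 - θ + θ = 1 := by ring
      rw [this, Real.rpow_one]
    have e2 : 0 ≤ (x : ℝ) ^ (1 - θ) := by positivity
    have e3 : (x : ℝ) ^ (1 - θ) * (4 / η) ≤ x := by
      calc (x : ℝ) ^ (1 - θ) * (4 / η) ≤ (x : ℝ) ^ (1 - θ) * (x : ℝ) ^ θ := by gcongr
        _ = x := e1
    have e4 : η * ((x : ℝ) ^ (1 - θ) * (4 / η)) = 4 * (x : ℝ) ^ (1 - θ) := by field_simp
    have e5 := mul_le_mul_of_nonneg_left e3 hη.le
    rw [e4] at e5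
    linarith
  -- the second sum
  have h8 : 8 * G1 θ x * x ≤ A1 θ x ^ 2 := by
    have : (8 : ℝ) * G1 θ x * x ≤ (A1 θ x : ℝ) ^ 2 := by
      refine le_trans ?_ hA
      have e1 : (x : ℝ) ^ (1 + 8 * θ) = (x : ℝ) ^ (7 * θ) * ((x : ℝ) ^ θ * x) := by
        have : (x : ℝ) ^ (7 * θ) * ((x : ℝ) ^ θ * (x : ℝ) ^ (1 : ℝ)) = (x : ℝ) ^ (1 + 8 * θ) := by
          rw [← Real.rpow_add hX, ← Real.rpow_add hX]
          congr 1
          ring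
        rw [Real.rpow_one] at this
        exact this.symm
      rw [e1]
      calc (8 : ℝ) * G1 θ x * x ≤ 8 * (2 * (x : ℝ) ^ θ) * x := by gcongr
        _ = 16 * ((x : ℝ) ^ θ * x) := by ring
        _ ≤ (x : ℝ) ^ (7 * θ) * ((x : ℝ) ^ θ * x) := by gcongr
    exact_mod_cast this
  have s2 := h2 (pp c) hprob (A1 θ x) (A2 θ x) x (R1 θ x) (G1 θ x) ((x : ℝ) ^ (3 * θ)) hA1 h8 hR1 hx1
    (by positivity) (fun s n hs _ => k3 s n (k4.trans hs))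
  have s2a : (x : ℝ) ^ (3 * θ) * (2 * ((x : ℝ) / R1 θ x) * (1 + Real.log x)) ≤ η / 4 * x := by
    have e1 : (x : ℝ) / R1 θ x ≤ (x : ℝ) ^ (1 / 2 + 9 * θ) := by
      have e2 : (x : ℝ) / R1 θ x ≤ (x : ℝ) / (x : ℝ) ^ (1 / 2 - 9 * θ) :=
        div_le_div_of_nonneg_left hX.le (by positivity) hR
      refine e2.trans (le_of_eq ?_)
      have e3 : (x : ℝ) ^ (1 : ℝ) / (x : ℝ) ^ (1 / 2 - 9 * θ) = (x : ℝ) ^ (1 / 2 + 9 * θ) := by
        rw [← Real.rpow_sub hX]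
        congr 1
        ring
      rw [Real.rpow_one] at e3
      exact e3
    have e4 : 1 + Real.log x ≤ 2 * ((Real.log x) ^ 2 + 1) := by
      nlinarith [sq_nonneg (Real.log x - 1), sq_nonneg (Real.log x)]
    have e5 : (x : ℝ) ^ (3 * θ) * (x : ℝ) ^ (1 / 2 + 9 * θ) * (x : ℝ) ^ (1 / 2 - 12 * θ) = x := by
      rw [← Real.rpow_add hX, ← Real.rpow_add hX]
      have : 3 * θ + (1 / 2 + 9 * θ) + (1 / 2 - 12 * θ) = 1 := by ring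
      rw [this, Real.rpow_one]
    have e6 : 4 * ((Real.log x) ^ 2 + 1) ≤ η / 4 * (x : ℝ) ^ (1 / 2 - 12 * θ) := by
      have := mul_le_mul_of_nonneg_left k7 (show 0 ≤ η / 4 by linarith)
      calc 4 * ((Real.log x) ^ 2 + 1) = η / 4 * (16 / η * ((Real.log x) ^ 2 + 1)) := by
            field_simp
            norm_num
        _ ≤ _ := this
    calc (x : ℝ) ^ (3 * θ) * (2 * ((x : ℝ) / R1 θ x) * (1 + Real.log x))
        ≤ (x : ℝ) ^ (3 * θ) * (2 * ((x : ℝ) ^ (1 / 2 + 9 * θ)) * (2 * ((Real.log x) ^ 2 + 1))) := by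
          gcongr
      _ = (x : ℝ) ^ (3 * θ) * (x : ℝ) ^ (1 / 2 + 9 * θ) * (4 * ((Real.log x) ^ 2 + 1)) := by ring
      _ ≤ (x : ℝ) ^ (3 * θ) * (x : ℝ) ^ (1 / 2 + 9 * θ) * (η / 4 * (x : ℝ) ^ (1 / 2 - 12 * θ)) := by
          gcongr
      _ = η / 4 * ((x : ℝ) ^ (3 * θ) * (x : ℝ) ^ (1 / 2 + 9 * θ) * (x : ℝ) ^ (1 / 2 - 12 * θ)) := by
          ring
      _ = η / 4 * x := by rw [e5]
  have s2b : (x : ℝ) ^ (3 * θ) * (48 * (G1 θ x : ℝ) * (x : ℝ) ^ 2 / (A1 θ x : ℝ) ^ 2) ≤ η / 4 * x := by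
    have e0 : (48 * (G1 θ x : ℝ) * (x : ℝ) ^ 2 / (A1 θ x : ℝ) ^ 2) ≤
        48 * (2 * (x : ℝ) ^ θ) * (x : ℝ) ^ 2 / (x : ℝ) ^ (1 + 8 * θ) := by
      refine div_le_div₀ (by positivity) ?_ (by positivity) hA
      gcongr
    have e1 : (x : ℝ) ^ (3 * θ) * (48 * (2 * (x : ℝ) ^ θ) * (x : ℝ) ^ 2 / (x : ℝ) ^ (1 + 8 * θ)) =
        96 * (x : ℝ) ^ (1 - 4 * θ) := by
      have e2 : (x : ℝ) ^ (3 * θ) * (x : ℝ) ^ θ * (x : ℝ) ^ (2 : ℝ) / (x : ℝ) ^ (1 + 8 * θ) =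
          (x : ℝ) ^ (1 - 4 * θ) := by
        rw [← Real.rpow_add hX, ← Real.rpow_add hX, ← Real.rpow_sub hX]
        congr 1
        ring
      have e3 : (x : ℝ) ^ (2 : ℝ) = (x : ℝ) ^ 2 := by
        rw [← Real.rpow_natCast]
        norm_num
      rw [e3] at e2
      rw [← e2]
      ring
    have e4 : (x : ℝ) ^ (1 - 4 * θ) * (x : ℝ) ^ (4 * θ) = x := by
      rw [← Real.rpow_add hX]
      have : 1 - 4 * θ + 4 * θ = 1 := by ring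
      rw [this, Real.rpow_one]
    have e5 : 96 * (x : ℝ) ^ (1 - 4 * θ) ≤ η / 4 * x := by
      have e6 : (x : ℝ) ^ (1 - 4 * θ) * (384 / η) ≤ x := by
        calc (x : ℝ) ^ (1 - 4 * θ) * (384 / η) ≤ (x : ℝ) ^ (1 - 4 * θ) * (x : ℝ) ^ (4 * θ) := by gcongr
          _ = x := e4
      have e7 : η * ((x : ℝ) ^ (1 - 4 * θ) * (384 / η)) = 384 * (x : ℝ) ^ (1 - 4 * θ) := by field_simp
      have e8 := mul_le_mul_of_nonneg_left e6 hη.le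
      rw [e7] at e8
      linarith
    calc (x : ℝ) ^ (3 * θ) * (48 * (G1 θ x : ℝ) * (x : ℝ) ^ 2 / (A1 θ x : ℝ) ^ 2)
        ≤ (x : ℝ) ^ (3 * θ) * (48 * (2 * (x : ℝ) ^ θ) * (x : ℝ) ^ 2 / (x : ℝ) ^ (1 + 8 * θ)) := by
          gcongr
      _ = 96 * (x : ℝ) ^ (1 - 4 * θ) := e1
      _ ≤ η / 4 * x := e5
  have s2' : ∑ n ∈ Finset.Icc 1 x, T2 (pp c) (VV θ x) (R1 θ x) (G1 θ x) n ≤ η / 2 * x := by
    refine s2.trans ?_
    rw [mul_add]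
    linarith
  linarith

end Pool.Agent.Work.MP_7d0410_sp
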