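import Pool.Agent.Work.MP_7d0410_sp.Interface
import Pool.Agent.Work.MP_7d0410_cr.B_UPP

/-!
# The number of runs on average
-/

set_option autoImplicit false

namespace Pool.Agent.Work.MP_7d0410_sp

open Finset Filter MeasureTheory ProbabilityTheory
open Pool.Agent.Work.MP_7d0410_cr
open scoped Classical

lemma EAV_count (S : Finset ℕ) (x : ℕ) (hS : ∀ m ∈ S, 1 ≤ m) :
    ((runs S).filter (fun q => sm S q ≤ x)).card ≤ ∑ b ∈ S, x / b := by
  have h2 : ∑ b ∈ S, x / b = (S.sigma (fun b => Finset.Icc 1 (x / b))).card := by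
    rw [Finset.card_sigma]
    refine Finset.sum_congr rfl fun b _ => ?_
    rw [Nat.card_Icc, Nat.add_sub_cancel]
  rw [h2]
  apply Finset.card_le_card_of_injOn (fun q => ⟨q.1, len S q⟩)
  · intro q hq
    obtain ⟨g1, g2⟩ := Finset.mem_filter.1 hq
    have g5 := len_mul_le_sm S q
    have g6 := len_pos g1
    have g7 := hS q.1 (mem_runs.1 g1).1
    rw [Finset.mem_coe, Finset.mem_sigma, Finset.mem_Icc]
    refine ⟨(mem_runs.1 g1).1, g6, ?_⟩
    show len S q ≤ x / q.1
    rw [Nat.le_div_iff_mul_le (by omega)]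
    omega
  · intro q hq q' hq' h
    have e1 : q.1 = q'.1 := congrArg Sigma.fst h
    have e2 : len S q = len S q' := by
      rw [Sigma.mk.injEq] at h
      exact eq_of_heq h.2
    exact UPP_end S q q' (Finset.mem_filter.1 hq).1 (Finset.mem_filter.1 hq').1 e2 e1

lemma EAV_lim (c : ℝ) (hc : 0 < c) :
    ∀ᶠ x : ℕ in atTop, (x : ℝ) ^ (-(c / 2)) * (1 + Real.log x) ≤ 1 / 100 := by
  have h1 : Tendsto (fun x : ℝ => Real.log x / x ^ (c / 2)) atTop (nhds 0) :=
    (isLittleO_log_rpow_atTop (by linarith)).tendsto_div_nhds_zero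
  have h2 : Tendsto (fun x : ℝ => x ^ (-(c / 2))) atTop (nhds 0) :=
    tendsto_rpow_neg_atTop (by linarith)
  have h3 : Tendsto (fun x : ℝ => x ^ (-(c / 2)) + Real.log x / x ^ (c / 2)) atTop (nhds 0) := by
    have := h2.add h1
    rwa [add_zero] at this
  have h4 := (h3.comp tendsto_natCast_atTop_atTop).eventually (ge_mem_nhds
    (show (0 : ℝ) < 1 / 100 by norm_num))
  filter_upwards [h4, Filter.eventually_ge_atTop 1] with x hx hx1
  have hx0 : (0 : ℝ) < x := by exact_mod_cast hx1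
  have : (x : ℝ) ^ (-(c / 2)) * (1 + Real.log x) =
      (x : ℝ) ^ (-(c / 2)) + Real.log x / (x : ℝ) ^ (c / 2) := by
    rw [Real.rpow_neg hx0.le, mul_add, mul_one]
    congr 1
    exact inv_mul_eq_div _ _
  rw [this]
  exact hx

lemma EAV_harm (x : ℕ) : ∑ b ∈ Finset.Icc 1 x, 1 / (b : ℝ) ≤ 1 + Real.log x := by
  have h := harmonic_le_one_add_log x
  rw [harmonic_eq_sum_Icc] at h
  push_cast at h
  simpa [one_div] using h

theorem p_EAV (hM : Stmt_MRT) : Stmt_EAV := by
  intro c hc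
  have hM' : ∀ᶠ x : ℕ in atTop,
    ∑ p ∈ (Finset.Icc (Nat.sqrt x) x).filter Nat.Prime, 1 / (p : ℝ) ≤ 97 / 100 := hM
  filter_upwards [hM', EAV_lim c hc, Filter.eventually_ge_atTop 1] with x hx1 hx2 hx3
  intro a d hax
  have ha : 1 ≤ a := by
    rcases Nat.eq_zero_or_pos a with h | h
    · subst h
      simp at hax
      omega
    · exact h
  have hx0 : (0 : ℝ) < x := by exact_mod_cast hx3
  have hpp := prob_pp hc
  have h1 : Ex (pp c) (Finset.Icc a d)
      (fun S => (((runs S).filter (fun q => sm S q ≤ x)).card : ℝ)) ≤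
      Ex (pp c) (Finset.Icc a d) (fun S => ∑ b ∈ S, ((x / b : ℕ) : ℝ)) := by
    refine Ex_mono hpp fun S hS => ?_
    have := EAV_count S x (fun m hm => by
      have := (Finset.mem_Icc.1 (hS hm)).1
      omega)
    exact_mod_cast this
  rw [Ex_sum_mem] at h1
  refine h1.trans ?_
  set I : Finset ℕ := (Finset.Icc a d).filter (fun b => b ≤ x) with hI
  have h2 : ∑ b ∈ Finset.Icc a d, pp c b * ((x / b : ℕ) : ℝ) ≤
      ∑ b ∈ I, pp c b * (x * (1 / (b : ℝ))) := by
    rw [hI, Finset.sum_filter]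
    refine Finset.sum_le_sum fun b hb => ?_
    have hb1 := (Finset.mem_Icc.1 hb).1
    split_ifs with hbx
    · refine mul_le_mul_of_nonneg_left ?_ (pp_nonneg c b)
      have := @Nat.cast_div_le ℝ _ _ _ x b
      rw [mul_one_div]
      exact this
    · rw [Nat.div_eq_of_lt (by omega)]
      simp
  refine h2.trans ?_
  have hImem : ∀ b ∈ I, x ≤ b ^ 2 ∧ b ≤ x ∧ 1 ≤ b := by
    intro b hb
    obtain ⟨h3, h4⟩ := Finset.mem_filter.1 hb
    have h5 := (Finset.mem_Icc.1 h3).1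
    refine ⟨hax.trans (Nat.pow_le_pow_left h5 2), h4, by omega⟩
  rw [← Finset.sum_filter_add_sum_filter_not I Nat.Prime]
  have h3 : ∑ b ∈ I.filter Nat.Prime, pp c b * (x * (1 / (b : ℝ))) ≤ 97 / 100 * x := by
    have h4 : ∑ b ∈ I.filter Nat.Prime, pp c b * (x * (1 / (b : ℝ))) =
        x * ∑ b ∈ I.filter Nat.Prime, 1 / (b : ℝ) := by
      rw [Finset.mul_sum]
      refine Finset.sum_congr rfl fun b hb => ?_
      rw [pp_prime (Finset.mem_filter.1 hb).2, one_mul]
    have h5 : ∑ b ∈ I.filter Nat.Prime, 1 / (b : ℝ) ≤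
        ∑ p ∈ (Finset.Icc (Nat.sqrt x) x).filter Nat.Prime, 1 / (p : ℝ) := by
      refine Finset.sum_le_sum_of_subset_of_nonneg ?_ (fun b _ _ => by positivity)
      intro b hb
      obtain ⟨h6, h7⟩ := Finset.mem_filter.1 hb
      obtain ⟨g1, g2, g3⟩ := hImem b h6
      refine Finset.mem_filter.2 ⟨Finset.mem_Icc.2 ⟨?_, g2⟩, h7⟩
      have := Nat.sqrt_le_sqrt g1
      rwa [Nat.sqrt_eq'] at this
    rw [h4]
    have := mul_le_mul_of_nonneg_left (h5.trans hx1) hx0.le
    linarith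
  have h4 : ∑ b ∈ I.filter (fun b => ¬ b.Prime), pp c b * (x * (1 / (b : ℝ))) ≤ 1 / 100 * x := by
    have h5 : ∑ b ∈ I.filter (fun b => ¬ b.Prime), pp c b * (x * (1 / (b : ℝ))) ≤
        ∑ b ∈ I.filter (fun b => ¬ b.Prime), (x : ℝ) ^ (-(c / 2)) * (x * (1 / (b : ℝ))) := by
      refine Finset.sum_le_sum fun b hb => ?_
      obtain ⟨h6, h7⟩ := Finset.mem_filter.1 hb
      obtain ⟨g1, g2, g3⟩ := hImem b h6
      refine mul_le_mul_of_nonneg_right ?_ (by positivity)
      rw [pp_not_prime h7]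
      have hb0 : (0 : ℝ) < b := by exact_mod_cast g3
      have e1 : (b : ℝ) ^ (-c) = ((b : ℝ) ^ 2) ^ (-(c / 2)) := by
        rw [← Real.rpow_natCast (b : ℝ) 2, ← Real.rpow_mul hb0.le]
        congr 1
        push_cast
        ring
      rw [e1]
      refine Real.rpow_le_rpow_of_nonpos hx0 ?_ (by linarith)
      exact_mod_cast g1
    refine h5.trans ?_
    have h6 : ∑ b ∈ I.filter (fun b => ¬ b.Prime), (x : ℝ) ^ (-(c / 2)) * (x * (1 / (b : ℝ))) =
        (x : ℝ) ^ (-(c / 2)) * (∑ b ∈ I.filter (fun b => ¬ b.Prime), 1 / (b : ℝ)) * x := by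
      rw [Finset.mul_sum, Finset.sum_mul]
      refine Finset.sum_congr rfl fun b _ => ?_
      ring
    have h7 : ∑ b ∈ I.filter (fun b => ¬ b.Prime), 1 / (b : ℝ) ≤ 1 + Real.log x := by
      refine le_trans ?_ (EAV_harm x)
      refine Finset.sum_le_sum_of_subset_of_nonneg ?_ (fun b _ _ => by positivity)
      intro b hb
      obtain ⟨g1, g2, g3⟩ := hImem b (Finset.mem_filter.1 hb).1
      exact Finset.mem_Icc.2 ⟨g3, g2⟩
    rw [h6]
    refine mul_le_mul_of_nonneg_right ?_ hx0.le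
    refine le_trans (mul_le_mul_of_nonneg_left h7 (Real.rpow_nonneg hx0.le _)) hx2
  linarith

end Pool.Agent.Work.MP_7d0410_sp
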