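import Pool.Agent.Work.MP_7d0410_sp.Interface
import Pool.Agent.Work.MP_b0c12c_nt_helper41.Mert

/-! Block MRT: Mertens' theorem for the primes between the square root and `x`. -/

set_option autoImplicit false

open Finset Filter

namespace Pool.Agent.Work.MP_7d0410_sp

open Pool.Agent.Work.MP_7d0410_cr

theorem p_MRT : Stmt_MRT := by
  obtain ⟨C, hC0, hC⟩ := Pool.Agent.Work.MP_b0c12c_nt_helper41.mertens2
  have h1 : Tendsto (fun n : ℕ => Real.log n) atTop atTop :=
    Real.tendsto_log_atTop.comp tendsto_natCast_atTop_atTop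
  obtain ⟨N, hN⟩ := eventually_atTop.1 (h1.eventually_ge_atTop (max 1 (10 * C)))
  refine eventually_atTop.2 ⟨(N + 20) ^ 2, fun x hx => ?_⟩
  have hs1 : N + 20 ≤ Nat.sqrt x := Nat.le_sqrt'.2 hx
  have hs2 : x < (Nat.sqrt x + 1) ^ 2 := Nat.lt_succ_sqrt' x
  have hs3 : Nat.sqrt x ≤ x := Nat.sqrt_le_self x
  obtain ⟨u, hu⟩ : ∃ u, Nat.sqrt x = u + 1 := ⟨Nat.sqrt x - 1, by omega⟩
  rw [hu] at hs1 hs2 hs3
  have key := hC u x (by omega) (by omega)
  have e : Finset.Icc (Nat.sqrt x) x = Finset.Ioc u x := by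
    rw [hu]
    ext a
    simp only [Finset.mem_Icc, Finset.mem_Ioc]
    omega
  rw [e]
  have hlog := hN u (by omega)
  have hlog1 : 1 ≤ Real.log u := le_trans (le_max_left _ _) hlog
  have hlog2 : 10 * C ≤ Real.log u := le_trans (le_max_right _ _) hlog
  have hu18 : (18 : ℝ) ≤ u := by
    have : 18 ≤ u := by omega
    exact_mod_cast this
  have hup : (0 : ℝ) < u := by linarith
  have hxp : (0 : ℝ) < x := by
    have : 0 < x := by omega
    exact_mod_cast this
  have hx2 : (x : ℝ) ≤ ((u : ℝ) + 2) ^ 2 := by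
    have : x ≤ (u + 2) ^ 2 := by
      have h : (u + 1 + 1) ^ 2 = (u + 2) ^ 2 := rfl
      omega
    exact_mod_cast this
  have hl1 : Real.log x ≤ 2 * Real.log ((u : ℝ) + 2) := by
    have := Real.log_le_log hxp hx2
    rwa [Real.log_pow, Nat.cast_ofNat] at this
  have hl2 : Real.log ((u : ℝ) + 2) ≤ Real.log u + 2 / u := by
    have h3 : (u : ℝ) + 2 = u * (1 + 2 / u) := by field_simp
    rw [h3, Real.log_mul (by positivity) (by positivity)]
    have := Real.log_le_sub_one_of_pos (show (0 : ℝ) < 1 + 2 / u by positivity)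
    linarith
  have hl3 : 2 / (u : ℝ) ≤ 1 / 9 := by
    rw [div_le_div_iff₀ hup (by norm_num)]
    linarith
  have hl4 : Real.log x ≤ 20 / 9 * Real.log u := by
    linarith
  have hlup : 0 < Real.log u := by linarith
  have hux : Real.log u ≤ Real.log x := by
    apply Real.log_le_log hup
    have : u ≤ x := by omega
    exact_mod_cast this
  have hlxp : 0 < Real.log x := by linarith
  have hl5 : Real.log (Real.log x) ≤ Real.log (20 / 9) + Real.log (Real.log u) := by
    rw [← Real.log_mul (by norm_num) (by positivity)]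
    exact Real.log_le_log hlxp hl4
  have hl6 : Real.log (20 / 9 : ℝ) ≤ 0.81 := by
    have h3 : (20 / 9 : ℝ) = 2 * (10 / 9) := by norm_num
    rw [h3, Real.log_mul (by norm_num) (by norm_num)]
    have h4 := Real.log_two_lt_d9
    have h5 := Real.log_le_sub_one_of_pos (show (0 : ℝ) < 10 / 9 by norm_num)
    norm_num at h4 h5 ⊢
    linarith
  have hl7 : C / Real.log u ≤ 1 / 10 := by
    rw [div_le_div_iff₀ hlup (by norm_num)]
    linarith
  have key2 := (abs_le.1 key).2
  norm_num at hl6
  linarith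

end Pool.Agent.Work.MP_7d0410_sp
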