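import Pool.Agent.Work.MP_7d0410_sp.Interface

/-!
# Block EDA: the probability of `k` good runs is bounded below for most `n` (helper33)
-/

set_option autoImplicit false

namespace Pool.Agent.Work.MP_7d0410_sp

open Finset Filter MeasureTheory ProbabilityTheory
open Pool.Agent.Work.MP_7d0410_cr
open scoped Classical

lemma EDA_A1 {θ : ℝ} (hθ : 0 < θ) {x : ℕ} (hx : 1 ≤ x) : x ≤ A1 θ x ^ 2 := by
  have hx1 : (1 : ℝ) ≤ x := by exact_mod_cast hx
  have h1 : (x : ℝ) ^ (1 / 2 : ℝ) ≤ A1 θ x := by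
    refine le_trans ?_ (Nat.le_ceil _)
    exact Real.rpow_le_rpow_of_exponent_le hx1 (by linarith)
  have h2 : ((x : ℝ) ^ (1 / 2 : ℝ)) ^ 2 = x := by
    rw [← Real.rpow_natCast, ← Real.rpow_mul (by linarith)]
    norm_num
  have h3 : ((x : ℝ) ^ (1 / 2 : ℝ)) ^ 2 ≤ (A1 θ x : ℝ) ^ 2 :=
    pow_le_pow_left₀ (by positivity) h1 2
  rw [h2] at h3
  exact_mod_cast h3

/-- the sum of the mean values -/
lemma EDA_sum_HH {p : ℕ → ℝ} (hp : Prob p) (U : Finset ℕ) (R G x : ℕ) :
    ∑ n ∈ Finset.Icc 1 x, HH p U R G n ≤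
      Ex p U (fun S => (((runs S).filter (fun q => sm S q ≤ x)).card : ℝ)) := by
  unfold HH
  rw [← Ex_sum]
  refine Ex_mono hp fun S _ => ?_
  have h : ((Finset.Icc 1 x).biUnion (fun n => gr R G S n)).card =
      ∑ n ∈ Finset.Icc 1 x, (gr R G S n).card := by
    refine Finset.card_biUnion fun n _ n' _ hne => ?_
    refine Finset.disjoint_left.2 ?_
    intro q hq hq'
    exact hne ((Finset.mem_filter.1 hq).2.symm.trans (Finset.mem_filter.1 hq').2)
  have h2 : ((Finset.Icc 1 x).biUnion (fun n => gr R G S n)).card ≤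
      ((runs S).filter (fun q => sm S q ≤ x)).card := by
    refine Finset.card_le_card fun q hq => ?_
    obtain ⟨n, hn, hr⟩ := Finset.mem_biUnion.1 hq
    obtain ⟨h3, h4⟩ := Finset.mem_filter.1 hr
    have h5 := (Finset.mem_filter.1 h3).1
    refine Finset.mem_filter.2 ⟨h5, ?_⟩
    rw [h4]
    exact (Finset.mem_Icc.1 hn).2
  rw [h] at h2
  unfold cnt
  exact_mod_cast h2

lemma EDA_T1_nonneg {p : ℕ → ℝ} (hp : Prob p) (U : Finset ℕ) (R G n : ℕ) : 0 ≤ T1 p U R G n :=
  Ex_nonneg hp fun _ _ => Finset.sum_nonneg fun _ _ => Nat.cast_nonneg _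

lemma EDA_T2_nonneg {p : ℕ → ℝ} (hp : Prob p) (U : Finset ℕ) (R G n : ℕ) : 0 ≤ T2 p U R G n :=
  Finset.sum_nonneg fun _ _ => Finset.sum_nonneg fun _ _ =>
    mul_nonneg (Pb_nonneg hp _ _) (Pb_nonneg hp _ _)

/-- Markov's inequality for a finite sum -/
lemma EDA_markov (x : ℕ) (f : ℕ → ℝ) (hf : ∀ n, 0 ≤ f n) (t M : ℝ) (ht : 0 < t)
    (h : ∑ n ∈ Finset.Icc 1 x, f n ≤ t * M) :
    (((Finset.Icc 1 x).filter (fun n => t < f n)).card : ℝ) ≤ M := by
  have h1 : (((Finset.Icc 1 x).filter (fun n => t < f n)).card : ℝ) * t ≤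
      ∑ n ∈ Finset.Icc 1 x, f n := by
    rw [← nsmul_eq_mul]
    refine le_trans (Finset.card_nsmul_le_sum _ f t ?_) ?_
    · intro n hn
      exact (Finset.mem_filter.1 hn).2.le
    · exact Finset.sum_le_sum_of_subset_of_nonneg (Finset.filter_subset _ _) fun n _ _ => hf n
  have h2 : (((Finset.Icc 1 x).filter (fun n => t < f n)).card : ℝ) * t ≤ M * t := by linarith
  exact le_of_mul_le_mul_right h2 ht

/-- the probabilities of small values -/
lemma EDA_range {p : ℕ → ℝ} (hp : Prob p) (U : Finset ℕ) (R G n K : ℕ) (hK : 1 ≤ K) :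
    1 - HH p U R G n / K ≤ ∑ j ∈ Finset.range K, Pb p U (fun S => cnt R G S n = j) := by
  have hK0 : (0 : ℝ) < K := by exact_mod_cast hK
  have e1 : ∑ j ∈ Finset.range K, Pb p U (fun S => cnt R G S n = j) =
      Ex p U (fun S => ∑ j ∈ Finset.range K, if cnt R G S n = j then (1 : ℝ) else 0) := by
    rw [Ex_sum]
    exact Finset.sum_congr rfl fun j _ => Pb_eq U _
  have e2 : HH p U R G n / K = Ex p U (fun S => (cnt R G S n : ℝ) * (1 / K)) := by
    rw [Ex_mul_const]
    unfold HH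
    ring
  have e3 : (1 : ℝ) ≤ Ex p U (fun S => (∑ j ∈ Finset.range K, if cnt R G S n = j then (1 : ℝ) else 0) +
      (cnt R G S n : ℝ) * (1 / K)) := by
    refine const_le_Ex hp fun S _ => ?_
    rcases lt_or_ge (cnt R G S n) K with h | h
    · have h1 : (if cnt R G S n = cnt R G S n then (1 : ℝ) else 0) ≤
          ∑ j ∈ Finset.range K, if cnt R G S n = j then (1 : ℝ) else 0 :=
        Finset.single_le_sum (f := fun j => if cnt R G S n = j then (1 : ℝ) else 0)
          (fun j _ => by split_ifs <;> norm_num) (Finset.mem_range.2 h)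
      rw [if_pos rfl] at h1
      have h2 : 0 ≤ (cnt R G S n : ℝ) * (1 / K) := by positivity
      linarith
    · have h1 : 0 ≤ ∑ j ∈ Finset.range K, if cnt R G S n = j then (1 : ℝ) else 0 :=
        Finset.sum_nonneg fun j _ => by split_ifs <;> norm_num
      have h2 : (K : ℝ) ≤ cnt R G S n := by exact_mod_cast h
      have h3 : 1 ≤ (cnt R G S n : ℝ) * (1 / K) := by
        rw [mul_one_div, le_div_iff₀ hK0, one_mul]
        exact h2
      linarith
  rw [Ex_add] at e3
  rw [e1, e2]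
  linarith

theorem p_EDA (h1 : Stmt_HMO) (h2 : Stmt_CO) (h3 : Stmt_EAV) (h4 : Stmt_MEC) (h5 : Stmt_PKL) :
    Stmt_EDA := by
  intro c θ hPar k
  have hp : Prob (pp c) := prob_pp hPar.c0
  have hθ : 0 < θ := by
    rw [hPar.th]
    have := hPar.c1
    linarith
  obtain ⟨c1, hc1, hHMO⟩ := h1 c θ hPar
  obtain ⟨ρ, e, hρ, he, hPKL⟩ := h5 c1 (max c1 1000) k hc1 (le_max_left _ _)
  refine ⟨ρ, hρ, ?_⟩
  filter_upwards [hHMO (1 / 1000) (by norm_num), h2 c θ hPar (e / 1000) (by positivity),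
    h3 c hPar.c0, eventually_ge_atTop 1] with x e1 e2 e3 e4
  have hx0 : (0 : ℝ) ≤ x := Nat.cast_nonneg x
  set V := VV θ x with hV
  set R := R1 θ x with hR
  set G := G1 θ x with hG
  have hHH0 : ∀ n, 0 ≤ HH (pp c) V R G n := fun n =>
    Ex_nonneg hp fun _ _ => Nat.cast_nonneg _
  -- the second set
  have hB2 : (((Finset.Icc 1 x).filter (fun n => (1000 : ℝ) < HH (pp c) V R G n)).card : ℝ) ≤
      x / 1000 := by
    refine EDA_markov x _ hHH0 1000 (x / 1000) (by norm_num) ?_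
    have h := e3 (A1 θ x) (A2 θ x) (EDA_A1 hθ e4)
    have h' := EDA_sum_HH hp V R G x
    refine h'.trans ?_
    refine h.trans ?_
    linarith
  -- the third set
  have hB3 : (((Finset.Icc 1 x).filter
      (fun n => e < T1 (pp c) V R G n + T2 (pp c) V R G n)).card : ℝ) ≤ x / 1000 := by
    refine EDA_markov x _ (fun n => add_nonneg (EDA_T1_nonneg hp _ _ _ _)
      (EDA_T2_nonneg hp _ _ _ _)) e (x / 1000) he ?_
    refine e2.trans (le_of_eq ?_)
    ring
  -- the union
  have hsub : (Finset.Icc 1 x).filter (fun n => x ≤ 1000 * n ∧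
      Pb (pp c) V (fun S => cnt R G S n = k) < ρ) ⊆
      ((Finset.Icc 1 x).filter (fun n => x ≤ 1000 * n ∧ HH (pp c) V R G n < c1) ∪
        (Finset.Icc 1 x).filter (fun n => (1000 : ℝ) < HH (pp c) V R G n)) ∪
        (Finset.Icc 1 x).filter (fun n => e < T1 (pp c) V R G n + T2 (pp c) V R G n) := by
    intro n hn
    obtain ⟨hn1, hn2, hn3⟩ := Finset.mem_filter.1 hn
    by_contra hnot
    rw [Finset.mem_union, Finset.mem_union, not_or, not_or] at hnot
    obtain ⟨⟨n1, n2⟩, n3⟩ := hnot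
    have m1 : c1 ≤ HH (pp c) V R G n := by
      by_contra hc
      exact n1 (Finset.mem_filter.2 ⟨hn1, hn2, not_le.1 hc⟩)
    have m2 : HH (pp c) V R G n ≤ 1000 := by
      by_contra hc
      exact n2 (Finset.mem_filter.2 ⟨hn1, not_le.1 hc⟩)
    have m3 : T1 (pp c) V R G n + T2 (pp c) V R G n ≤ e := by
      by_contra hc
      exact n3 (Finset.mem_filter.2 ⟨hn1, not_le.1 hc⟩)
    have hfin := hPKL (fun j => Pb (pp c) V (fun S => cnt R G S n = j)) (HH (pp c) V R G n)
      (fun j => Pb_nonneg hp _ _) m1 (m2.trans (le_max_right _ _))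
      (fun j => (h4 (pp c) hp V R G n j).trans m3)
      (fun K hK => EDA_range hp V R G n K hK)
    exact absurd hn3 (not_lt.2 hfin)
  have hcard := Finset.card_le_card hsub
  have hcard2 := hcard.trans ((Finset.card_union_le _ _).trans
    (Nat.add_le_add_right (Finset.card_union_le _ _) _))
  have hcard3 : (((Finset.Icc 1 x).filter (fun n => x ≤ 1000 * n ∧
      Pb (pp c) V (fun S => cnt R G S n = k) < ρ)).card : ℝ) ≤
      ((Finset.Icc 1 x).filter (fun n => x ≤ 1000 * n ∧ HH (pp c) V R G n < c1)).card +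
        ((Finset.Icc 1 x).filter (fun n => (1000 : ℝ) < HH (pp c) V R G n)).card +
        ((Finset.Icc 1 x).filter
          (fun n => e < T1 (pp c) V R G n + T2 (pp c) V R G n)).card := by
    exact_mod_cast hcard2
  refine hcard3.trans ?_
  linarith

end Pool.Agent.Work.MP_7d0410_sp
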