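import Pool.Agent.Work.MP_7d0410_sp.Interface

/-!
# Moser's problem in Cramér's random model: the approximate Mecke identity (block MEC)
-/

set_option autoImplicit false

namespace Pool.Agent.Work.MP_7d0410_sp

open Finset Filter MeasureTheory ProbabilityTheory
open Pool.Agent.Work.MP_7d0410_cr
open scoped Classical Topology

/-- the number of good runs with the sum `n` whose hull does not meet the hull of `q` -/
noncomputable def MEC_F (R G n : ℕ) (q : ℕ × ℕ) (S : Finset ℕ) : ℕ :=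
  ((gr R G S n).filter (fun q' => ¬ meet q q')).card

lemma MEC_gr_sub {R G n : ℕ} {S U : Finset ℕ} (h : S ⊆ U) : gr R G S n ⊆ U ×ˢ U := by
  intro q hq
  obtain ⟨h1, h2, h3⟩ := mem_runs.1 (mem_good.1 (mem_gr.1 hq).1).1
  exact Finset.mem_product.2 ⟨h h1, h h2⟩

/-- sum of indicators -/
lemma MEC_sum_ind (W A : Finset (ℕ × ℕ)) (h : A ⊆ W) (f : ℕ × ℕ → ℝ) :
    ∑ q ∈ W, (if q ∈ A then 1 else 0) * f q = ∑ q ∈ A, f q := by
  rw [← Finset.sum_subset h (f := fun q => (if q ∈ A then 1 else 0) * f q)]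
  · exact Finset.sum_congr rfl fun q hq => by rw [if_pos hq, one_mul]
  · intro q _ hq
    rw [if_neg hq, zero_mul]

lemma MEC_card (W A : Finset (ℕ × ℕ)) (h : A ⊆ W) :
    ∑ q ∈ W, (if q ∈ A then (1 : ℝ) else 0) = (A.card : ℝ) := by
  have := MEC_sum_ind W A h (fun _ => 1)
  simp only [mul_one] at this
  rw [this]
  simp

lemma MEC_split (R G n : ℕ) (S : Finset ℕ) (q : ℕ × ℕ) (hq : q ∈ gr R G S n) :
    cnt R G S n = 1 + ((gr R G S n).filter (fun q' => q' ≠ q ∧ meet q q')).card + MEC_F R G n q S := by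
  have hm : meet q q := by
    obtain ⟨h1, h2, h3⟩ := mem_runs.1 (mem_good.1 (mem_gr.1 hq).1).1
    exact ⟨h3, h3⟩
  unfold cnt MEC_F
  rw [← Finset.card_filter_add_card_filter_not (s := gr R G S n) (fun q' => meet q q')]
  congr 1
  have : (gr R G S n).filter (fun q' => meet q q') =
      insert q ((gr R G S n).filter (fun q' => q' ≠ q ∧ meet q q')) := by
    ext q'
    simp only [Finset.mem_filter, Finset.mem_insert]
    constructor
    · rintro ⟨h1, h2⟩
      by_cases h : q' = q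
      · exact Or.inl h
      · exact Or.inr ⟨h1, h, h2⟩
    · rintro (h | ⟨h1, _, h2⟩)
      · subst h
        exact ⟨hq, hm⟩
      · exact ⟨h1, h2⟩
  rw [this, Finset.card_insert_of_notMem (by simp)]
  ring

lemma MEC_ind (a b c d : ℕ) (h : a = 1 + c + b) :
    |(if a = d + 1 then (1 : ℝ) else 0) - (if b = d then (1 : ℝ) else 0)| ≤ c := by
  by_cases hc : c = 0
  · subst hc
    have : a = d + 1 ↔ b = d := by omega
    by_cases hb : b = d
    · rw [if_pos (this.2 hb), if_pos hb]; simp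
    · rw [if_neg (fun h => hb (this.1 h)), if_neg hb]; simp
  · have : (1 : ℝ) ≤ c := by exact_mod_cast Nat.one_le_iff_ne_zero.2 hc
    refine le_trans ?_ this
    rw [abs_le]
    constructor <;> split_ifs <;> norm_num

lemma MEC_ind2 (a b c d : ℕ) (h : a = c + b) :
    |(if b = d then (1 : ℝ) else 0) - (if a = d then (1 : ℝ) else 0)| ≤ c := by
  by_cases hc : c = 0
  · subst hc
    have : a = b := by omega
    rw [this]; simp
  · have : (1 : ℝ) ≤ c := by exact_mod_cast Nat.one_le_iff_ne_zero.2 hc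
    refine le_trans ?_ this
    rw [abs_le]
    constructor <;> split_ifs <;> norm_num

/-- the event that `q` is a good run depends only on the elements in its hull -/
lemma MEC_loc (R G n : ℕ) (U S : Finset ℕ) (q : ℕ × ℕ) (hS : S ⊆ U) :
    q ∈ gr R G S n ↔ q ∈ gr R G (S ∩ U.filter (fun m => q.1 ≤ m ∧ m ≤ q.2)) n := by
  have hseg : seg (S ∩ U.filter (fun m => q.1 ≤ m ∧ m ≤ q.2)) q = seg S q := by
    ext m
    simp only [mem_seg, Finset.mem_inter, Finset.mem_filter]
    constructor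
    · rintro ⟨⟨h1, _⟩, h2⟩; exact ⟨h1, h2⟩
    · rintro ⟨h1, h2⟩; exact ⟨⟨h1, hS h1, h2⟩, h2⟩
  have hrun : q ∈ runs S ↔ q ∈ runs (S ∩ U.filter (fun m => q.1 ≤ m ∧ m ≤ q.2)) := by
    simp only [mem_runs, Finset.mem_inter, Finset.mem_filter]
    constructor
    · rintro ⟨h1, h2, h3⟩
      exact ⟨⟨h1, hS h1, le_rfl, h3⟩, ⟨h2, hS h2, h3, le_rfl⟩, h3⟩
    · rintro ⟨h1, h2, h3⟩
      exact ⟨h1.1, h2.1, h3⟩
  rw [mem_gr, mem_gr, mem_good, mem_good, ← hrun]
  unfold len sm
  rw [hseg]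

/-- the number of good runs disjoint from `q` depends only on the elements outside the hull -/
lemma MEC_out (R G n : ℕ) (U S : Finset ℕ) (q : ℕ × ℕ) :
    MEC_F R G n q S = MEC_F R G n q (S \ U.filter (fun m => q.1 ≤ m ∧ m ≤ q.2)) := by
  unfold MEC_F
  congr 1
  ext q'
  rw [Finset.mem_filter, Finset.mem_filter]
  refine and_congr_left fun hm => ?_
  have hout : ∀ m, q'.1 ≤ m → m ≤ q'.2 → ¬ (q.1 ≤ m ∧ m ≤ q.2) := by
    intro m h1 h2 h3
    exact hm ⟨h3.1.trans h2, h1.trans h3.2⟩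
  have hseg : seg (S \ U.filter (fun m => q.1 ≤ m ∧ m ≤ q.2)) q' = seg S q' := by
    ext m
    simp only [mem_seg, Finset.mem_sdiff, Finset.mem_filter]
    constructor
    · rintro ⟨⟨h1, _⟩, h2⟩; exact ⟨h1, h2⟩
    · rintro ⟨h1, h2⟩
      exact ⟨⟨h1, fun h => hout m h2.1 h2.2 h.2⟩, h2⟩
  have hrun : q' ∈ runs S ↔ q' ∈ runs (S \ U.filter (fun m => q.1 ≤ m ∧ m ≤ q.2)) := by
    simp only [mem_runs, Finset.mem_sdiff, Finset.mem_filter]
    constructor
    · rintro ⟨h1, h2, h3⟩
      exact ⟨⟨h1, fun h => hout _ le_rfl h3 h.2⟩, ⟨h2, fun h => hout _ h3 le_rfl h.2⟩, h3⟩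
    · rintro ⟨h1, h2, h3⟩
      exact ⟨h1.1, h2.1, h3⟩
  rw [mem_gr, mem_gr, mem_good, mem_good, ← hrun]
  unfold len sm
  rw [hseg]

lemma MEC_prod {p : ℕ → ℝ} (U : Finset ℕ) (R G n k : ℕ) (q : ℕ × ℕ) :
    Ex p U (fun S => (if q ∈ gr R G S n then 1 else 0) * (if MEC_F R G n q S = k then 1 else 0)) =
      gg p U R G n q * Pb p U (fun S => MEC_F R G n q S = k) := by
  set V := U.filter (fun m => q.1 ≤ m ∧ m ≤ q.2) with hV
  have hVU : V ⊆ U := Finset.filter_subset _ _
  have h := Ex_indep (p := p) hVU (fun T => if q ∈ gr R G T n then 1 else 0)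
    (fun T => if MEC_F R G n q T = k then 1 else 0)
  have e1 : Ex p U (fun S => (if q ∈ gr R G S n then 1 else 0) * (if MEC_F R G n q S = k then 1 else 0)) =
      Ex p U (fun S => (if q ∈ gr R G (S ∩ V) n then 1 else 0) *
        (if MEC_F R G n q (S \ V) = k then 1 else 0)) := by
    refine Ex_congr fun S hS => ?_
    rw [← MEC_out R G n U S q]
    simp only [MEC_loc R G n U S q hS, hV]
  have e2 : gg p U R G n q = Ex p V (fun T => if q ∈ gr R G T n then 1 else 0) := by
    rw [← Ex_inter (p := p) hVU]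
    unfold gg Pb
    refine Ex_congr fun S hS => ?_
    simp only [MEC_loc R G n U S q hS, hV]
  have e3 : Pb p U (fun S => MEC_F R G n q S = k) =
      Ex p (U \ V) (fun T => if MEC_F R G n q T = k then 1 else 0) := by
    rw [← Ex_sdiff (p := p) hVU, Pb_eq]
    refine Ex_congr fun S _ => ?_
    rw [← MEC_out R G n U S q]
  rw [e1, e2, e3]
  exact h

lemma MEC_HH {p : ℕ → ℝ} (U : Finset ℕ) (R G n : ℕ) : HH p U R G n = ∑ q ∈ U ×ˢ U, gg p U R G n q := by
  unfold HH gg
  simp only [Pb_eq]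
  rw [← Ex_sum]
  refine Ex_congr fun S hS => ?_
  have := MEC_card (U ×ˢ U) (gr R G S n) (MEC_gr_sub hS)
  unfold cnt
  rw [← this]

lemma MEC_gg_nonneg {p : ℕ → ℝ} (hp : Prob p) (U : Finset ℕ) (R G n : ℕ) (q : ℕ × ℕ) : 0 ≤ gg p U R G n q := Pb_nonneg hp _ _

theorem p_MEC : Stmt_MEC := by
  intro p hp U R G n k
  -- first comparison
  have h1 : |((k : ℝ) + 1) * Pb p U (fun S => cnt R G S n = k + 1) -
      ∑ q ∈ U ×ˢ U, gg p U R G n q * Pb p U (fun S => MEC_F R G n q S = k)| ≤ T1 p U R G n := by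
    have e1 : ((k : ℝ) + 1) * Pb p U (fun S => cnt R G S n = k + 1) =
        Ex p U (fun S => ∑ q ∈ gr R G S n, if cnt R G S n = k + 1 then (1 : ℝ) else 0) := by
      rw [Pb_eq, ← Ex_const_mul]
      refine Ex_congr fun S _ => ?_
      rw [Finset.sum_const, nsmul_eq_mul]
      by_cases h : cnt R G S n = k + 1
      · rw [if_pos h]
        have : (gr R G S n).card = k + 1 := h
        rw [this]
        push_cast
        ring
      · rw [if_neg h, mul_zero, mul_zero]
    have e2 : ∑ q ∈ U ×ˢ U, gg p U R G n q * Pb p U (fun S => MEC_F R G n q S = k) =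
        Ex p U (fun S => ∑ q ∈ gr R G S n, if MEC_F R G n q S = k then (1 : ℝ) else 0) := by
      have : ∀ q ∈ U ×ˢ U, gg p U R G n q * Pb p U (fun S => MEC_F R G n q S = k) =
          Ex p U (fun S => (if q ∈ gr R G S n then 1 else 0) *
            (if MEC_F R G n q S = k then 1 else 0)) := fun q _ => (MEC_prod U R G n k q).symm
      rw [Finset.sum_congr rfl this, ← Ex_sum]
      refine Ex_congr fun S hS => ?_
      exact MEC_sum_ind _ _ (MEC_gr_sub hS) _
    rw [e1, e2, ← Ex_sub]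
    refine (abs_Ex_le hp _ _).trans ?_
    unfold T1
    refine Ex_mono hp fun S _ => ?_
    rw [← Finset.sum_sub_distrib]
    refine (Finset.abs_sum_le_sum_abs _ _).trans (Finset.sum_le_sum fun q hq => ?_)
    exact MEC_ind _ _ _ _ (MEC_split R G n S q hq)
  -- second comparison
  have h2 : ∀ q ∈ U ×ˢ U, |Pb p U (fun S => MEC_F R G n q S = k) - Pb p U (fun S => cnt R G S n = k)| ≤
      ∑ q' ∈ (U ×ˢ U).filter (fun q' => meet q q'), gg p U R G n q' := by
    intro q _
    have e3 : ∑ q' ∈ (U ×ˢ U).filter (fun q' => meet q q'), gg p U R G n q' =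
        Ex p U (fun S => (((gr R G S n).filter (fun q' => meet q q')).card : ℝ)) := by
      unfold gg
      simp only [Pb_eq]
      rw [← Ex_sum]
      refine Ex_congr fun S hS => ?_
      have hsub : (gr R G S n).filter (fun q' => meet q q') ⊆ (U ×ˢ U).filter (fun q' => meet q q') :=
        Finset.filter_subset_filter _ (MEC_gr_sub hS)
      rw [← MEC_card _ _ hsub]
      refine Finset.sum_congr rfl fun q' hq' => ?_
      have hm := (Finset.mem_filter.1 hq').2
      by_cases h : q' ∈ gr R G S n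
      · rw [if_pos h, if_pos (Finset.mem_filter.2 ⟨h, hm⟩)]
      · rw [if_neg h, if_neg (fun h' => h (Finset.mem_filter.1 h').1)]
    rw [e3, Pb_eq, Pb_eq, ← Ex_sub]
    refine (abs_Ex_le hp _ _).trans (Ex_mono hp fun S _ => ?_)
    refine MEC_ind2 _ _ _ _ ?_
    unfold cnt MEC_F
    rw [Finset.card_filter_add_card_filter_not]
  have h3 : |∑ q ∈ U ×ˢ U, gg p U R G n q * Pb p U (fun S => MEC_F R G n q S = k) -
      HH p U R G n * Pb p U (fun S => cnt R G S n = k)| ≤ T2 p U R G n := by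
    rw [MEC_HH, Finset.sum_mul, ← Finset.sum_sub_distrib]
    refine (Finset.abs_sum_le_sum_abs _ _).trans ?_
    unfold T2
    refine Finset.sum_le_sum fun q hq => ?_
    rw [← mul_sub, abs_mul, abs_of_nonneg (MEC_gg_nonneg hp U R G n q), ← Finset.mul_sum]
    exact mul_le_mul_of_nonneg_left (h2 q hq) (MEC_gg_nonneg hp U R G n q)
  calc _ ≤ |((k : ℝ) + 1) * Pb p U (fun S => cnt R G S n = k + 1) -
      ∑ q ∈ U ×ˢ U, gg p U R G n q * Pb p U (fun S => MEC_F R G n q S = k)| +
      |∑ q ∈ U ×ˢ U, gg p U R G n q * Pb p U (fun S => MEC_F R G n q S = k) -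
      HH p U R G n * Pb p U (fun S => cnt R G S n = k)| := abs_sub_le _ _ _
    _ ≤ _ := add_le_add h1 h3

end Pool.Agent.Work.MP_7d0410_sp
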