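import Pool.Agent.Work.MP_7d0410_sp.Interface

/-!
# The recursion for the probabilities
-/

set_option autoImplicit false

namespace Pool.Agent.Work.MP_7d0410_sp

open Finset Filter MeasureTheory ProbabilityTheory
open Pool.Agent.Work.MP_7d0410_cr
open scoped Classical

/-- The hypotheses of the recursion. -/
def PKL_hyp (c1 C0 : ℝ) (P : ℕ → ℝ) (H e : ℝ) : Prop :=
  (∀ j, 0 ≤ P j) ∧ c1 ≤ H ∧ H ≤ C0 ∧ 0 ≤ e ∧ ∀ j : ℕ, |((j : ℝ) + 1) * P (j + 1) - H * P j| ≤ e

lemma PKL_up (c1 C0 : ℝ) (h0 : 0 < C0) (j : ℕ) : ∃ a b : ℝ, 0 < a ∧ 0 ≤ b ∧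
    ∀ (P : ℕ → ℝ) (H e : ℝ), PKL_hyp c1 C0 P H e → P j ≤ a * P 0 + b * e := by
  induction j with
  | zero => exact ⟨1, 0, one_pos, le_rfl, fun P H e _ => by linarith⟩
  | succ j ih =>
    obtain ⟨a, b, ha, hb, hab⟩ := ih
    refine ⟨C0 * a, C0 * b + 1, mul_pos h0 ha, by positivity, fun P H e h => ?_⟩
    obtain ⟨hP, hH1, hH2, he, hr⟩ := h
    have h1 := hab P H e ⟨hP, hH1, hH2, he, hr⟩
    have h2 := (abs_le.1 (hr j)).2
    have h3 : H * P j ≤ C0 * P j := mul_le_mul_of_nonneg_right hH2 (hP j)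
    have h4 : C0 * P j ≤ C0 * (a * P 0 + b * e) := mul_le_mul_of_nonneg_left h1 h0.le
    have h5 : P (j + 1) ≤ ((j : ℝ) + 1) * P (j + 1) := by
      have : 0 ≤ (j : ℝ) * P (j + 1) := mul_nonneg (Nat.cast_nonneg j) (hP _)
      linarith
    have : C0 * a * P 0 + (C0 * b + 1) * e = C0 * (a * P 0 + b * e) + e := by ring
    linarith

lemma PKL_low (c1 C0 : ℝ) (h0 : 0 < c1) (j : ℕ) : ∃ a b : ℝ, 0 < a ∧ 0 ≤ b ∧
    ∀ (P : ℕ → ℝ) (H e : ℝ), PKL_hyp c1 C0 P H e → a * P 0 - b * e ≤ P j := by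
  induction j with
  | zero => exact ⟨1, 0, one_pos, le_rfl, fun P H e _ => by linarith⟩
  | succ j ih =>
    obtain ⟨a, b, ha, hb, hab⟩ := ih
    have hj : (0 : ℝ) < (j : ℝ) + 1 := by positivity
    refine ⟨c1 * a / ((j : ℝ) + 1), (c1 * b + 1) / ((j : ℝ) + 1), by positivity, by positivity,
      fun P H e h => ?_⟩
    obtain ⟨hP, hH1, hH2, he, hr⟩ := h
    have h1 := hab P H e ⟨hP, hH1, hH2, he, hr⟩
    have h2 := (abs_le.1 (hr j)).1
    have h3 : c1 * P j ≤ H * P j := mul_le_mul_of_nonneg_right hH1 (hP j)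
    have h4 : c1 * (a * P 0 - b * e) ≤ c1 * P j := mul_le_mul_of_nonneg_left h1 h0.le
    have h5 : c1 * a / ((j : ℝ) + 1) * P 0 - (c1 * b + 1) / ((j : ℝ) + 1) * e =
        (c1 * (a * P 0 - b * e) - e) / ((j : ℝ) + 1) := by
      field_simp
      ring
    rw [h5, div_le_iff₀ hj]
    linarith

theorem p_PKL : Stmt_PKL := by
  intro c1 C0 k hc1 hcC
  have hC0 : 0 < C0 := lt_of_lt_of_le hc1 hcC
  choose a b ha hb hab using PKL_up c1 C0 hC0
  obtain ⟨a', b', ha', hb', hab'⟩ := PKL_low c1 C0 hc1 k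
  set K : ℕ := ⌈2 * C0⌉₊ + 1 with hK
  set A : ℝ := ∑ j ∈ Finset.range K, a j with hA
  set B : ℝ := ∑ j ∈ Finset.range K, b j with hB
  have hApos : 0 < A := by
    refine Finset.sum_pos (fun j _ => ha j) ?_
    rw [Finset.nonempty_range_iff]
    omega
  have hBnn : 0 ≤ B := Finset.sum_nonneg fun j _ => hb j
  have hKC : 2 * C0 ≤ K := by
    have := Nat.le_ceil (2 * C0)
    rw [hK]
    push_cast
    linarith
  have hKpos : (0 : ℝ) < K := by linarith
  set e1 : ℝ := 1 / (4 * (B + 1)) with he1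
  set e2 : ℝ := a' / (8 * A * (b' + 1)) with he2
  have he1pos : 0 < e1 := by positivity
  have he2pos : 0 < e2 := by positivity
  refine ⟨a' / (8 * A), min e1 e2, by positivity, lt_min he1pos he2pos, ?_⟩
  intro P H hP hH1 hH2 hr hs
  set e : ℝ := min e1 e2 with he
  have hepos : 0 < e := lt_min he1pos he2pos
  have hh : PKL_hyp c1 C0 P H e := ⟨hP, hH1, hH2, hepos.le, hr⟩
  have hKs := hs K (by omega)
  have h1 : ∑ j ∈ Finset.range K, P j ≤ A * P 0 + B * e := by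
    calc ∑ j ∈ Finset.range K, P j ≤ ∑ j ∈ Finset.range K, (a j * P 0 + b j * e) :=
          Finset.sum_le_sum fun j _ => hab j P H e hh
      _ = A * P 0 + B * e := by
          rw [Finset.sum_add_distrib, ← Finset.sum_mul, ← Finset.sum_mul]
  have h2 : H / K ≤ 1 / 2 := by
    rw [div_le_iff₀ hKpos]
    linarith
  have h3 : B * e ≤ 1 / 4 := by
    have : e ≤ e1 := min_le_left _ _
    have h4 : B * e ≤ (B + 1) * e1 := by
      have := mul_le_mul (by linarith : B ≤ B + 1) this hepos.le (by linarith)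
      exact this
    have h5 : (B + 1) * e1 = 1 / 4 := by
      rw [he1]
      have : B + 1 ≠ 0 := by linarith
      field_simp
    linarith
  have h6 : 1 / 4 ≤ A * P 0 := by linarith
  have h7 : 1 / (4 * A) ≤ P 0 := by
    rw [div_le_iff₀ (by positivity)]
    linarith
  have h8 := hab' P H e hh
  have h9 : b' * e ≤ a' / (8 * A) := by
    have : e ≤ e2 := min_le_right _ _
    have h4 : b' * e ≤ (b' + 1) * e2 := mul_le_mul (by linarith) this hepos.le (by linarith)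
    have h5 : (b' + 1) * e2 = a' / (8 * A) := by
      rw [he2]
      have : b' + 1 ≠ 0 := by linarith
      field_simp
    linarith
  have h10 : a' * (1 / (4 * A)) ≤ a' * P 0 := mul_le_mul_of_nonneg_left h7 ha'.le
  have h11 : a' * (1 / (4 * A)) = 2 * (a' / (8 * A)) := by
    field_simp
    norm_num
  linarith

end Pool.Agent.Work.MP_7d0410_sp
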