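import Pool.Agent.Work.MP_7d0410_sp.Interface

/-!
# EDK: the expected density
-/

set_option autoImplicit false

namespace Pool.Agent.Work.MP_7d0410_sp

open Finset Filter MeasureTheory ProbabilityTheory
open Pool.Agent.Work.MP_7d0410_cr
open scoped Classical Topology

lemma EDK_DD {p : ℕ → ℝ} (U : Finset ℕ) (R G x k : ℕ) :
    Ex p U (fun S => (DD R G S x k : ℝ)) =
      ∑ n ∈ Finset.Icc 1 x, Pb p U (fun S => cnt R G S n = k) := by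
  unfold Pb
  rw [← Ex_sum]
  refine Ex_congr fun S _ => ?_
  unfold DD
  rw [Finset.card_filter]
  push_cast
  refine Finset.sum_congr rfl fun n _ => ?_
  congr

lemma EDK_F0 (A B : ℕ) (S : Finset ℕ) (x : ℕ) :
    ∑ n ∈ Finset.Icc 1 x, (F0 A B S n : ℝ) ≤
      (((runs S).filter (fun q => sm S q ≤ x)).card : ℝ) := by
  have h1 : ∑ n ∈ Finset.Icc 1 x, F0 A B S n ≤
      ∑ n ∈ Finset.Icc 1 x, ((runs S).filter (fun q => sm S q = n)).card := by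
    refine Finset.sum_le_sum fun n _ => ?_
    unfold F0
    refine Finset.card_le_card fun q hq => ?_
    rw [Finset.mem_filter] at hq ⊢
    exact ⟨hq.1, hq.2.1⟩
  have h2 : ∑ n ∈ Finset.Icc 1 x, ((runs S).filter (fun q => sm S q = n)).card =
      ((runs S).filter (fun q => sm S q ∈ Finset.Icc 1 x)).card :=
    Finset.sum_card_fiberwise_eq_card_filter (runs S) (Finset.Icc 1 x) (fun q => sm S q)
  have h3 : ((runs S).filter (fun q => sm S q ∈ Finset.Icc 1 x)).card ≤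
      ((runs S).filter (fun q => sm S q ≤ x)).card := by
    refine Finset.card_le_card fun q hq => ?_
    rw [Finset.mem_filter] at hq ⊢
    exact ⟨hq.1, (Finset.mem_Icc.1 hq.2).2⟩
  exact_mod_cast (h1.trans h2.le).trans h3

lemma EDK_small (x : ℕ) :
    (((Finset.Icc 1 x).filter (fun n => ¬ x ≤ 1000 * n)).card : ℝ) ≤ x / 1000 := by
  have h : (Finset.Icc 1 x).filter (fun n => ¬ x ≤ 1000 * n) ⊆ Finset.Icc 1 (x / 1000) := by
    intro n hn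
    rw [Finset.mem_filter, Finset.mem_Icc] at hn
    rw [Finset.mem_Icc]
    refine ⟨hn.1.1, ?_⟩
    rw [Nat.le_div_iff_mul_le (by norm_num)]
    omega
  have h2 := Finset.card_le_card h
  rw [Nat.card_Icc] at h2
  have h3 : (((Finset.Icc 1 x).filter (fun n => ¬ x ≤ 1000 * n)).card : ℝ) ≤ ((x / 1000 : ℕ) : ℝ) := by
    exact_mod_cast h2.trans (by omega)
  refine h3.trans ?_
  have := @Nat.cast_div_le ℝ _ _ _ x 1000
  simpa using this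

/-- the arithmetic of the averages -/
lemma EDK_sum (x : ℕ) (ρ : ℝ) (hρ : 0 < ρ) (P w f g : ℕ → ℝ) (hP : ∀ n, 0 ≤ P n)
    (hf : ∀ n, 0 ≤ f n) (hg : ∀ n, 0 ≤ g n) (h : ∀ n, w n * (1 - f n) - g n ≤ P n)
    (h1 : (((Finset.Icc 1 x).filter (fun n => x ≤ 1000 * n ∧ w n < ρ)).card : ℝ) ≤ x / 200)
    (h2 : ∑ n ∈ Finset.Icc 1 x, f n ≤ 98 / 100 * x)
    (η : ℝ) (h3 : ∑ n ∈ (Finset.Icc 1 x).filter (fun n => x ≤ 1000 * n), g n ≤ η) :
    ρ * (14 / 1000 * x) - η ≤ ∑ n ∈ Finset.Icc 1 x, P n := by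
  set Gd : Finset ℕ := (Finset.Icc 1 x).filter (fun n => x ≤ 1000 * n ∧ ¬ w n < ρ) with hGd
  have hsub : Gd ⊆ Finset.Icc 1 x := Finset.filter_subset _ _
  have hsub2 : Gd ⊆ (Finset.Icc 1 x).filter (fun n => x ≤ 1000 * n) := by
    intro n hn
    rw [hGd, Finset.mem_filter] at hn
    exact Finset.mem_filter.2 ⟨hn.1, hn.2.1⟩
  have hcard : (x : ℝ) ≤ (Gd.card : ℝ) + x / 1000 + x / 200 := by
    have hc : Finset.Icc 1 x ⊆ Gd ∪ ((Finset.Icc 1 x).filter (fun n => ¬ x ≤ 1000 * n) ∪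
        (Finset.Icc 1 x).filter (fun n => x ≤ 1000 * n ∧ w n < ρ)) := by
      intro n hn
      simp only [hGd, Finset.mem_union, Finset.mem_filter]
      tauto
    have hc2 := (Finset.card_le_card hc).trans
      ((Finset.card_union_le _ _).trans (Nat.add_le_add_left (Finset.card_union_le _ _) _))
    rw [Nat.card_Icc, Nat.add_sub_cancel] at hc2
    have hc3 : (x : ℝ) ≤ (Gd.card : ℝ) +
        ((((Finset.Icc 1 x).filter (fun n => ¬ x ≤ 1000 * n)).card : ℝ) +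
        (((Finset.Icc 1 x).filter (fun n => x ≤ 1000 * n ∧ w n < ρ)).card : ℝ)) := by
      exact_mod_cast hc2
    have := EDK_small x
    linarith
  have hpt : ∀ n ∈ Gd, ρ * (1 - f n) - g n ≤ P n := by
    intro n hn
    rw [hGd, Finset.mem_filter] at hn
    have hw : ρ ≤ w n := not_lt.1 hn.2.2
    rcases le_total (f n) 1 with h4 | h4
    · have := mul_le_mul_of_nonneg_right hw (sub_nonneg.2 h4)
      linarith [h n]
    · have : ρ * (1 - f n) ≤ 0 := mul_nonpos_of_nonneg_of_nonpos hρ.le (by linarith)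
      linarith [hP n, hg n]
  have hs1 : ∑ n ∈ Gd, (ρ * (1 - f n) - g n) ≤ ∑ n ∈ Finset.Icc 1 x, P n :=
    (Finset.sum_le_sum hpt).trans
      (Finset.sum_le_sum_of_subset_of_nonneg hsub fun n _ _ => hP n)
  have hs2 : ∑ n ∈ Gd, (ρ * (1 - f n) - g n) =
      ρ * Gd.card - ρ * ∑ n ∈ Gd, f n - ∑ n ∈ Gd, g n := by
    rw [Finset.sum_sub_distrib, ← Finset.mul_sum, Finset.sum_sub_distrib]
    simp
    ring
  have hs3 : ∑ n ∈ Gd, f n ≤ 98 / 100 * x :=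
    (Finset.sum_le_sum_of_subset_of_nonneg hsub fun n _ _ => hf n).trans h2
  have hs4 : ∑ n ∈ Gd, g n ≤ η :=
    (Finset.sum_le_sum_of_subset_of_nonneg hsub2 fun n _ _ => hg n).trans h3
  have hs5 : ρ * (14 / 1000 * x) ≤ ρ * (Gd.card - ∑ n ∈ Gd, f n) :=
    mul_le_mul_of_nonneg_left (by linarith) hρ.le
  rw [hs2] at hs1
  linarith

lemma EDK_a0A1 {ε θ : ℝ} (h : ε < 4 * θ) {x : ℕ} (hx : 1 ≤ x) : a0 ε x ≤ A1 θ x := by
  unfold a0 A1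
  refine Nat.ceil_mono ?_
  have hx' : (1 : ℝ) ≤ x := by exact_mod_cast hx
  exact Real.rpow_le_rpow_of_exponent_le hx' (by linarith)

lemma EDK_A2 {θ : ℝ} (h : θ < 1 / 200) {x : ℕ} (hx : 1 ≤ x) : A2 θ x ≤ 2 * x := by
  unfold A2
  have hx' : (1 : ℝ) ≤ x := by exact_mod_cast hx
  have h1 : (x : ℝ) ^ (1 / 2 + 8 * θ) ≤ (x : ℝ) ^ (1 : ℝ) :=
    Real.rpow_le_rpow_of_exponent_le hx' (by linarith)
  rw [Real.rpow_one] at h1
  have h2 : ⌊(x : ℝ) ^ (1 / 2 + 8 * θ)⌋₊ ≤ x := Nat.floor_le_of_le h1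
  omega

lemma EDK_pow {ε : ℝ} {x : ℕ} (hx : 1 ≤ x) :
    ((x : ℝ) ^ (1 / 2 + ε)) ^ 2 = x * (x : ℝ) ^ (2 * ε) := by
  have hx' : (0 : ℝ) < x := by exact_mod_cast hx
  rw [← Real.rpow_natCast, ← Real.rpow_mul hx'.le]
  have : (1 / 2 + ε) * ((2 : ℕ) : ℝ) = 1 + 2 * ε := by push_cast; ring
  rw [this, Real.rpow_add hx', Real.rpow_one]

lemma EDK_sq {ε : ℝ} {x : ℕ} (hx : 1 ≤ x) :
    (x : ℝ) * (x : ℝ) ^ (2 * ε) ≤ (a0 ε x : ℝ) ^ 2 := by
  rw [← EDK_pow hx]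
  have hx' : (0 : ℝ) < x := by exact_mod_cast hx
  exact pow_le_pow_left₀ (Real.rpow_nonneg hx'.le _) (Nat.le_ceil _) 2

lemma EDK_one_le {ε : ℝ} (hε : 0 < ε) {x : ℕ} (hx : 1 ≤ x) : 1 ≤ (x : ℝ) ^ (2 * ε) :=
  Real.one_le_rpow (by exact_mod_cast hx) (by linarith)

lemma EDK_x {ε : ℝ} (hε : 0 < ε) {x : ℕ} (hx : 1 ≤ x) : x ≤ a0 ε x ^ 2 := by
  have h1 := EDK_sq (ε := ε) hx
  have h2 := EDK_one_le hε hx
  have hx' : (0 : ℝ) < x := by exact_mod_cast hx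
  have h3 : (x : ℝ) ≤ (a0 ε x : ℝ) ^ 2 := by
    refine le_trans ?_ h1
    nlinarith
  exact_mod_cast h3

lemma EDK_a0 {ε : ℝ} {x : ℕ} (hx : 1 ≤ x) : 1 ≤ a0 ε x := by
  unfold a0
  rw [Nat.one_le_ceil_iff]
  exact Real.rpow_pos_of_pos (by exact_mod_cast hx) _

lemma EDK_G1 {θ : ℝ} {x : ℕ} (hx : 1 ≤ x) : 1 ≤ G1 θ x := by
  unfold G1
  rw [Nat.one_le_ceil_iff]
  exact Real.rpow_pos_of_pos (by exact_mod_cast hx) _

lemma EDK_RA {θ : ℝ} (h0 : 0 < θ) (h1 : θ < 1 / 200) :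
    ∀ᶠ x : ℕ in atTop, 1000 * R1 θ x * A2 θ x ≤ x := by
  have ht : Tendsto (fun x : ℕ => (x : ℝ) ^ θ) atTop atTop :=
    (tendsto_rpow_atTop h0).comp tendsto_natCast_atTop_atTop
  filter_upwards [ht.eventually_ge_atTop 2000, eventually_ge_atTop 1] with x hx hx1
  have hx' : (1 : ℝ) ≤ x := by exact_mod_cast hx1
  have hx0 : (0 : ℝ) < x := by linarith
  have hR : (R1 θ x : ℝ) ≤ 2 * (x : ℝ) ^ (1 / 2 - 9 * θ) := by
    unfold R1
    have h2 : (1 : ℝ) ≤ (x : ℝ) ^ (1 / 2 - 9 * θ) := Real.one_le_rpow hx' (by linarith)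
    have := (Nat.ceil_lt_add_one (zero_le_one.trans h2)).le
    linarith
  have hA : (A2 θ x : ℝ) ≤ (x : ℝ) ^ (1 / 2 + 8 * θ) := by
    unfold A2
    exact Nat.floor_le (Real.rpow_nonneg hx0.le _)
  have h3 : (x : ℝ) ^ (1 / 2 - 9 * θ) * (x : ℝ) ^ (1 / 2 + 8 * θ) * (x : ℝ) ^ θ = x := by
    rw [← Real.rpow_add hx0, ← Real.rpow_add hx0]
    have : (1 / 2 - 9 * θ + (1 / 2 + 8 * θ) + θ) = 1 := by ring
    rw [this, Real.rpow_one]
  have h4 : (R1 θ x : ℝ) * A2 θ x ≤ 2 * ((x : ℝ) ^ (1 / 2 - 9 * θ) * (x : ℝ) ^ (1 / 2 + 8 * θ)) := by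
    calc (R1 θ x : ℝ) * A2 θ x ≤ (2 * (x : ℝ) ^ (1 / 2 - 9 * θ)) * (x : ℝ) ^ (1 / 2 + 8 * θ) :=
          mul_le_mul hR hA (Nat.cast_nonneg _) (by positivity)
      _ = _ := by ring
  have h5 : (1000 : ℝ) * R1 θ x * A2 θ x ≤ x := by
    have h6 : 0 ≤ (x : ℝ) ^ (1 / 2 - 9 * θ) * (x : ℝ) ^ (1 / 2 + 8 * θ) := by positivity
    nlinarith
  exact_mod_cast h5

lemma EDK_err {ε θ : ℝ} (hε : 0 < ε) (h0 : 0 < θ) {η : ℝ} (hη : 0 < η) :
    ∀ᶠ x : ℕ in atTop, 2 * ((x : ℝ) / a0 ε x) ^ 2 + x * (1 + Real.log x) / G1 θ x ≤ η * x := by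
  have ht : Tendsto (fun x : ℕ => (x : ℝ) ^ (2 * ε)) atTop atTop :=
    (tendsto_rpow_atTop (by linarith)).comp tendsto_natCast_atTop_atTop
  have hl : Tendsto (fun x : ℝ => Real.log x / x ^ θ) atTop (𝓝 0) :=
    (isLittleO_log_rpow_atTop h0).tendsto_div_nhds_zero
  have hi : Tendsto (fun x : ℝ => 1 / x ^ θ) atTop (𝓝 0) :=
    (tendsto_rpow_atTop h0).const_div_atTop 1
  have hs : Tendsto (fun x : ℝ => 1 / x ^ θ + Real.log x / x ^ θ) atTop (𝓝 0) := by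
    simpa using hi.add hl
  have hs' := hs.comp tendsto_natCast_atTop_atTop
  have hs2 : ∀ᶠ x : ℕ in atTop, 1 / (x : ℝ) ^ θ + Real.log x / (x : ℝ) ^ θ < η / 2 :=
    hs'.eventually (gt_mem_nhds (by linarith))
  filter_upwards [ht.eventually_ge_atTop (4 / η), hs2, eventually_ge_atTop 1] with x hx1 hx2 hx
  have hx' : (1 : ℝ) ≤ x := by exact_mod_cast hx
  have hx0 : (0 : ℝ) < x := by linarith
  have ha : (0 : ℝ) < a0 ε x := by exact_mod_cast EDK_a0 (ε := ε) hx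
  have hlog : 0 ≤ Real.log x := Real.log_nonneg hx'
  have e1 : ((x : ℝ) / a0 ε x) ^ 2 ≤ η / 4 * x := by
    rw [div_pow, div_le_iff₀ (by positivity)]
    have h1 := EDK_sq (ε := ε) hx
    have h2 : 4 ≤ (x : ℝ) ^ (2 * ε) * η := by
      rw [div_le_iff₀ hη] at hx1
      exact hx1
    have h3 : η / 4 * x * (x * (x : ℝ) ^ (2 * ε)) ≤ η / 4 * x * (a0 ε x : ℝ) ^ 2 :=
      mul_le_mul_of_nonneg_left h1 (by positivity)
    have h4 : (x : ℝ) ^ 2 ≤ η / 4 * x * (x * (x : ℝ) ^ (2 * ε)) := by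
      have h5 : η / 4 * x * (x * (x : ℝ) ^ (2 * ε)) = x ^ 2 * ((x : ℝ) ^ (2 * ε) * η / 4) := by ring
      rw [h5]
      have h6 : 0 ≤ (x : ℝ) ^ 2 := by positivity
      nlinarith
    exact h4.trans h3
  have e2 : (x : ℝ) * (1 + Real.log x) / G1 θ x ≤ η / 2 * x := by
    have hG : (x : ℝ) ^ θ ≤ G1 θ x := Nat.le_ceil _
    have hp : 0 < (x : ℝ) ^ θ := Real.rpow_pos_of_pos hx0 _
    calc (x : ℝ) * (1 + Real.log x) / G1 θ x ≤ (x : ℝ) * (1 + Real.log x) / (x : ℝ) ^ θ :=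
          div_le_div_of_nonneg_left (by positivity) hp hG
      _ = (1 / (x : ℝ) ^ θ + Real.log x / (x : ℝ) ^ θ) * x := by ring
      _ ≤ η / 2 * x := mul_le_mul_of_nonneg_right hx2.le hx0.le
  linarith

theorem p_EDK (hEDA : Stmt_EDA) (hSPL : Stmt_SPL) (hEAV : Stmt_EAV) (hXXB : Stmt_XXB) :
    Stmt_EDK := by
  intro c θ hP k
  obtain ⟨ρ, hρ, hE⟩ := hEDA c θ hP k
  refine ⟨ρ / 100, by linarith, fun ε hε hεθ => ?_⟩
  have hp : Prob (pp c) := prob_pp hP.c0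
  filter_upwards [hE, hEAV c hP.c0, EDK_RA hP.t0 hP.t1,
    EDK_err hε hP.t0 (show 0 < ρ * (4 / 1000) by positivity), eventually_ge_atTop 1]
    with x h1 h2 h3 h4 hx
  rw [EDK_DD]
  have hmem : ∀ S ⊆ UU ε x, ∀ m ∈ S, a0 ε x ≤ m := by
    intro S hS m hm
    have := hS hm
    unfold UU at this
    exact (Finset.mem_Icc.1 this).1
  have key := EDK_sum x ρ hρ
    (fun n => Pb (pp c) (UU ε x) (fun S => cnt 0 (2 * x) S n = k))
    (fun n => Pb (pp c) (VV θ x) (fun S => cnt (R1 θ x) (G1 θ x) S n = k))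
    (fun n => Ex (pp c) (UU ε x) (fun S => (F0 (A1 θ x) (A2 θ x) S n : ℝ)))
    (fun n => Ex (pp c) (UU ε x) (fun S => (XX (A1 θ x) (A2 θ x) (R1 θ x) (G1 θ x) S n : ℝ)))
    (fun n => Pb_nonneg hp _ _)
    (fun n => Ex_nonneg hp fun S _ => Nat.cast_nonneg _)
    (fun n => Ex_nonneg hp fun S _ => Nat.cast_nonneg _)
    (fun n => hSPL (pp c) hp (a0 ε x) (2 * x) (A1 θ x) (A2 θ x) (R1 θ x) (G1 θ x) (2 * x) n k
      (EDK_a0A1 hεθ hx) (EDK_A2 hP.t1 hx) le_rfl)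
    h1 ?_ (ρ * (4 / 1000) * x) ?_
  · refine le_trans ?_ key
    have : (0 : ℝ) ≤ x := Nat.cast_nonneg _
    nlinarith
  · rw [← Ex_sum]
    refine le_trans (Ex_mono hp fun S _ => EDK_F0 (A1 θ x) (A2 θ x) S x) ?_
    exact h2 (a0 ε x) (2 * x) (EDK_x hε hx)
  · rw [← Ex_sum]
    refine Ex_le_const hp fun S hS => ?_
    refine (hXXB S (a0 ε x) (A1 θ x) (A2 θ x) (R1 θ x) (G1 θ x) x (hmem S hS) (EDK_a0 hx)
      (EDK_G1 hx) h3 hx).trans h4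

end Pool.Agent.Work.MP_7d0410_sp
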