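import Pool.Agent.Work.MP_7d0410_sp.Interface

set_option autoImplicit false

namespace Pool.Agent.Work.MP_7d0410_sp

open Finset Filter MeasureTheory ProbabilityTheory
open Pool.Agent.Work.MP_7d0410_cr
open scoped Classical Topology

lemma NCR_end (S : Finset ℕ) (q q' : ℕ × ℕ) (hq : q ∈ runs S) (hq' : q' ∈ runs S)
    (hl : len S q = len S q') (h : q.1 = q'.1) : q = q' := by
  have key : ∀ q q' : ℕ × ℕ, q' ∈ runs S → q.1 = q'.1 → q.2 < q'.2 → len S q < len S q' := by
    intro q q' hq' h hlt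
    unfold len
    apply Finset.card_lt_card
    rw [Finset.ssubset_iff_of_subset]
    · refine ⟨q'.2, mem_seg.2 ⟨(mem_runs.1 hq').2.1, (mem_runs.1 hq').2.2, le_rfl⟩, ?_⟩
      rw [mem_seg]
      rintro ⟨_, _, h'⟩
      omega
    · intro m hm
      rw [mem_seg] at hm ⊢
      exact ⟨hm.1, by omega, by omega⟩
  apply Prod.ext h
  rcases lt_trichotomy q.2 q'.2 with h1 | h1 | h1
  · have := key q q' hq' h h1
    omega
  · exact h1
  · have := key q' q hq h.symm h1
    omega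

theorem p_NCR (hSFT : Stmt_SFT) : Stmt_NCR := by
  intro S r x
  set T := (runs S).filter (fun q => len S q = r ∧ sm S q ≤ x) with hT
  have hmem : ∀ q ∈ T, q ∈ runs S ∧ len S q = r ∧ sm S q ≤ x ∧ q.1 ≤ q.2 ∧ q.2 ≤ sm S q := by
    intro q hq
    rw [hT, Finset.mem_filter] at hq
    obtain ⟨h1, h2, h3⟩ := hq
    obtain ⟨h4, h5, h6⟩ := mem_runs.1 h1
    exact ⟨h1, h2, h3, h6, le_sm_of_mem (mem_seg.2 ⟨h5, h6, le_rfl⟩)⟩
  have hlt : ∀ q ∈ T, ∀ q' ∈ T, q.1 < q'.1 → sm S q ≤ sm S q' - (q'.2 - q'.1) := by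
    intro q hq q' hq' h
    obtain ⟨a1, a2, a3, a4, a5⟩ := hmem q hq
    obtain ⟨b1, b2, b3, b4, b5⟩ := hmem q' hq'
    have := (hSFT S q q' a1 b1 (a2.trans b2.symm) h).2
    omega
  have hcard : ∀ q ∈ T, q.2 - q.1 = (Finset.Ioc (sm S q - (q.2 - q.1)) (sm S q)).card := by
    intro q hq
    obtain ⟨a1, a2, a3, a4, a5⟩ := hmem q hq
    rw [Nat.card_Ioc]
    omega
  rw [Finset.sum_congr rfl hcard, ← Finset.card_biUnion]
  · calc (T.biUnion fun q => Finset.Ioc (sm S q - (q.2 - q.1)) (sm S q)).card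
        ≤ (Finset.Ioc 0 x).card := by
          apply Finset.card_le_card
          intro m hm
          rw [Finset.mem_biUnion] at hm
          obtain ⟨q, hq, hm⟩ := hm
          obtain ⟨a1, a2, a3, a4, a5⟩ := hmem q hq
          rw [Finset.mem_Ioc] at hm ⊢
          omega
      _ = x := by rw [Nat.card_Ioc, Nat.sub_zero]
  · intro q hq q' hq' hne
    show Disjoint (Finset.Ioc _ _) (Finset.Ioc _ _)
    rw [Finset.disjoint_left]
    intro m hm hm'
    rw [Finset.mem_Ioc] at hm hm'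
    obtain ⟨a1, a2, a3, a4, a5⟩ := hmem q hq
    obtain ⟨b1, b2, b3, b4, b5⟩ := hmem q' hq'
    rcases lt_trichotomy q.1 q'.1 with h | h | h
    · have := hlt q hq q' hq' h
      omega
    · exact hne (NCR_end S q q' a1 b1 (a2.trans b2.symm) h)
    · have := hlt q' hq' q hq h
      omega

end Pool.Agent.Work.MP_7d0410_sp
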