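import Pool.Agent.Work.MP_7d0410_sp.Interface

set_option autoImplicit false

namespace Pool.Agent.Work.MP_7d0410_sp

open Finset Filter MeasureTheory ProbabilityTheory
open Pool.Agent.Work.MP_7d0410_cr
open scoped Classical

/-- segments inside `[A, B]` -/
lemma SPL_seg_in {S : Finset ℕ} {A B : ℕ} {q : ℕ × ℕ} (h1 : A ≤ q.1) (h2 : q.2 ≤ B) :
    seg (S ∩ Finset.Icc A B) q = seg S q := by
  unfold seg
  ext m
  simp only [Finset.mem_filter, Finset.mem_inter, Finset.mem_Icc]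
  constructor
  · rintro ⟨⟨h, -, -⟩, h3⟩
    exact ⟨h, h3⟩
  · rintro ⟨h, h3, h4⟩
    exact ⟨⟨h, by omega, by omega⟩, h3, h4⟩

/-- segments outside `[A, B]` -/
lemma SPL_seg_out {S : Finset ℕ} {A B : ℕ} {q : ℕ × ℕ} (h : q.2 < A ∨ B < q.1) :
    seg (S \ Finset.Icc A B) q = seg S q := by
  unfold seg
  ext m
  simp only [Finset.mem_filter, Finset.mem_sdiff, Finset.mem_Icc]
  constructor
  · rintro ⟨⟨h, -⟩, h3⟩
    exact ⟨h, h3⟩
  · rintro ⟨h', h3, h4⟩
    refine ⟨⟨h', fun hh => ?_⟩, h3, h4⟩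
    omega

lemma SPL_F0 (A B : ℕ) (S : Finset ℕ) (n : ℕ) :
    F0 A B (S \ Finset.Icc A B) n ≤ F0 A B S n := by
  unfold F0
  refine Finset.card_le_card fun q hq => ?_
  rw [Finset.mem_filter] at hq ⊢
  obtain ⟨h1, h2, h3⟩ := hq
  unfold runs at h1 ⊢
  rw [Finset.mem_filter, Finset.mem_product, Finset.mem_sdiff, Finset.mem_sdiff] at h1
  refine ⟨Finset.mem_filter.2 ⟨Finset.mem_product.2 ⟨h1.1.1.1, h1.1.2.1⟩, h1.2⟩, ?_, h3⟩
  unfold sm at h2 ⊢
  rwa [SPL_seg_out h3] at h2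

lemma SPL_cnt {a d A B R G G' n : ℕ} (hG : d ≤ G') {S : Finset ℕ} (hS : S ⊆ Finset.Icc a d)
    (h0 : F0 A B (S \ Finset.Icc A B) n = 0) (hX : XX A B R G S n = 0) :
    gr 0 G' S n = gr R G (S ∩ Finset.Icc A B) n := by
  have hF : ∀ q ∈ runs S, sm S q = n → ¬ (q.2 < A ∨ B < q.1) := by
    intro q hq hn hc
    unfold F0 at h0
    rw [Finset.card_eq_zero, Finset.filter_eq_empty_iff] at h0
    refine h0 (x := q) ?_ ⟨?_, hc⟩
    · unfold runs at hq ⊢
      rw [Finset.mem_filter, Finset.mem_product] at hq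
      refine Finset.mem_filter.2 ⟨Finset.mem_product.2 ⟨?_, ?_⟩, hq.2⟩
      · rw [Finset.mem_sdiff, Finset.mem_Icc]
        exact ⟨hq.1.1, fun hh => by omega⟩
      · rw [Finset.mem_sdiff, Finset.mem_Icc]
        exact ⟨hq.1.2, fun hh => by omega⟩
    · unfold sm at hn ⊢
      rwa [SPL_seg_out hc]
  have hXX : ∀ q ∈ runs S, sm S q = n → ¬ ((q.1 < A ∧ A ≤ q.2) ∨ (q.1 ≤ B ∧ B < q.2) ∨
      (A ≤ q.1 ∧ q.2 ≤ B ∧ q ∉ good R G S)) := by
    intro q hq hn hc
    unfold XX at hX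
    rw [Finset.card_eq_zero, Finset.filter_eq_empty_iff] at hX
    exact hX hq ⟨hn, hc⟩
  ext q
  unfold gr good
  rw [Finset.mem_filter, Finset.mem_filter, Finset.mem_filter, Finset.mem_filter]
  constructor
  · rintro ⟨⟨h1, -, -⟩, hn⟩
    have h2 := hF q h1 hn
    have h3 := hXX q h1 hn
    push Not at h2
    have h4 : A ≤ q.1 := by
      by_contra hlt
      exact h3 (Or.inl ⟨by omega, h2.1⟩)
    have h5 : q.2 ≤ B := by
      by_contra hlt
      exact h3 (Or.inr (Or.inl ⟨h2.2, by omega⟩))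
    have h6 : q ∈ good R G S := by
      by_contra hng
      exact h3 (Or.inr (Or.inr ⟨h4, h5, hng⟩))
    unfold good at h6
    rw [Finset.mem_filter] at h6
    have hseg := SPL_seg_in (S := S) h4 h5
    unfold len sm at *
    rw [hseg]
    refine ⟨⟨?_, h6.2⟩, hn⟩
    unfold runs at h1 ⊢
    rw [Finset.mem_filter, Finset.mem_product] at h1
    refine Finset.mem_filter.2 ⟨Finset.mem_product.2 ⟨?_, ?_⟩, h1.2⟩
    · rw [Finset.mem_inter, Finset.mem_Icc]
      exact ⟨h1.1.1, h4, by omega⟩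
    · rw [Finset.mem_inter, Finset.mem_Icc]
      exact ⟨h1.1.2, by omega, h5⟩
  · rintro ⟨⟨h1, -, -⟩, hn⟩
    unfold runs at h1
    rw [Finset.mem_filter, Finset.mem_product, Finset.mem_inter, Finset.mem_inter,
      Finset.mem_Icc, Finset.mem_Icc] at h1
    obtain ⟨⟨⟨h2, h3⟩, h4, h5⟩, h6⟩ := h1
    have hseg := SPL_seg_in (S := S) h3.1 h5.2
    unfold len sm at *
    rw [hseg] at hn
    refine ⟨⟨?_, Nat.zero_le _, ?_⟩, hn⟩
    · unfold runs
      exact Finset.mem_filter.2 ⟨Finset.mem_product.2 ⟨h2, h4⟩, h6⟩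
    · have h7 : 1 ≤ (seg S q).card := by
        rw [Nat.one_le_iff_ne_zero, Finset.card_ne_zero]
        exact ⟨q.1, Finset.mem_filter.2 ⟨h2, le_rfl, h6⟩⟩
      have h8 := (Finset.mem_Icc.1 (hS h4)).2
      calc q.2 ≤ G' := h8.trans hG
        _ ≤ G' * (seg S q).card := Nat.le_mul_of_pos_right _ h7
        _ ≤ _ := Nat.le_add_left _ _

theorem p_SPL : Stmt_SPL := by
  intro p hp a d A B R G G' n k haA hBd hdG
  set U := Finset.Icc a d with hU
  set V := Finset.Icc A B with hV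
  have hVU : V ⊆ U := by
    intro m hm
    rw [hV, Finset.mem_Icc] at hm
    rw [hU, Finset.mem_Icc]
    omega
  -- independence
  have h1 : Ex p U (fun S => (if cnt R G (S ∩ V) n = k then (1 : ℝ) else 0) *
      (if F0 A B (S \ V) n = 0 then (1 : ℝ) else 0)) =
      Pb p V (fun S => cnt R G S n = k) *
        Ex p (U \ V) (fun S => if F0 A B S n = 0 then (1 : ℝ) else 0) := by
    rw [Pb_eq V (fun S => cnt R G S n = k)]
    exact Ex_indep hVU (fun S => if cnt R G S n = k then (1 : ℝ) else 0)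
      (fun S => if F0 A B S n = 0 then (1 : ℝ) else 0)
  -- the second factor
  have h2 : 1 - Ex p U (fun S => (F0 A B S n : ℝ)) ≤
      Ex p (U \ V) (fun S => if F0 A B S n = 0 then (1 : ℝ) else 0) := by
    have h3 : Ex p (U \ V) (fun S => (F0 A B S n : ℝ)) ≤ Ex p U (fun S => (F0 A B S n : ℝ)) := by
      rw [← Ex_sdiff hVU (fun S => (F0 A B S n : ℝ))]
      refine Ex_mono hp fun S _ => ?_
      exact_mod_cast SPL_F0 A B S n
    have h4 : Ex p (U \ V) (fun S => 1 - (F0 A B S n : ℝ)) ≤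
        Ex p (U \ V) (fun S => if F0 A B S n = 0 then (1 : ℝ) else 0) := by
      refine Ex_mono hp fun S _ => ?_
      split_ifs with h0
      · rw [h0]
        simp
      · have h5 : (1 : ℝ) ≤ F0 A B S n := by exact_mod_cast Nat.one_le_iff_ne_zero.2 h0
        linarith
    rw [Ex_sub, Ex_const] at h4
    linarith
  -- the event
  have h3 : Ex p U (fun S => (if cnt R G (S ∩ V) n = k then (1 : ℝ) else 0) *
      (if F0 A B (S \ V) n = 0 then (1 : ℝ) else 0)) ≤
      Pb p U (fun S => cnt 0 G' S n = k) + Ex p U (fun S => (XX A B R G S n : ℝ)) := by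
    rw [Pb_eq U (fun S => cnt 0 G' S n = k), ← Ex_add]
    refine Ex_mono hp fun S hS => ?_
    have hX0 : (0 : ℝ) ≤ XX A B R G S n := Nat.cast_nonneg _
    by_cases e1 : cnt R G (S ∩ V) n = k
    · by_cases e2 : F0 A B (S \ V) n = 0
      · rw [if_pos e1, if_pos e2]
        by_cases e3 : XX A B R G S n = 0
        · have h4 := SPL_cnt (R := R) (G := G) hdG hS e2 e3
          have h5 : cnt 0 G' S n = k := by
            unfold cnt at e1 ⊢
            rw [h4]
            exact e1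
          rw [if_pos h5]
          linarith
        · have h5 : (1 : ℝ) ≤ XX A B R G S n := by exact_mod_cast Nat.one_le_iff_ne_zero.2 e3
          have h6 : (0 : ℝ) ≤ if cnt 0 G' S n = k then (1 : ℝ) else 0 := by
            split_ifs <;> norm_num
          linarith
      · rw [if_neg e2, mul_zero]
        have h6 : (0 : ℝ) ≤ if cnt 0 G' S n = k then (1 : ℝ) else 0 := by
          split_ifs <;> norm_num
        linarith
    · rw [if_neg e1, zero_mul]
      have h6 : (0 : ℝ) ≤ if cnt 0 G' S n = k then (1 : ℝ) else 0 := by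
        split_ifs <;> norm_num
      linarith
  have h4 := mul_le_mul_of_nonneg_left h2 (Pb_nonneg hp V (fun S => cnt R G S n = k))
  linarith

end Pool.Agent.Work.MP_7d0410_sp
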