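import Pool.Agent.Work.MP_7d0410_sp.Interface

set_option autoImplicit false

namespace Pool.Agent.Work.MP_7d0410_sp

open Finset Filter MeasureTheory ProbabilityTheory
open Pool.Agent.Work.MP_7d0410_cr
open scoped Classical Topology

lemma XCR_len (S : Finset ℕ) (a : ℕ) (hS : ∀ m ∈ S, a ≤ m) (q : ℕ × ℕ) : len S q * a ≤ sm S q := by
  unfold len sm
  rw [← smul_eq_mul]
  exact Finset.card_nsmul_le_sum _ _ _ fun m hm => hS m (mem_seg.1 hm).1

theorem p_XCR : Stmt_XCR := by
  intro S a A x hS ha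
  set T := (runs S).filter (fun q => sm S q ≤ x ∧ q.1 < A ∧ A ≤ q.2) with hT
  set f : ℕ × ℕ → ℕ × ℕ := fun q =>
    ((S.filter (fun m => q.1 ≤ m ∧ m < A)).card, (S.filter (fun m => A ≤ m ∧ m ≤ q.2)).card) with hf
  have hmem : ∀ q ∈ T, q.1 ∈ S ∧ q.2 ∈ S ∧ sm S q ≤ x ∧ q.1 < A ∧ A ≤ q.2 := by
    intro q hq
    rw [hT, Finset.mem_filter] at hq
    obtain ⟨h1, h2, h3⟩ := hq
    obtain ⟨h4, h5, _⟩ := mem_runs.1 h1
    exact ⟨h4, h5, h2, h3.1, h3.2⟩
  have hlen : ∀ q ∈ T, len S q ≤ x / a := by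
    intro q hq
    rw [Nat.le_div_iff_mul_le (by omega)]
    exact (XCR_len S a hS q).trans (hmem q hq).2.2.1
  have hmaps : ∀ q ∈ T, f q ∈ Finset.Icc 1 (x / a) ×ˢ Finset.Icc 1 (x / a) := by
    intro q hq
    obtain ⟨h1, h2, h3, h4, h5⟩ := hmem q hq
    have hl := hlen q hq
    rw [Finset.mem_product, Finset.mem_Icc, Finset.mem_Icc]
    refine ⟨⟨?_, ?_⟩, ⟨?_, ?_⟩⟩
    · exact Finset.card_pos.2 ⟨q.1, Finset.mem_filter.2 ⟨h1, le_rfl, h4⟩⟩
    · refine le_trans (Finset.card_le_card ?_) hl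
      intro m hm
      rw [Finset.mem_filter] at hm
      exact mem_seg.2 ⟨hm.1, hm.2.1, by omega⟩
    · exact Finset.card_pos.2 ⟨q.2, Finset.mem_filter.2 ⟨h2, h5, le_rfl⟩⟩
    · refine le_trans (Finset.card_le_card ?_) hl
      intro m hm
      rw [Finset.mem_filter] at hm
      exact mem_seg.2 ⟨hm.1, by omega, hm.2.2⟩
  have hinj : Set.InjOn f T := by
    have key1 : ∀ q ∈ T, ∀ q' ∈ T, q.1 < q'.1 → (f q').1 < (f q).1 := by
      intro q hq q' hq' h
      obtain ⟨h1, h2, h3, h4, h5⟩ := hmem q hq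
      apply Finset.card_lt_card
      rw [Finset.ssubset_iff_of_subset]
      · refine ⟨q.1, Finset.mem_filter.2 ⟨h1, le_rfl, h4⟩, ?_⟩
        rw [Finset.mem_filter]
        rintro ⟨_, h6, _⟩
        omega
      · intro m hm
        rw [Finset.mem_filter] at hm ⊢
        exact ⟨hm.1, by omega, hm.2.2⟩
    have key2 : ∀ q ∈ T, ∀ q' ∈ T, q.2 < q'.2 → (f q).2 < (f q').2 := by
      intro q hq q' hq' h
      obtain ⟨h1, h2, h3, h4, h5⟩ := hmem q' hq'
      apply Finset.card_lt_card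
      rw [Finset.ssubset_iff_of_subset]
      · refine ⟨q'.2, Finset.mem_filter.2 ⟨h2, h5, le_rfl⟩, ?_⟩
        rw [Finset.mem_filter]
        rintro ⟨_, _, h6⟩
        omega
      · intro m hm
        rw [Finset.mem_filter] at hm ⊢
        exact ⟨hm.1, hm.2.1, by omega⟩
    intro q hq q' hq' h
    rw [Finset.mem_coe] at hq hq'
    have e1 := congrArg Prod.fst h
    have e2 := congrArg Prod.snd h
    apply Prod.ext
    · rcases lt_trichotomy q.1 q'.1 with h1 | h1 | h1
      · have := key1 q hq q' hq' h1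
        omega
      · exact h1
      · have := key1 q' hq' q hq h1
        omega
    · rcases lt_trichotomy q.2 q'.2 with h1 | h1 | h1
      · have := key2 q hq q' hq' h1
        omega
      · exact h1
      · have := key2 q' hq' q hq h1
        omega
  have := Finset.card_le_card_of_injOn f hmaps hinj
  rw [Finset.card_product, Nat.card_Icc, Nat.add_sub_cancel] at this
  rw [pow_two]
  exact this

end Pool.Agent.Work.MP_7d0410_sp
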