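import Pool.Agent.Work.MP_7d0410_sp.Interface

set_option autoImplicit false

namespace Pool.Agent.Work.MP_7d0410_sp

open Finset Filter MeasureTheory ProbabilityTheory
open Pool.Agent.Work.MP_7d0410_cr
open scoped Classical Topology

lemma XXB_harm (x : ℕ) : ∑ r ∈ Finset.Icc 1 x, (1 : ℝ) / r ≤ 1 + Real.log x := by
  have h := harmonic_le_one_add_log x
  rw [harmonic_eq_sum_Icc] at h
  push_cast at h
  simpa [one_div] using h

theorem p_XXB (hNCR : Stmt_NCR) (hXCR : Stmt_XCR) : Stmt_XXB := by
  intro S a A B R G x hS ha hG hRB hx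
  set N := (Finset.Icc 1 x).filter (fun n => x ≤ 1000 * n) with hN
  set P : ℕ × ℕ → Prop := fun q => (q.1 < A ∧ A ≤ q.2) ∨ (q.1 ≤ B ∧ B < q.2) ∨
    (A ≤ q.1 ∧ q.2 ≤ B ∧ q ∉ good R G S) with hP
  set T := (runs S).filter (fun q => sm S q ∈ N ∧ P q) with hT
  have h1 : ∑ n ∈ N, XX A B R G S n = T.card := by
    rw [Finset.card_eq_sum_card_fiberwise (f := fun q => sm S q) (t := N)]
    · refine Finset.sum_congr rfl fun n hn => ?_
      unfold XX
      congr 1
      ext q
      rw [hT, Finset.mem_filter, Finset.mem_filter, Finset.mem_filter]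
      constructor
      · rintro ⟨h2, h3, h4⟩
        exact ⟨⟨h2, h3 ▸ hn, h4⟩, h3⟩
      · rintro ⟨⟨h2, h3, h4⟩, h5⟩
        exact ⟨h2, h5, h4⟩
    · intro q hq
      exact (Finset.mem_filter.1 hq).2.1
  set T1 := (runs S).filter (fun q => sm S q ≤ x ∧ q.1 < A ∧ A ≤ q.2) with hT1
  set T2 := (runs S).filter (fun q => sm S q ≤ x ∧ q.1 < B + 1 ∧ B + 1 ≤ q.2) with hT2
  set T3 := (runs S).filter (fun q => sm S q ≤ x ∧ G * len S q < q.2 - q.1) with hT3
  have hsub : T ⊆ T1 ∪ (T2 ∪ T3) := by
    intro q hq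
    rw [hT, Finset.mem_filter] at hq
    obtain ⟨h2, h3, h4⟩ := hq
    rw [hN, Finset.mem_filter, Finset.mem_Icc] at h3
    obtain ⟨⟨h5, h6⟩, h7⟩ := h3
    rw [Finset.mem_union, Finset.mem_union]
    rcases h4 with h4 | h4 | h4
    · left
      exact Finset.mem_filter.2 ⟨h2, h6, h4⟩
    · right
      left
      exact Finset.mem_filter.2 ⟨h2, h6, by omega, by omega⟩
    · right
      right
      refine Finset.mem_filter.2 ⟨h2, h6, ?_⟩
      obtain ⟨h8, h9, h10⟩ := h4
      have h11 : ¬ (R ≤ len S q ∧ q.2 ≤ q.1 + G * len S q) := by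
        intro h12
        exact h10 (Finset.mem_filter.2 ⟨h2, h12⟩)
      have h13 := sm_le_len_mul S q
      by_cases hR : R ≤ len S q
      · have h14 : ¬ q.2 ≤ q.1 + G * len S q := fun h => h11 ⟨hR, h⟩
        omega
      · exfalso
        have h15 : sm S q ≤ (R - 1) * B := by
          calc sm S q ≤ len S q * q.2 := h13
            _ ≤ (R - 1) * B := Nat.mul_le_mul (by omega) h9
        obtain ⟨R', rfl⟩ : ∃ R', R = R' + 1 := ⟨R - 1, by omega⟩
        rw [Nat.add_sub_cancel] at h15
        have h16 : 1000 * (R' + 1) * B = 1000 * (R' * B) + 1000 * B := by ring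
        rw [h16] at hRB
        have hB : B = 0 := by omega
        rw [hB, Nat.mul_zero] at h15
        omega
  have c1 : (T1.card : ℝ) ≤ ((x : ℝ) / a) ^ 2 := by
    have h2 := hXCR S a A x hS ha
    calc (T1.card : ℝ) ≤ (((x / a) ^ 2 : ℕ) : ℝ) := by exact_mod_cast h2
      _ = ((x / a : ℕ) : ℝ) ^ 2 := by push_cast; ring
      _ ≤ ((x : ℝ) / a) ^ 2 := by
        gcongr
        exact Nat.cast_div_le
  have c2 : (T2.card : ℝ) ≤ ((x : ℝ) / a) ^ 2 := by
    have h2 := hXCR S a (B + 1) x hS ha
    calc (T2.card : ℝ) ≤ (((x / a) ^ 2 : ℕ) : ℝ) := by exact_mod_cast h2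
      _ = ((x / a : ℕ) : ℝ) ^ 2 := by push_cast; ring
      _ ≤ ((x : ℝ) / a) ^ 2 := by
        gcongr
        exact Nat.cast_div_le
  have c3 : (T3.card : ℝ) ≤ x * (1 + Real.log x) / G := by
    have hmaps : ∀ q ∈ T3, len S q ∈ Finset.Icc 1 x := by
      intro q hq
      rw [hT3, Finset.mem_filter] at hq
      rw [Finset.mem_Icc]
      refine ⟨len_pos hq.1, ?_⟩
      have h2 : len S q * 1 ≤ sm S q := by
        unfold len sm
        rw [← smul_eq_mul]
        exact Finset.card_nsmul_le_sum _ _ _ fun m hm => ha.trans (hS m (mem_seg.1 hm).1)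
      omega
    rw [Finset.card_eq_sum_card_fiberwise hmaps]
    push_cast
    have hG' : (0 : ℝ) < G := by exact_mod_cast hG
    have hr : ∀ r ∈ Finset.Icc 1 x, (((T3.filter fun q => len S q = r).card : ℕ) : ℝ) ≤
        x / G * (1 / r) := by
      intro r hr
      rw [Finset.mem_Icc] at hr
      have hr' : (0 : ℝ) < r := by exact_mod_cast hr.1
      have h2 : (T3.filter fun q => len S q = r).card * (G * r) ≤ x := by
        calc (T3.filter fun q => len S q = r).card * (G * r)
            = (T3.filter fun q => len S q = r).card • (G * r) := by rw [smul_eq_mul]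
          _ ≤ ∑ q ∈ T3.filter (fun q => len S q = r), (q.2 - q.1) := by
              apply Finset.card_nsmul_le_sum
              intro q hq
              rw [Finset.mem_filter, hT3, Finset.mem_filter] at hq
              obtain ⟨⟨_, _, h3⟩, h4⟩ := hq
              rw [h4] at h3
              exact h3.le
          _ ≤ ∑ q ∈ (runs S).filter (fun q => len S q = r ∧ sm S q ≤ x), (q.2 - q.1) := by
              apply Finset.sum_le_sum_of_subset
              intro q hq
              rw [Finset.mem_filter, hT3, Finset.mem_filter] at hq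
              exact Finset.mem_filter.2 ⟨hq.1.1, hq.2, hq.1.2.1⟩
          _ ≤ x := hNCR S r x
      have h3 : (((T3.filter fun q => len S q = r).card : ℕ) : ℝ) * (G * r) ≤ x := by
        exact_mod_cast h2
      rw [div_mul_div_comm, mul_one, le_div_iff₀ (by positivity)]
      exact h3
    calc ∑ r ∈ Finset.Icc 1 x, (((T3.filter fun q => len S q = r).card : ℕ) : ℝ)
        ≤ ∑ r ∈ Finset.Icc 1 x, x / G * ((1 : ℝ) / r) := Finset.sum_le_sum hr
      _ = x / G * ∑ r ∈ Finset.Icc 1 x, (1 : ℝ) / r := by rw [Finset.mul_sum]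
      _ ≤ x / G * (1 + Real.log x) :=
          mul_le_mul_of_nonneg_left (XXB_harm x) (by positivity)
      _ = x * (1 + Real.log x) / G := by ring
  have h2 : (T.card : ℝ) ≤ T1.card + (T2.card + T3.card) := by
    have h3 := Finset.card_le_card hsub
    have h4 := Finset.card_union_le T1 (T2 ∪ T3)
    have h5 := Finset.card_union_le T2 T3
    exact_mod_cast (by omega : T.card ≤ T1.card + (T2.card + T3.card))
  have h3 : ∑ n ∈ N, (XX A B R G S n : ℝ) = T.card := by
    rw [← h1]
    push_cast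
    rfl
  rw [h3]
  linarith

end Pool.Agent.Work.MP_7d0410_sp
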