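import Pool.Agent.Work.MP_7d0410_sp.Interface
import Pool.Agent.Work.MP_7d0410_cr.B_BD3
import Pool.Agent.Work.MP_7d0410_cr.B_INT

/-!
# The primes with a sparse random set added: assembly (block FIN)
-/

set_option autoImplicit false

namespace Pool.Agent.Work.MP_7d0410_sp

open Finset Filter MeasureTheory ProbabilityTheory
open Pool.Agent.Work.MP_7d0410_cr
open scoped Classical Topology

/-- the counting function of `repCount = k` -/
noncomputable def FIN_c (P : Set ℕ) (k x : ℕ) : ℕ :=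
  ((Finset.Icc 1 x).filter (fun n => repCount P n = k)).card

lemma FIN_c_mono (P : Set ℕ) (k : ℕ) : Monotone (FIN_c P k) := by
  intro x y h
  exact Finset.card_le_card (Finset.filter_subset_filter _ (Finset.Icc_subset_Icc le_rfl h))

lemma FIN_diff (P : Set ℕ) (k x : ℕ) (ε : ℝ) :
    (DD 0 (2 * x) (SS ε x P) x k : ℝ) ≤ (FIN_c P k x : ℝ) +
      (((Finset.Icc 1 x).filter (fun n => repCount P n ≠ cnt 0 (2 * x) (SS ε x P) n)).card : ℝ) := by
  set A := (Finset.Icc 1 x).filter (fun n => repCount P n = k)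
  set B := (Finset.Icc 1 x).filter (fun n => cnt 0 (2 * x) (SS ε x P) n = k)
  set D := (Finset.Icc 1 x).filter (fun n => repCount P n ≠ cnt 0 (2 * x) (SS ε x P) n)
  have h2 : B ⊆ A ∪ D := by
    intro n hn
    rw [Finset.mem_filter] at hn
    by_cases h : repCount P n = cnt 0 (2 * x) (SS ε x P) n
    · exact Finset.mem_union_left _ (Finset.mem_filter.2 ⟨hn.1, h.trans hn.2⟩)
    · exact Finset.mem_union_right _ (Finset.mem_filter.2 ⟨hn.1, h⟩)
  have h4 : (B.card : ℝ) ≤ A.card + D.card := by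
    exact_mod_cast (Finset.card_le_card h2).trans (Finset.card_union_le _ _)
  exact h4

/-- interpolation between the terms of the subsequence -/
lemma FIN_mono (c : ℕ → ℕ) (hc : Monotone c) (A : ℕ) (hA : 1 ≤ A) (δ : ℝ) (hδ : 0 < δ)
    (h : ∀ᶠ j : ℕ in atTop, δ * ((j ^ A : ℕ) : ℝ) ≤ c (j ^ A)) :
    ∀ᶠ x : ℕ in atTop, δ / 2 * x ≤ c x := by
  obtain ⟨J1, hJ1⟩ := eventually_atTop.1 h
  have hr : ∀ᶠ j : ℕ in atTop, (((j : ℝ) + 1) / j) ^ A < 2 :=
    (INT_lim A).eventually_lt_const (by norm_num)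
  obtain ⟨J2, hJ2⟩ := eventually_atTop.1 hr
  filter_upwards [eventually_ge_atTop ((max J1 (max J2 1)) ^ A)] with x hx
  obtain ⟨j, hj1, hj2⟩ := INT_root A x hA
  have hj : max J1 (max J2 1) ≤ j := by
    by_contra hcon
    push Not at hcon
    have : (j + 1) ^ A ≤ (max J1 (max J2 1)) ^ A := Nat.pow_le_pow_left hcon A
    omega
  have hjJ1 : J1 ≤ j := (le_max_left _ _).trans hj
  have hjJ2 : J2 ≤ j := ((le_max_left _ _).trans (le_max_right _ _)).trans hj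
  have hj0 : 1 ≤ j := ((le_max_right _ _).trans (le_max_right _ _)).trans hj
  have hjR : (0 : ℝ) < j := by exact_mod_cast hj0
  have e1 := hJ1 j hjJ1
  have e3 := hJ2 j hjJ2
  set a : ℝ := ((j ^ A : ℕ) : ℝ) with ha
  set b : ℝ := (((j + 1) ^ A : ℕ) : ℝ) with hb
  have ha0 : 0 < a := by rw [ha]; positivity
  have hrab : (((j : ℝ) + 1) / j) ^ A = b / a := by
    rw [ha, hb, div_pow]; push_cast; rfl
  rw [hrab, div_lt_iff₀ ha0] at e3
  have hxb : (x : ℝ) ≤ b := by rw [hb]; exact_mod_cast hj2.le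
  have c1 : (c (j ^ A) : ℝ) ≤ c x := by exact_mod_cast hc hj1
  calc δ / 2 * x ≤ δ / 2 * (2 * a) := mul_le_mul_of_nonneg_left (by linarith) (by linarith)
    _ = δ * a := by ring
    _ ≤ _ := e1.trans c1

theorem p_FIN.{u} (h1 : Stmt_BCL.{u}) (h2 : Stmt_EDK) (h3 : Stmt_CRG.{u}) (h4 : Stmt_BDQ) :
    Stmt_FIN.{u} := by
  intro Ω _ μ _ E c hc0 hc1 hE
  have hpar : Par c ((1 / 2 - c) / 100) := ⟨hc0, hc1, rfl⟩
  have hθ0 := hpar.t0
  have hθ1 := hpar.t1
  obtain ⟨θ, hθ⟩ : ∃ θ : ℝ, θ = (1 / 2 - c) / 100 := ⟨_, rfl⟩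
  rw [← hθ] at hpar hθ0 hθ1
  choose ρ hρ0 hρ using h2 c θ hpar
  obtain ⟨e, he⟩ : ∃ e : ℕ → ℝ, ∀ k, e k = min θ (ρ k / 1000) := ⟨_, fun _ => rfl⟩
  have he0 : ∀ k, 0 < e k := fun k => by
    rw [he k]
    exact lt_min hθ0 (by have := hρ0 k; positivity)
  have heθ : ∀ k, e k ≤ θ := fun k => (he k).le.trans (min_le_left _ _)
  have heρ : ∀ k, e k ≤ ρ k / 1000 := fun k => (he k).le.trans (min_le_right _ _)
  have he1 : ∀ k, e k < 1 / 4 := fun k => by linarith [heθ k]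
  have he2 : ∀ k, e k < 4 * θ := fun k => by linarith [heθ k]
  have key : ∀ᵐ ω ∂μ, ∀ k : ℕ, Tendsto (fun j : ℕ => ((DD 0 (2 * j ^ AA (e k))
      (SS (e k) (j ^ AA (e k)) (primesPlus E ω)) (j ^ AA (e k)) k : ℝ) -
      Ex (pp c) (UU (e k) (j ^ AA (e k))) (fun S => (DD 0 (2 * j ^ AA (e k)) S (j ^ AA (e k)) k : ℝ))) /
      ((j ^ AA (e k) : ℕ) : ℝ)) atTop (𝓝 0) := by
    rw [ae_all_iff]
    intro k
    exact h1 μ E c hc0 hE _ (he0 k) (he1 k) k
  filter_upwards [key, h3 μ E c hc0 hc1 hE] with ω hB hcnt k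
  have hP : ∀ m ∈ primesPlus E ω, 1 ≤ m := by
    intro m hm
    rcases hm with hm | hm
    · exact hm.one_lt.le
    · omega
  have hρk := hρ0 k
  obtain ⟨ε, hε⟩ : ∃ ε, ε = e k := ⟨_, rfl⟩
  have k0 := he0 k
  have k1 := he1 k
  have k2 := he2 k
  have k3 := heρ k
  have hBk := hB k
  rw [← hε] at k0 k1 k2 k3 hBk
  have hA : 1 ≤ AA ε := by
    unfold AA
    have : 0 < 2 / ε := by positivity
    exact Nat.one_le_iff_ne_zero.2 (Nat.ceil_pos.2 this).ne'
  have hxj : Tendsto (fun j : ℕ => j ^ AA ε) atTop atTop := tendsto_pow_atTop (by omega)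
  have hbad := hxj.eventually (p_BD3 (primesPlus E ω) hcnt ε k0 k1)
  have hex := hxj.eventually (hρ k ε k0 k2)
  have hcon := (Metric.tendsto_nhds.1 hBk) (ρ k / 10) (by linarith)
  have hfin : ∀ᶠ j : ℕ in atTop, 7 / 10 * ρ k * ((j ^ AA ε : ℕ) : ℝ) ≤
      FIN_c (primesPlus E ω) k (j ^ AA ε) := by
    filter_upwards [hbad, hex, hcon, eventually_ge_atTop 1] with j hj1 hj2 hj3 hj4
    rw [Real.dist_eq, sub_zero] at hj3
    have hx1 : 1 ≤ j ^ AA ε := Nat.one_le_pow _ _ hj4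
    generalize j ^ AA ε = x at hj1 hj2 hj3 hx1 ⊢
    have hx0 : (0 : ℝ) < x := by exact_mod_cast hx1
    have e1 := FIN_diff (primesPlus E ω) k x ε
    have e2 : (((Finset.Icc 1 x).filter (fun n => repCount (primesPlus E ω) n ≠
        cnt 0 (2 * x) (SS ε x (primesPlus E ω)) n)).card : ℝ) ≤ 200 * ε * x :=
      (Nat.cast_le.2 (h4 (primesPlus E ω) ε x hP)).trans hj1
    rw [abs_div, abs_of_pos hx0, div_lt_iff₀ hx0] at hj3
    have e3 := (abs_lt.1 hj3).1
    have e4 : 200 * ε * x ≤ ρ k / 5 * x := by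
      refine mul_le_mul_of_nonneg_right ?_ hx0.le
      linarith
    nlinarith
  refine ⟨7 / 10 * ρ k / 2, by positivity, ?_⟩
  exact FIN_mono (FIN_c (primesPlus E ω) k) (FIN_c_mono _ _) (AA ε) hA (7 / 10 * ρ k) (by positivity) hfin

end Pool.Agent.Work.MP_7d0410_sp
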