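import Pool.Agent.Work.MP_7d0410_sp.Interface

/-! # Block GD1 (helper7): the good lengths which belong to `(Y, 4Y]`. -/

set_option autoImplicit false

namespace Pool.Agent.Work.MP_7d0410_sp

open Finset Filter MeasureTheory ProbabilityTheory
open Pool.Agent.Work.MP_7d0410_cr
open scoped Classical Topology

lemma GD1_Y {θ : ℝ} (h : θ ≤ 1 / 200) {x Y : ℕ} (hx : 1 ≤ x) (hY : Y ≤ A2 θ x) :
    (Y : ℝ) ≤ (x : ℝ) ^ (27 / 50 : ℝ) := by
  have hx' : (1 : ℝ) ≤ x := by exact_mod_cast hx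
  have h1 : (A2 θ x : ℝ) ≤ (x : ℝ) ^ (1 / 2 + 8 * θ) := Nat.floor_le (by positivity)
  have h2 : (x : ℝ) ^ (1 / 2 + 8 * θ) ≤ (x : ℝ) ^ (27 / 50 : ℝ) :=
    Real.rpow_le_rpow_of_exponent_le hx' (by linarith)
  have h3 : (Y : ℝ) ≤ A2 θ x := by exact_mod_cast hY
  linarith

lemma GD1_num {C3 X y n l : ℝ} (hX : 1 ≤ X) (hC : 1 ≤ C3) (h1 : 10 ^ 8 * C3 ≤ X ^ (1 / 10 : ℝ))
    (hn : X ≤ 1000 * n) (hy0 : 0 ≤ y) (hy : y ≤ X ^ (27 / 50 : ℝ)) (hl : 1 ≤ l) :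
    y * X ^ (1 / 3 : ℝ) ≤ n ∧ 2 * y ≤ n ∧ 96 * C3 * y ^ 3 ≤ n ^ 2 * l := by
  have hX0 : 0 < X := by linarith
  have e1 : X ^ (27 / 50 : ℝ) * X ^ (1 / 3 : ℝ) * X ^ (1 / 10 : ℝ) ≤ X := by
    rw [← Real.rpow_add hX0, ← Real.rpow_add hX0]
    nth_rewrite 2 [← Real.rpow_one X]
    exact Real.rpow_le_rpow_of_exponent_le hX (by norm_num)
  have e2 : X ^ (27 / 50 : ℝ) * X ^ (1 / 10 : ℝ) ≤ X := by
    rw [← Real.rpow_add hX0]
    nth_rewrite 2 [← Real.rpow_one X]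
    exact Real.rpow_le_rpow_of_exponent_le hX (by norm_num)
  have e3 : (X ^ (27 / 50 : ℝ)) ^ 3 * X ^ (1 / 10 : ℝ) ≤ X ^ 2 := by
    rw [← Real.rpow_natCast (X ^ (27 / 50 : ℝ)) 3, ← Real.rpow_mul hX0.le,
      ← Real.rpow_add hX0, ← Real.rpow_natCast X 2]
    exact Real.rpow_le_rpow_of_exponent_le hX (by norm_num)
  have hA : (10 : ℝ) ^ 8 ≤ X ^ (1 / 10 : ℝ) := by nlinarith
  have hB : 0 ≤ X ^ (1 / 3 : ℝ) := by positivity
  have hD : 0 ≤ X ^ (27 / 50 : ℝ) := by positivity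
  refine ⟨?_, ?_, ?_⟩
  · have s1 : y * X ^ (1 / 3 : ℝ) ≤ X ^ (27 / 50 : ℝ) * X ^ (1 / 3 : ℝ) :=
      mul_le_mul_of_nonneg_right hy hB
    have s2 : 0 ≤ X ^ (27 / 50 : ℝ) * X ^ (1 / 3 : ℝ) := by positivity
    have s3 : X ^ (27 / 50 : ℝ) * X ^ (1 / 3 : ℝ) * 10 ^ 8 ≤
        X ^ (27 / 50 : ℝ) * X ^ (1 / 3 : ℝ) * X ^ (1 / 10 : ℝ) :=
      mul_le_mul_of_nonneg_left hA s2
    linarith
  · have s3 : X ^ (27 / 50 : ℝ) * 10 ^ 8 ≤ X ^ (27 / 50 : ℝ) * X ^ (1 / 10 : ℝ) :=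
      mul_le_mul_of_nonneg_left hA hD
    linarith
  · have s1 : y ^ 3 ≤ (X ^ (27 / 50 : ℝ)) ^ 3 := pow_le_pow_left₀ hy0 hy 3
    have s2 : (10 ^ 8 * C3) * y ^ 3 ≤ X ^ (1 / 10 : ℝ) * (X ^ (27 / 50 : ℝ)) ^ 3 :=
      mul_le_mul h1 s1 (by positivity) (by positivity)
    have s3 : X ^ 2 ≤ (1000 * n) ^ 2 := pow_le_pow_left₀ hX0.le hn 2
    have s4 : n ^ 2 * 1 ≤ n ^ 2 * l := mul_le_mul_of_nonneg_left hl (sq_nonneg n)
    have s5 : 0 ≤ C3 * y ^ 3 := by positivity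
    nlinarith

lemma GD1_pin (y h : ℕ) : pin y h ≤ h := by
  unfold pin
  refine (Finset.card_filter_le _ _).trans ?_
  simp

/-- the sum over a union of disjoint subsets -/
lemma GD1_sum {ι : Type} (I : Finset ι) (B : Finset ℕ) (s : ι → Finset ℕ) (w : ℝ)
    (hs : ∀ i ∈ I, s i ⊆ B) (hd : ∀ i ∈ I, ∀ j ∈ I, i ≠ j → Disjoint (s i) (s j))
    (hw : ∀ i ∈ I, w ≤ ∑ r ∈ s i, 1 / (r : ℝ)) :
    I.card * w ≤ ∑ r ∈ B, 1 / (r : ℝ) := by
  have h1 : I.card * w ≤ ∑ i ∈ I, ∑ r ∈ s i, 1 / (r : ℝ) := by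
    rw [← nsmul_eq_mul]
    exact Finset.card_nsmul_le_sum I _ w hw
  refine h1.trans ?_
  rw [← Finset.sum_biUnion hd]
  refine Finset.sum_le_sum_of_subset_of_nonneg ?_ (fun r _ _ => by positivity)
  intro r hr
  obtain ⟨i, hi, hr⟩ := Finset.mem_biUnion.1 hr
  exact hs i hi hr

theorem p_GD1 (hC : Stmt_GDC) (hA : Stmt_GDA) (hB : Stmt_GDB) (hT : Stmt_BTT) : Stmt_GD1 := by
  obtain ⟨C1, c10, hC1, hc10, hC⟩ := hC
  obtain ⟨C3, hC3, hT⟩ := hT
  refine ⟨C1, c10 / (96 * C3), hC1, by positivity, ?_⟩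
  intro θ hθ0 hθ
  have ev1 : ∀ᶠ x : ℕ in atTop, 10 ^ 8 * C3 ≤ (x : ℝ) ^ (1 / 10 : ℝ) :=
    ((tendsto_rpow_atTop (by norm_num : (0 : ℝ) < 1 / 10)).comp
      tendsto_natCast_atTop_atTop).eventually_ge_atTop _
  have ev2 : ∀ᶠ x : ℕ in atTop, 1 ≤ Real.log (x : ℝ) :=
    (Real.tendsto_log_atTop.comp tendsto_natCast_atTop_atTop).eventually_ge_atTop _
  filter_upwards [hC θ hθ0 hθ, ev1, ev2, eventually_ge_atTop 1] with x hC h1 h2 hx1 n Y hn hnx hY1 hY2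
  have hx1' : (1 : ℝ) ≤ x := by exact_mod_cast hx1
  have hnr : (x : ℝ) ≤ 1000 * (n : ℝ) := by exact_mod_cast hn
  obtain ⟨E3, E2, E4⟩ := GD1_num hx1' hC3 h1 hnr (Nat.cast_nonneg Y) (GD1_Y hθ hx1 hY2) h2
  have hY0 : 1 ≤ Y := by
    have : 0 < A1 θ x := by
      unfold A1
      rw [Nat.ceil_pos]
      positivity
    omega
  have hYr : (1 : ℝ) ≤ Y := by exact_mod_cast hY0
  have h2Yn : 2 * Y ≤ n := by exact_mod_cast E2
  set l : ℝ := Real.log x with hl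
  set lam : ℕ := ⌊C1 * n * l / (4 * Y)⌋₊ with hlam
  set ρ : ℕ := n / Y + 1 with hρ
  have hkey := hC n Y lam ρ hn hnx hY1 hY2 rfl rfl
  set I : Finset ℕ := (Finset.range (3 * Y)).filter (fun i => Y + (i + 1) * lam ≤ 4 * Y ∧
    3 * ρ + 2 ≤ pin (Y + i * lam) lam) with hI
  have hIm : ∀ i ∈ I, Y + (i + 1) * lam ≤ 4 * Y ∧ 3 * ρ + 2 ≤ pin (Y + i * lam) lam := by
    intro i hi
    exact (Finset.mem_filter.1 hi).2
  -- the numbers `α`, `β`
  have hch : ∀ i : ℕ, ∃ α β : ℕ, i ∈ I → (Y + i * lam < α ∧ α < β ∧ β ≤ Y + i * lam + lam ∧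
      ρ + 1 ≤ pin α (β - α) ∧ ∀ Λ n r : ℕ, lam ≤ Λ → 1 ≤ r → r ≤ ρ → α * r < n →
      n < β * r → Y + i * lam + lam ≤ 2 * n → GR Λ n r) := by
    intro i
    by_cases hi : i ∈ I
    · obtain ⟨α, β, h⟩ := hA (Y + i * lam) lam ρ (hIm i hi).2
      exact ⟨α, β, fun _ => h⟩
    · exact ⟨0, 0, fun h => absurd h hi⟩
  choose α β hαβ using hch
  have hnY : (n : ℝ) / Y ≤ ρ := by
    rw [div_le_iff₀ (by linarith)]
    have : n < (n / Y + 1) * Y := by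
      have := Nat.lt_div_mul_add (a := n) (b := Y) (by omega)
      nlinarith
    have h' : (n : ℝ) < ((n / Y + 1 : ℕ) : ℝ) * Y := by exact_mod_cast this
    exact h'.le
  have hlamle : (lam : ℝ) ≤ C1 * n * l / (4 * Y) := Nat.floor_le (by positivity)
  -- every rich cell
  have hcell : ∀ i ∈ I, (ρ : ℝ) * l / (3 * C3) ≤ ((β i - α i : ℕ) : ℝ) := by
    intro i hi
    obtain ⟨a1, a2, a3, a4, -⟩ := hαβ i hi
    set L : ℕ := β i - α i with hL
    have b1 : ρ + 1 ≤ L := a4.trans (GD1_pin _ _)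
    have b2 : 2 ≤ L := by
      have b0 : 1 ≤ ρ := Nat.le_add_left 1 _
      omega
    have b3 := hT (α i) L b2
    have b4 : (ρ : ℝ) + 1 ≤ C3 * (L / Real.log L) := by
      refine le_trans ?_ b3
      exact_mod_cast a4
    have b5 : (x : ℝ) ^ (1 / 3 : ℝ) ≤ L := by
      have c1 : (x : ℝ) ^ (1 / 3 : ℝ) ≤ n / Y := by
        rw [le_div_iff₀ (by linarith), mul_comm]
        exact E3
      have c2 : (ρ : ℝ) + 1 ≤ L := by exact_mod_cast b1
      linarith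
    have b6 : l / 3 ≤ Real.log L := by
      have c1 := Real.log_le_log (by positivity) b5
      rw [Real.log_rpow (by linarith)] at c1
      linarith
    have b7 : 0 < Real.log L := by linarith
    have b8 : ((ρ : ℝ) + 1) * Real.log L ≤ C3 * L := by
      have := mul_le_mul_of_nonneg_right b4 b7.le
      rwa [mul_assoc, div_mul_cancel₀ _ b7.ne'] at this
    rw [div_le_iff₀ (by positivity)]
    have b9 : (ρ : ℝ) * (l / 3) ≤ (ρ : ℝ) * Real.log L :=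
      mul_le_mul_of_nonneg_left b6 (Nat.cast_nonneg _)
    nlinarith
  have hsum := GD1_sum I ((Finset.Icc 1 x).filter (fun r => GR (LL C1 x r) n r ∧ Y * r < n ∧
    n ≤ 4 * Y * r)) (fun i => (Finset.Icc 1 n).filter (fun r => α i * r < n ∧ n < β i * r))
    ((ρ : ℝ) * l / (3 * C3) / (32 * Y)) ?_ ?_ ?_
  · refine le_trans ?_ hsum
    have e1 : (I.card : ℝ) * ((ρ : ℝ) * l / (3 * C3) / (32 * Y)) =
        (I.card * (ρ * l)) / (96 * C3 * Y) := by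
      field_simp
      ring
    rw [e1, div_le_div_iff₀ (by positivity) (by positivity)]
    have e2 := mul_le_mul_of_nonneg_right hkey (by positivity : (0 : ℝ) ≤ 96 * C3)
    nlinarith
  · intro i hi r hr
    obtain ⟨hr1, hr2, hr3⟩ := Finset.mem_filter.1 hr
    obtain ⟨hr4, hr5⟩ := Finset.mem_Icc.1 hr1
    obtain ⟨a1, a2, a3, a4, a5⟩ := hαβ i hi
    have hI2 := (hIm i hi).1
    have b1 : Y * r < n := by
      refine lt_of_le_of_lt (Nat.mul_le_mul_right r ?_) hr2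
      have : 0 ≤ i * lam := Nat.zero_le _
      omega
    have b0 : Y + i * lam + lam ≤ 4 * Y := by
      have : (i + 1) * lam = i * lam + lam := by ring
      omega
    have b2 : n ≤ 4 * Y * r := by
      have c1 : β i ≤ 4 * Y := a3.trans b0
      exact hr3.le.trans (Nat.mul_le_mul_right r c1)
    refine Finset.mem_filter.2 ⟨Finset.mem_Icc.2 ⟨hr4, hr5.trans hnx⟩, ?_, b1, b2⟩
    refine a5 _ n r ?_ hr4 ?_ hr2 hr3 (by omega)
    · have c1 : (lam : ℝ) ≤ LL C1 x r := by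
        unfold LL
        refine le_trans ?_ (Nat.le_ceil _)
        refine hlamle.trans ?_
        rw [div_le_iff₀ (by positivity)]
        have c2 : (n : ℝ) ≤ 4 * Y * r := by exact_mod_cast b2
        have c3 := mul_le_mul_of_nonneg_left c2 (by positivity : (0 : ℝ) ≤ C1 * l)
        rw [← hl]
        nlinarith
      exact_mod_cast c1
    · have : r ≤ n / Y := by
        rw [Nat.le_div_iff_mul_le (by omega)]
        nlinarith
      omega
  · intro i hi j hj hij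
    have key : ∀ i ∈ I, ∀ j ∈ I, i < j → ∀ r, ¬ (n < β i * r ∧ α j * r < n) := by
      rintro i hi j hj hij r ⟨c1, c2⟩
      obtain ⟨-, -, a3, -, -⟩ := hαβ i hi
      obtain ⟨b1, -, -, -, -⟩ := hαβ j hj
      have c3 : β i ≤ α j := by
        have : (i + 1) * lam ≤ j * lam := Nat.mul_le_mul_right lam hij
        have e : (i + 1) * lam = i * lam + lam := by ring
        omega
      have c4 := Nat.mul_le_mul_right r c3
      omega
    rw [Finset.disjoint_left]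
    intro r h1 h2
    obtain ⟨-, p1, p2⟩ := Finset.mem_filter.1 h1
    obtain ⟨-, p3, p4⟩ := Finset.mem_filter.1 h2
    rcases Nat.lt_or_gt_of_ne hij with h | h
    · exact key i hi j hj h r ⟨p2, p3⟩
    · exact key j hj i hi h r ⟨p4, p1⟩
  · intro i hi
    obtain ⟨a1, a2, a3, a4, -⟩ := hαβ i hi
    have hI2 := (hIm i hi).1
    have hc := hcell i hi
    have b0 : Y + i * lam + lam ≤ 4 * Y := by
      have : (i + 1) * lam = i * lam + lam := by ring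
      omega
    have b1 : Y ≤ α i := by
      have : 0 ≤ i * lam := Nat.zero_le _
      omega
    have b2 : 32 * Y ^ 2 ≤ n * (β i - α i) := by
      have c1 : (32 : ℝ) * Y ^ 2 ≤ n * ((β i - α i : ℕ) : ℝ) := by
        have c2 : (n : ℝ) * ((ρ : ℝ) * l / (3 * C3)) ≤ n * ((β i - α i : ℕ) : ℝ) :=
          mul_le_mul_of_nonneg_left hc (Nat.cast_nonneg _)
        refine le_trans ?_ c2
        have c3 : (n : ℝ) * ((n : ℝ) / Y * l / (3 * C3)) ≤ (n : ℝ) * ((ρ : ℝ) * l / (3 * C3)) := by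
          gcongr
        refine le_trans ?_ c3
        have c4 : (n : ℝ) * ((n : ℝ) / Y * l / (3 * C3)) = n ^ 2 * l / (3 * C3 * Y) := by
          field_simp
        rw [c4, le_div_iff₀ (by positivity)]
        nlinarith
      exact_mod_cast c1
    have b3 := hB n Y (α i) (β i) hY0 b1 a2 (a3.trans b0) b2
    refine le_trans ?_ b3
    exact div_le_div_of_nonneg_right hc (by positivity)

end Pool.Agent.Work.MP_7d0410_sp
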