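import Pool.Agent.Work.MP_7d0410_sp.Interface

/-! # Block GDB: the lengths which belong to an interval -/

set_option autoImplicit false

namespace Pool.Agent.Work.MP_7d0410_sp

open Finset Filter MeasureTheory ProbabilityTheory
open Pool.Agent.Work.MP_7d0410_cr
open scoped Classical Topology

theorem p_GDB : Stmt_GDB := by
  intro n Y α β hY hYα hαβ hβ hn
  have hn0 : 0 < n := by
    rcases Nat.eq_zero_or_pos n with h | h
    · subst h
      rw [zero_mul] at hn
      have : 0 < Y ^ 2 := by positivity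
      omega
    · exact h
  have hα0 : 0 < α := by omega
  have hβ0 : 0 < β := by omega
  obtain ⟨d, hd⟩ : ∃ d, d = β - α := ⟨_, rfl⟩
  rw [← hd] at hn ⊢
  have hd2 : (β : ℝ) = α + d := by
    have : β = α + d := by omega
    exact_mod_cast this
  -- the bounds
  have hlo1 : n < β * (n / β + 1) := Nat.lt_mul_div_succ n hβ0
  have hhi1 : α * ((n - 1) / α) ≤ n - 1 := Nat.mul_div_le _ _
  have hhi2 : n - 1 < α * ((n - 1) / α + 1) := Nat.lt_mul_div_succ _ hα0
  have hlo2 : β * (n / β) ≤ n := Nat.mul_div_le _ _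
  have hsub : Finset.Icc (n / β + 1) ((n - 1) / α) ⊆
      (Finset.Icc 1 n).filter (fun r => α * r < n ∧ n < β * r) := by
    intro r hr
    obtain ⟨h1, h2⟩ := Finset.mem_Icc.1 hr
    have h3 : α * r ≤ α * ((n - 1) / α) := Nat.mul_le_mul_left α h2
    have h4 : β * (n / β + 1) ≤ β * r := Nat.mul_le_mul_left β h1
    have h5 : r ≤ α * r := Nat.le_mul_of_pos_left r hα0
    rw [Finset.mem_filter, Finset.mem_Icc]
    exact ⟨⟨(Nat.le_add_left 1 _).trans h1, by omega⟩, by omega, by omega⟩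
  have hnR : (0 : ℝ) < n := by exact_mod_cast hn0
  have hYR : (1 : ℝ) ≤ Y := by exact_mod_cast hY
  have hαR : (Y : ℝ) ≤ α := by exact_mod_cast hYα
  have hβR : (β : ℝ) ≤ 4 * Y := by exact_mod_cast hβ
  have hdR : (0 : ℝ) ≤ d := Nat.cast_nonneg d
  have hnd : 32 * (Y : ℝ) ^ 2 ≤ n * d := by exact_mod_cast hn
  -- the number of these `r`
  have h1 : (n : ℝ) / α - 1 ≤ (((n - 1) / α : ℕ) : ℝ) := by
    have h2 : n ≤ α * ((n - 1) / α + 1) := by omega
    have h3 : (n : ℝ) ≤ α * ((((n - 1) / α : ℕ) : ℝ) + 1) := by exact_mod_cast h2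
    have h4 : (n : ℝ) / α ≤ (((n - 1) / α : ℕ) : ℝ) + 1 := by
      rw [div_le_iff₀ (by linarith), mul_comm]
      exact h3
    linarith
  have h2 : ((n / β : ℕ) : ℝ) ≤ (n : ℝ) / β := Nat.cast_div_le
  have h3 : 2 * ((n : ℝ) * d / (32 * (Y : ℝ) ^ 2)) ≤ (n : ℝ) / α - (n : ℝ) / β := by
    have hα' : (0 : ℝ) < α := by linarith
    have hβ' : (0 : ℝ) < β := by linarith
    have e1 : (n : ℝ) / α - (n : ℝ) / β = n * d / (α * β) := by
      rw [div_sub_div _ _ hα'.ne' hβ'.ne']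
      congr 1
      rw [hd2]
      ring
    rw [e1]
    have e2 : 2 * ((n : ℝ) * d / (32 * (Y : ℝ) ^ 2)) = n * d / (16 * (Y : ℝ) ^ 2) := by
      have : (Y : ℝ) ≠ 0 := by linarith
      field_simp
      ring
    rw [e2]
    refine div_le_div_of_nonneg_left (by positivity) (by positivity) ?_
    nlinarith
  have hw : 1 ≤ (n : ℝ) * d / (32 * (Y : ℝ) ^ 2) := by
    rw [le_div_iff₀ (by positivity)]
    linarith
  have hcard : (n : ℝ) * d / (32 * (Y : ℝ) ^ 2) ≤
      ((Finset.Icc (n / β + 1) ((n - 1) / α)).card : ℝ) := by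
    rw [Nat.card_Icc]
    have h4 : (((n - 1) / α : ℕ) : ℝ) + 1 - ((n / β : ℕ) + 1 : ℝ) ≤
        (((n - 1) / α + 1 - (n / β + 1) : ℕ) : ℝ) := by
      have h5 : (n - 1) / α + 1 ≤ ((n - 1) / α + 1 - (n / β + 1)) + (n / β + 1) := by omega
      have h6 : (((n - 1) / α + 1 : ℕ) : ℝ) ≤
          ((((n - 1) / α + 1 - (n / β + 1)) + (n / β + 1) : ℕ) : ℝ) := Nat.cast_le.2 h5
      rw [Nat.cast_add ((n - 1) / α + 1 - (n / β + 1))] at h6
      rw [Nat.cast_add, Nat.cast_add, Nat.cast_one] at h6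
      linarith
    linarith
  have hfin : ((Finset.Icc (n / β + 1) ((n - 1) / α)).card : ℝ) * ((Y : ℝ) / n) ≤
      ∑ r ∈ (Finset.Icc 1 n).filter (fun r => α * r < n ∧ n < β * r), 1 / (r : ℝ) := by
    refine le_trans ?_ (Finset.sum_le_sum_of_subset_of_nonneg hsub fun i _ _ => by positivity)
    rw [← nsmul_eq_mul]
    refine Finset.card_nsmul_le_sum _ _ _ fun r hr => ?_
    have h4 := Finset.mem_filter.1 (hsub hr)
    have h5 : 1 ≤ r := (Finset.mem_Icc.1 h4.1).1
    have h6 : Y * r ≤ n := (Nat.mul_le_mul_right r hYα).trans h4.2.1.le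
    have h7 : (Y : ℝ) * r ≤ n := by exact_mod_cast h6
    have h8 : (0 : ℝ) < r := by exact_mod_cast h5
    rw [div_le_div_iff₀ hnR h8]
    linarith
  refine le_trans ?_ hfin
  have h4 : (n : ℝ) * d / (32 * (Y : ℝ) ^ 2) * ((Y : ℝ) / n) ≤
      ((Finset.Icc (n / β + 1) ((n - 1) / α)).card : ℝ) * ((Y : ℝ) / n) :=
    mul_le_mul_of_nonneg_right hcard (by positivity)
  refine le_trans (le_of_eq ?_) h4
  have : (Y : ℝ) ≠ 0 := by linarith
  field_simp

end Pool.Agent.Work.MP_7d0410_sp
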