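import Pool.Agent.Work.MP_7d0410_sp.Interface

/-! # Block GDA: a rich cell -/

set_option autoImplicit false

namespace Pool.Agent.Work.MP_7d0410_sp

open Finset Filter MeasureTheory ProbabilityTheory
open Pool.Agent.Work.MP_7d0410_cr
open scoped Classical Topology

/-- the elements smaller and larger than an element -/
theorem GDA_card (P : Finset ℕ) {x : ℕ} (hx : x ∈ P) :
    (P.filter (fun p => p < x)).card + (P.filter (fun p => x < p)).card + 1 = P.card := by
  have h1 := Finset.card_filter_add_card_filter_not (s := P) (fun p => p < x)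
  have h2 : P.filter (fun p => ¬ p < x) = insert x (P.filter (fun p => x < p)) := by
    ext p
    simp only [Finset.mem_filter, Finset.mem_insert, not_lt]
    constructor
    · rintro ⟨h3, h4⟩
      rcases eq_or_lt_of_le h4 with h5 | h5
      · exact Or.inl h5.symm
      · exact Or.inr ⟨h3, h5⟩
    · rintro (h3 | ⟨h3, h4⟩)
      · subst h3
        exact ⟨hx, le_refl _⟩
      · exact ⟨h3, h4.le⟩
  have h3 : x ∉ P.filter (fun p => x < p) := by
    intro h4
    exact lt_irrefl _ (Finset.mem_filter.1 h4).2
  rw [h2, Finset.card_insert_of_notMem h3] at h1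
  omega

/-- the element with `k` smaller elements -/
theorem GDA_split (P : Finset ℕ) (k : ℕ) (hk : k < P.card) :
    ∃ x ∈ P, (P.filter (fun p => p < x)).card = k := by
  induction k with
  | zero =>
    have hne : P.Nonempty := Finset.card_pos.1 hk
    refine ⟨P.min' hne, Finset.min'_mem P hne, ?_⟩
    rw [Finset.card_eq_zero]
    refine Finset.filter_eq_empty_iff.2 fun p hp h => ?_
    exact absurd (Finset.min'_le P p hp) (not_le.2 h)
  | succ k ih =>
    obtain ⟨x, hx, h1⟩ := ih (by omega)
    have h2 := GDA_card P hx
    have hne : (P.filter (fun p => x < p)).Nonempty := Finset.card_pos.1 (by omega)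
    have h3 := Finset.min'_mem _ hne
    rw [Finset.mem_filter] at h3
    refine ⟨_, h3.1, ?_⟩
    have h4 : P.filter (fun p => p < (P.filter (fun p => x < p)).min' hne) =
        insert x (P.filter (fun p => p < x)) := by
      ext p
      simp only [Finset.mem_filter, Finset.mem_insert]
      constructor
      · rintro ⟨h5, h6⟩
        rcases lt_trichotomy p x with h7 | h7 | h7
        · exact Or.inr ⟨h5, h7⟩
        · exact Or.inl h7
        · exact absurd (Finset.min'_le _ p (Finset.mem_filter.2 ⟨h5, h7⟩)) (not_le.2 h6)
      · rintro (h5 | ⟨h5, h6⟩)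
        · subst h5
          exact ⟨hx, h3.2⟩
        · exact ⟨h5, h6.trans h3.2⟩
    rw [h4, Finset.card_insert_of_notMem, h1]
    intro h5
    exact lt_irrefl _ (Finset.mem_filter.1 h5).2

theorem p_GDA : Stmt_GDA := by
  intro a lam ρ hm
  set P : Finset ℕ := (Finset.Ioc a (a + lam)).filter Nat.Prime with hP
  have hm' : 3 * ρ + 2 ≤ P.card := hm
  obtain ⟨α, hα, hα1⟩ := GDA_split P ρ (by omega)
  obtain ⟨β, hβ, hβ1⟩ := GDA_split P (2 * ρ + 1) (by omega)
  have hα2 := GDA_card P hα
  have hβ2 := GDA_card P hβ
  have hab : α < β := by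
    by_contra hc
    have : P.filter (fun p => p < β) ⊆ P.filter (fun p => p < α) := by
      intro p hp
      rw [Finset.mem_filter] at hp ⊢
      exact ⟨hp.1, by omega⟩
    have := Finset.card_le_card this
    omega
  have hα3 := Finset.mem_filter.1 (hP ▸ hα)
  have hβ3 := Finset.mem_filter.1 (hP ▸ hβ)
  have hα4 := Finset.mem_Ioc.1 hα3.1
  have hβ4 := Finset.mem_Ioc.1 hβ3.1
  refine ⟨α, β, hα4.1, hab, hβ4.2, ?_, ?_⟩
  · have h1 : P.filter (fun p => α < p) ⊆
        (Finset.Ioc α (α + (β - α))).filter Nat.Prime ∪ P.filter (fun p => β < p) := by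
      intro p hp
      rw [Finset.mem_filter] at hp
      rw [Finset.mem_union, Finset.mem_filter, Finset.mem_filter, Finset.mem_Ioc]
      rcases le_or_gt p β with h2 | h2
      · left
        have h3 := Finset.mem_filter.1 (hP ▸ hp.1)
        exact ⟨⟨hp.2, by omega⟩, h3.2⟩
      · right
        exact ⟨hp.1, h2⟩
    have h2 := (Finset.card_le_card h1).trans (Finset.card_union_le _ _)
    unfold pin
    omega
  · intro Λ n r hΛ hr hrρ hn1 hn2 hn3
    refine ⟨?_, ?_⟩
    · have h1 : P.filter (fun p => p < α) ⊆ (Finset.range (n + 1)).filter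
          (fun p => p.Prime ∧ r * p < n ∧ n ≤ r * (p + Λ)) := by
        intro p hp
        rw [Finset.mem_filter] at hp
        have h3 := Finset.mem_filter.1 (hP ▸ hp.1)
        have h4 := Finset.mem_Ioc.1 h3.1
        have h5 : r * p < n := by
          have : r * p ≤ r * α := Nat.mul_le_mul_left r hp.2.le
          rw [mul_comm r α] at this
          omega
        have h6 : p ≤ r * p := Nat.le_mul_of_pos_left p (by omega)
        have h7 : n ≤ r * (p + Λ) := by
          have : r * β ≤ r * (p + Λ) := Nat.mul_le_mul_left r (by omega)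
          rw [mul_comm r β] at this
          omega
        rw [Finset.mem_filter, Finset.mem_range]
        exact ⟨by omega, h3.2, h5, h7⟩
      have h2 := Finset.card_le_card h1
      omega
    · have h1 : P.filter (fun p => β < p) ⊆ (Finset.range (2 * n + 1)).filter
          (fun p => p.Prime ∧ n < r * p ∧ r * p ≤ n + r * Λ) := by
        intro p hp
        rw [Finset.mem_filter] at hp
        have h3 := Finset.mem_filter.1 (hP ▸ hp.1)
        have h4 := Finset.mem_Ioc.1 h3.1
        have h5 : n < r * p := by
          have : r * β ≤ r * p := Nat.mul_le_mul_left r hp.2.le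
          rw [mul_comm r β] at this
          omega
        have h7 : r * p ≤ n + r * Λ := by
          have h8 : r * p ≤ r * (α + Λ) := Nat.mul_le_mul_left r (by omega)
          have h9 : r * (α + Λ) = α * r + r * Λ := by ring
          omega
        rw [Finset.mem_filter, Finset.mem_range]
        exact ⟨by omega, h3.2, h5, h7⟩
      have h2 := Finset.card_le_card h1
      omega

end Pool.Agent.Work.MP_7d0410_sp
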