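import Pool.Agent.Work.MP_7d0410_sp.Interface

/-!
# Block CHB: the bound of Chebyshev
-/

set_option autoImplicit false

namespace Pool.Agent.Work.MP_7d0410_sp

open Finset Filter MeasureTheory ProbabilityTheory
open Pool.Agent.Work.MP_7d0410_cr
open scoped Classical Topology

theorem CHB_theta (Y : ℕ) : Chebyshev.theta ((4 * Y : ℕ) : ℝ) - Chebyshev.theta (Y : ℝ) =
    ∑ p ∈ (Finset.Ioc Y (Y + 3 * Y)).filter Nat.Prime, Real.log p := by
  rw [Chebyshev.theta_eq_sum_Icc, Chebyshev.theta_eq_sum_Icc, Nat.floor_natCast, Nat.floor_natCast]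
  have h1 : (Finset.Icc 0 (4 * Y)).filter Nat.Prime =
      (Finset.Icc 0 Y).filter Nat.Prime ∪ (Finset.Ioc Y (Y + 3 * Y)).filter Nat.Prime := by
    rw [← Finset.filter_union]
    congr 1
    ext n
    simp only [Finset.mem_union, Finset.mem_Icc, Finset.mem_Ioc]
    omega
  have h2 : Disjoint ((Finset.Icc 0 Y).filter Nat.Prime)
      ((Finset.Ioc Y (Y + 3 * Y)).filter Nat.Prime) := by
    rw [Finset.disjoint_left]
    intro n hn hn'
    rw [Finset.mem_filter, Finset.mem_Icc] at hn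
    rw [Finset.mem_filter, Finset.mem_Ioc] at hn'
    omega
  rw [h1, Finset.sum_union h2]
  ring

/-- CHB. -/
theorem p_CHB : Stmt_CHB := by
  refine ⟨1 / 2, by norm_num, ?_⟩
  have h0 := (isLittleO_log_rpow_atTop (r := 1 / 2) (by norm_num)).def
    (show (0 : ℝ) < 1 / 50 by norm_num)
  rw [Filter.eventually_atTop] at h0
  obtain ⟨s₀, hs₀⟩ := h0
  rw [Filter.eventually_atTop]
  refine ⟨max 4 ⌈s₀⌉₊, fun Y hY => ?_⟩
  have hY4 : 4 ≤ Y := (le_max_left _ _).trans hY
  have hYs : s₀ ≤ Y := (Nat.le_ceil s₀).trans (by exact_mod_cast (le_max_right _ _).trans hY)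
  have hYr : (4 : ℝ) ≤ Y := by exact_mod_cast hY4
  have key : ∀ s : ℝ, s₀ ≤ s → 1 ≤ s → Real.log s ≤ 1 / 50 * Real.sqrt s := by
    intro s h1 h2
    have h3 := hs₀ s h1
    rw [Real.norm_of_nonneg (Real.log_nonneg h2), Real.norm_of_nonneg (by positivity),
      ← Real.sqrt_eq_rpow] at h3
    exact h3
  have k1 := key (4 * Y) (by linarith) (by linarith)
  have k2 := key (4 * Y + 1) (by linarith) (by linarith)
  have hsq : Real.sqrt (4 * Y) * Real.sqrt (4 * Y) = 4 * Y := Real.mul_self_sqrt (by linarith)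
  have hsq1 : Real.sqrt (4 * Y + 1) ≤ 4 * Y + 1 := by
    rw [Real.sqrt_le_left (by linarith)]
    nlinarith
  have hge := Chebyshev.theta_ge (4 * Y)
  have hle := Chebyshev.theta_le_log4_mul_x (x := (Y : ℝ)) (by linarith)
  have hlog4 : Real.log 4 = 2 * Real.log 2 := by
    rw [show (4 : ℝ) = 2 ^ 2 by norm_num, Real.log_pow]
    norm_num
  have hlog2 := Real.log_two_gt_d9
  rw [hlog4] at hle
  push_cast at hge
  have hs0 : 0 ≤ Real.sqrt (4 * Y) := Real.sqrt_nonneg _
  have h5 : 2 * Real.sqrt (4 * Y) * Real.log (4 * Y) ≤ 4 / 25 * Y := by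
    calc 2 * Real.sqrt (4 * Y) * Real.log (4 * Y)
        ≤ 2 * Real.sqrt (4 * Y) * (1 / 50 * Real.sqrt (4 * Y)) :=
          mul_le_mul_of_nonneg_left k1 (by linarith)
      _ = 4 / 25 * Y := by
          have : 2 * Real.sqrt (4 * Y) * (1 / 50 * Real.sqrt (4 * Y)) =
            1 / 25 * (Real.sqrt (4 * Y) * Real.sqrt (4 * Y)) := by ring
          rw [this, hsq]
          ring
  have h6 : (Y : ℝ) ≤ Chebyshev.theta ((4 * Y : ℕ) : ℝ) - Chebyshev.theta (Y : ℝ) := by
    push_cast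
    have h7 : (0.6931471803 : ℝ) * Y ≤ Real.log 2 * Y :=
      mul_le_mul_of_nonneg_right hlog2.le (by linarith)
    nlinarith
  rw [CHB_theta] at h6
  have hlY : 0 < Real.log Y := Real.log_pos (by linarith)
  have hl4 : Real.log 4 ≤ Real.log Y := Real.log_le_log (by norm_num) hYr
  have h8 : ∑ p ∈ (Finset.Ioc Y (Y + 3 * Y)).filter Nat.Prime, Real.log p ≤
      (pin Y (3 * Y) : ℝ) * (2 * Real.log Y) := by
    unfold pin
    rw [← nsmul_eq_mul]
    refine Finset.sum_le_card_nsmul _ _ _ (fun p hp => ?_)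
    rw [Finset.mem_filter, Finset.mem_Ioc] at hp
    have hp1 : (0 : ℝ) < p := by exact_mod_cast hp.2.pos
    have hp2 : (p : ℝ) ≤ 4 * Y := by
      have : p ≤ 4 * Y := by omega
      exact_mod_cast this
    calc Real.log p ≤ Real.log (4 * Y) := Real.log_le_log hp1 hp2
      _ = Real.log 4 + Real.log Y := Real.log_mul (by norm_num) (by linarith)
      _ ≤ 2 * Real.log Y := by linarith
  have h9 : (Y : ℝ) ≤ (pin Y (3 * Y) : ℝ) * (2 * Real.log Y) := h6.trans h8
  have h10 : 1 / 2 * ((Y : ℝ) / Real.log Y) = (Y : ℝ) / (2 * Real.log Y) := by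
    field_simp
  rw [h10, div_le_iff₀ (by linarith)]
  exact h9

end Pool.Agent.Work.MP_7d0410_sp
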