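import Pool.Agent.Work.MP_7d0410_sp.Interface

/-! # MP_7d0410, primes plus a sparse set: block GDC, many cells are rich (helper94) -/

set_option autoImplicit false

namespace Pool.Agent.Work.MP_7d0410_sp

open Finset Filter MeasureTheory ProbabilityTheory
open Pool.Agent.Work.MP_7d0410_cr
open scoped Classical Topology

lemma GDC_pin_add (y h h' : ℕ) : pin y (h + h') = pin y h + pin (y + h) h' := by
  unfold pin
  rw [← Finset.card_union_of_disjoint, ← Finset.filter_union]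
  · congr 2
    ext m
    simp only [Finset.mem_Ioc, Finset.mem_union]
    omega
  · refine Finset.disjoint_left.2 ?_
    intro m hm hm'
    have h1 := (Finset.mem_Ioc.1 (Finset.mem_filter.1 hm).1).2
    have h2 := (Finset.mem_Ioc.1 (Finset.mem_filter.1 hm').1).1
    omega

lemma GDC_pin_le (y h : ℕ) : pin y h ≤ h := by
  unfold pin
  refine (Finset.card_filter_le _ _).trans ?_
  rw [Nat.card_Ioc]
  omega

lemma GDC_pin_mul (y lam M : ℕ) : pin y (M * lam) = ∑ i ∈ Finset.range M, pin (y + i * lam) lam := by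
  induction M with
  | zero => simp [pin]
  | succ M ih => rw [Finset.sum_range_succ, ← ih, Nat.succ_mul, GDC_pin_add]

lemma GDC_cover (Y lam : ℕ) (hl : 1 ≤ lam) :
    pin Y (3 * Y) ≤ ∑ i ∈ Finset.range (3 * Y / lam), pin (Y + i * lam) lam + lam := by
  rw [← GDC_pin_mul]
  have h1 : 3 * Y = 3 * Y / lam * lam + 3 * Y % lam := by
    rw [mul_comm (3 * Y / lam) lam]
    exact (Nat.div_add_mod _ _).symm
  have h2 : pin Y (3 * Y) = pin Y (3 * Y / lam * lam + 3 * Y % lam) := congrArg _ h1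
  rw [h2, GDC_pin_add]
  have h3 := GDC_pin_le (Y + 3 * Y / lam * lam) (3 * Y % lam)
  have h4 : 3 * Y % lam < lam := Nat.mod_lt _ hl
  omega

lemma GDC_cells (Y lam : ℕ) (hl : 1 ≤ lam) : Finset.range (3 * Y / lam) =
    (Finset.range (3 * Y)).filter (fun i => Y + (i + 1) * lam ≤ 4 * Y) := by
  ext i
  simp only [Finset.mem_range, Finset.mem_filter]
  have h1 : i < 3 * Y / lam ↔ (i + 1) * lam ≤ 3 * Y := Nat.le_div_iff_mul_le hl
  rw [h1]
  constructor
  · intro h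
    have h2 : i + 1 ≤ (i + 1) * lam := Nat.le_mul_of_pos_right _ hl
    exact ⟨by omega, by omega⟩
  · intro h
    omega

/-- the count of the primes in (Y, 4 Y] by cells -/
lemma GDC_count (Y lam ρ : ℕ) (hl : 1 ≤ lam) (B : ℝ) (hB : ∀ y, (pin y lam : ℝ) ≤ B) :
    (pin Y (3 * Y) : ℝ) ≤
      (((Finset.range (3 * Y)).filter (fun i => Y + (i + 1) * lam ≤ 4 * Y ∧
        3 * ρ + 2 ≤ pin (Y + i * lam) lam)).card : ℝ) * B +
      (3 * Y / lam : ℝ) * (3 * ρ + 1) + lam := by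
  have hB0 : 0 ≤ B := le_trans (Nat.cast_nonneg _) (hB 0)
  have h1 : (pin Y (3 * Y) : ℝ) ≤ ∑ i ∈ Finset.range (3 * Y / lam), (pin (Y + i * lam) lam : ℝ) + lam := by
    exact_mod_cast GDC_cover Y lam hl
  have h2 : ∑ i ∈ Finset.range (3 * Y / lam), (pin (Y + i * lam) lam : ℝ) ≤
      ∑ i ∈ Finset.range (3 * Y / lam),
        ((if 3 * ρ + 2 ≤ pin (Y + i * lam) lam then B else 0) + (3 * (ρ : ℝ) + 1)) := by
    refine Finset.sum_le_sum fun i _ => ?_
    split_ifs with h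
    · have := hB (Y + i * lam)
      have h3 : (0 : ℝ) ≤ ρ := Nat.cast_nonneg _
      linarith
    · have h3 : pin (Y + i * lam) lam ≤ 3 * ρ + 1 := by omega
      have h4 : (pin (Y + i * lam) lam : ℝ) ≤ 3 * (ρ : ℝ) + 1 := by exact_mod_cast h3
      linarith
  rw [Finset.sum_add_distrib, Finset.sum_const, nsmul_eq_mul, ← Finset.sum_filter,
    Finset.sum_const, nsmul_eq_mul, GDC_cells Y lam hl, Finset.filter_filter] at h2
  have h3 : ((((Finset.range (3 * Y)).filter (fun i => Y + (i + 1) * lam ≤ 4 * Y)).card : ℕ) : ℝ) ≤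
      3 * Y / lam := by
    rw [← GDC_cells Y lam hl, Finset.card_range]
    have := Nat.cast_div_le (α := ℝ) (m := 3 * Y) (n := lam)
    push_cast at this
    exact this
  have h4 := mul_le_mul_of_nonneg_right h3 (show (0 : ℝ) ≤ 3 * (ρ : ℝ) + 1 by positivity)
  rw [← GDC_cells Y lam hl] at h2 h4
  linarith

/-- the estimates -/
lemma GDC_core (L q n Y lam ρ C1 C3 c0 N P B ll lY : ℝ) (hL : 1 ≤ L) (hY : 0 < Y)
    (hn : n = q * Y) (hq : 20 ≤ q) (hC1 : 1 ≤ C1) (hc0 : 0 < c0) (hC3 : 1 ≤ C3)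
    (hC1c : 120 ≤ C1 * c0) (hN : 0 ≤ N)
    (hlam1 : lam ≤ C1 * q * L / 4) (hlam2 : C1 * q * L / 4 ≤ lam + 1)
    (hρ1 : q ≤ ρ) (hρ2 : ρ ≤ q + 1) (hll : L / 3 ≤ ll) (hlY : 0 < lY) (hlY' : lY ≤ L)
    (hb : C1 * n * L ^ 2 ≤ c0 * Y ^ 2)
    (hP : c0 * (Y / lY) ≤ P) (hB : B = C3 * (lam / ll))
    (hcnt : P ≤ N * B + 3 * Y / lam * (3 * ρ + 1) + lam) :
    c0 / (3 * C3 * C1) * Y ≤ N * (ρ * L) := by
  have hL0 : 0 < L := by linarith
  have hq0 : 0 < q := by linarith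
  have hCqL : 20 ≤ C1 * q * L := by
    have h1 : 20 ≤ C1 * q := by nlinarith
    nlinarith
  have hlam : C1 * q * L / 5 ≤ lam := by linarith
  have hlam0 : 0 < lam := by linarith
  have hll0 : 0 < ll := by linarith
  have h1 : c0 * Y / L ≤ P := by
    refine le_trans ?_ hP
    rw [mul_div_assoc]
    exact mul_le_mul_of_nonneg_left (div_le_div_of_nonneg_left hY.le hlY hlY') hc0.le
  have h2 : 3 * Y / lam * (3 * ρ + 1) ≤ c0 * Y / L / 2 := by
    have h3 : 3 * ρ + 1 ≤ 4 * q := by linarith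
    have h4 : 3 * Y / lam ≤ 3 * Y / (C1 * q * L / 5) :=
      div_le_div_of_nonneg_left (by positivity) (by positivity) hlam
    have h5 : 3 * Y / lam * (3 * ρ + 1) ≤ 3 * Y / (C1 * q * L / 5) * (4 * q) :=
      mul_le_mul h4 h3 (by nlinarith) (by positivity)
    have h6 : 3 * Y / (C1 * q * L / 5) * (4 * q) = 60 * Y / (C1 * L) := by
      field_simp
      ring
    have h7 : 60 * Y / (C1 * L) ≤ c0 * Y / L / 2 := by
      rw [div_div, div_le_div_iff₀ (by positivity) (by positivity)]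
      have h8 : 0 ≤ Y * L := by positivity
      nlinarith
    linarith
  have h3 : lam ≤ c0 * Y / L / 4 := by
    refine hlam1.trans ?_
    rw [div_le_div_iff_of_pos_right (by norm_num), le_div_iff₀ hL0]
    rw [hn] at hb
    have h4 : C1 * q * L * L * Y ≤ c0 * Y * Y := by nlinarith
    exact le_of_mul_le_mul_right h4 hY
  have h4 : c0 * Y / L / 4 ≤ N * B := by linarith
  have h5 : B ≤ 3 * C3 * lam / L := by
    rw [hB, mul_div_assoc', div_le_div_iff₀ hll0 hL0]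
    have : 0 ≤ C3 * lam := by positivity
    nlinarith
  have h6 : c0 * Y / L / 4 ≤ N * (3 * C3 * lam / L) := h4.trans (mul_le_mul_of_nonneg_left h5 hN)
  have h7 : c0 * Y ≤ N * (12 * C3 * lam) := by
    have h8 := mul_le_mul_of_nonneg_right h6 (show 0 ≤ 4 * L by positivity)
    have h9 : c0 * Y / L / 4 * (4 * L) = c0 * Y := by field_simp
    have h10 : N * (3 * C3 * lam / L) * (4 * L) = N * (12 * C3 * lam) := by
      field_simp
      ring
    rw [h9, h10] at h8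
    exact h8
  have h8 : 12 * C3 * lam ≤ 3 * C3 * C1 * (ρ * L) := by
    have h9 : C1 * q * L ≤ C1 * ρ * L := by
      apply mul_le_mul_of_nonneg_right _ hL0.le
      exact mul_le_mul_of_nonneg_left hρ1 (by linarith)
    have h10 : lam ≤ C1 * ρ * L / 4 := by linarith
    have h11 := mul_le_mul_of_nonneg_left h10 (show 0 ≤ 12 * C3 by linarith)
    linarith
  have h9 : c0 * Y ≤ N * (3 * C3 * C1 * (ρ * L)) := h7.trans (mul_le_mul_of_nonneg_left h8 hN)
  rw [div_mul_eq_mul_div, div_le_iff₀ (by positivity)]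
  linarith

theorem p_GDC (h1 : Stmt_BTT) (h2 : Stmt_CHB) : Stmt_GDC := by
  obtain ⟨C3, hC3, hBT⟩ := h1
  obtain ⟨c0, hc0, hCH⟩ := h2
  obtain ⟨Y0, hY0⟩ := eventually_atTop.1 hCH
  obtain ⟨C1, hC1, hC1c⟩ : ∃ C1 : ℝ, 1 ≤ C1 ∧ 120 ≤ C1 * c0 := by
    refine ⟨max 1 (120 / c0), le_max_left _ _, ?_⟩
    have := mul_le_mul_of_nonneg_right (le_max_right 1 (120 / c0)) hc0.le
    rwa [div_mul_cancel₀ _ hc0.ne'] at this
  refine ⟨C1, c0 / (3 * C3 * C1), hC1, by positivity, ?_⟩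
  intro θ hθ hθ1
  have e0 : ∀ᶠ x : ℕ in atTop, (3 : ℝ) ≤ x :=
    tendsto_natCast_atTop_atTop.eventually_ge_atTop 3
  have e1 : ∀ᶠ x : ℕ in atTop, (1000 : ℝ) ≤ (x : ℝ) ^ (3 / 50 : ℝ) :=
    ((tendsto_rpow_atTop (by norm_num)).comp tendsto_natCast_atTop_atTop).eventually_ge_atTop 1000
  have e2 : ∀ᶠ x : ℕ in atTop, (20 : ℝ) ≤ (x : ℝ) ^ (2 / 5 : ℝ) :=
    ((tendsto_rpow_atTop (by norm_num)).comp tendsto_natCast_atTop_atTop).eventually_ge_atTop 20
  have e3 : ∀ᶠ x : ℕ in atTop, (5 : ℝ) ≤ (x : ℝ) ^ (1 / 15 : ℝ) :=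
    ((tendsto_rpow_atTop (by norm_num)).comp tendsto_natCast_atTop_atTop).eventually_ge_atTop 5
  have e4 : ∀ᶠ x : ℕ in atTop, (Y0 : ℝ) ≤ (x : ℝ) ^ (1 / 2 : ℝ) :=
    ((tendsto_rpow_atTop (by norm_num)).comp tendsto_natCast_atTop_atTop).eventually_ge_atTop _
  have e5 : ∀ᶠ x : ℕ in atTop, C1 / c0 * Real.log x ^ (2 : ℝ) ≤ (x : ℝ) ^ (8 * θ) := by
    have h3 := isLittleO_log_rpow_rpow_atTop (2 : ℝ) (show 0 < 8 * θ by positivity)
    have h4 := h3.comp_tendsto tendsto_natCast_atTop_atTop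
    have h5 := h4.bound (show 0 < c0 / C1 by positivity)
    filter_upwards [h5, e0] with x hx hx3
    simp only [Function.comp_apply, Real.norm_eq_abs] at hx
    have h6 : 0 ≤ Real.log x := Real.log_nonneg (by linarith)
    rw [abs_of_nonneg (Real.rpow_nonneg h6 _), abs_of_nonneg (by positivity)] at hx
    have h7 := mul_le_mul_of_nonneg_left hx (show 0 ≤ C1 / c0 by positivity)
    have h8 : C1 / c0 * (c0 / C1 * (x : ℝ) ^ (8 * θ)) = (x : ℝ) ^ (8 * θ) := by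
      field_simp
    rw [h8] at h7
    exact h7
  filter_upwards [e0, e1, e2, e3, e4, e5] with x hx3 hx1 hx2 hx4 hx5 hx6
  intro n Y lam ρ hn hn' hY1 hY2 hlam hρ
  have hX0 : (0 : ℝ) < x := by linarith
  have hX1 : (1 : ℝ) ≤ x := by linarith
  have hL1 : 1 ≤ Real.log x := by
    rw [Real.le_log_iff_exp_le hX0]
    exact (Real.exp_one_lt_d9.le.trans (by norm_num)).trans hx3
  have hY1' : (x : ℝ) ^ (1 / 2 + 4 * θ) ≤ Y := by
    have := Nat.le_ceil ((x : ℝ) ^ (1 / 2 + 4 * θ))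
    exact this.trans (by exact_mod_cast hY1)
  have hY2' : (Y : ℝ) ≤ (x : ℝ) ^ (1 / 2 + 8 * θ) := by
    have := Nat.floor_le (show 0 ≤ (x : ℝ) ^ (1 / 2 + 8 * θ) by positivity)
    exact le_trans (by exact_mod_cast hY2) this
  have hYpos : (0 : ℝ) < Y := lt_of_lt_of_le (by positivity) hY1'
  have hYpos' : 0 < Y := by exact_mod_cast hYpos
  have hY3 : (Y : ℝ) ≤ (x : ℝ) ^ (27 / 50 : ℝ) :=
    hY2'.trans (Real.rpow_le_rpow_of_exponent_le hX1 (by linarith))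
  have hYx : (Y : ℝ) ≤ x := by
    have := Real.rpow_le_rpow_of_exponent_le hX1 (show (27 / 50 : ℝ) ≤ 1 by norm_num)
    rw [Real.rpow_one] at this
    exact hY3.trans this
  have hY4 : (x : ℝ) ^ (1 / 2 : ℝ) ≤ Y :=
    le_trans (Real.rpow_le_rpow_of_exponent_le hX1 (by linarith)) hY1'
  have hY0' : Y0 ≤ Y := by exact_mod_cast hx5.trans hY4
  have hnx : (x : ℝ) ≤ 1000 * n := by exact_mod_cast hn
  have hnx' : (n : ℝ) ≤ x := by exact_mod_cast hn'
  -- the quotient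
  obtain ⟨q, hq⟩ : ∃ q : ℝ, q = n / Y := ⟨_, rfl⟩
  have hnq : (n : ℝ) = q * Y := by rw [hq, div_mul_cancel₀ _ hYpos.ne']
  have hq1 : (x : ℝ) ^ (2 / 5 : ℝ) ≤ q := by
    rw [hq, le_div_iff₀ hYpos]
    have h3 : (x : ℝ) ^ (2 / 5 : ℝ) * Y ≤ (x : ℝ) ^ (2 / 5 : ℝ) * (x : ℝ) ^ (27 / 50 : ℝ) :=
      mul_le_mul_of_nonneg_left hY3 (by positivity)
    have h4 : 1000 * ((x : ℝ) ^ (2 / 5 : ℝ) * (x : ℝ) ^ (27 / 50 : ℝ)) ≤ x := by
      have h5 : (x : ℝ) ^ (3 / 50 : ℝ) * ((x : ℝ) ^ (2 / 5 : ℝ) * (x : ℝ) ^ (27 / 50 : ℝ)) = x := by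
        rw [← Real.rpow_add hX0, ← Real.rpow_add hX0]
        norm_num
      calc 1000 * ((x : ℝ) ^ (2 / 5 : ℝ) * (x : ℝ) ^ (27 / 50 : ℝ))
          ≤ (x : ℝ) ^ (3 / 50 : ℝ) * ((x : ℝ) ^ (2 / 5 : ℝ) * (x : ℝ) ^ (27 / 50 : ℝ)) :=
            mul_le_mul_of_nonneg_right hx1 (by positivity)
        _ = x := h5
    linarith
  have hq20 : 20 ≤ q := hx2.trans hq1
  -- the width
  have hlamr : C1 * n * Real.log x / (4 * Y) = C1 * q * Real.log x / 4 := by
    rw [hnq]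
    field_simp
  rw [hlamr] at hlam
  have hpos : 0 ≤ C1 * q * Real.log x / 4 := by positivity
  have hlam1 : (lam : ℝ) ≤ C1 * q * Real.log x / 4 := by
    rw [hlam]
    exact Nat.floor_le hpos
  have hlam2 : C1 * q * Real.log x / 4 ≤ (lam : ℝ) + 1 := by
    rw [hlam]
    exact (Nat.lt_floor_add_one _).le
  have hCq : q ≤ C1 * q * Real.log x := by
    have h3 : q ≤ C1 * q := by nlinarith
    nlinarith
  have hlam3 : q / 5 ≤ lam := by linarith
  have hlam4 : (x : ℝ) ^ (1 / 3 : ℝ) ≤ lam := by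
    have h3 : (x : ℝ) ^ (2 / 5 : ℝ) = (x : ℝ) ^ (1 / 15 : ℝ) * (x : ℝ) ^ (1 / 3 : ℝ) := by
      rw [← Real.rpow_add hX0]
      norm_num
    have h4 : 5 * (x : ℝ) ^ (1 / 3 : ℝ) ≤ (x : ℝ) ^ (2 / 5 : ℝ) := by
      rw [h3]
      exact mul_le_mul_of_nonneg_right hx4 (by positivity)
    linarith
  have hlam5 : (2 : ℝ) ≤ lam := by linarith
  have hlam6 : 2 ≤ lam := by exact_mod_cast hlam5
  have hll : Real.log x / 3 ≤ Real.log lam := by
    have h3 := Real.log_le_log (by positivity) hlam4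
    rw [Real.log_rpow hX0] at h3
    linarith
  -- `ρ`
  have hρ1 : q ≤ ρ := by
    rw [hq, div_le_iff₀ hYpos, hρ]
    have h3 : n < Y * (n / Y + 1) := Nat.lt_mul_div_succ n hYpos'
    have h4 : n ≤ (n / Y + 1) * Y := by
      rw [mul_comm]
      exact h3.le
    exact_mod_cast h4
  have hρ2 : (ρ : ℝ) ≤ q + 1 := by
    rw [hρ, hq]
    have := Nat.cast_div_le (α := ℝ) (m := n) (n := Y)
    push_cast
    linarith
  have hlY : 0 < Real.log Y := by
    refine Real.log_pos ?_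
    have h3 : (1 : ℝ) < x := by linarith
    have h4 := Real.one_lt_rpow h3 (show (0 : ℝ) < 1 / 2 by norm_num)
    linarith
  have hb : C1 * n * Real.log x ^ 2 ≤ c0 * (Y : ℝ) ^ 2 := by
    have h3 : (x : ℝ) * (x : ℝ) ^ (8 * θ) ≤ (Y : ℝ) ^ 2 := by
      have h4 : (x : ℝ) * (x : ℝ) ^ (8 * θ) = ((x : ℝ) ^ (1 / 2 + 4 * θ)) ^ 2 := by
        rw [← Real.rpow_natCast, ← Real.rpow_mul hX0.le]
        nth_rewrite 1 [← Real.rpow_one (x : ℝ)]
        rw [← Real.rpow_add hX0]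
        congr 1
        push_cast
        ring
      rw [h4]
      exact pow_le_pow_left₀ (by positivity) hY1' 2
    have h5 : C1 * Real.log x ^ 2 ≤ c0 * (x : ℝ) ^ (8 * θ) := by
      have h6 := mul_le_mul_of_nonneg_left hx6 hc0.le
      rw [Real.rpow_two] at h6
      have h7 : c0 * (C1 / c0 * Real.log x ^ 2) = C1 * Real.log x ^ 2 := by field_simp
      rw [h7] at h6
      exact h6
    calc C1 * n * Real.log x ^ 2 = n * (C1 * Real.log x ^ 2) := by ring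
      _ ≤ x * (c0 * (x : ℝ) ^ (8 * θ)) := mul_le_mul hnx' h5 (by positivity) (by positivity)
      _ = c0 * ((x : ℝ) * (x : ℝ) ^ (8 * θ)) := by ring
      _ ≤ c0 * (Y : ℝ) ^ 2 := mul_le_mul_of_nonneg_left h3 hc0.le
  refine GDC_core (Real.log x) q n Y lam ρ C1 C3 c0 _ (pin Y (3 * Y)) (C3 * (lam / Real.log lam))
    (Real.log lam) (Real.log Y) hL1 hYpos hnq hq20 hC1 hc0 hC3 hC1c (Nat.cast_nonneg _) hlam1 hlam2
    hρ1 hρ2 hll hlY (Real.log_le_log hYpos hYx) hb (hY0 Y hY0') rfl ?_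
  exact GDC_count Y lam ρ (by omega) _ (fun y => hBT y lam hlam6)

end Pool.Agent.Work.MP_7d0410_sp
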