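import Pool.Agent.Work.MP_7d0410_sp.Interface

/-!
# Block GDR: the good lengths
-/

set_option autoImplicit false

namespace Pool.Agent.Work.MP_7d0410_sp

open Finset Filter MeasureTheory ProbabilityTheory
open Pool.Agent.Work.MP_7d0410_cr
open scoped Classical Topology

namespace GDR

/-- the number of scales -/
lemma scales {θ : ℝ} (h0 : 0 < θ) : ∀ᶠ x : ℕ in atTop, ∃ N : ℕ, θ * Real.log x ≤ N ∧
    ∀ i < N, 16 * A1 θ x * 4 ^ i ≤ A2 θ x := by
  have hl : Tendsto (fun x : ℕ => Real.log (x : ℝ)) atTop atTop :=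
    Real.tendsto_log_atTop.comp tendsto_natCast_atTop_atTop
  have h1 : ∀ᶠ x : ℕ in atTop, Real.log 64 / (2 * θ) ≤ Real.log (x : ℝ) :=
    hl.eventually_ge_atTop _
  have hr : Tendsto (fun x : ℕ => (x : ℝ) ^ (1 / 2 : ℝ)) atTop atTop :=
    (tendsto_rpow_atTop (by norm_num)).comp tendsto_natCast_atTop_atTop
  have h2 : ∀ᶠ x : ℕ in atTop, 2 ≤ (x : ℝ) ^ (1 / 2 : ℝ) := hr.eventually_ge_atTop _
  filter_upwards [h1, h2, eventually_ge_atTop 2] with x h1 h2 h3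
  have hx1 : (1 : ℝ) ≤ (x : ℝ) := by
    have : (2 : ℝ) ≤ (x : ℝ) := by exact_mod_cast h3
    linarith
  have hx0 : (0 : ℝ) < (x : ℝ) := by linarith
  have e1 : (2 : ℝ) ≤ (x : ℝ) ^ (1 / 2 + 4 * θ) :=
    h2.trans (Real.rpow_le_rpow_of_exponent_le hx1 (by linarith))
  have e2 : (2 : ℝ) ≤ (x : ℝ) ^ (1 / 2 + 8 * θ) :=
    h2.trans (Real.rpow_le_rpow_of_exponent_le hx1 (by linarith))
  have a1 : (A1 θ x : ℝ) ≤ 2 * (x : ℝ) ^ (1 / 2 + 4 * θ) := by
    have := Nat.ceil_lt_add_one (a := (x : ℝ) ^ (1 / 2 + 4 * θ)) (by linarith)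
    unfold A1
    linarith
  have a1p : 0 < A1 θ x := by
    unfold A1
    exact Nat.ceil_pos.2 (by linarith)
  have a2 : (x : ℝ) ^ (1 / 2 + 8 * θ) / 2 ≤ (A2 θ x : ℝ) := by
    have := Nat.lt_floor_add_one ((x : ℝ) ^ (1 / 2 + 8 * θ))
    unfold A2
    linarith
  have hsplit : (x : ℝ) ^ (1 / 2 + 8 * θ) = (x : ℝ) ^ (1 / 2 + 4 * θ) * (x : ℝ) ^ (4 * θ) := by
    rw [← Real.rpow_add hx0]
    congr 1
    ring
  have h64 : (64 : ℝ) * (x : ℝ) ^ (2 * θ) ≤ (x : ℝ) ^ (4 * θ) := by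
    have : (64 : ℝ) ≤ (x : ℝ) ^ (2 * θ) := by
      rw [div_le_iff₀ (by positivity)] at h1
      rw [Real.rpow_def_of_pos hx0]
      calc (64 : ℝ) = Real.exp (Real.log 64) := (Real.exp_log (by norm_num)).symm
        _ ≤ _ := Real.exp_le_exp.2 h1
    have e : (x : ℝ) ^ (4 * θ) = (x : ℝ) ^ (2 * θ) * (x : ℝ) ^ (2 * θ) := by
      rw [← Real.rpow_add hx0]
      congr 1
      ring
    rw [e]
    exact mul_le_mul_of_nonneg_right this (by positivity)
  have hK : (x : ℝ) ^ (2 * θ) * (16 * A1 θ x : ℝ) ≤ (A2 θ x : ℝ) := by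
    have hp : (0 : ℝ) < (x : ℝ) ^ (1 / 2 + 4 * θ) := by positivity
    have hq : (0 : ℝ) < (x : ℝ) ^ (2 * θ) := by positivity
    calc (x : ℝ) ^ (2 * θ) * (16 * A1 θ x : ℝ)
        ≤ (x : ℝ) ^ (2 * θ) * (16 * (2 * (x : ℝ) ^ (1 / 2 + 4 * θ))) := by gcongr
      _ = (x : ℝ) ^ (1 / 2 + 4 * θ) * (64 * (x : ℝ) ^ (2 * θ)) / 2 := by ring
      _ ≤ (x : ℝ) ^ (1 / 2 + 4 * θ) * (x : ℝ) ^ (4 * θ) / 2 := by gcongr
      _ = (x : ℝ) ^ (1 / 2 + 8 * θ) / 2 := by rw [hsplit]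
      _ ≤ _ := a2
  set K : ℕ := A2 θ x / (16 * A1 θ x) with hKdef
  refine ⟨Nat.log 4 K + 1, ?_, ?_⟩
  · have hlt : K < 4 ^ (Nat.log 4 K + 1) := Nat.lt_pow_succ_log_self (by norm_num) K
    have hA : A2 θ x < 4 ^ (Nat.log 4 K + 1) * (16 * A1 θ x) := by
      have := Nat.lt_mul_of_div_lt (a := A2 θ x) (b := 4 ^ (Nat.log 4 K + 1)) (c := 16 * A1 θ x)
        hlt (by positivity)
      linarith
    have hA' : (A2 θ x : ℝ) < 4 ^ (Nat.log 4 K + 1) * (16 * A1 θ x) := by exact_mod_cast hA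
    have hlt2 : (x : ℝ) ^ (2 * θ) < 4 ^ (Nat.log 4 K + 1) := by
      have hpos : (0 : ℝ) < 16 * A1 θ x := by
        have : (0 : ℝ) < A1 θ x := by exact_mod_cast a1p
        linarith
      exact lt_of_mul_lt_mul_right (lt_of_le_of_lt hK hA') hpos.le
    have hlog := Real.log_lt_log (by positivity) hlt2
    rw [Real.log_rpow hx0, Real.log_pow] at hlog
    have h4 : Real.log 4 ≤ 2 := by
      have : (4 : ℝ) = 2 ^ (2 : ℕ) := by norm_num
      rw [this, Real.log_pow]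
      have := Real.log_two_lt_d9
      push_cast
      linarith
    have hN : ((Nat.log 4 K + 1 : ℕ) : ℝ) * Real.log 4 ≤ ((Nat.log 4 K + 1 : ℕ) : ℝ) * 2 :=
      mul_le_mul_of_nonneg_left h4 (Nat.cast_nonneg _)
    linarith
  · intro i hi
    have hK1 : K ≠ 0 := by
      have h16 : 16 * A1 θ x ≤ A2 θ x := by
        have hq : (1 : ℝ) ≤ (x : ℝ) ^ (2 * θ) := Real.one_le_rpow hx1 (by linarith)
        have : (16 * A1 θ x : ℝ) ≤ (A2 θ x : ℝ) := by
          refine le_trans ?_ hK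
          have hpos : (0 : ℝ) ≤ 16 * A1 θ x := by positivity
          nlinarith
        exact_mod_cast this
      have : 0 < K := Nat.div_pos h16 (by positivity)
      omega
    have h4i : 4 ^ i ≤ K :=
      (Nat.pow_le_pow_right (by norm_num) (by omega)).trans (Nat.pow_log_le_self 4 hK1)
    calc 16 * A1 θ x * 4 ^ i ≤ 16 * A1 θ x * K := Nat.mul_le_mul_left _ h4i
      _ ≤ A2 θ x := Nat.mul_div_le _ _

end GDR

theorem p_GDR (h : Stmt_GD1) : Stmt_GDR := by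
  obtain ⟨C1, c9, hC1, hc9, H⟩ := h
  refine ⟨C1, hC1, fun θ h0 h1 => ⟨c9 * θ, mul_pos hc9 h0, ?_⟩⟩
  filter_upwards [H θ h0 h1, GDR.scales h0] with x H1 H2 n hn1 hn2
  obtain ⟨N, hN, hY⟩ := H2
  set F : ℕ → Finset ℕ := fun i => (Finset.Icc 1 x).filter (fun r =>
    GR (LL C1 x r) n r ∧ (2 * A1 θ x * 4 ^ i) * r < n ∧ n ≤ 4 * (2 * A1 θ x * 4 ^ i) * r) with hF
  have hpow : ∀ i, 1 ≤ 4 ^ i := fun i => Nat.one_le_pow _ _ (by norm_num)
  have hdisj : Set.PairwiseDisjoint (↑(Finset.range N)) F := by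
    have key : ∀ i j, i < j → Disjoint (F i) (F j) := by
      intro i j hij
      rw [Finset.disjoint_left]
      intro r hr hr'
      rw [hF, Finset.mem_filter] at hr hr'
      have e1 := hr.2.2.2
      have e2 := hr'.2.2.1
      have hp : 4 ^ (i + 1) ≤ 4 ^ j := Nat.pow_le_pow_right (by norm_num) hij
      have : 4 * (2 * A1 θ x * 4 ^ i) * r ≤ (2 * A1 θ x * 4 ^ j) * r := by
        refine Nat.mul_le_mul_right _ ?_
        calc 4 * (2 * A1 θ x * 4 ^ i) = 2 * A1 θ x * 4 ^ (i + 1) := by ring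
          _ ≤ _ := Nat.mul_le_mul_left _ hp
      omega
    intro i _ j _ hij
    rcases lt_or_gt_of_ne hij with h | h
    · exact key i j h
    · exact (key j i h).symm
  have hsub : (Finset.range N).biUnion F ⊆ RG C1 θ x n := by
    intro r hr
    obtain ⟨i, hi, hri⟩ := Finset.mem_biUnion.1 hr
    rw [hF, Finset.mem_filter] at hri
    obtain ⟨m1, m2, m3, m4⟩ := hri
    have hYi := hY i (Finset.mem_range.1 hi)
    refine Finset.mem_filter.2 ⟨m1, m2, ?_, ?_⟩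
    · have : 2 * A1 θ x * r ≤ (2 * A1 θ x * 4 ^ i) * r := by
        refine Nat.mul_le_mul_right _ ?_
        exact Nat.le_mul_of_pos_right _ (hpow i)
      omega
    · calc 2 * n ≤ 2 * (4 * (2 * A1 θ x * 4 ^ i) * r) := Nat.mul_le_mul_left _ m4
        _ = (16 * A1 θ x * 4 ^ i) * r := by ring
        _ ≤ A2 θ x * r := Nat.mul_le_mul_right _ hYi
  have hge : ∀ i ∈ Finset.range N, c9 ≤ ∑ r ∈ F i, 1 / (r : ℝ) := by
    intro i hi
    have hYi := hY i (Finset.mem_range.1 hi)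
    refine H1 n (2 * A1 θ x * 4 ^ i) hn1 hn2 ?_ ?_
    · calc A1 θ x = A1 θ x * 1 := (mul_one _).symm
        _ ≤ A1 θ x * (2 * 4 ^ i) := Nat.mul_le_mul_left _ (by have := hpow i; omega)
        _ = 2 * A1 θ x * 4 ^ i := by ring
    · refine le_trans ?_ hYi
      refine Nat.mul_le_mul_right _ ?_
      omega
  calc c9 * θ * Real.log x = c9 * (θ * Real.log x) := by ring
    _ ≤ c9 * N := mul_le_mul_of_nonneg_left hN hc9.le
    _ = ∑ i ∈ Finset.range N, c9 := by rw [Finset.sum_const, Finset.card_range, nsmul_eq_mul]; ring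
    _ ≤ ∑ i ∈ Finset.range N, ∑ r ∈ F i, 1 / (r : ℝ) := Finset.sum_le_sum hge
    _ = ∑ r ∈ (Finset.range N).biUnion F, 1 / (r : ℝ) := (Finset.sum_biUnion hdisj).symm
    _ ≤ ∑ r ∈ RG C1 θ x n, 1 / (r : ℝ) :=
        Finset.sum_le_sum_of_subset_of_nonneg hsub (fun r _ _ => by positivity)

end Pool.Agent.Work.MP_7d0410_sp
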