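import Pool.Agent.Work.MP_7d0410_sp.Basic

/-!
# The primes with a sparse random set added: statements of the blocks

The docstrings are the proofs on paper. `θ` is small (at most `1/200`), `c = 1/2 - 100 θ`;
`A1 = x^(1/2+4θ)`, `A2 = x^(1/2+8θ)`, `VV = [A1, A2]`, `G1 = x^θ`, `R1 = x^(1/2-9θ)`,
`L0 = x^(2θ) A2^c ≤ x^(1/4)`; `UU ε x = [x^(1/2+ε), 2x]`. The probabilities are `pp c m = 1` for
primes, `m^(-c)` for the other `m`.
-/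

set_option autoImplicit false

namespace Pool.Agent.Work.MP_7d0410_sp

open Finset Filter MeasureTheory ProbabilityTheory
open Pool.Agent.Work.MP_7d0410_cr
open scoped Classical Topology

/-! ## Primes -/

/-- BTT (Brun and Titchmarsh). This is `brun_titchmarsh` in
`Pool.Agent.Work.MP_0b7501_nt.BT`, with `C = 70`. -/
def Stmt_BTT : Prop := ∃ C : ℝ, 1 ≤ C ∧ ∀ y h : ℕ, 2 ≤ h → (pin y h : ℝ) ≤ C * (h / Real.log h)

/-- CHB (Chebyshev). `θ (4Y) - θ (Y) ≥ 4 Y log 2 - o(Y) - Y log 4 = 2 Y log 2 - o(Y)` by `theta_ge`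
and `theta_le_log4_mul_x` of `Mathlib.NumberTheory.Chebyshev`; every prime in `(Y, 4Y]` contributes
at most `log (4Y) ≤ 2 log Y` to the difference. So `c0 = 1/2` will do. -/
def Stmt_CHB : Prop := ∃ c0 : ℝ, 0 < c0 ∧ ∀ᶠ Y : ℕ in atTop, c0 * (Y / Real.log Y) ≤ pin Y (3 * Y)

/-- MRT (Mertens). From `mertens2` in `Pool.Agent.Work.MP_b0c12c_nt_helper41.Mert` with
`u = Nat.sqrt x - 1` and `v = x`: the sum is `log (log x / log u) + O(1/log x) → log 2 < 0.7`.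
(Or from `θ (t) ≤ t log 4` by summation by parts: `2 (log 2)^2 = 0.961 < 0.97`.) -/
def Stmt_MRT : Prop := ∀ᶠ x : ℕ in atTop,
  ∑ p ∈ (Finset.Icc (Nat.sqrt x) x).filter Nat.Prime, 1 / (p : ℝ) ≤ 97 / 100

/-! ## Many lengths are good for every `n` -/

/-- GDA: a rich cell. Let `p_1 < ... < p_m` be the primes of the cell `(a, a + lam]`,
`m ≥ 3 ρ + 2`, and put `α = p_(ρ+1)`, `β = p_(2ρ+2)`. The primes in `(α, β]` are
`p_(ρ+2), ..., p_(2ρ+2)`. Let `1 ≤ r ≤ ρ` and `α r < n < β r`. The `ρ` primes `p < α` satisfy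
`r p < r α < n` and `n < r β ≤ r (a + lam) < r (p + Λ)`, and `p ≤ r p < n`. The at least `ρ` primes
`p > β` satisfy `r p > r β > n`, `r p ≤ r (a + lam) ≤ r α + r Λ ≤ n + r Λ` and
`p ≤ a + lam ≤ 2 n`. -/
def Stmt_GDA : Prop := ∀ a lam ρ : ℕ, 3 * ρ + 2 ≤ pin a lam → ∃ α β : ℕ, a < α ∧ α < β ∧
  β ≤ a + lam ∧ ρ + 1 ≤ pin α (β - α) ∧ ∀ Λ n r : ℕ, lam ≤ Λ → 1 ≤ r → r ≤ ρ → α * r < n →
    n < β * r → a + lam ≤ 2 * n → GR Λ n r

/-- GDB: the lengths which belong to an interval. The number of integers `r` in the open interval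
`(n/β, n/α)` is at least `n/α - n/β - 1 = n (β-α)/(αβ) - 1 ≥ 2w - 1 ≥ w` with
`w = n (β-α) / (32 Y²) ≥ 1`. Each of them satisfies `1 ≤ r ≤ n` and `1/r > α/n ≥ Y/n`, so the sum is
at least `w Y / n = (β-α)/(32 Y)`. -/
def Stmt_GDB : Prop := ∀ n Y α β : ℕ, 1 ≤ Y → Y ≤ α → α < β → β ≤ 4 * Y →
  32 * Y ^ 2 ≤ n * (β - α) → ((β - α : ℕ) : ℝ) / (32 * Y) ≤
    ∑ r ∈ (Finset.Icc 1 n).filter (fun r => α * r < n ∧ n < β * r), 1 / (r : ℝ)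

/-- GDC: many cells are rich. Let `C3` be the constant of `BTT`, `c0` that of `CHB`, and
`C1 = max 1 (120/c0)`. Large `x`; `n / Y` lies between `x^(1/2-8θ)/1000 ≥ x^(2/5)` and
`x^(1/2-4θ)`, so `ρ ≤ n/Y + 1`, `3ρ + 1 ≤ 4n/Y`, `lam ≥ C1 n log x / (5Y) ≥ x^(1/3)`, and
`lam ≤ C1 n log x / (4Y) ≤ Y x^(-θ)`. The cells `(Y + i lam, Y + (i+1) lam]`, `i < N = 3Y / lam`
(division in `ℕ`) lie in `(Y, 4Y]` and miss fewer than `lam` of its elements. `(Y, 4Y]` has at least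
`c0 Y / log Y ≥ c0 Y / log x` primes. The cells which are not rich have together at most
`(3ρ+1) N ≤ (4n/Y) (3Y · 5Y/(C1 n log x)) = 60 Y/(C1 log x) ≤ (c0/2) Y/log x` primes. So the rich
cells have at least `(c0/2) Y/log x - lam ≥ (c0/4) Y/log x` primes, each of them has at most
`C3 lam / log lam ≤ 3 C3 lam / log x` primes, and there are at least `c0 Y / (12 C3 lam)` rich
cells. As `lam ≤ C1 n log x/(4Y) ≤ C1 ρ log x / 4`, the claim holds with `c10 = c0/(3 C3 C1)`. -/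
def Stmt_GDC : Prop := ∃ C1 c10 : ℝ, 1 ≤ C1 ∧ 0 < c10 ∧ ∀ θ : ℝ, 0 < θ → θ ≤ 1 / 200 →
  ∀ᶠ x : ℕ in atTop, ∀ n Y lam ρ : ℕ, x ≤ 1000 * n → n ≤ x → A1 θ x ≤ Y → Y ≤ A2 θ x →
  lam = ⌊C1 * n * Real.log x / (4 * Y)⌋₊ → ρ = n / Y + 1 →
  c10 * Y ≤ (((Finset.range (3 * Y)).filter (fun i => Y + (i + 1) * lam ≤ 4 * Y ∧
    3 * ρ + 2 ≤ pin (Y + i * lam) lam)).card : ℝ) * (ρ * Real.log x)

/-- GD1: the good lengths which belong to `(Y, 4Y]`. `C1`, `c10` from `GDC`, `C3` from `BTT`. For a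
rich cell `i` let `α`, `β` be as in `GDA` (with `a = Y + i lam`) and `L = β - α`. Then
`L ≥ pin α L ≥ ρ + 1 ≥ x^(1/3)` and `ρ + 1 ≤ C3 L / log L`, so `L ≥ ρ log x / (3 C3)`. Since
`Y³ ≤ x^(3/2+24θ) ≤ x^(1.62)`, `n L ≥ n² log x / (3 C3 Y) ≥ 32 Y²`. By `GDB` the sum of `1/r` over
`α r < n < β r` is at least `L / (32 Y) ≥ ρ log x / (96 C3 Y)`. These `r` belong to the filter:
`r < n/α ≤ n/Y`, so `r ≤ n / Y ≤ ρ`; `r > n/β ≥ n/(4Y)`, so `lam ≤ C1 r log x ≤ LL C1 x r`;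
`a + lam ≤ 4Y ≤ 2n`. Different rich cells give different `r` (`n/r` lies in the cell). Sum over the
rich cells: the sum is at least `c10 Y / (ρ log x) · ρ log x / (96 C3 Y) = c10 / (96 C3) = c9`. -/
def Stmt_GD1 : Prop := ∃ C1 c9 : ℝ, 1 ≤ C1 ∧ 0 < c9 ∧ ∀ θ : ℝ, 0 < θ → θ ≤ 1 / 200 →
  ∀ᶠ x : ℕ in atTop, ∀ n Y : ℕ, x ≤ 1000 * n → n ≤ x → A1 θ x ≤ Y → Y ≤ A2 θ x →
  c9 ≤ ∑ r ∈ (Finset.Icc 1 x).filter (fun r => GR (LL C1 x r) n r ∧ Y * r < n ∧ n ≤ 4 * Y * r),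
    1 / (r : ℝ)

/-- GDR: the good lengths. Apply `GD1` with `Y_i = 2 · A1 · 4^i` for all `i` with `8 Y_i ≤ A2`: if
`Y_i r < n ≤ 4 Y_i r` then `2 A1 r ≤ Y_i r ≤ n` and `2 n ≤ 8 Y_i r ≤ A2 r`. The sets of `r` are
disjoint (`n/r` lies in `(Y_i, 4 Y_i]`). The number of these `i` is at least
`log (A2 / (16 A1)) / log 4 ≥ (4θ log x - 3) / log 4 ≥ θ log x`. So `c7 = c9 θ`. -/
def Stmt_GDR : Prop := ∃ C1 : ℝ, 1 ≤ C1 ∧ ∀ θ : ℝ, 0 < θ → θ ≤ 1 / 200 → ∃ c7 : ℝ, 0 < c7 ∧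
  ∀ᶠ x : ℕ in atTop, ∀ n : ℕ, x ≤ 1000 * n → n ≤ x →
  c7 * Real.log x ≤ ∑ r ∈ RG C1 θ x n, 1 / (r : ℝ)

/-! ## Runs of the same length -/

/-- SFT: two runs of the same length. If `q'.2 ≤ q.2` then `seg S q'` is properly contained in
`seg S q`. So `q.2 < q'.2`. Let `A = seg S q \ seg S q'`, `B = seg S q' \ seg S q`; they have the
same number of elements. `q.1 ∈ A`, `q'.2 ∈ B`, every element of `A` is smaller than `q'.1` and at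
most `q.2`, every element of `B` is larger than `q.2` (hence than every element of `A`). Compare
the sums of `A \ {q.1}` and `B \ {q'.2}`. -/
def Stmt_SFT : Prop := ∀ (S : Finset ℕ) (q q' : ℕ × ℕ), q ∈ runs S → q' ∈ runs S →
  len S q = len S q' → q.1 < q'.1 → q.2 < q'.2 ∧ sm S q + q'.2 ≤ sm S q' + q.1

/-- NCR: for fixed `r` the intervals `(sm S q - (q.2 - q.1), sm S q]` for the runs `q` of length `r`
with the sum at most `x` are contained in `[1, x]` (`q.2 ≤ sm S q`, use `le_sm_of_mem`) and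
disjoint: `sm S q ≤ sm S q' - (q'.2 - q.1) ≤ sm S q' - (q'.2 - q'.1)` if `q.1 < q'.1`, by `SFT`. -/
def Stmt_NCR : Prop := ∀ (S : Finset ℕ) (r x : ℕ),
  ∑ q ∈ (runs S).filter (fun q => len S q = r ∧ sm S q ≤ x), (q.2 - q.1) ≤ x

/-- XCR: runs which cross `A`. The map `q ↦ (#S ∩ [q.1, A), #S ∩ [A, q.2])` is injective on these
runs, and both numbers lie in `[1, x / a]` as `len S q * a ≤ sm S q ≤ x`. -/
def Stmt_XCR : Prop := ∀ (S : Finset ℕ) (a A x : ℕ), (∀ m ∈ S, a ≤ m) → 1 ≤ a →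
  ((runs S).filter (fun q => sm S q ≤ x ∧ q.1 < A ∧ A ≤ q.2)).card ≤ (x / a) ^ 2

/-- XXB: the other runs. First and second kind: `XCR` with `A` and with `B + 1`. Third kind:
`A ≤ q.1`, `q.2 ≤ B`, `q` is not good. If `len S q < R` then `n = sm S q ≤ (R - 1) B`, and
`1000 n ≥ x ≥ 1000 R B`, impossible (if `B = 0` then `n = 0`, also impossible). So
`q.2 > q.1 + G * len S q`. By `NCR`, for each length `r` there are at most `x / (G r)` such runs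
with the sum at most `x`; `r ≤ x` since all elements are at least `1`. Sum over `r`:
`harmonic_le_one_add_log`. -/
def Stmt_XXB : Prop := ∀ (S : Finset ℕ) (a A B R G x : ℕ), (∀ m ∈ S, a ≤ m) → 1 ≤ a → 1 ≤ G →
  1000 * R * B ≤ x → 1 ≤ x →
  ∑ n ∈ (Finset.Icc 1 x).filter (fun n => x ≤ 1000 * n), (XX A B R G S n : ℝ) ≤
    2 * ((x : ℝ) / a) ^ 2 + x * (1 + Real.log x) / G

/-- NPD: for most `n` there is a run of length `r - 1` with room for one more element. Let `n` be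
in the set on the left. The primes of `GR` lie in `[a, b]` (`n/r - Λ ≥ 2a - Λ ≥ a`,
`n/r + Λ ≤ b/2 + b/2`), so `S` has at least `r` elements below `n/r` and at least `r` elements
above `n/r`. Call a run short if it has `r - 1` elements; write `σ = sm S q`. A short run `q` below
`n/r` has `σ + q.1 < n`. Let `q` be the short run with the largest `q.1` for which `σ + q.1 < n`.
It is not the last short run (that one consists of elements above `n/r`, so `σ + q.1 > n`). Let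
`q'` be the next short run; `sm S q' = σ + q'.2 - q.1` and `sm S q' + q'.1 ≥ n` by the choice of
`q`. Since `PT S r n` fails, either (a) `n - σ ∈ S` and `q.1 < n - σ < q.2`, or (b)
`σ + q.2 ≤ n ≤ sm S q' + q'.1`. (a): `q.1` satisfies `(r-1) q.1 ≤ σ ≤ x`, and `n = σ + s` with
`s ∈ seg S q`: at most `r - 1` values of `n` for each `q`. (b): at most
`(q'.2 - q.2) + (q'.1 - q.1) + 1` values of `n` for each `q`; summed over all short runs `q` which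
are not the last: at most `(b - a) + (b - a) + (b - a)`. -/
def Stmt_NPD : Prop := ∀ (a b Λ r x : ℕ) (S : Finset ℕ), S ⊆ Finset.Icc a b →
  (∀ q ∈ Finset.Icc a b, q.Prime → q ∈ S) → 3 ≤ r → 1 ≤ a → Λ ≤ a → 2 * Λ ≤ b →
  ((Finset.Icc 1 x).filter (fun n => GR Λ n r ∧ 2 * a * r ≤ n ∧ 2 * n ≤ b * r ∧ ¬ PT S r n)).card ≤
    3 * b + r * (S.filter (fun m => (r - 1) * m ≤ x)).card

/-- NPE: the expected number of exceptions. `Λ = LL C1 x r ≤ x^(1/2) ≤ A1` as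
`r ≤ x/(2 A1) ≤ x^(1/2-4θ)`, and `2 Λ ≤ A2`. By `Ex_mono_pp` and `NPD` (with `a = A1`, `b = A2`;
`RG` gives the hypotheses on `n`) the expectation is at most
`3 A2 + r Ex #{m ∈ S | (r-1) m ≤ x}`. By `Ex_card_filter` the last expectation is at most the
number of primes `≤ y` plus `y A1^(-c)`, where `y = x/(r-1)` (floor) `≥ 2 A1 ≥ x^(1/2)`; `BTT`
(with the interval `(0, y]`) bounds the first by `2 C y/log x`; `r y ≤ 2 x`. And
`A1^(-c) ≤ x^(-c/2) ≤ 1/log x`, `3 A2 ≤ x/log x`. -/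
def Stmt_NPE : Prop := ∀ C1 : ℝ, 1 ≤ C1 → ∀ c θ : ℝ, Par c θ → ∃ C8 : ℝ, 0 < C8 ∧
  ∀ᶠ x : ℕ in atTop, ∀ r : ℕ, 3 ≤ r → 2 * A1 θ x * r ≤ x →
  Ex (pp c) (VV θ x) (fun S => (((Finset.Icc 1 x).filter
    (fun n => r ∈ RG C1 θ x n ∧ ¬ PT S r n)).card : ℝ)) ≤ C8 * (x / Real.log x)

/-! ## Insertion -/

/-- MCK: the insertion formula. For `S ⊆ V`, `KK S q` is the sum over the non-primes `z ∈ V` of
`1` if `z ∈ S` and `q.1 < z < q.2`. Exchange the sums. For fixed `z` and `z ∈ S`, the runs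
`q ∈ rr S r n` with `q.1 < z < q.2` are exactly the runs counted by `FF (S.erase z) r n z`. Now
`Ex_insert` (`pp c z < 1` as `z ≥ 2` is not a prime). -/
def Stmt_MCK : Prop := ∀ c : ℝ, 0 < c → ∀ (V : Finset ℕ) (r n : ℕ), (∀ m ∈ V, 2 ≤ m) →
  Ex (pp c) V (fun S => ∑ q ∈ rr S r n, (KK S q : ℝ)) =
    ∑ z ∈ V.filter (fun z => ¬ z.Prime), pp c z / (1 - pp c z) *
      Ex (pp c) V (fun S => if z ∈ S then 0 else (FF S r n z : ℝ))

/-- MCU: upper bound. In `MCK`, `pp c z = z^(-c) ≤ a^(-c) ≤ 1/2`, so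
`pp c z / (1 - pp c z) ≤ 2 a^(-c)`. The sum over `z` of `if z ∈ S then 0 else FF S r n z` is at most
the number of runs `q` with `len S q + 1 = r`, `q.1 + sm S q < n < sm S q + q.2` (`z = n - sm S q`
is determined by `q`). There is at most one such run: for two of them with `q.1 < q'.1` `SFT` gives
`n < sm S q + q.2 < sm S q + q'.2 ≤ sm S q' + q.1 < sm S q' + q'.1 < n` (if `q.1 = q'.1` then
`q = q'`, see `UPP_end` in `MP_7d0410_cr/B_UPP.lean`). -/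
def Stmt_MCU : Prop := ∀ c : ℝ, 0 < c → ∀ a b r n : ℕ, 2 ≤ a → (a : ℝ) ^ (-c) ≤ 1 / 2 →
  Ex (pp c) (Finset.Icc a b) (fun S => ∑ q ∈ rr S r n, (KK S q : ℝ)) ≤ 2 * (a : ℝ) ^ (-c)

/-- MCL: lower bound. Let `S` contain all primes of `[a, b]` (the other `S` have weight `0`: compare
with `Ex_mono_pp`) and let `q` be as on the left, `z = n - sm S q`. Then `a ≤ q.1 < z < q.2 ≤ b`,
`z ∉ S`, so `z` is not a prime, `FF S r n z ≥ 1`, and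
`pp c z / (1 - pp c z) ≥ pp c z = z^(-c) ≥ Z^(-c)`. So
`Z^(-c) · 1[event] ≤ ∑_z pp c z/(1 - pp c z) (if z ∈ S then 0 else FF S r n z)`; now `MCK`. -/
def Stmt_MCL : Prop := ∀ c : ℝ, 0 < c → ∀ (a b r n : ℕ) (Z : ℝ), 2 ≤ a → 0 < Z →
  Z ^ (-c) * Pb (pp c) (Finset.Icc a b) (fun S => ∃ q ∈ runs S, len S q + 1 = r ∧
      q.1 + sm S q < n ∧ n < sm S q + q.2 ∧ n - sm S q ∉ S ∧ ((n - sm S q : ℕ) : ℝ) ≤ Z) ≤
    Ex (pp c) (Finset.Icc a b) (fun S => ∑ q ∈ rr S r n, (KK S q : ℝ))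

/-- CHL: Chernoff, lower tail (copy of `MP_7d0410_cr/B_CHE.lean` with general `p`). -/
def Stmt_CHL : Prop := ∀ p : ℕ → ℝ, Prob p → ∀ (U I : Finset ℕ) (r : ℕ) (δ : ℝ), I ⊆ U → 0 < δ →
  δ ≤ 1 → (1 + δ) * r ≤ ∑ m ∈ I, p m →
  Pb p U (fun S => (S ∩ I).card < r) ≤ Real.exp (-(δ ^ 2 * r / 4))

/-- CHU: Chernoff, upper tail (copy of `MP_7d0410_cr/B_CHE.lean` with general `p`). -/
def Stmt_CHU : Prop := ∀ p : ℕ → ℝ, Prob p → ∀ (U : Finset ℕ) (t : ℝ),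
  Pb p U (fun S => t ≤ (S.card : ℝ)) ≤ Real.exp (2 * ∑ m ∈ U, p m - t)

/-- CRB: the crude bound. Large `x`. If `l > x` then `hh = 0` (`len S q ≤ |VV| ≤ A2 ≤ x`). Let
`L0 ≤ l ≤ x` and `s = ⌈l A2^(-c) / 8⌉`. For `u, v ∈ VV` with `u + l ≤ v + 1` let `I` be the set of
the non-primes `z` with `u < z < v`: `|I| ≥ l/2 - 3/2 ≥ l/4` (even numbers), so
`∑_(z ∈ I) pp c z ≥ (l/4) A2^(-c) ≥ (3/2) s` as `l A2^(-c) ≥ x^(2θ)` is large. By `CHL` with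
`δ = 1/2` the probability that `S` has fewer than `s` elements in `I` is at most
`exp (-s/16) ≤ exp (-x^(2θ)/128)`; there are at most `x²` pairs `u, v`; so outside an event of
probability at most `x² exp (-x^(2θ)/128) ≤ 1/x ≤ 1/l` every `q ∈ rr S l m` has `KK S q ≥ s`
(`l = len S q ≤ q.2 - q.1 + 1`). As `#rr S l m ≤ 1` (`Stmt_ONE` of `MP_7d0410_cr`, proved there as
`p_ONE`), `#rr ≤ (8 A2^c / l) ∑_(q ∈ rr) KK S q + 1[bad event]`, and by `MCU` (`A1^(-c) ≤ 1/2`)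
`hh ≤ 16 (A2/A1)^c / l + 1/l ≤ (16 x^(2θ) + 1)/l` since `(A2/A1)^c ≤ x^(4θc) ≤ x^(2θ)`. -/
def Stmt_CRB : Prop := ∀ c θ : ℝ, Par c θ → ∀ᶠ x : ℕ in atTop, ∀ l m : ℕ, L0 c θ x ≤ l →
  hh (pp c) (VV θ x) l m ≤ (x : ℝ) ^ (3 * θ) / l

/-! ## Collisions -/

/-- C1L: pairs in `AB` with given first element and lengths (edit of
`MP_7d0410_cr/B_C1L.lean`: there the bound for `hh` is `2/l`). -/
def Stmt_C1L : Prop := ∀ p : ℕ → ℝ, Prob p → ∀ (U : Finset ℕ) (x G b k l : ℕ) (B : ℝ),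
  (∀ m, hh p U l m ≤ B) → Ex p U (fun S => (((AB S G x).filter
    (fun z => z.1.1 = b ∧ len S z.1 = k ∧ len S z.2 = l)).card : ℝ)) ≤ B

/-- C1S: pairs in `AB` (edit of `MP_7d0410_cr/B_C1B.lean`; the index set `C1B_J a x G` and
`C1B_mem`, `C1B_cube` there). Let `(b, l, k)` be first element of the lower run, length of the upper
run, length of the lower run. For `l ≥ L` `C1L` gives `B / l`, and
`∑_(l ≤ x/b) (2 G x l / b²) (B / l) ≤ 2 B G x² / b³`, `∑_(b ≥ a) 1/b³ ≤ 2/a²`. For `l < L` the bound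
is `1` (`hh ≤ 1` by `Stmt_ONE` of `MP_7d0410_cr`), and
`∑_(l < L) 2 G x l / b² ≤ G x L² / b²`, `∑_(b ≥ a) 1/b² ≤ 2/a`. -/
def Stmt_C1S : Prop := ∀ p : ℕ → ℝ, Prob p → ∀ (a d x G L : ℕ) (B : ℝ), 2 ≤ a → 0 ≤ B →
  (∀ l m : ℕ, L ≤ l → hh p (Finset.Icc a d) l m ≤ B / l) →
  Ex p (Finset.Icc a d) (fun S => ((AB S G x).card : ℝ)) ≤
    2 * G * x * (L : ℝ) ^ 2 / a + 4 * B * G * (x : ℝ) ^ 2 / (a : ℝ) ^ 2

/-- C1B: `C1S` with `L = L0`, `B = x^(3θ)` (`CRB`), `G = G1 ≤ 2 x^θ`. `L0 ≤ 2 x^(2θ + c/2 + 4θ)`,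
so the first term is at most `16 x^(θ + 1 + 12θ + c - 1/2 - 4θ) = 16 x^(1/2 + c + 9θ) =
16 x^(1 - 91θ)` (`c = 1/2 - 100θ`), the second at most `8 x^(3θ + θ + 2 - 1 - 8θ) = 8 x^(1-4θ)`. -/
def Stmt_C1B : Prop := ∀ c θ : ℝ, Par c θ → ∀ᶠ x : ℕ in atTop,
  Ex (pp c) (VV θ x) (fun S => ((AB S (G1 θ x) x).card : ℝ)) ≤ (x : ℝ) ^ (1 - θ)

/-- C2A: collisions of independent copies (edit of `MP_7d0410_cr/B_C2A.lean`: there
`U = Icc a (2x)` and the bound for `hh` is `2/s`; now `U = Icc a d` and the bound is `B/s`, so the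
bound `4/r` becomes `2B/r`). -/
def Stmt_C2A : Prop := ∀ p : ℕ → ℝ, Prob p → ∀ (a d x R G : ℕ) (B : ℝ), 1 ≤ a →
  8 * G * x ≤ a ^ 2 → 1 ≤ R → 1 ≤ x → 0 ≤ B →
  (∀ s n : ℕ, R ≤ s → n ≤ x → hh p (Finset.Icc a d) s n ≤ B / s) →
  ∑ n ∈ Finset.Icc 1 x, T2 p (Finset.Icc a d) R G n ≤
    B * (2 * ((x : ℝ) / R) * (1 + Real.log x) + 48 * G * (x : ℝ) ^ 2 / (a : ℝ) ^ 2)

/-- CO: collisions are rare. `T1`: `Stmt_C1A` of `MP_7d0410_cr` (proved there: `p_C1A`) and `C1B`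
give `∑ T1 ≤ 2 x^(1-θ)`. `T2`: `C2A` with `B = x^(3θ)`, `R = R1 ≥ x^(1/2-9θ)` (`R1 ≥ L0`:
`L0 ≤ 2 x^(6θ + c/2) ≤ x^(1/4)`), `8 G1 x ≤ 16 x^(1+θ) ≤ x^(1+8θ) ≤ A1²`:
`x^(3θ) (2 x^(1/2+9θ) (1 + log x) + 96 x^(1-7θ)) ≤ x^(1-θ)`. -/
def Stmt_CO : Prop := ∀ c θ : ℝ, Par c θ → ∀ η : ℝ, 0 < η → ∀ᶠ x : ℕ in atTop,
  ∑ n ∈ Finset.Icc 1 x, (T1 (pp c) (VV θ x) (R1 θ x) (G1 θ x) n +
    T2 (pp c) (VV θ x) (R1 θ x) (G1 θ x) n) ≤ η * x

/-- MEC: the approximate Mecke identity (edit of `MP_7d0410_cr/B_MEC.lean`). -/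
def Stmt_MEC : Prop := ∀ p : ℕ → ℝ, Prob p → ∀ (U : Finset ℕ) (R G n k : ℕ),
  |((k : ℝ) + 1) * Pb p U (fun S => cnt R G S n = k + 1) -
    HH p U R G n * Pb p U (fun S => cnt R G S n = k)| ≤ T1 p U R G n + T2 p U R G n

/-! ## Lower bound for the mean value -/

/-- HGD: the runs near `n/r`. The primes of `GR` are in `[a, b]` (see `NPD`), so in `S`. First part:
`r q.1 ≤ n ≤ r q.2` (`len_mul_le_sm`, `sm_le_len_mul`). If `r (q.1 + Λ) < n` then the `r` primes `p`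
with `r p < n ≤ r (p + Λ)` satisfy `q.1 < p < q.2` (`r p < n ≤ r q.2`), so with `q.1` the run has
more than `r` elements, impossible. If `r q.2 > n + r Λ` the `r` primes with `n < r p ≤ n + r Λ`
satisfy `q.1 < p < q.2`, same contradiction. Second part: the same, `r q.1 ≤ q.1 + sm S q < n` and
`n < sm S q + q.2 ≤ r q.2`, the run has `r - 1` elements. -/
def Stmt_HGD : Prop := ∀ (a b Λ r n : ℕ) (S : Finset ℕ), S ⊆ Finset.Icc a b →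
  (∀ q ∈ Finset.Icc a b, q.Prime → q ∈ S) → 1 ≤ r → Λ ≤ a → 2 * Λ ≤ b → GR Λ n r →
  2 * a * r ≤ n → 2 * n ≤ b * r →
  (∀ q ∈ rr S r n, n ≤ r * (q.1 + Λ) ∧ r * q.2 ≤ n + r * Λ) ∧
  (∀ q ∈ runs S, len S q + 1 = r → q.1 + sm S q < n → n < sm S q + q.2 → r * q.2 ≤ n + r * Λ)

/-- HLB: lower bound for the expected number of good `r`-runs with the sum `n`. `Λ = LL C1 x r`,
`r ≤ x^(1/2-4θ)` and `r ≥ 2n/A2 ≥ x^(1/2-8θ)/500 ≥ R1`, so `r ≤ Λ ≤ 2 C1 r log x ≤ x^(1/2) ≤ A1`,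
`2 Λ ≤ A2` and `2 Λ ≤ G1 r`. Write `w = (n/r)^(-c)` (real `n/r`). Let `S` contain all primes of
`VV`. (1) By `HGD` every `q ∈ rr S r n` has `n/r - Λ ≤ q.1`, `q.2 ≤ n/r + Λ`, so it is good:
`rr S r n` is contained in `{q ∈ gr R1 G1 S n | len S q = r}`; and
`KK S q ≤ N(S) = #{z ∈ S not prime, |z - n/r| ≤ Λ}`. (2) Let `t = 16 Λ w`. The expectation of `N` is
at most `(2Λ+1) (n/(2r))^(-c) ≤ 5 Λ w` (`n/r - Λ ≥ n/(2r)`), and
`Λ w ≥ r w ≥ (x^(1/2-8θ)/500) A2^(-c) ≥ x^(1/8)`. By `CHU` (for the set of these `z`, `Pb_inter`) the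
probability of `N ≥ t` is at most `exp (10 Λ w - 16 Λ w) ≤ exp (-6 x^(1/8)) ≤ x^(-6)`. As
`#rr ≤ 1` (`Stmt_ONE` of `MP_7d0410_cr`) and `KK ≤ |VV| ≤ x`,
`Ex ∑ KK ≤ t Ex #{good r-runs} + x · x^(-6)`. (3) If `PT S r n`, with the run `q`, then
`n - sm S q < q.2 ≤ n/r + Λ ≤ 2n/r` (`HGD`, second part). So `MCL` with `Z = 2n/r` gives
`Ex ∑ KK ≥ (2n/r)^(-c) Pb(PT) ≥ (w/2) Pb(PT)`. Together
`Ex #{good r-runs} ≥ (w/2) Pb(PT)/t - x^(-5)/t ≥ Pb(PT)/(32 Λ) - x^(-5)`, `t ≥ 1`. So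
`c2 = 1/(64 C1)`. -/
def Stmt_HLB : Prop := ∀ C1 : ℝ, 1 ≤ C1 → ∀ c θ : ℝ, Par c θ → ∃ c2 : ℝ, 0 < c2 ∧
  ∀ᶠ x : ℕ in atTop, ∀ n r : ℕ, x ≤ 1000 * n → n ≤ x → r ∈ RG C1 θ x n →
  c2 * Pb (pp c) (VV θ x) (fun S => PT S r n) / (r * Real.log x) ≤
    Ex (pp c) (VV θ x) (fun S => (((gr (R1 θ x) (G1 θ x) S n).filter
      (fun q => len S q = r)).card : ℝ)) + 1 / (x : ℝ) ^ 3

/-- HMO: the mean value is bounded below for most `n`. `C1` and `c7` from `GDR`, `c2` from `HLB`,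
`C8` from `NPE`. By `cnt_eq_sum_len` and `HLB`,
`HH n ≥ ∑_(r ∈ RG n) c2 Pb(PT)/(r log x) - x · x^(-3) ≥ c2 c7 - (c2/log x) D(n) - x^(-2)` with
`D(n) = ∑_(r ∈ RG n) (1 - Pb(PT S r n))/r`. If `r ∈ RG n` then `r ≥ 2n/A2 ≥ 3` and
`2 A1 r ≤ n ≤ x`. So `∑_(n ≤ x) D(n) = ∑_r (1/r) Ex #{n ≤ x | r ∈ RG n, not PT} ≤
C8 (x/log x) ∑_(r ≤ x) 1/r ≤ 2 C8 x`. If `HH n < c1 = c2 c7/3` then `D(n) ≥ (c7/2) log x`, and there
are at most `4 C8 x/(c7 log x) ≤ η x` such `n`. -/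
def Stmt_HMO : Prop := ∀ c θ : ℝ, Par c θ → ∃ c1 : ℝ, 0 < c1 ∧ ∀ η : ℝ, 0 < η →
  ∀ᶠ x : ℕ in atTop, (((Finset.Icc 1 x).filter (fun n => x ≤ 1000 * n ∧
    HH (pp c) (VV θ x) (R1 θ x) (G1 θ x) n < c1)).card : ℝ) ≤ η * x

/-- EAV: the number of runs on average. For `b ∈ S` the runs with the first element `b` and sum at
most `x` have different lengths `l` with `l b ≤ x`: at most `x / b` of them (none if `b > x`). By
`Ex_sum_mem` the expectation is at most `∑_(a ≤ b ≤ x) pp c b · x/b`. `a ≥ √x`. The primes give at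
most `0.97 x` (`MRT`), the other `b` at most `x (√x)^(-c) (1 + log x) ≤ 0.01 x`. -/
def Stmt_EAV : Prop := ∀ c : ℝ, 0 < c → ∀ᶠ x : ℕ in atTop, ∀ a d : ℕ, x ≤ a ^ 2 →
  Ex (pp c) (Finset.Icc a d) (fun S => (((runs S).filter (fun q => sm S q ≤ x)).card : ℝ)) ≤
    98 / 100 * x

/-! ## The distribution for most `n` -/

/-- PKL: the recursion. Choose `K ≥ 1` with `C0/K ≤ 1/2`, so `∑_(j < K) P j ≥ 1/2`. By induction
`P j ≤ a_j P 0 + b_j e` with `a_j = C0^j`, `b_0 = 0`, `b_(j+1) = C0 b_j + 1`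
(`(j+1) P (j+1) ≤ H P j + e`). With `A = ∑_(j<K) a_j ≥ 1`, `B = ∑_(j<K) b_j`: `P 0 ≥ 1/(4A)` if
`e ≤ 1/(4(B+1))`. By induction `P j ≥ a'_j P 0 - b'_j e` with `a'_(j+1) = c1 a'_j/(j+1)`,
`a'_0 = 1`, `b'_(j+1) = c1 b'_j + 1`, `b'_0 = 0` (`(j+1) P (j+1) ≥ c1 P j - e`). So
`P k ≥ a'_k/(4A) - b'_k e ≥ a'_k/(8A) = ρ` for small `e`. -/
def Stmt_PKL : Prop := ∀ (c1 C0 : ℝ) (k : ℕ), 0 < c1 → c1 ≤ C0 → ∃ ρ e : ℝ, 0 < ρ ∧ 0 < e ∧
  ∀ (P : ℕ → ℝ) (H : ℝ), (∀ j, 0 ≤ P j) → c1 ≤ H → H ≤ C0 →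
  (∀ j : ℕ, |((j : ℝ) + 1) * P (j + 1) - H * P j| ≤ e) →
  (∀ K : ℕ, 1 ≤ K → 1 - H / K ≤ ∑ j ∈ Finset.range K, P j) → ρ ≤ P k

/-- EDA: the probability of `k` good runs is bounded below for most `n`. `c1` from `HMO`,
`C0 = max c1 1000`, `ρ`, `e` from `PKL`. The `n` with `HH n > C0 ≥ 1000` are at most
`0.98 x/1000` in number (`∑_(n ≤ x) HH n ≤ Ex #{q ∈ runs S | sm S q ≤ x} ≤ 0.98 x` by `EAV`,
`A1² ≥ x`), the `n` with `x ≤ 1000 n` and `HH n < c1` at most `x/1000` (`HMO`), the `n` with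
`T1 + T2 > e` at most `x/1000` (`CO` with `η = e/1000`). For the others use `MEC` and `PKL`;
`∑_(j < K) Pb(cnt = j) = 1 - Pb(cnt ≥ K) ≥ 1 - HH/K` (`Pb_le_Ex`). -/
def Stmt_EDA : Prop := ∀ c θ : ℝ, Par c θ → ∀ k : ℕ, ∃ ρ : ℝ, 0 < ρ ∧ ∀ᶠ x : ℕ in atTop,
  (((Finset.Icc 1 x).filter (fun n => x ≤ 1000 * n ∧
    Pb (pp c) (VV θ x) (fun S => cnt (R1 θ x) (G1 θ x) S n = k) < ρ)).card : ℝ) ≤ x / 200

/-- SPL: the other runs are independent of the good runs in `[A, B]`. Let `V = Icc A B`. If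
`cnt R G (S ∩ V) n = k`, `F0 A B (S \ V) n = 0` and `XX A B R G S n = 0` then `cnt 0 G' S n = k`: the
condition `q.2 ≤ q.1 + G' * len S q` holds for all runs since `q.2 ≤ d ≤ G'` and `len S q ≥ 1`; the
runs of `S` with the sum `n` are then the good runs of `S ∩ V` with the sum `n` (runs inside `[A, B]`
have the same `seg` in `S` and in `S ∩ V`). For the runs counted by `F0`, `seg` is the same in `S`
and in `S \ V`, so `F0 A B (S \ V) n = F0 A B S n`. By `Ex_indep` the probability of the first two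
conditions is `Pb p V (cnt R G S n = k) · Pb (F0 = 0)`, and `Pb (F0 = 0) ≥ 1 - Ex F0`; the third
fails with probability at most `Ex XX`. (If `A > B` everything is still true.) -/
def Stmt_SPL : Prop := ∀ p : ℕ → ℝ, Prob p → ∀ a d A B R G G' n k : ℕ, a ≤ A → B ≤ d → d ≤ G' →
  Pb p (Finset.Icc A B) (fun S => cnt R G S n = k) *
      (1 - Ex p (Finset.Icc a d) (fun S => (F0 A B S n : ℝ))) -
      Ex p (Finset.Icc a d) (fun S => (XX A B R G S n : ℝ)) ≤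
    Pb p (Finset.Icc a d) (fun S => cnt 0 G' S n = k)

/-- EDK: the expected density. Let `ρ'` be from `EDA`, `a = a0 ε x ≤ A1` (`ε < 4θ`), `d = 2x`,
`A = A1`, `B = A2 ≤ 2x`, `R = R1`, `G = G1`. `Ex DD = ∑_(n ≤ x) Pb (cnt 0 (2x) S n = k)`. For
`n` with `x ≤ 1000 n` and `Pb_V (cnt = k) ≥ ρ'`, `SPL` gives
`Pb ≥ ρ' (1 - Ex F0 n) - Ex XX n` (also if `1 - Ex F0 n < 0`, as `Pb ≥ 0`). There are at least
`x - x/1000 - 1 - x/200` such `n`; `∑_(n ≤ x) Ex F0 n ≤ Ex #{q | sm S q ≤ x} ≤ 0.98 x` (`EAV`, as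
`a0² ≥ x`); `∑ Ex XX n ≤ 2 (x/a0)² + x (1 + log x)/G1 = o(x)` by `XXB` (`1000 R1 A2 ≤ x` as
`R1 A2 ≤ 2 x^(1-θ)`). So `Ex DD ≥ ρ' (0.014 x - 1) - o(x) ≥ 0.01 ρ' x`. -/
def Stmt_EDK : Prop := ∀ c θ : ℝ, Par c θ → ∀ k : ℕ, ∃ ρ : ℝ, 0 < ρ ∧ ∀ ε : ℝ, 0 < ε → ε < 4 * θ →
  ∀ᶠ x : ℕ in atTop, ρ * x ≤ Ex (pp c) (UU ε x) (fun S => (DD 0 (2 * x) S x k : ℝ))

/-! ## The variance -/

/-- TEN: tensorization of the variance (edit of `MP_7d0410_cr/B_TEN.lean`). -/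
def Stmt_TEN : Prop := ∀ p : ℕ → ℝ, Prob p → ∀ (T : ℕ) (I : ℕ → Finset ℕ) (c : ℕ → ℝ)
  (F : Finset ℕ → ℝ), (∀ i j, i < T → j < T → i ≠ j → Disjoint (I i) (I j)) →
  (∀ t < T, ∀ S ⊆ (Finset.range T).biUnion I, ∀ S' ⊆ (Finset.range T).biUnion I,
    S \ I t = S' \ I t → |F S - F S'| ≤ c t) →
  Ex p ((Finset.range T).biUnion I) (fun S => (F S - Ex p ((Finset.range T).biUnion I) F) ^ 2) ≤
    ∑ t ∈ Finset.range T, c t ^ 2

/-- VAR: the variance (edit of `MP_7d0410_cr/B_VAR.lean`, with `TEN` and `Stmt_INF` of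
`MP_7d0410_cr`, proved there as `p_INF`). -/
def Stmt_VAR : Prop := ∀ p : ℕ → ℝ, Prob p → ∀ a x R G k : ℕ, 1 ≤ a → a ≤ x → 4 * x ≤ a ^ 2 →
  Ex p (Finset.Icc a (2 * x)) (fun S => ((DD R G S x k : ℝ) -
    Ex p (Finset.Icc a (2 * x)) (fun S => (DD R G S x k : ℝ))) ^ 2) ≤
      64 * (x : ℝ) ^ 3 / (a : ℝ) ^ 2

/-! ## Almost sure statements -/

/-- LAW: the law of `primesPlus E ω` in `U` (edit of `MP_7d0410_cr/B_LAW.lean`). Put
`E' m = univ` for primes, `E' m = E m` otherwise. The sets `E' m` are independent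
(`iIndepSet_iff_meas_biInter` or similar: the primes contribute factors `1`),
`μ (E' m) = ofReal (pp c m)` for `m ≥ 2`, and for `m ≥ 2`: `m ∈ primesPlus E ω ↔ ω ∈ E' m`. -/
def Stmt_LAW.{u} : Prop := ∀ {Ω : Type u} [MeasurableSpace Ω] (μ : Measure Ω)
  [IsProbabilityMeasure μ] (E : ℕ → Set Ω) (c : ℝ), 0 < c → Sparse μ E c →
  ∀ U : Finset ℕ, (∀ m ∈ U, 2 ≤ m) → ∀ A : Finset ℕ → Prop,
  MeasurableSet {ω | A (U.filter (fun m => m ∈ primesPlus E ω))} ∧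
    μ.real {ω | A (U.filter (fun m => m ∈ primesPlus E ω))} = Pb (pp c) U A

/-- BCL: concentration along the subsequence `j ^ AA ε` (edit of `MP_7d0410_cr/B_BCL.lean`; now
`R = 0` and `G = 2x`). -/
def Stmt_BCL.{u} : Prop := ∀ {Ω : Type u} [MeasurableSpace Ω] (μ : Measure Ω)
  [IsProbabilityMeasure μ] (E : ℕ → Set Ω) (c : ℝ), 0 < c → Sparse μ E c →
  ∀ ε : ℝ, 0 < ε → ε < 1 / 4 → ∀ k : ℕ,
  ∀ᵐ ω ∂μ, Tendsto (fun j : ℕ => ((DD 0 (2 * j ^ AA ε) (SS ε (j ^ AA ε) (primesPlus E ω))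
      (j ^ AA ε) k : ℝ) -
    Ex (pp c) (UU ε (j ^ AA ε)) (fun S => (DD 0 (2 * j ^ AA ε) S (j ^ AA ε) k : ℝ))) /
    ((j ^ AA ε : ℕ) : ℝ)) atTop (𝓝 0)

/-- CRG: the counting function (edit of `MP_7d0410_cr/B_ASC.lean`). The number of primes `≤ y` is at
most `3 y/log y` for large `y` (`θ (y) ≤ y log 4`, primes above `√y`), the number `N` of the other
elements of `primesPlus E ω` in `[2, y]` has the mean at most `∑_(m ≤ y) m^(-c) ≤ 2 y^(1-c)`, and by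
`LAW` and `CHU` (applied to the set of the non-primes in `[2, y]`, `Pb_inter`)
`μ (N ≥ y/log y) ≤ exp (4 y^(1-c) - y/log y)`, which is summable over `y`; Borel and Cantelli.
(`1` is not an element.) -/
def Stmt_CRG.{u} : Prop := ∀ {Ω : Type u} [MeasurableSpace Ω] (μ : Measure Ω)
  [IsProbabilityMeasure μ] (E : ℕ → Set Ω) (c : ℝ), 0 < c → c < 1 / 2 → Sparse μ E c →
  ∀ᵐ ω ∂μ, CountReg (primesPlus E ω)

/-- BDQ: where `repCount` and the number of runs with first element at least `a0` differ there is a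
run with a small first element (edit of `MP_7d0410_cr/B_BD1.lean`; now `R = 0`, `G = 2x`, and the
conditions `len < 0` and `q.1 + 2 x len < q.2` never hold). -/
def Stmt_BDQ : Prop := ∀ (P : Set ℕ) (ε : ℝ) (x : ℕ), (∀ m ∈ P, 1 ≤ m) →
  ((Finset.Icc 1 x).filter (fun n => repCount P n ≠ cnt 0 (2 * x) (SS ε x P) n)).card ≤
    ((runs (PP P x)).filter (fun q => sm (PP P x) q ≤ x ∧ q.1 < a0 ε x)).card

/-- FIN: the theorem. `θ = (1/2 - c)/100`, `ρ_k` from `EDK`, `ε_k = min θ (ρ_k/1000)`. Almost surely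
`BCL` holds for all `k` with `ε = ε_k`, and `CRG`. Fix such an `ω`, `P = primesPlus E ω`, `k`,
`ε = ε_k`, and let `x = j^(AA ε)`, `j` large. `DD 0 (2x) (SS ε x P) x k ≥ ρ x - 0.1 ρ x` by `EDK`
and `BCL`; by `BDQ` and `Stmt_BD3` of `MP_7d0410_cr` (proved there: `p_BD3`) the number of `n ≤ x`
with `repCount P n ≠ cnt 0 (2x) (SS ε x P) n` is at most `200 ε x ≤ 0.2 ρ x`. So at least `0.7 ρ x`
of the `n ≤ x` have `repCount P n = k`. Between `j^A` and `(j+1)^A ≤ 2 j^A` (large `j`) use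
monotonicity in `x`: `δ = 0.3 ρ`. -/
def Stmt_FIN.{u} : Prop := ∀ {Ω : Type u} [MeasurableSpace Ω] (μ : Measure Ω)
  [IsProbabilityMeasure μ] (E : ℕ → Set Ω) (c : ℝ), 0 < c → c < 1 / 2 → Sparse μ E c →
  ∀ᵐ ω ∂μ, ∀ k : ℕ, ∃ δ : ℝ, 0 < δ ∧ ∀ᶠ x : ℕ in atTop,
    δ * x ≤ (((Finset.Icc 1 x).filter (fun n => repCount (primesPlus E ω) n = k)).card : ℝ)

end Pool.Agent.Work.MP_7d0410_sp
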