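import Pool.Agent.Work.MP_7d0410_sp.Interface

/-! # C1B: pairs in `AB` -/

set_option autoImplicit false

namespace Pool.Agent.Work.MP_7d0410_sp

open Finset Filter MeasureTheory ProbabilityTheory
open Pool.Agent.Work.MP_7d0410_cr
open scoped Classical Topology

theorem C1B_big (K ε : ℝ) (hε : 0 < ε) : ∀ᶠ x : ℕ in atTop, K ≤ (x : ℝ) ^ ε :=
  ((tendsto_rpow_atTop hε).comp (tendsto_natCast_atTop_atTop (R := ℝ))).eventually_ge_atTop K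

theorem p_C1B (h1 : Stmt_C1S) (h2 : Stmt_CRB) : Stmt_C1B := by
  intro c θ hP
  have ht0 := hP.t0
  have ht1 := hP.t1
  have hc0 := hP.c0
  have hc1 := hP.c1
  have hceq := hP.ceq
  filter_upwards [h2 c θ hP, C1B_big 32 (90 * θ) (by linarith), C1B_big 16 (3 * θ) (by linarith),
    C1B_big 2 (1 / 2) (by norm_num), eventually_ge_atTop 1] with x hCRB e1 e2 e3 e4
  have hx1 : (1 : ℝ) ≤ x := by exact_mod_cast e4
  have hx0 : (0 : ℝ) < x := by linarith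
  have hpos : ∀ s : ℝ, 0 < (x : ℝ) ^ s := fun s => Real.rpow_pos_of_pos hx0 s
  set a := A1 θ x with ha
  set b := A2 θ x with hb
  have haw : (x : ℝ) ^ (1 / 2 + 4 * θ) ≤ a := Nat.le_ceil _
  have hbw : (b : ℝ) ≤ (x : ℝ) ^ (1 / 2 + 8 * θ) := Nat.floor_le (hpos _).le
  have ha2' : (2 : ℝ) ≤ a := e3.trans ((Real.rpow_le_rpow_of_exponent_le hx1 (by linarith)).trans haw)
  have ha2 : 2 ≤ a := by exact_mod_cast ha2'
  have ha0 : (0 : ℝ) < a := by linarith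
  have hb1 : (1 : ℝ) ≤ b := by
    have : 1 ≤ b := Nat.le_floor (by
      rw [Nat.cast_one]
      exact Real.one_le_rpow hx1 (by linarith))
    exact_mod_cast this
  have hG : (G1 θ x : ℝ) ≤ 2 * (x : ℝ) ^ θ := by
    have h3 : (G1 θ x : ℝ) < (x : ℝ) ^ θ + 1 := Nat.ceil_lt_add_one (hpos _).le
    have h4 : 1 ≤ (x : ℝ) ^ θ := Real.one_le_rpow hx1 ht0.le
    linarith
  have hL : (L0 c θ x : ℝ) ≤ 2 * (x : ℝ) ^ (6 * θ + c / 2) := by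
    have h5 : (b : ℝ) ^ c ≤ (x : ℝ) ^ (c / 2 + 4 * θ) := by
      calc (b : ℝ) ^ c ≤ ((x : ℝ) ^ (1 / 2 + 8 * θ)) ^ c :=
            Real.rpow_le_rpow (by linarith) hbw hc0.le
        _ = (x : ℝ) ^ ((1 / 2 + 8 * θ) * c) := (Real.rpow_mul hx0.le _ _).symm
        _ ≤ (x : ℝ) ^ (c / 2 + 4 * θ) := Real.rpow_le_rpow_of_exponent_le hx1 (by nlinarith)
    have h6 : 1 ≤ (x : ℝ) ^ (2 * θ) * (b : ℝ) ^ c := by
      have h7 : 1 ≤ (x : ℝ) ^ (2 * θ) := Real.one_le_rpow hx1 (by linarith)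
      have h8 : 1 ≤ (b : ℝ) ^ c := Real.one_le_rpow hb1 hc0.le
      nlinarith
    have h3 : (L0 c θ x : ℝ) < (x : ℝ) ^ (2 * θ) * (b : ℝ) ^ c + 1 :=
      Nat.ceil_lt_add_one (by linarith)
    have h9 : (x : ℝ) ^ (2 * θ) * (b : ℝ) ^ c ≤ (x : ℝ) ^ (6 * θ + c / 2) := by
      calc (x : ℝ) ^ (2 * θ) * (b : ℝ) ^ c ≤ (x : ℝ) ^ (2 * θ) * (x : ℝ) ^ (c / 2 + 4 * θ) :=
            mul_le_mul_of_nonneg_left h5 (hpos _).le
        _ = (x : ℝ) ^ (6 * θ + c / 2) := by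
            rw [← Real.rpow_add hx0]
            congr 1
            ring
    linarith
  have hmain := h1 (pp c) (prob_pp hc0) a b x (G1 θ x) (L0 c θ x) ((x : ℝ) ^ (3 * θ)) ha2
    (hpos _).le (fun l m hl => hCRB l m hl)
  refine le_trans hmain ?_
  have hL2 : (L0 c θ x : ℝ) ^ 2 ≤ 4 * (x : ℝ) ^ (12 * θ + c) := by
    calc (L0 c θ x : ℝ) ^ 2 ≤ (2 * (x : ℝ) ^ (6 * θ + c / 2)) ^ 2 :=
          pow_le_pow_left₀ (Nat.cast_nonneg _) hL 2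
      _ = 4 * (x : ℝ) ^ (12 * θ + c) := by
          rw [mul_pow, ← Real.rpow_natCast ((x : ℝ) ^ (6 * θ + c / 2)), ← Real.rpow_mul hx0.le]
          congr 1
          · norm_num
          · congr 1
            push_cast
            ring
  have hT1 : 2 * (G1 θ x : ℝ) * x * (L0 c θ x : ℝ) ^ 2 / a ≤ 16 * (x : ℝ) ^ (1 - 91 * θ) := by
    rw [div_le_iff₀ ha0]
    have h10 : (x : ℝ) ^ (1 - 91 * θ) * (x : ℝ) ^ (1 / 2 + 4 * θ) =
        (x : ℝ) ^ θ * x * (x : ℝ) ^ (12 * θ + c) := by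
      rw [← Real.rpow_add hx0, ← Real.rpow_add_one hx0.ne', ← Real.rpow_add hx0]
      congr 1
      rw [hceq]
      ring
    calc 2 * (G1 θ x : ℝ) * x * (L0 c θ x : ℝ) ^ 2
        ≤ 2 * (2 * (x : ℝ) ^ θ) * x * (4 * (x : ℝ) ^ (12 * θ + c)) := by
          have := hpos θ
          gcongr
      _ = 16 * ((x : ℝ) ^ θ * x * (x : ℝ) ^ (12 * θ + c)) := by ring
      _ = 16 * ((x : ℝ) ^ (1 - 91 * θ) * (x : ℝ) ^ (1 / 2 + 4 * θ)) := by rw [h10]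
      _ ≤ 16 * ((x : ℝ) ^ (1 - 91 * θ) * a) := by
          have := hpos (1 - 91 * θ)
          gcongr
      _ = 16 * (x : ℝ) ^ (1 - 91 * θ) * a := by ring
  have hT2 : 4 * (x : ℝ) ^ (3 * θ) * (G1 θ x : ℝ) * (x : ℝ) ^ 2 / (a : ℝ) ^ 2 ≤
      8 * (x : ℝ) ^ (1 - 4 * θ) := by
    rw [div_le_iff₀ (by positivity)]
    have h10 : (x : ℝ) ^ (1 - 4 * θ) * ((x : ℝ) ^ (1 / 2 + 4 * θ)) ^ 2 =
        (x : ℝ) ^ (3 * θ) * (x : ℝ) ^ θ * (x : ℝ) ^ 2 := by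
      rw [← Real.rpow_natCast ((x : ℝ) ^ (1 / 2 + 4 * θ)), ← Real.rpow_mul hx0.le,
        ← Real.rpow_natCast (x : ℝ), ← Real.rpow_add hx0, ← Real.rpow_add hx0,
        ← Real.rpow_add hx0]
      congr 1
      push_cast
      ring
    calc 4 * (x : ℝ) ^ (3 * θ) * (G1 θ x : ℝ) * (x : ℝ) ^ 2
        ≤ 4 * (x : ℝ) ^ (3 * θ) * (2 * (x : ℝ) ^ θ) * (x : ℝ) ^ 2 := by
          have := hpos (3 * θ)
          gcongr
      _ = 8 * ((x : ℝ) ^ (3 * θ) * (x : ℝ) ^ θ * (x : ℝ) ^ 2) := by ring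
      _ = 8 * ((x : ℝ) ^ (1 - 4 * θ) * ((x : ℝ) ^ (1 / 2 + 4 * θ)) ^ 2) := by rw [h10]
      _ ≤ 8 * ((x : ℝ) ^ (1 - 4 * θ) * (a : ℝ) ^ 2) := by
          have := hpos (1 - 4 * θ)
          have := hpos (1 / 2 + 4 * θ)
          gcongr
      _ = 8 * (x : ℝ) ^ (1 - 4 * θ) * (a : ℝ) ^ 2 := by ring
  have hS1 : 16 * (x : ℝ) ^ (1 - 91 * θ) ≤ (x : ℝ) ^ (1 - θ) / 2 := by
    have h10 : (x : ℝ) ^ (1 - θ) = (x : ℝ) ^ (1 - 91 * θ) * (x : ℝ) ^ (90 * θ) := by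
      rw [← Real.rpow_add hx0]
      congr 1
      ring
    rw [h10]
    have := hpos (1 - 91 * θ)
    nlinarith
  have hS2 : 8 * (x : ℝ) ^ (1 - 4 * θ) ≤ (x : ℝ) ^ (1 - θ) / 2 := by
    have h10 : (x : ℝ) ^ (1 - θ) = (x : ℝ) ^ (1 - 4 * θ) * (x : ℝ) ^ (3 * θ) := by
      rw [← Real.rpow_add hx0]
      congr 1
      ring
    rw [h10]
    have := hpos (1 - 4 * θ)
    nlinarith
  linarith

end Pool.Agent.Work.MP_7d0410_sp
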