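import Pool.Agent.Work.MP_7d0410_sp.Interface
import Pool.Agent.Work.MP_7d0410_cr.B_ONE

/-! # Block CRB: the crude bound -/

set_option autoImplicit false

namespace Pool.Agent.Work.MP_7d0410_sp

open Finset Filter MeasureTheory ProbabilityTheory
open Pool.Agent.Work.MP_7d0410_cr
open scoped Classical

/-- the non-primes between `u` and `v` -/
noncomputable def CRB_I (A B u v : ℕ) : Finset ℕ :=
  (Finset.Icc A B).filter (fun z => ¬ z.Prime ∧ u < z ∧ z < v)

theorem CRB_card (A B u v l : ℕ) (hA : 2 ≤ A) (hu : A ≤ u) (hv : v ≤ B) (hl : 6 ≤ l)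
    (huv : u + l ≤ v + 1) : l ≤ 4 * (CRB_I A B u v).card := by
  have h1 : ((Finset.Ioc (u / 2) ((v - 1) / 2)).image (fun i => 2 * i)).card ≤
      (CRB_I A B u v).card := by
    apply Finset.card_le_card
    intro z hz
    rw [Finset.mem_image] at hz
    obtain ⟨i, hi, rfl⟩ := hz
    rw [Finset.mem_Ioc] at hi
    unfold CRB_I
    rw [Finset.mem_filter, Finset.mem_Icc]
    refine ⟨⟨by omega, by omega⟩, ?_, by omega, by omega⟩
    intro hp
    have h2 : (2 : ℕ) ∣ 2 * i := ⟨i, rfl⟩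
    have h3 := (Nat.prime_dvd_prime_iff_eq Nat.prime_two hp).1 h2
    omega
  rw [Finset.card_image_of_injective _ (fun a b h => by
    have : 2 * a = 2 * b := h
    omega), Nat.card_Ioc] at h1
  omega

theorem CRB_core (hMCU : Stmt_MCU) (hCHL : Stmt_CHL) (c : ℝ) (hc : 0 < c) (A B l m : ℕ)
    (hA : 2 ≤ A) (hA2 : (A : ℝ) ^ (-c) ≤ 1 / 2) (hl6 : 6 ≤ l) (hB1 : 1 ≤ B)
    (h24 : 24 ≤ (l : ℝ) * (B : ℝ) ^ (-c)) :
    hh (pp c) (Finset.Icc A B) l m ≤ 16 * (B : ℝ) ^ c * (A : ℝ) ^ (-c) / l +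
      (B : ℝ) ^ 2 * Real.exp (-((l : ℝ) * (B : ℝ) ^ (-c) / 128)) := by
  have hp := prob_pp hc
  have hBr : (0 : ℝ) < B := by exact_mod_cast hB1
  have hlr : (0 : ℝ) < l := by exact_mod_cast (show 0 < l by omega)
  have hBc : (0 : ℝ) < (B : ℝ) ^ (-c) := Real.rpow_pos_of_pos hBr _
  have hBc' : (B : ℝ) ^ c * (B : ℝ) ^ (-c) = 1 := by
    rw [← Real.rpow_add hBr, add_neg_cancel, Real.rpow_zero]
  obtain ⟨s, hs⟩ : ∃ s : ℕ, s = ⌈(l : ℝ) * (B : ℝ) ^ (-c) / 8⌉₊ := ⟨_, rfl⟩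
  have hs1 : (l : ℝ) * (B : ℝ) ^ (-c) / 8 ≤ s := by
    rw [hs]
    exact Nat.le_ceil _
  have hs2 : (s : ℝ) < (l : ℝ) * (B : ℝ) ^ (-c) / 8 + 1 := by
    rw [hs]
    exact Nat.ceil_lt_add_one (by positivity)
  have hs0 : (0 : ℝ) < s := by linarith
  -- the bad event
  obtain ⟨W, hW⟩ : ∃ W : Finset (ℕ × ℕ), W = (Finset.Icc A B ×ˢ Finset.Icc A B).filter
      (fun q => q.1 + l ≤ q.2 + 1) := ⟨_, rfl⟩
  have hbad : Pb (pp c) (Finset.Icc A B) (fun S => ∃ q ∈ W, (S ∩ CRB_I A B q.1 q.2).card < s) ≤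
      (B : ℝ) ^ 2 * Real.exp (-((l : ℝ) * (B : ℝ) ^ (-c) / 128)) := by
    refine (Pb_exists_le hp _ W (fun q S => (S ∩ CRB_I A B q.1 q.2).card < s)).trans ?_
    have h1 : ∀ q ∈ W, Pb (pp c) (Finset.Icc A B) (fun S => (S ∩ CRB_I A B q.1 q.2).card < s) ≤
        Real.exp (-((l : ℝ) * (B : ℝ) ^ (-c) / 128)) := by
      intro q hq
      rw [hW, Finset.mem_filter, Finset.mem_product, Finset.mem_Icc, Finset.mem_Icc] at hq
      obtain ⟨⟨⟨q1, q2⟩, q3, q4⟩, q5⟩ := hq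
      have h2 := CRB_card A B q.1 q.2 l hA q1 q4 hl6 q5
      have h3 : (l : ℝ) / 4 * (B : ℝ) ^ (-c) ≤ ∑ z ∈ CRB_I A B q.1 q.2, pp c z := by
        have h4 : ∀ z ∈ CRB_I A B q.1 q.2, (B : ℝ) ^ (-c) ≤ pp c z := by
          intro z hz
          unfold CRB_I at hz
          rw [Finset.mem_filter, Finset.mem_Icc] at hz
          rw [pp_not_prime hz.2.1]
          have hz0 : (0 : ℝ) < z := by exact_mod_cast (show 0 < z by omega)
          exact Real.rpow_le_rpow_of_nonpos hz0 (by exact_mod_cast hz.1.2) (by linarith)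
        have h5 := Finset.card_nsmul_le_sum _ _ _ h4
        rw [nsmul_eq_mul] at h5
        refine le_trans ?_ h5
        apply mul_le_mul_of_nonneg_right _ hBc.le
        have h6 : (l : ℝ) ≤ 4 * ((CRB_I A B q.1 q.2).card : ℝ) := by exact_mod_cast h2
        linarith
      have h4 := hCHL (pp c) hp (Finset.Icc A B) (CRB_I A B q.1 q.2) s (1 / 2)
        (Finset.filter_subset _ _) (by norm_num) (by norm_num) (by linarith)
      refine h4.trans ?_
      apply Real.exp_le_exp.2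
      linarith
    refine (Finset.sum_le_sum h1).trans ?_
    rw [Finset.sum_const, nsmul_eq_mul]
    apply mul_le_mul_of_nonneg_right _ (Real.exp_pos _).le
    have h2 : W.card ≤ B * B := by
      calc W.card ≤ (Finset.Icc A B ×ˢ Finset.Icc A B).card := by
            rw [hW]
            exact Finset.card_filter_le _ _
        _ = (Finset.Icc A B).card * (Finset.Icc A B).card := Finset.card_product _ _
        _ ≤ B * B := by
            have : (Finset.Icc A B).card ≤ B := by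
              rw [Nat.card_Icc]
              omega
            exact Nat.mul_le_mul this this
    calc (W.card : ℝ) ≤ ((B * B : ℕ) : ℝ) := by exact_mod_cast h2
      _ = (B : ℝ) ^ 2 := by push_cast; ring
  -- pointwise
  have hpt : ∀ S ⊆ Finset.Icc A B, ((rr S l m).card : ℝ) ≤
      (s : ℝ)⁻¹ * (∑ q ∈ rr S l m, (KK S q : ℝ)) +
        (if ∃ q ∈ W, (S ∩ CRB_I A B q.1 q.2).card < s then 1 else 0) := by
    intro S hS
    have hsum : 0 ≤ ∑ q ∈ rr S l m, (KK S q : ℝ) := Finset.sum_nonneg fun q _ => Nat.cast_nonneg _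
    split_ifs with hb
    · have h1 := p_ONE S l m (by omega)
      have h2 : (rr S l m).card ≤ 1 := by
        refine le_trans ?_ h1
        have h3 := Finset.single_le_sum (f := fun ℓ => (rr S l (m + ℓ)).card)
          (fun _ _ => Nat.zero_le _) (Finset.mem_range.2 (show 0 < l by omega))
        exact h3
      have h3 : ((rr S l m).card : ℝ) ≤ 1 := by exact_mod_cast h2
      have h4 : 0 ≤ (s : ℝ)⁻¹ * (∑ q ∈ rr S l m, (KK S q : ℝ)) := by positivity
      linarith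
    · rw [add_zero]
      have h1 : ∀ q ∈ rr S l m, (s : ℝ) ≤ KK S q := by
        intro q hq
        unfold rr runs at hq
        rw [Finset.mem_filter, Finset.mem_filter, Finset.mem_product] at hq
        obtain ⟨⟨⟨q1, q2⟩, q3⟩, q4, q5⟩ := hq
        have h2 : q.1 + l ≤ q.2 + 1 := by
          have h3 : len S q ≤ (Finset.Icc q.1 q.2).card := by
            unfold len seg
            apply Finset.card_le_card
            intro z hz
            rw [Finset.mem_filter] at hz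
            rw [Finset.mem_Icc]
            exact hz.2
          rw [Nat.card_Icc, q4] at h3
          omega
        have hqW : q ∈ W := by
          rw [hW, Finset.mem_filter, Finset.mem_product]
          exact ⟨⟨hS q1, hS q2⟩, h2⟩
        have h4 : s ≤ (S ∩ CRB_I A B q.1 q.2).card := by
          by_contra hcon
          exact hb ⟨q, hqW, not_le.1 hcon⟩
        have h5 : (S ∩ CRB_I A B q.1 q.2).card ≤ KK S q := by
          unfold KK CRB_I
          apply Finset.card_le_card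
          intro z hz
          rw [Finset.mem_inter, Finset.mem_filter] at hz
          rw [Finset.mem_filter]
          exact ⟨hz.1, hz.2.2⟩
        exact_mod_cast h4.trans h5
      have h2 := Finset.card_nsmul_le_sum _ _ _ h1
      rw [nsmul_eq_mul] at h2
      rw [inv_mul_eq_div, le_div_iff₀ hs0]
      exact h2
  have hmain : hh (pp c) (Finset.Icc A B) l m ≤
      (s : ℝ)⁻¹ * Ex (pp c) (Finset.Icc A B) (fun S => ∑ q ∈ rr S l m, (KK S q : ℝ)) +
      Pb (pp c) (Finset.Icc A B) (fun S => ∃ q ∈ W, (S ∩ CRB_I A B q.1 q.2).card < s) := by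
    unfold hh
    rw [← Ex_const_mul, Pb_eq, ← Ex_add]
    exact Ex_mono hp hpt
  refine hmain.trans (add_le_add ?_ hbad)
  have h1 := hMCU c hc A B l m hA hA2
  have hinv : (s : ℝ)⁻¹ ≤ 8 * (B : ℝ) ^ c / l := by
    rw [inv_le_comm₀ hs0 (by positivity)]
    refine le_trans (le_of_eq ?_) hs1
    have hBcp : (0 : ℝ) < (B : ℝ) ^ c := Real.rpow_pos_of_pos hBr _
    have hBn : (B : ℝ) ^ (-c) = ((B : ℝ) ^ c)⁻¹ := Real.rpow_neg hBr.le c
    rw [hBn]
    field_simp
  have hE : 0 ≤ Ex (pp c) (Finset.Icc A B) (fun S => ∑ q ∈ rr S l m, (KK S q : ℝ)) :=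
    Ex_nonneg hp fun S _ => Finset.sum_nonneg fun q _ => Nat.cast_nonneg _
  calc (s : ℝ)⁻¹ * Ex (pp c) (Finset.Icc A B) (fun S => ∑ q ∈ rr S l m, (KK S q : ℝ)) ≤
      8 * (B : ℝ) ^ c / l * (2 * (A : ℝ) ^ (-c)) := mul_le_mul hinv h1 hE (by positivity)
    _ = _ := by ring

theorem CRB_exp (θ : ℝ) (hθ : 0 < θ) : ∀ᶠ x : ℕ in atTop,
    (x : ℝ) ^ 3 * Real.exp (-((x : ℝ) ^ (2 * θ) / 128)) ≤ 1 := by
  have h1 := (tendsto_rpow_mul_exp_neg_mul_atTop_nhds_zero (3 / (2 * θ)) (1 / 128)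
    (by norm_num)).comp ((tendsto_rpow_atTop (show 0 < 2 * θ by positivity)).comp
      (tendsto_natCast_atTop_atTop (R := ℝ)))
  filter_upwards [h1.eventually (gt_mem_nhds (show (0 : ℝ) < 1 by norm_num)),
    eventually_ge_atTop 1] with x hx hx1
  simp only [Function.comp_apply] at hx
  have hx0 : (0 : ℝ) ≤ x := Nat.cast_nonneg _
  have h2 : ((x : ℝ) ^ (2 * θ)) ^ (3 / (2 * θ)) = (x : ℝ) ^ 3 := by
    rw [← Real.rpow_mul hx0, ← Real.rpow_natCast]
    congr 1
    field_simp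
    norm_num
  rw [h2] at hx
  have h3 : -(1 / 128) * (x : ℝ) ^ (2 * θ) = -((x : ℝ) ^ (2 * θ) / 128) := by ring
  rw [h3] at hx
  exact hx.le

theorem p_CRB (hMCU : Stmt_MCU) (hCHL : Stmt_CHL) : Stmt_CRB := by
  intro c θ hpar
  have hθ := hpar.t0
  have hθ1 := hpar.t1
  have hc := hpar.c0
  have hc1 := hpar.c1
  have tp : ∀ e : ℝ, 0 < e → Tendsto (fun x : ℕ => (x : ℝ) ^ e) atTop atTop := fun e he =>
    (tendsto_rpow_atTop he).comp (tendsto_natCast_atTop_atTop (R := ℝ))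
  filter_upwards [CRB_exp θ hθ, (tp (2 * θ) (by positivity)).eventually_ge_atTop 24,
    (tp θ hθ).eventually_ge_atTop 17, (tp (c * (1 / 2 + 4 * θ)) (by positivity)).eventually_ge_atTop 2,
    eventually_ge_atTop 16] with x e1 e2 e3 e4 e5
  intro l m hl
  have hx1 : (1 : ℝ) ≤ x := by exact_mod_cast (show 1 ≤ x by omega)
  have hx0 : (0 : ℝ) < x := by linarith
  have hA : (x : ℝ) ^ (1 / 2 + 4 * θ) ≤ A1 θ x := Nat.le_ceil _
  have hB : (A2 θ x : ℝ) ≤ (x : ℝ) ^ (1 / 2 + 8 * θ) := Nat.floor_le (by positivity)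
  have hBx : (A2 θ x : ℝ) ≤ x := by
    refine hB.trans ?_
    calc (x : ℝ) ^ (1 / 2 + 8 * θ) ≤ (x : ℝ) ^ (1 : ℝ) :=
          Real.rpow_le_rpow_of_exponent_le hx1 (by linarith)
      _ = x := Real.rpow_one _
  have hBx' : A2 θ x ≤ x := by exact_mod_cast hBx
  have hApos : (0 : ℝ) < (x : ℝ) ^ (1 / 2 + 4 * θ) := by positivity
  have hA0 : (0 : ℝ) < A1 θ x := lt_of_lt_of_le hApos hA
  have hA2 : 2 ≤ A1 θ x := by
    have h1 : (2 : ℝ) ≤ (x : ℝ) ^ (1 / 2 + 4 * θ) := by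
      have h2 : (x : ℝ) ^ (1 / 2 : ℝ) ≤ (x : ℝ) ^ (1 / 2 + 4 * θ) :=
        Real.rpow_le_rpow_of_exponent_le hx1 (by linarith)
      have h3 : (16 : ℝ) ^ (1 / 2 : ℝ) ≤ (x : ℝ) ^ (1 / 2 : ℝ) :=
        Real.rpow_le_rpow (by norm_num) (by exact_mod_cast e5) (by norm_num)
      have h4 : (16 : ℝ) ^ (1 / 2 : ℝ) = 4 := by
        rw [← Real.sqrt_eq_rpow, show (16 : ℝ) = 4 ^ 2 by norm_num,
          Real.sqrt_sq (by norm_num)]
      linarith
    exact_mod_cast h1.trans hA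
  have hB1 : 1 ≤ A2 θ x := by
    unfold A2
    rw [Nat.one_le_floor_iff]
    exact Real.one_le_rpow hx1 (by linarith)
  have hBr : (0 : ℝ) < A2 θ x := by exact_mod_cast hB1
  have hBc1 : (1 : ℝ) ≤ (A2 θ x : ℝ) ^ c := Real.one_le_rpow (by exact_mod_cast hB1) hc.le
  have hlr : (x : ℝ) ^ (2 * θ) * (A2 θ x : ℝ) ^ c ≤ l := by
    refine (Nat.le_ceil _).trans ?_
    exact_mod_cast hl
  have hl24 : (24 : ℝ) ≤ l := by
    calc (24 : ℝ) ≤ (x : ℝ) ^ (2 * θ) * 1 := by rw [mul_one]; exact e2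
      _ ≤ (x : ℝ) ^ (2 * θ) * (A2 θ x : ℝ) ^ c := mul_le_mul_of_nonneg_left hBc1 (by positivity)
      _ ≤ l := hlr
  have hl6 : 6 ≤ l := by
    have : 24 ≤ l := by exact_mod_cast hl24
    omega
  have hl0 : (0 : ℝ) < l := by linarith
  rcases lt_or_ge x l with hlx | hlx
  · -- no runs
    have h1 : hh (pp c) (VV θ x) l m = 0 := by
      unfold hh
      rw [← Ex_const (p := pp c) (VV θ x) 0]
      refine Ex_congr fun S hS => ?_
      have h2 : rr S l m = ∅ := by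
        unfold rr
        rw [Finset.filter_eq_empty_iff]
        rintro q _ ⟨h3, -⟩
        have h4 : len S q ≤ (VV θ x).card := by
          unfold len seg
          exact (Finset.card_filter_le _ _).trans (Finset.card_le_card hS)
        have h5 : (VV θ x).card ≤ A2 θ x := by
          unfold VV
          rw [Nat.card_Icc]
          omega
        omega
      rw [h2, Finset.card_empty, Nat.cast_zero]
    rw [h1]
    positivity
  · have hlB : (x : ℝ) ^ (2 * θ) ≤ (l : ℝ) * (A2 θ x : ℝ) ^ (-c) := by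
      have h1 : (A2 θ x : ℝ) ^ c * (A2 θ x : ℝ) ^ (-c) = 1 := by
        rw [← Real.rpow_add hBr, add_neg_cancel, Real.rpow_zero]
      calc (x : ℝ) ^ (2 * θ) = (x : ℝ) ^ (2 * θ) * ((A2 θ x : ℝ) ^ c * (A2 θ x : ℝ) ^ (-c)) := by
            rw [h1, mul_one]
        _ = (x : ℝ) ^ (2 * θ) * (A2 θ x : ℝ) ^ c * (A2 θ x : ℝ) ^ (-c) := by ring
        _ ≤ l * (A2 θ x : ℝ) ^ (-c) := mul_le_mul_of_nonneg_right hlr (by positivity)
    have hAc : (A1 θ x : ℝ) ^ (-c) ≤ (x : ℝ) ^ (-(c * (1 / 2 + 4 * θ))) := by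
      calc (A1 θ x : ℝ) ^ (-c) ≤ ((x : ℝ) ^ (1 / 2 + 4 * θ)) ^ (-c) :=
            Real.rpow_le_rpow_of_nonpos hApos hA (by linarith)
        _ = (x : ℝ) ^ (-(c * (1 / 2 + 4 * θ))) := by
            rw [← Real.rpow_mul hx0.le]
            congr 1
            ring
    have hA12 : (A1 θ x : ℝ) ^ (-c) ≤ 1 / 2 := by
      refine hAc.trans ?_
      rw [Real.rpow_neg hx0.le]
      have h9 := inv_anti₀ (by norm_num : (0 : ℝ) < 2) e4
      refine h9.trans (le_of_eq ?_)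
      norm_num
    have hcore := CRB_core hMCU hCHL c hc (A1 θ x) (A2 θ x) l m hA2 hA12 hl6 hB1 (e2.trans hlB)
    refine hcore.trans ?_
    have h1 : 16 * (A2 θ x : ℝ) ^ c * (A1 θ x : ℝ) ^ (-c) / l ≤ 16 * (x : ℝ) ^ (2 * θ) / l := by
      apply div_le_div_of_nonneg_right _ hl0.le
      have h2 : (A2 θ x : ℝ) ^ c ≤ (x : ℝ) ^ (c * (1 / 2 + 8 * θ)) := by
        calc (A2 θ x : ℝ) ^ c ≤ ((x : ℝ) ^ (1 / 2 + 8 * θ)) ^ c :=
              Real.rpow_le_rpow hBr.le hB hc.le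
          _ = (x : ℝ) ^ (c * (1 / 2 + 8 * θ)) := by
              rw [← Real.rpow_mul hx0.le]
              congr 1
              ring
      calc 16 * (A2 θ x : ℝ) ^ c * (A1 θ x : ℝ) ^ (-c) ≤
          16 * (x : ℝ) ^ (c * (1 / 2 + 8 * θ)) * (x : ℝ) ^ (-(c * (1 / 2 + 4 * θ))) := by
            apply mul_le_mul _ hAc (by positivity) (by positivity)
            exact mul_le_mul_of_nonneg_left h2 (by norm_num)
        _ = 16 * (x : ℝ) ^ (c * (4 * θ)) := by
            rw [mul_assoc, ← Real.rpow_add hx0]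
            congr 2
            ring
        _ ≤ 16 * (x : ℝ) ^ (2 * θ) := by
            apply mul_le_mul_of_nonneg_left _ (by norm_num)
            exact Real.rpow_le_rpow_of_exponent_le hx1 (by nlinarith)
    have h2 : (A2 θ x : ℝ) ^ 2 * Real.exp (-((l : ℝ) * (A2 θ x : ℝ) ^ (-c) / 128)) ≤ 1 / l := by
      have h3 : Real.exp (-((l : ℝ) * (A2 θ x : ℝ) ^ (-c) / 128)) ≤
          Real.exp (-((x : ℝ) ^ (2 * θ) / 128)) := by
        apply Real.exp_le_exp.2
        linarith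
      have h4 : (A2 θ x : ℝ) ^ 2 ≤ (x : ℝ) ^ 2 := pow_le_pow_left₀ hBr.le hBx 2
      have h5 : (l : ℝ) ≤ x := by exact_mod_cast hlx
      rw [le_div_iff₀ hl0]
      calc (A2 θ x : ℝ) ^ 2 * Real.exp (-((l : ℝ) * (A2 θ x : ℝ) ^ (-c) / 128)) * l ≤
          (x : ℝ) ^ 2 * Real.exp (-((x : ℝ) ^ (2 * θ) / 128)) * x := by
            apply mul_le_mul _ h5 hl0.le (by positivity)
            exact mul_le_mul h4 h3 (Real.exp_pos _).le (by positivity)
        _ = (x : ℝ) ^ 3 * Real.exp (-((x : ℝ) ^ (2 * θ) / 128)) := by ring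
        _ ≤ 1 := e1
    have h3 : 16 * (x : ℝ) ^ (2 * θ) / l + 1 / l ≤ (x : ℝ) ^ (3 * θ) / l := by
      rw [← add_div]
      apply div_le_div_of_nonneg_right _ hl0.le
      have h4 : (x : ℝ) ^ (3 * θ) = (x : ℝ) ^ θ * (x : ℝ) ^ (2 * θ) := by
        rw [← Real.rpow_add hx0]
        congr 1
        ring
      rw [h4]
      have h5 : 17 * (x : ℝ) ^ (2 * θ) ≤ (x : ℝ) ^ θ * (x : ℝ) ^ (2 * θ) :=
        mul_le_mul_of_nonneg_right e3 (by positivity)
      linarith
    linarith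

end Pool.Agent.Work.MP_7d0410_sp
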