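import Pool.Agent.Work.MP_7d0410_sp.Interface
import Pool.Agent.Work.MP_7d0410_cr.B_BCL
import Mathlib.NumberTheory.Chebyshev

set_option autoImplicit false

/-! Block CRG (helper40): the counting function. -/

namespace Pool.Agent.Work.MP_7d0410_sp

open Finset Filter MeasureTheory ProbabilityTheory
open Pool.Agent.Work.MP_7d0410_cr
open scoped Classical Topology

theorem CRG_log {c : ℝ} (h0 : 0 < c) : ∀ᶠ y : ℕ in atTop,
    Real.log y ≤ (y : ℝ) ^ (c / 2) / 8 := by
  have h1 := (isLittleO_log_rpow_atTop (by linarith : (0 : ℝ) < c / 2)).bound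
    (by norm_num : (0 : ℝ) < 1 / 8)
  have h2 := tendsto_natCast_atTop_atTop (R := ℝ)
  filter_upwards [h2.eventually h1] with y hy
  rw [Real.norm_eq_abs, Real.norm_eq_abs, abs_of_nonneg (Real.rpow_nonneg (Nat.cast_nonneg _) _)]
    at hy
  have h3 := le_abs_self (Real.log (y : ℝ))
  linarith

theorem CRG_sum {c : ℝ} (h0 : 0 < c) (y : ℕ) (hy : 1 ≤ y) :
    ∑ m ∈ (Finset.Icc 2 y).filter (fun m => ¬ m.Prime), pp c m ≤
      √(y : ℝ) + (y : ℝ) ^ (1 - c / 2) := by
  have hyr : (1 : ℝ) ≤ y := by exact_mod_cast hy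
  have hy0 : (0 : ℝ) < y := by linarith
  have hs0 : 0 < √(y : ℝ) := Real.sqrt_pos.2 hy0
  have h1 : ∀ m ∈ (Finset.Icc 2 y).filter (fun m => ¬ m.Prime), pp c m ≤
      (if (m : ℝ) ≤ √(y : ℝ) then 1 else 0) + (y : ℝ) ^ (-(c / 2)) := by
    intro m hm
    rw [Finset.mem_filter, Finset.mem_Icc] at hm
    by_cases h2 : (m : ℝ) ≤ √(y : ℝ)
    · rw [if_pos h2]
      have h3 := pp_le_one h0 m
      have h4 : 0 < (y : ℝ) ^ (-(c / 2)) := Real.rpow_pos_of_pos hy0 _
      linarith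
    · rw [if_neg h2, zero_add, pp_not_prime hm.2]
      push Not at h2
      have h3 : (m : ℝ) ^ (-c) ≤ √(y : ℝ) ^ (-c) :=
        Real.rpow_le_rpow_of_nonpos hs0 h2.le (by linarith)
      refine h3.trans (le_of_eq ?_)
      rw [Real.sqrt_eq_rpow, ← Real.rpow_mul hy0.le]
      congr 1
      ring
  have h2 : ∑ m ∈ (Finset.Icc 2 y).filter (fun m => ¬ m.Prime),
      (if (m : ℝ) ≤ √(y : ℝ) then (1 : ℝ) else 0) ≤ √(y : ℝ) := by
    rw [← Finset.sum_filter, Finset.sum_const, nsmul_eq_mul, mul_one]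
    have h3 : (((Finset.Icc 2 y).filter (fun m => ¬ m.Prime)).filter
        (fun m : ℕ => (m : ℝ) ≤ √(y : ℝ))) ⊆ Finset.Icc 1 ⌊√(y : ℝ)⌋₊ := by
      intro m hm
      rw [Finset.mem_filter, Finset.mem_filter, Finset.mem_Icc] at hm
      rw [Finset.mem_Icc]
      exact ⟨by omega, Nat.le_floor hm.2⟩
    have h4 := Finset.card_le_card h3
    rw [Nat.card_Icc, Nat.add_sub_cancel] at h4
    calc ((((Finset.Icc 2 y).filter (fun m => ¬ m.Prime)).filter
          (fun m : ℕ => (m : ℝ) ≤ √(y : ℝ))).card : ℝ)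
        ≤ (⌊√(y : ℝ)⌋₊ : ℝ) := by exact_mod_cast h4
      _ ≤ √(y : ℝ) := Nat.floor_le hs0.le
  have h5 : ∑ m ∈ (Finset.Icc 2 y).filter (fun m => ¬ m.Prime), (y : ℝ) ^ (-(c / 2)) ≤
      (y : ℝ) ^ (1 - c / 2) := by
    rw [Finset.sum_const, nsmul_eq_mul]
    have h6 : (((Finset.Icc 2 y).filter (fun m => ¬ m.Prime)).card : ℝ) ≤ y := by
      have h7 := Finset.card_filter_le (Finset.Icc 2 y) (fun m => ¬ m.Prime)
      rw [Nat.card_Icc] at h7
      have : ((Finset.Icc 2 y).filter (fun m => ¬ m.Prime)).card ≤ y := by omega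
      exact_mod_cast this
    have h7 : (y : ℝ) ^ (1 - c / 2) = y * (y : ℝ) ^ (-(c / 2)) := by
      rw [sub_eq_add_neg, Real.rpow_add hy0, Real.rpow_one]
    rw [h7]
    exact mul_le_mul_of_nonneg_right h6 (Real.rpow_nonneg hy0.le _)
  calc ∑ m ∈ (Finset.Icc 2 y).filter (fun m => ¬ m.Prime), pp c m
      ≤ ∑ m ∈ (Finset.Icc 2 y).filter (fun m => ¬ m.Prime),
        ((if (m : ℝ) ≤ √(y : ℝ) then (1 : ℝ) else 0) + (y : ℝ) ^ (-(c / 2))) :=
        Finset.sum_le_sum h1
    _ = ∑ m ∈ (Finset.Icc 2 y).filter (fun m => ¬ m.Prime),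
          (if (m : ℝ) ≤ √(y : ℝ) then (1 : ℝ) else 0) +
        ∑ m ∈ (Finset.Icc 2 y).filter (fun m => ¬ m.Prime), (y : ℝ) ^ (-(c / 2)) :=
        Finset.sum_add_distrib
    _ ≤ _ := by linarith

/-- the exponent is large -/
theorem CRG_num {c : ℝ} (h0 : 0 < c) (h1 : c < 1 / 2) : ∀ᶠ y : ℕ in atTop,
    2 * ∑ m ∈ (Finset.Icc 2 y).filter (fun m => ¬ m.Prime), pp c m - (y : ℝ) / Real.log y ≤
      -(2 * Real.log y) := by
  filter_upwards [CRG_log h0, eventually_ge_atTop 3] with y hL hy3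
  have hyr : (3 : ℝ) ≤ y := by exact_mod_cast hy3
  have hy0 : (0 : ℝ) < y := by linarith
  have hlog : 0 < Real.log y := Real.log_pos (by linarith)
  have hs := CRG_sum h0 y (by omega)
  set s : ℝ := √(y : ℝ) with hsd
  set A : ℝ := (y : ℝ) ^ (c / 2) with hA
  set B : ℝ := (y : ℝ) ^ (1 - c / 2) with hB
  set L : ℝ := Real.log y with hLd
  have hs0 : 0 < s := Real.sqrt_pos.2 hy0
  have hss : s * s = y := Real.mul_self_sqrt hy0.le
  have hA0 : 0 < A := Real.rpow_pos_of_pos hy0 _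
  have hB0 : 0 < B := Real.rpow_pos_of_pos hy0 _
  have hAB : A * B = y := by
    rw [hA, hB, ← Real.rpow_add hy0]
    have : c / 2 + (1 - c / 2) = 1 := by ring
    rw [this, Real.rpow_one]
  have hAs : A ≤ s := by
    rw [hA, hsd, Real.sqrt_eq_rpow]
    exact Real.rpow_le_rpow_of_exponent_le (by linarith) (by linarith)
  have k1 : L * (2 * s) ≤ y / 4 := by
    have : L * (2 * s) ≤ (s / 8) * (2 * s) :=
      mul_le_mul_of_nonneg_right (by linarith) (by positivity)
    nlinarith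
  have k2 : L * (2 * B) ≤ y / 4 := by
    have : L * (2 * B) ≤ (A / 8) * (2 * B) := mul_le_mul_of_nonneg_right hL (by positivity)
    nlinarith
  have k3 : L * (2 * L) ≤ y / 4 := by
    have h3 : L ≤ s / 8 := by linarith
    have : L * (2 * L) ≤ (s / 8) * (2 * (s / 8)) :=
      mul_le_mul h3 (by linarith) (by positivity) (by positivity)
    nlinarith
  have k4 : 2 * s + 2 * B + 2 * L ≤ y / L := by
    rw [le_div_iff₀ hlog]
    nlinarith
  linarith

theorem p_CRG.{u} (hC : Stmt_CHU) (hL : Stmt_LAW.{u}) : Stmt_CRG.{u} := by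
  intro Ω _ μ _ E c hc hc2 hE
  set V : ℕ → Finset ℕ := fun y => (Finset.Icc 2 y).filter (fun m => ¬ m.Prime) with hV
  have hbc : ∀ᵐ ω ∂μ, ∀ᶠ y : ℕ in atTop, ω ∉ {ω | (y : ℝ) / Real.log y ≤
      (((((Finset.Icc 2 y).filter (fun m => m ∈ primesPlus E ω)) ∩ V y).card : ℕ) : ℝ)} := by
    refine BCL_bc μ _ (fun y => 1 / (y : ℝ) ^ 2) (Real.summable_one_div_nat_pow.mpr (by norm_num)) ?_
    filter_upwards [CRG_num hc hc2, eventually_ge_atTop 3] with y hy hy3
    have hlaw := (hL μ E c hc hE (Finset.Icc 2 y) (fun m hm => (Finset.mem_Icc.1 hm).1)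
      (fun S => (y : ℝ) / Real.log y ≤ ((S ∩ V y).card : ℝ))).2
    have hset : {ω | (y : ℝ) / Real.log y ≤
      (((((Finset.Icc 2 y).filter (fun m => m ∈ primesPlus E ω)) ∩ V y).card : ℕ) : ℝ)} =
      {ω | (fun S : Finset ℕ => (y : ℝ) / Real.log y ≤ ((S ∩ V y).card : ℝ))
        ((Finset.Icc 2 y).filter (fun m => m ∈ primesPlus E ω))} := rfl
    rw [hset, hlaw]
    have hpi : Pb (pp c) (Finset.Icc 2 y) (fun S => (y : ℝ) / Real.log y ≤ ((S ∩ V y).card : ℝ)) =
        Pb (pp c) (V y) (fun S => (y : ℝ) / Real.log y ≤ (S.card : ℝ)) :=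
      Pb_inter (p := pp c) (Finset.filter_subset _ _)
        (fun S : Finset ℕ => (y : ℝ) / Real.log y ≤ (S.card : ℝ))
    rw [hpi]
    refine (hC (pp c) (prob_pp hc) (V y) _).trans ((Real.exp_le_exp.2 hy).trans (le_of_eq ?_))
    have hy0 : (0 : ℝ) < y := by
      have : 0 < y := by omega
      exact_mod_cast this
    rw [Real.exp_neg, two_mul, Real.exp_add, Real.exp_log hy0, one_div, sq]
  have hpr : ∀ᶠ y : ℕ in atTop, (((Finset.Icc 1 y).filter Nat.Prime).card : ℝ) ≤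
      3 * ((y : ℝ) / Real.log y) := by
    have h1 := Chebyshev.eventually_primeCounting_le (by norm_num : (0 : ℝ) < 1)
    have h2 := tendsto_natCast_atTop_atTop (R := ℝ)
    filter_upwards [h2.eventually h1, eventually_ge_atTop 3] with y hy hy3
    have hyr : (3 : ℝ) ≤ y := by exact_mod_cast hy3
    have hlog : 0 < Real.log y := Real.log_pos (by linarith)
    rw [Nat.floor_natCast] at hy
    have h3 : ((Finset.Icc 1 y).filter Nat.Prime).card ≤ Nat.primeCounting y := by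
      rw [Nat.primeCounting, Nat.primeCounting', Nat.count_eq_card_filter_range]
      refine Finset.card_le_card ?_
      intro m hm
      rw [Finset.mem_filter, Finset.mem_Icc] at hm
      rw [Finset.mem_filter, Finset.mem_range]
      exact ⟨by omega, hm.2⟩
    have h4 : Real.log 4 ≤ 2 := by
      have h5 : Real.log 4 = 2 * Real.log 2 := by
        rw [show (4 : ℝ) = 2 ^ 2 by norm_num, Real.log_pow]
        norm_num
      have := Real.log_two_lt_d9
      linarith
    calc (((Finset.Icc 1 y).filter Nat.Prime).card : ℝ) ≤ (Nat.primeCounting y : ℝ) := by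
          exact_mod_cast h3
      _ ≤ (Real.log 4 + 1) * y / Real.log y := hy
      _ = (Real.log 4 + 1) * (y / Real.log y) := by ring
      _ ≤ 3 * ((y : ℝ) / Real.log y) :=
          mul_le_mul_of_nonneg_right (by linarith) (by positivity)
  filter_upwards [hbc] with ω hω
  unfold CountReg
  filter_upwards [hω, hpr, eventually_ge_atTop 3] with y h1 h2 hy3
  have hyr : (3 : ℝ) ≤ y := by exact_mod_cast hy3
  have hlog : 0 < Real.log y := Real.log_pos (by linarith)
  have h0 : 0 < (y : ℝ) / Real.log y := by positivity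
  have h3 : (((((Finset.Icc 2 y).filter (fun m => m ∈ primesPlus E ω)) ∩ V y).card : ℕ) : ℝ) <
      (y : ℝ) / Real.log y := not_le.1 h1
  have h4 : PP (primesPlus E ω) y ⊆ ((Finset.Icc 1 y).filter Nat.Prime) ∪
      (((Finset.Icc 2 y).filter (fun m => m ∈ primesPlus E ω)) ∩ V y) := by
    intro m hm
    unfold PP at hm
    rw [Finset.mem_filter, Finset.mem_Icc] at hm
    rw [Finset.mem_union, Finset.mem_filter, Finset.mem_Icc, Finset.mem_inter, Finset.mem_filter,
      Finset.mem_Icc, hV, Finset.mem_filter, Finset.mem_Icc]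
    by_cases hp : m.Prime
    · exact Or.inl ⟨hm.1, hp⟩
    · right
      have h5 : 2 ≤ m := by
        rcases hm.2 with h6 | h6
        · exact h6.two_le
        · exact h6.1
      exact ⟨⟨⟨h5, hm.1.2⟩, hm.2⟩, ⟨h5, hm.1.2⟩, hp⟩
  have h5 : ((PP (primesPlus E ω) y).card : ℝ) ≤ (((Finset.Icc 1 y).filter Nat.Prime).card : ℝ) +
      (((((Finset.Icc 2 y).filter (fun m => m ∈ primesPlus E ω)) ∩ V y).card : ℕ) : ℝ) := by
    have h6 := (Finset.card_le_card h4).trans (Finset.card_union_le _ _)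
    exact_mod_cast h6
  linarith

end Pool.Agent.Work.MP_7d0410_sp
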