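import Pool.Agent.Work.MP_7d0410_sp.Interface

/-!
# The runs near `n / r`
-/

set_option autoImplicit false

namespace Pool.Agent.Work.MP_7d0410_sp

open Finset Filter MeasureTheory ProbabilityTheory
open Pool.Agent.Work.MP_7d0410_cr
open scoped Classical

lemma HGD_len (S T : Finset ℕ) (q : ℕ × ℕ) (hq : q ∈ runs S) (hT : T ⊆ S)
    (h : ∀ p ∈ T, q.1 < p ∧ p < q.2) : T.card + 1 ≤ len S q := by
  have h1 : insert q.1 T ⊆ seg S q := by
    intro p hp
    rcases Finset.mem_insert.1 hp with hp | hp
    · subst hp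
      exact mem_seg.2 ⟨(mem_runs.1 hq).1, le_rfl, (mem_runs.1 hq).2.2⟩
    · exact mem_seg.2 ⟨hT hp, (h p hp).1.le, (h p hp).2.le⟩
  have h2 : q.1 ∉ T := fun hm => lt_irrefl _ (h q.1 hm).1
  have := Finset.card_le_card h1
  rw [Finset.card_insert_of_notMem h2] at this
  exact this

theorem p_HGD : Stmt_HGD := by
  intro a b Λ r n S hS hprime hr hΛa hΛb hGR h2a h2n
  obtain ⟨hG1, hG2⟩ := hGR
  set T1 : Finset ℕ := (Finset.range (n + 1)).filter
    (fun p => p.Prime ∧ r * p < n ∧ n ≤ r * (p + Λ)) with hT1
  set T2 : Finset ℕ := (Finset.range (2 * n + 1)).filter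
    (fun p => p.Prime ∧ n < r * p ∧ r * p ≤ n + r * Λ) with hT2
  have hrpos : 0 < r := hr
  have hT1S : T1 ⊆ S := by
    intro p hp
    obtain ⟨_, hp1, hp2, hp3⟩ := Finset.mem_filter.1 hp
    refine hprime p (Finset.mem_Icc.2 ⟨?_, ?_⟩) hp1
    · have h1 : r * (2 * a) ≤ r * (p + Λ) := by
        have : r * (2 * a) = 2 * a * r := by ring
        omega
      have := Nat.le_of_mul_le_mul_left h1 hrpos
      omega
    · have h1 : r * (2 * p) ≤ r * b := by
        have e1 : r * (2 * p) = 2 * (r * p) := by ring
        have e2 : r * b = b * r := by ring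
        omega
      have := Nat.le_of_mul_le_mul_left h1 hrpos
      omega
  have hT2S : T2 ⊆ S := by
    intro p hp
    obtain ⟨_, hp1, hp2, hp3⟩ := Finset.mem_filter.1 hp
    refine hprime p (Finset.mem_Icc.2 ⟨?_, ?_⟩) hp1
    · have h1 : r * (2 * a) ≤ r * p := by
        have : r * (2 * a) = 2 * a * r := by ring
        omega
      have := Nat.le_of_mul_le_mul_left h1 hrpos
      omega
    · have h1 : r * (2 * p) ≤ r * (b + 2 * Λ) := by
        have e1 : r * (2 * p) = 2 * (r * p) := by ring
        have e2 : r * (b + 2 * Λ) = b * r + 2 * (r * Λ) := by ring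
        omega
      have := Nat.le_of_mul_le_mul_left h1 hrpos
      omega
  have key : ∀ q ∈ runs S, r * q.1 < n + 1 → len S q ≤ r → r * q.2 ≤ n + r * Λ := by
    intro q hq h1 h2
    by_contra hcon
    push Not at hcon
    have := HGD_len S T2 q hq hT2S (by
      intro p hp
      obtain ⟨_, hp1, hp2, hp3⟩ := Finset.mem_filter.1 hp
      constructor
      · have : r * q.1 < r * p := by omega
        exact Nat.lt_of_mul_lt_mul_left this
      · have : r * p < r * q.2 := by omega
        exact Nat.lt_of_mul_lt_mul_left this)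
    omega
  constructor
  · intro q hq
    obtain ⟨hq1, hq2, hq3⟩ := mem_rr.1 hq
    have h1 := len_mul_le_sm S q
    have h2 := sm_le_len_mul S q
    rw [hq2, hq3] at h1 h2
    refine ⟨?_, key q hq1 (by omega) (by omega)⟩
    by_contra hcon
    push Not at hcon
    have := HGD_len S T1 q hq1 hT1S (by
      intro p hp
      obtain ⟨_, hp1, hp2, hp3⟩ := Finset.mem_filter.1 hp
      constructor
      · have : r * (q.1 + Λ) < r * (p + Λ) := by omega
        have := Nat.lt_of_mul_lt_mul_left this
        omega
      · have : r * p < r * q.2 := by omega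
        exact Nat.lt_of_mul_lt_mul_left this)
    omega
  · intro q hq hlen h1 h2
    have h3 := len_mul_le_sm S q
    refine key q hq ?_ (by omega)
    have : r * q.1 = len S q * q.1 + q.1 := by
      rw [← hlen]
      ring
    omega

end Pool.Agent.Work.MP_7d0410_sp
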