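import Pool.Agent.Work.MP_7d0410_sp.Interface
import Pool.Agent.Work.MP_7d0410_cr.B_ONE

set_option autoImplicit false

/-! Block HLB (helper40): lower bound for the expected number of good `r`-runs with the sum `n`. -/

namespace Pool.Agent.Work.MP_7d0410_sp

open Finset Filter MeasureTheory ProbabilityTheory
open Pool.Agent.Work.MP_7d0410_cr
open scoped Classical Topology

theorem HLB_log (δ s : ℝ) (hδ : 0 < δ) (hs : 0 < s) : ∀ᶠ x : ℕ in atTop,
    Real.log x ≤ δ * (x : ℝ) ^ s := by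
  have h1 := (isLittleO_log_rpow_atTop hs).bound hδ
  have h2 := tendsto_natCast_atTop_atTop (R := ℝ)
  filter_upwards [h2.eventually h1] with y hy
  rw [Real.norm_eq_abs, Real.norm_eq_abs, abs_of_nonneg (Real.rpow_nonneg (Nat.cast_nonneg _) _)]
    at hy
  exact (le_abs_self _).trans hy

theorem HLB_big (M s : ℝ) (hs : 0 < s) : ∀ᶠ x : ℕ in atTop, M ≤ (x : ℝ) ^ s :=
  ((tendsto_rpow_atTop hs).comp (tendsto_natCast_atTop_atTop (R := ℝ))).eventually
    (eventually_ge_atTop M)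

/-- the numerical facts -/
theorem HLB_num (C1 : ℝ) (hC1 : 1 ≤ C1) (c θ : ℝ) (h : Par c θ) : ∀ᶠ x : ℕ in atTop, ∀ n r : ℕ,
    x ≤ 1000 * n → n ≤ x → r ∈ RG C1 θ x n →
    1 ≤ r ∧ 2 ≤ A1 θ x ∧ LL C1 x r ≤ A1 θ x ∧ 2 * LL C1 x r ≤ A2 θ x ∧ R1 θ x ≤ r ∧
    2 * LL C1 x r ≤ G1 θ x * r ∧ A2 θ x ≤ x ∧ 1 ≤ LL C1 x r ∧
    (LL C1 x r : ℝ) ≤ 2 * C1 * (r * Real.log x) ∧
    Real.log x ≤ LL C1 x r * ((n : ℝ) / r) ^ (-c) ∧ 1 ≤ Real.log x ∧ 4 ≤ x := by
  have t0 := h.t0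
  have t1 := h.t1
  have hc0 := h.c0
  have ceq := h.ceq
  filter_upwards [HLB_log (1 / (4 * C1)) θ (by positivity) t0, HLB_big 500 θ t0,
    HLB_log (1 / 500) (1 / 4) (by norm_num) (by norm_num), eventually_ge_atTop 4]
    with x hE1 hE2 hE3 hx4 n r hn1 hn2 hr
  obtain ⟨hr1, _, hr2, hr3⟩ := Finset.mem_filter.1 hr
  rw [Finset.mem_Icc] at hr1
  have hX4 : (4 : ℝ) ≤ x := by exact_mod_cast hx4
  have hX0 : (0 : ℝ) < x := by linarith
  have hX1 : (1 : ℝ) ≤ x := by linarith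
  have hL1 : 1 ≤ Real.log x := by
    rw [Real.le_log_iff_exp_le hX0]
    have := Real.exp_one_lt_d9
    linarith
  set L := Real.log (x : ℝ) with hL
  have hrr : (1 : ℝ) ≤ r := by exact_mod_cast hr1.1
  have hr0 : (0 : ℝ) < r := by linarith
  have hA1 : (x : ℝ) ^ (1 / 2 + 4 * θ) ≤ (A1 θ x : ℝ) := Nat.le_ceil _
  have hA2 : (A2 θ x : ℝ) ≤ (x : ℝ) ^ (1 / 2 + 8 * θ) :=
    Nat.floor_le (Real.rpow_nonneg hX0.le _)
  have hA2' : (x : ℝ) ^ (1 / 2 + 8 * θ) < (A2 θ x : ℝ) + 1 := Nat.lt_floor_add_one _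
  have hG1 : (x : ℝ) ^ θ ≤ (G1 θ x : ℝ) := Nat.le_ceil _
  -- powers
  set s : ℝ := (x : ℝ) ^ (1 / 2 : ℝ) with hs
  have hs0 : 0 < s := Real.rpow_pos_of_pos hX0 _
  have hss : s * s = x := by
    rw [hs, ← Real.rpow_add hX0]
    norm_num
  have hs2 : 2 ≤ s := by nlinarith
  set T : ℝ := (x : ℝ) ^ θ with hT
  have hT0 : 0 < T := Real.rpow_pos_of_pos hX0 _
  set P : ℝ := (x : ℝ) ^ (4 * θ) with hP
  have hTP : T ≤ P := Real.rpow_le_rpow_of_exponent_le hX1 (by linarith)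
  have hP0 : 0 < P := by linarith
  have hsP : (x : ℝ) ^ (1 / 2 + 4 * θ) = s * P := by
    rw [hs, hP, ← Real.rpow_add hX0]
  -- the upper bound for Λ
  have hE1' : 4 * C1 * L ≤ T := by
    have : 4 * C1 * L ≤ 4 * C1 * (1 / (4 * C1) * T) := mul_le_mul_of_nonneg_left hE1 (by positivity)
    have h2 : 4 * C1 * (1 / (4 * C1) * T) = T := by field_simp
    linarith
  have hn2' : (n : ℝ) ≤ x := by exact_mod_cast hn2
  have hn1' : (x : ℝ) ≤ 1000 * n := by exact_mod_cast hn1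
  have hn0 : (0 : ℝ) < n := by linarith
  have hr2' : 2 * (A1 θ x : ℝ) * r ≤ n := by exact_mod_cast hr2
  have hr3' : 2 * (n : ℝ) ≤ A2 θ x * r := by exact_mod_cast hr3
  have hrP : r * P ≤ s / 2 := by
    have h1 : 2 * (s * P) * r ≤ s * s := by
      calc 2 * (s * P) * r ≤ 2 * (A1 θ x : ℝ) * r := by
            rw [← hsP]
            exact mul_le_mul_of_nonneg_right (by linarith) hr0.le
        _ ≤ n := hr2'
        _ ≤ s * s := by rw [hss]; exact hn2'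
    have h2 : s * (2 * (r * P)) ≤ s * s := by
      calc s * (2 * (r * P)) = 2 * (s * P) * r := by ring
        _ ≤ _ := h1
    have h3 := le_of_mul_le_mul_left h2 hs0
    linarith
  have hCrL : 1 ≤ C1 * r * L := by
    have h1 : (1 : ℝ) ≤ C1 * r := by nlinarith
    nlinarith
  have hΛ2 : (LL C1 x r : ℝ) ≤ 2 * C1 * (r * L) := by
    have h1 : (LL C1 x r : ℝ) < C1 * r * L + 1 := Nat.ceil_lt_add_one (by linarith)
    nlinarith
  have hΛ3 : C1 * r * L ≤ (LL C1 x r : ℝ) := Nat.le_ceil _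
  have hΛ4 : 4 * (LL C1 x r : ℝ) ≤ s := by
    have h1 : 2 * C1 * (r * L) ≤ r * P / 2 := by
      have : r * (4 * C1 * L) ≤ r * P := mul_le_mul_of_nonneg_left (by linarith) hr0.le
      nlinarith
    nlinarith
  have hΛA1 : (LL C1 x r : ℝ) ≤ (A1 θ x : ℝ) := by
    have h1 : s ≤ s * P := by
      have : 1 ≤ P := by linarith
      nlinarith
    have h2 : (0 : ℝ) ≤ (LL C1 x r : ℝ) := Nat.cast_nonneg _
    linarith
  have hs8 : s ≤ (x : ℝ) ^ (1 / 2 + 8 * θ) :=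
    Real.rpow_le_rpow_of_exponent_le hX1 (by linarith)
  have hΛA2 : 2 * (LL C1 x r : ℝ) ≤ (A2 θ x : ℝ) := by linarith
  -- lower bound for r
  have h500 : (x : ℝ) ^ (1 / 2 - 8 * θ) ≤ 500 * r := by
    have e1 : (x : ℝ) ^ (1 / 2 - 8 * θ) * (x : ℝ) ^ (1 / 2 + 8 * θ) = x := by
      rw [← Real.rpow_add hX0]
      have : 1 / 2 - 8 * θ + (1 / 2 + 8 * θ) = 1 := by ring
      rw [this, Real.rpow_one]
    have hQ0 : 0 < (x : ℝ) ^ (1 / 2 + 8 * θ) := Real.rpow_pos_of_pos hX0 _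
    have e2 : (x : ℝ) ≤ 500 * r * (x : ℝ) ^ (1 / 2 + 8 * θ) := by
      have : (A2 θ x : ℝ) * r ≤ (x : ℝ) ^ (1 / 2 + 8 * θ) * r :=
        mul_le_mul_of_nonneg_right hA2 hr0.le
      nlinarith
    have e3 : (x : ℝ) ^ (1 / 2 - 8 * θ) * (x : ℝ) ^ (1 / 2 + 8 * θ) ≤
        500 * r * (x : ℝ) ^ (1 / 2 + 8 * θ) := by rw [e1]; exact e2
    exact le_of_mul_le_mul_right e3 hQ0
  have hR1 : R1 θ x ≤ r := by
    unfold R1
    rw [Nat.ceil_le]
    have e1 : (x : ℝ) ^ (1 / 2 - 9 * θ) * T = (x : ℝ) ^ (1 / 2 - 8 * θ) := by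
      rw [hT, ← Real.rpow_add hX0]
      congr 1
      ring
    have hY0 : 0 < (x : ℝ) ^ (1 / 2 - 9 * θ) := Real.rpow_pos_of_pos hX0 _
    nlinarith
  -- the lower bound for Λ w
  have hw : L ≤ (LL C1 x r : ℝ) * ((n : ℝ) / r) ^ (-c) := by
    have e1 : (n : ℝ) / r ≤ (x : ℝ) ^ (1 / 2 + 8 * θ) := by
      rw [div_le_iff₀ hr0]
      have : (A2 θ x : ℝ) * r ≤ (x : ℝ) ^ (1 / 2 + 8 * θ) * r :=
        mul_le_mul_of_nonneg_right hA2 hr0.le
      linarith
    have hnr : (0 : ℝ) < (n : ℝ) / r := div_pos hn0 hr0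
    have e2 : ((x : ℝ) ^ (1 / 2 + 8 * θ)) ^ (-c) ≤ ((n : ℝ) / r) ^ (-c) :=
      Real.rpow_le_rpow_of_nonpos hnr e1 (by linarith)
    rw [← Real.rpow_mul hX0.le] at e2
    have e3 : (x : ℝ) ^ (1 / 4 : ℝ) ≤ (x : ℝ) ^ (1 / 2 - 8 * θ) * (x : ℝ) ^ ((1 / 2 + 8 * θ) * -c) := by
      rw [← Real.rpow_add hX0]
      refine Real.rpow_le_rpow_of_exponent_le hX1 ?_
      rw [ceq]
      nlinarith
    have e4 : (x : ℝ) ^ (1 / 2 - 8 * θ) * (x : ℝ) ^ ((1 / 2 + 8 * θ) * -c) ≤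
        500 * r * ((n : ℝ) / r) ^ (-c) :=
      mul_le_mul h500 e2 (Real.rpow_nonneg hX0.le _) (by positivity)
    have e5 : (r : ℝ) ≤ (LL C1 x r : ℝ) := by
      have : (r : ℝ) ≤ C1 * r * L := by
        have h1 : (1 : ℝ) ≤ C1 * L := by nlinarith
        nlinarith
      linarith
    have hw0 : 0 < ((n : ℝ) / r) ^ (-c) := Real.rpow_pos_of_pos hnr _
    have e6 : (r : ℝ) * ((n : ℝ) / r) ^ (-c) ≤ (LL C1 x r : ℝ) * ((n : ℝ) / r) ^ (-c) :=
      mul_le_mul_of_nonneg_right e5 hw0.le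
    linarith
  refine ⟨hr1.1, ?_, by exact_mod_cast hΛA1, by exact_mod_cast hΛA2, hR1, ?_, ?_, ?_, hΛ2, hw,
    hL1, hx4⟩
  · have h1 : (2 : ℝ) ≤ (A1 θ x : ℝ) := by
      have h2 : s ≤ s * P := by
        have : 1 ≤ P := by linarith
        nlinarith
      linarith
    exact_mod_cast h1
  · have h1 : 2 * (LL C1 x r : ℝ) ≤ (G1 θ x : ℝ) * r := by
      have h2 : r * (4 * C1 * L) ≤ r * T := mul_le_mul_of_nonneg_left hE1' hr0.le
      have h3 : r * T ≤ r * (G1 θ x : ℝ) := mul_le_mul_of_nonneg_left hG1 hr0.le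
      nlinarith
    exact_mod_cast h1
  · have h1 : (A2 θ x : ℝ) ≤ x := by
      refine hA2.trans ?_
      calc (x : ℝ) ^ (1 / 2 + 8 * θ) ≤ (x : ℝ) ^ (1 : ℝ) :=
            Real.rpow_le_rpow_of_exponent_le hX1 (by linarith)
        _ = x := Real.rpow_one _
    exact_mod_cast h1
  · have h1 : (1 : ℝ) ≤ (LL C1 x r : ℝ) := by linarith
    exact_mod_cast h1

/-- the sum over the runs of length `r` with the sum `n` -/
theorem HLB_one (S : Finset ℕ) (r n : ℕ) (hr : 1 ≤ r) : (rr S r n).card ≤ 1 := by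
  have h1 := p_ONE S r n hr
  have h2 : (rr S r (n + 0)).card ≤ ∑ ℓ ∈ Finset.range r, (rr S r (n + ℓ)).card :=
    Finset.single_le_sum (f := fun ℓ => (rr S r (n + ℓ)).card) (fun _ _ => Nat.zero_le _)
      (Finset.mem_range.2 (by omega))
  rw [Nat.add_zero] at h2
  omega

/-- the pointwise bound -/
theorem HLB_pt (hH : Stmt_HGD) (a b Λ r n x R G : ℕ) (t : ℝ) (ht : 0 ≤ t) (S : Finset ℕ)
    (hS : S ⊆ Finset.Icc a b) (hP : ∀ q ∈ Finset.Icc a b, q.Prime → q ∈ S) (hr : 1 ≤ r)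
    (ha : 2 ≤ a) (hΛ : Λ ≤ a) (hΛb : 2 * Λ ≤ b) (hG : GR Λ n r) (h1 : 2 * a * r ≤ n)
    (h2 : 2 * n ≤ b * r) (hR : R ≤ r) (hG1 : 2 * Λ ≤ G * r) (hb : b ≤ x) :
    ∑ q ∈ rr S r n, (KK S q : ℝ) ≤
      t * (((gr R G S n).filter (fun q => len S q = r)).card : ℝ) +
      x * (if t ≤ ((S ∩ (Finset.Icc a b).filter (fun z => ¬ z.Prime ∧ n ≤ r * (z + Λ) ∧
        r * z ≤ n + r * Λ)).card : ℝ) then 1 else 0) := by
  set I := (Finset.Icc a b).filter (fun z => ¬ z.Prime ∧ n ≤ r * (z + Λ) ∧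
        r * z ≤ n + r * Λ) with hI
  obtain ⟨k1, -⟩ := hH a b Λ r n S hS hP hr hΛ hΛb hG h1 h2
  have hsub : rr S r n ⊆ (gr R G S n).filter (fun q => len S q = r) := by
    intro q hq
    obtain ⟨m1, m2, m3⟩ := mem_rr.1 hq
    obtain ⟨e1, e2⟩ := k1 q hq
    rw [Finset.mem_filter, mem_gr, mem_good]
    refine ⟨⟨⟨m1, by omega, ?_⟩, m3⟩, m2⟩
    rw [m2]
    have e3 : r * q.2 ≤ r * (q.1 + 2 * Λ) := by
      calc r * q.2 ≤ n + r * Λ := e2
        _ ≤ r * (q.1 + Λ) + r * Λ := by omega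
        _ = r * (q.1 + 2 * Λ) := by ring
    have e4 := Nat.le_of_mul_le_mul_left e3 (by omega)
    omega
  have hKI : ∀ q ∈ rr S r n, KK S q ≤ (S ∩ I).card := by
    intro q hq
    obtain ⟨e1, e2⟩ := k1 q hq
    unfold KK
    refine Finset.card_le_card ?_
    intro z hz
    obtain ⟨z1, z2, z3, z4⟩ := Finset.mem_filter.1 hz
    rw [Finset.mem_inter]
    refine ⟨z1, Finset.mem_filter.2 ⟨hS z1, z2, ?_, ?_⟩⟩
    · exact e1.trans (Nat.mul_le_mul_left _ (by omega))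
    · exact (Nat.mul_le_mul_left r z4.le).trans e2
  have hKx : ∀ q ∈ rr S r n, KK S q ≤ x := by
    intro q hq
    have e1 : KK S q ≤ S.card := Finset.card_filter_le _ _
    have e2 := Finset.card_le_card hS
    rw [Nat.card_Icc] at e2
    omega
  have hone := HLB_one S r n hr
  split_ifs with hif
  · have e1 : ∑ q ∈ rr S r n, (KK S q : ℝ) ≤ ∑ q ∈ rr S r n, (x : ℝ) :=
      Finset.sum_le_sum fun q hq => by exact_mod_cast hKx q hq
    rw [Finset.sum_const, nsmul_eq_mul] at e1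
    have e2 : ((rr S r n).card : ℝ) ≤ 1 := by exact_mod_cast hone
    have e3 : ((rr S r n).card : ℝ) * x ≤ 1 * x := mul_le_mul_of_nonneg_right e2 (Nat.cast_nonneg _)
    have e4 : 0 ≤ t * (((gr R G S n).filter (fun q => len S q = r)).card : ℝ) := by positivity
    linarith
  · have e1 : ∑ q ∈ rr S r n, (KK S q : ℝ) ≤ ∑ q ∈ rr S r n, t := by
      refine Finset.sum_le_sum fun q hq => ?_
      have e2 : (KK S q : ℝ) ≤ ((S ∩ I).card : ℝ) := by exact_mod_cast hKI q hq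
      linarith [not_le.1 hif]
    rw [Finset.sum_const, nsmul_eq_mul] at e1
    have e2 : ((rr S r n).card : ℝ) ≤ (((gr R G S n).filter (fun q => len S q = r)).card : ℝ) := by
      exact_mod_cast Finset.card_le_card hsub
    have e3 := mul_le_mul_of_nonneg_right e2 ht
    rw [mul_zero, add_zero]
    linarith

theorem p_HLB (hHGD : Stmt_HGD) (hMCL : Stmt_MCL) (hCHU : Stmt_CHU) : Stmt_HLB := by
  intro C1 hC1 c θ hPar
  have hc0 := hPar.c0
  have hc1 := hPar.c1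
  refine ⟨1 / (64 * C1), by positivity, ?_⟩
  filter_upwards [HLB_num C1 hC1 c θ hPar] with x hx n r hn1 hn2 hr
  obtain ⟨r1, a2, hΛa, hΛb, hR, hG, hbx, hΛ1, hΛC, hw, hL1, hx4⟩ := hx n r hn1 hn2 hr
  obtain ⟨_, hGR, hr2, hr3⟩ := Finset.mem_filter.1 hr
  set a := A1 θ x with ha
  set b := A2 θ x with hb
  set Λ := LL C1 x r with hΛ
  have hV : VV θ x = Finset.Icc a b := rfl
  rw [hV]
  have hX4 : (4 : ℝ) ≤ x := by exact_mod_cast hx4
  have hX0 : (0 : ℝ) < x := by linarith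
  have hrr : (1 : ℝ) ≤ r := by exact_mod_cast r1
  have hr0 : (0 : ℝ) < r := by linarith
  have hn0 : 0 < n := by omega
  have hn0' : (0 : ℝ) < n := by exact_mod_cast hn0
  have hΛ1' : (1 : ℝ) ≤ Λ := by exact_mod_cast hΛ1
  have hy0 : 0 < (n : ℝ) / r := div_pos hn0' hr0
  set y : ℝ := (n : ℝ) / r with hy
  set w : ℝ := y ^ (-c) with hwd
  have hw0 : 0 < w := Real.rpow_pos_of_pos hy0 _
  set L := Real.log (x : ℝ) with hL
  set t : ℝ := 16 * Λ * w with ht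
  have ht0 : 0 < t := by positivity
  set I := (Finset.Icc a b).filter (fun z => ¬ z.Prime ∧ n ≤ r * (z + Λ) ∧
        r * z ≤ n + r * Λ) with hI
  set E := Ex (pp c) (Finset.Icc a b) (fun S => (((gr (R1 θ x) (G1 θ x) S n).filter
      (fun q => len S q = r)).card : ℝ)) with hE
  -- step 1
  have s1 : Ex (pp c) (Finset.Icc a b) (fun S => ∑ q ∈ rr S r n, (KK S q : ℝ)) ≤
      t * E + x * Pb (pp c) (Finset.Icc a b) (fun S => t ≤ ((S ∩ I).card : ℝ)) := by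
    have e1 : Ex (pp c) (Finset.Icc a b) (fun S => ∑ q ∈ rr S r n, (KK S q : ℝ)) ≤
        Ex (pp c) (Finset.Icc a b) (fun S =>
          t * (((gr (R1 θ x) (G1 θ x) S n).filter (fun q => len S q = r)).card : ℝ) +
          x * (if t ≤ ((S ∩ I).card : ℝ) then 1 else 0)) := by
      refine Ex_mono_pp hc0 fun S hS hSP => ?_
      exact HLB_pt hHGD a b Λ r n x (R1 θ x) (G1 θ x) t ht0.le S hS hSP r1 a2 hΛa hΛb hGR hr2 hr3
        hR hG hbx
    refine e1.trans (le_of_eq ?_)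
    rw [Ex_add, Ex_const_mul, Ex_const_mul, Pb_eq]
  -- step 2
  have hΛn : r * Λ ≤ n := by
    calc r * Λ ≤ r * a := Nat.mul_le_mul_left _ hΛa
      _ ≤ 2 * a * r := by nlinarith
      _ ≤ n := hr2
  have hIc : (I.card : ℝ) ≤ 3 * Λ := by
    have e1 : I ⊆ Finset.Icc (n / r - Λ) (n / r + Λ) := by
      intro z hz
      obtain ⟨_, _, z3, z4⟩ := Finset.mem_filter.1 hz
      rw [Finset.mem_Icc]
      constructor
      · have e2 : n / r ≤ z + Λ := by
          have := Nat.div_le_div_right (c := r) z3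
          rwa [Nat.mul_div_cancel_left _ (by omega)] at this
        omega
      · have e2 : z ≤ (n + r * Λ) / r := by
          rw [Nat.le_div_iff_mul_le (by omega)]
          linarith
        rwa [Nat.add_mul_div_left _ _ (by omega)] at e2
    have e2 := Finset.card_le_card e1
    rw [Nat.card_Icc] at e2
    have e3 : I.card ≤ 3 * Λ := by omega
    exact_mod_cast e3
  have h2c : (2 : ℝ) ^ c ≤ 3 / 2 := by
    have e1 : (2 : ℝ) ^ c ≤ (2 : ℝ) ^ (1 / 2 : ℝ) :=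
      Real.rpow_le_rpow_of_exponent_le (by norm_num) hc1.le
    have e2 : (2 : ℝ) ^ (1 / 2 : ℝ) ≤ 3 / 2 := by
      rw [← Real.sqrt_eq_rpow, Real.sqrt_le_left (by norm_num)]
      norm_num
    linarith
  have hIs : ∑ m ∈ I, pp c m ≤ 5 * Λ * w := by
    have e1 : ∀ m ∈ I, pp c m ≤ 3 / 2 * w := by
      intro m hm
      obtain ⟨_, z2, z3, _⟩ := Finset.mem_filter.1 hm
      rw [pp_not_prime z2]
      have e2 : n ≤ 2 * (r * m) := by
        have e3 : 2 * (r * Λ) ≤ n := by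
          calc 2 * (r * Λ) ≤ 2 * (r * a) := Nat.mul_le_mul_left _ (Nat.mul_le_mul_left _ hΛa)
            _ = 2 * a * r := by ring
            _ ≤ n := hr2
        have e4 : n ≤ r * m + r * Λ := by
          calc n ≤ r * (m + Λ) := z3
            _ = _ := by ring
        omega
      have e3 : y / 2 ≤ m := by
        rw [hy, div_div, div_le_iff₀ (by positivity)]
        have : (n : ℝ) ≤ 2 * (r * m) := by exact_mod_cast e2
        linarith
      calc (m : ℝ) ^ (-c) ≤ (y / 2) ^ (-c) :=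
            Real.rpow_le_rpow_of_nonpos (by positivity) e3 (by linarith)
        _ = (2 : ℝ) ^ c * w := by
            rw [Real.div_rpow hy0.le (by norm_num), Real.rpow_neg (by norm_num : (0 : ℝ) ≤ 2),
              div_inv_eq_mul]
            ring
        _ ≤ 3 / 2 * w := mul_le_mul_of_nonneg_right h2c hw0.le
    calc ∑ m ∈ I, pp c m ≤ ∑ m ∈ I, 3 / 2 * w := Finset.sum_le_sum e1
      _ = I.card * (3 / 2 * w) := by rw [Finset.sum_const, nsmul_eq_mul]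
      _ ≤ 3 * Λ * (3 / 2 * w) := mul_le_mul_of_nonneg_right hIc (by positivity)
      _ ≤ 5 * Λ * w := by
          have : 0 ≤ (Λ : ℝ) * w := by positivity
          nlinarith
  have s2 : Pb (pp c) (Finset.Icc a b) (fun S => t ≤ ((S ∩ I).card : ℝ)) ≤ 1 / (x : ℝ) ^ 6 := by
    have e1 : Pb (pp c) (Finset.Icc a b) (fun S => t ≤ ((S ∩ I).card : ℝ)) =
        Pb (pp c) I (fun S => t ≤ (S.card : ℝ)) :=
      Pb_inter (p := pp c) (Finset.filter_subset _ _) (fun S : Finset ℕ => t ≤ (S.card : ℝ))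
    rw [e1]
    refine (hCHU (pp c) (prob_pp hc0) I t).trans ?_
    have e2 : 2 * ∑ m ∈ I, pp c m - t ≤ -((6 : ℕ) * L) := by
      have e3 : (Λ : ℝ) * w ≥ L := hw
      push_cast
      rw [ht]
      nlinarith
    refine (Real.exp_le_exp.2 e2).trans (le_of_eq ?_)
    rw [Real.exp_neg, Real.exp_nat_mul, hL, Real.exp_log hX0, one_div]
  -- step 3
  set Z : ℝ := 2 * y with hZ
  have hZ0 : 0 < Z := by positivity
  have s3 : Z ^ (-c) * Pb (pp c) (Finset.Icc a b) (fun S => PT S r n) ≤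
      Ex (pp c) (Finset.Icc a b) (fun S => ∑ q ∈ rr S r n, (KK S q : ℝ)) := by
    refine le_trans ?_ (hMCL c hc0 a b r n Z a2 hZ0)
    refine mul_le_mul_of_nonneg_left ?_ (Real.rpow_nonneg hZ0.le _)
    rw [Pb_eq, Pb_eq]
    refine Ex_mono_pp hc0 fun S hS hSP => ?_
    obtain ⟨-, k2⟩ := hHGD a b Λ r n S hS hSP r1 hΛa hΛb hGR hr2 hr3
    by_cases hPT : PT S r n
    · rw [if_pos hPT, if_pos]
      obtain ⟨q, q1, q2, q3, q4, q5⟩ := hPT
      refine ⟨q, q1, q2, q3, q4, q5, ?_⟩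
      have e1 := k2 q q1 q2 q3 q4
      have e2 : r * (n - sm S q) ≤ 2 * n := by
        calc r * (n - sm S q) ≤ r * q.2 := Nat.mul_le_mul_left _ (by omega)
          _ ≤ n + r * Λ := e1
          _ ≤ 2 * n := by omega
      rw [hZ, hy, ← mul_div_assoc, le_div_iff₀ hr0]
      have e3 : ((r * (n - sm S q) : ℕ) : ℝ) ≤ ((2 * n : ℕ) : ℝ) := by exact_mod_cast e2
      push_cast at e3 ⊢
      linarith
    · rw [if_neg hPT]
      split_ifs <;> norm_num
  have hZw : w / 2 ≤ Z ^ (-c) := by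
    rw [hZ, Real.mul_rpow (by norm_num) hy0.le]
    have e1 : (2 : ℝ) ^ (-1 : ℝ) ≤ (2 : ℝ) ^ (-c) :=
      Real.rpow_le_rpow_of_exponent_le (by norm_num) (by linarith)
    have e2 : (2 : ℝ) ^ (-1 : ℝ) = 1 / 2 := by
      rw [Real.rpow_neg_one]
      norm_num
    rw [e2] at e1
    have := mul_le_mul_of_nonneg_right e1 hw0.le
    linarith
  -- the end
  have hp0 : 0 ≤ Pb (pp c) (Finset.Icc a b) (fun S => PT S r n) := Pb_nonneg (prob_pp hc0) _ _
  set p := Pb (pp c) (Finset.Icc a b) (fun S => PT S r n) with hp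
  have f1 : w / 2 * p ≤ t * E + x * (1 / (x : ℝ) ^ 6) := by
    have e1 := mul_le_mul_of_nonneg_right hZw hp0
    have e2 := mul_le_mul_of_nonneg_left s2 hX0.le
    linarith
  have f2 : x * (1 / (x : ℝ) ^ 6) ≤ t * (1 / (x : ℝ) ^ 3) := by
    have e1 : (1 : ℝ) ≤ t := by
      rw [ht]
      nlinarith
    have e2 : x * (1 / (x : ℝ) ^ 6) ≤ 1 / (x : ℝ) ^ 3 := by
      have e3 : x * (1 / (x : ℝ) ^ 6) = 1 / (x : ℝ) ^ 5 := by field_simp
      rw [e3]
      exact one_div_le_one_div_of_le (by positivity)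
        (pow_le_pow_right₀ (by linarith) (by norm_num))
    have e3 : 0 < 1 / (x : ℝ) ^ 3 := by positivity
    nlinarith
  have f3 : w / 2 * p ≤ t * (E + 1 / (x : ℝ) ^ 3) := by
    rw [mul_add]
    linarith
  have f4 : p ≤ 32 * Λ * (E + 1 / (x : ℝ) ^ 3) := by
    have e1 : w / 2 * p ≤ w / 2 * (32 * Λ * (E + 1 / (x : ℝ) ^ 3)) := by
      calc w / 2 * p ≤ t * (E + 1 / (x : ℝ) ^ 3) := f3
        _ = _ := by rw [ht]; ring
    exact le_of_mul_le_mul_left e1 (by positivity)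
  have hE0 : 0 ≤ E + 1 / (x : ℝ) ^ 3 := by
    have : 0 ≤ E := Ex_nonneg (prob_pp hc0) fun S _ => Nat.cast_nonneg _
    positivity
  have hL0 : 0 < L := by linarith
  rw [div_le_iff₀ (by positivity)]
  have f5 : p ≤ 32 * (2 * C1 * (r * L)) * (E + 1 / (x : ℝ) ^ 3) := by
    refine f4.trans (mul_le_mul_of_nonneg_right ?_ hE0)
    linarith
  have f6 : 1 / (64 * C1) * p ≤ 1 / (64 * C1) * (32 * (2 * C1 * (r * L)) *
      (E + 1 / (x : ℝ) ^ 3)) := mul_le_mul_of_nonneg_left f5 (by positivity)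
  refine f6.trans (le_of_eq ?_)
  have hC0 : C1 ≠ 0 := by linarith
  field_simp
  ring

end Pool.Agent.Work.MP_7d0410_sp
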