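import Pool.Agent.Work.MP_7d0410_sp.Interface

/-! # MP_7d0410, primes plus a sparse set: block HMO, the mean value is bounded below for most `n`
(helper94) -/

set_option autoImplicit false

namespace Pool.Agent.Work.MP_7d0410_sp

open Finset Filter MeasureTheory ProbabilityTheory
open Pool.Agent.Work.MP_7d0410_cr
open scoped Classical Topology

/-- the loss -/
noncomputable def HMO_D (C1 c θ : ℝ) (x n : ℕ) : ℝ :=
  ∑ r ∈ RG C1 θ x n, (1 - Pb (pp c) (VV θ x) (fun S => PT S r n)) / (r : ℝ)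

lemma HMO_mem {C θ : ℝ} {x n r : ℕ} (h : r ∈ RG C θ x n) :
    (1 ≤ r ∧ r ≤ x) ∧ 2 * A1 θ x * r ≤ n ∧ 2 * n ≤ A2 θ x * r := by
  unfold RG at h
  have h1 := Finset.mem_filter.1 h
  exact ⟨Finset.mem_Icc.1 h1.1, h1.2.2⟩

/-- the loss for one length -/
lemma HMO_ex {C1 c θ : ℝ} (x r : ℕ) :
    Ex (pp c) (VV θ x) (fun S => (((Finset.Icc 1 x).filter
        (fun n => r ∈ RG C1 θ x n ∧ ¬ PT S r n)).card : ℝ)) =
    ∑ n ∈ Finset.Icc 1 x, if r ∈ RG C1 θ x n then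
      (1 - Pb (pp c) (VV θ x) (fun S => PT S r n)) else 0 := by
  have h1 : ∀ S : Finset ℕ, (((Finset.Icc 1 x).filter
      (fun n => r ∈ RG C1 θ x n ∧ ¬ PT S r n)).card : ℝ) =
      ∑ n ∈ Finset.Icc 1 x, (if r ∈ RG C1 θ x n then (if ¬ PT S r n then (1 : ℝ) else 0) else 0) := by
    intro S
    rw [Finset.card_filter]
    push_cast
    refine Finset.sum_congr rfl fun n _ => ?_
    by_cases h2 : r ∈ RG C1 θ x n
    · by_cases h3 : PT S r n
      · simp [h2, h3]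
      · simp [h2, h3]
    · simp [h2]
  have h2 : Ex (pp c) (VV θ x) (fun S => (((Finset.Icc 1 x).filter
        (fun n => r ∈ RG C1 θ x n ∧ ¬ PT S r n)).card : ℝ)) =
      Ex (pp c) (VV θ x) (fun S => ∑ n ∈ Finset.Icc 1 x, (if r ∈ RG C1 θ x n then
        (if ¬ PT S r n then (1 : ℝ) else 0) else 0)) := Ex_congr fun S _ => h1 S
  rw [h2, Ex_sum]
  refine Finset.sum_congr rfl fun n _ => ?_
  by_cases h3 : r ∈ RG C1 θ x n
  · simp only [h3, if_true]
    rw [← Pb_compl, Pb_eq]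
  · simp only [h3, if_false]
    exact Ex_const _ _

lemma HMO_swap {C1 c θ : ℝ} (hc : 0 < c) (x : ℕ) (Ns : Finset ℕ) (hNs : Ns ⊆ Finset.Icc 1 x)
    (E : ℝ) (hE : 0 ≤ E)
    (h : ∀ r ∈ Finset.Icc 1 x, (∃ n ∈ Ns, r ∈ RG C1 θ x n) →
      Ex (pp c) (VV θ x) (fun S => (((Finset.Icc 1 x).filter
        (fun n => r ∈ RG C1 θ x n ∧ ¬ PT S r n)).card : ℝ)) ≤ E) :
    ∑ n ∈ Ns, HMO_D C1 c θ x n ≤ (∑ r ∈ Finset.Icc 1 x, 1 / (r : ℝ)) * E := by
  have h1 : ∀ n ∈ Ns, HMO_D C1 c θ x n = ∑ r ∈ Finset.Icc 1 x, if r ∈ RG C1 θ x n then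
      (1 - Pb (pp c) (VV θ x) (fun S => PT S r n)) / (r : ℝ) else 0 := by
    intro n _
    unfold HMO_D
    rw [← Finset.sum_filter]
    refine Finset.sum_congr ?_ fun _ _ => rfl
    ext r
    rw [Finset.mem_filter, Finset.mem_Icc]
    exact ⟨fun h => ⟨(HMO_mem h).1, h⟩, fun h => h.2⟩
  rw [Finset.sum_congr rfl h1, Finset.sum_comm, Finset.sum_mul]
  refine Finset.sum_le_sum fun r hr => ?_
  by_cases hex : ∃ n ∈ Ns, r ∈ RG C1 θ x n
  · have h2 := h r hr hex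
    rw [HMO_ex] at h2
    have h3 : ∑ n ∈ Ns, (if r ∈ RG C1 θ x n then
        (1 - Pb (pp c) (VV θ x) (fun S => PT S r n)) / (r : ℝ) else 0) ≤
        ∑ n ∈ Finset.Icc 1 x, (if r ∈ RG C1 θ x n then
        (1 - Pb (pp c) (VV θ x) (fun S => PT S r n)) / (r : ℝ) else 0) := by
      refine Finset.sum_le_sum_of_subset_of_nonneg hNs fun n _ _ => ?_
      split_ifs
      · have := Pb_le_one (prob_pp hc) (VV θ x) (fun S => PT S r n)
        exact div_nonneg (by linarith) (Nat.cast_nonneg _)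
      · exact le_rfl
    refine h3.trans ?_
    have h4 : ∑ n ∈ Finset.Icc 1 x, (if r ∈ RG C1 θ x n then
        (1 - Pb (pp c) (VV θ x) (fun S => PT S r n)) / (r : ℝ) else 0) =
        1 / (r : ℝ) * ∑ n ∈ Finset.Icc 1 x, (if r ∈ RG C1 θ x n then
        (1 - Pb (pp c) (VV θ x) (fun S => PT S r n)) else 0) := by
      rw [Finset.mul_sum]
      refine Finset.sum_congr rfl fun n _ => ?_
      split_ifs
      · ring
      · ring
    rw [h4]
    exact mul_le_mul_of_nonneg_left h2 (by positivity)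
  · push Not at hex
    have h2 : ∑ n ∈ Ns, (if r ∈ RG C1 θ x n then
        (1 - Pb (pp c) (VV θ x) (fun S => PT S r n)) / (r : ℝ) else 0) = 0 :=
      Finset.sum_eq_zero fun n hn => if_neg (hex n hn)
    rw [h2]
    positivity

/-- lower bound for the mean value -/
lemma HMO_lower {C1 c θ c2 : ℝ} (hc : 0 < c) (x n : ℕ) (hx : 1 ≤ x)
    (h : ∀ r ∈ RG C1 θ x n, c2 * Pb (pp c) (VV θ x) (fun S => PT S r n) / (r * Real.log x) ≤
      Ex (pp c) (VV θ x) (fun S => (((gr (R1 θ x) (G1 θ x) S n).filter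
        (fun q => len S q = r)).card : ℝ)) + 1 / (x : ℝ) ^ 3) :
    c2 / Real.log x * (∑ r ∈ RG C1 θ x n, 1 / (r : ℝ) - HMO_D C1 c θ x n) - 1 / (x : ℝ) ^ 2 ≤
      HH (pp c) (VV θ x) (R1 θ x) (G1 θ x) n := by
  have hx0 : (0 : ℝ) < x := by exact_mod_cast hx
  have h1 : ∑ r ∈ RG C1 θ x n, Ex (pp c) (VV θ x) (fun S => (((gr (R1 θ x) (G1 θ x) S n).filter
        (fun q => len S q = r)).card : ℝ)) ≤ HH (pp c) (VV θ x) (R1 θ x) (G1 θ x) n := by
    rw [← Ex_sum]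
    unfold HH
    refine Ex_mono (prob_pp hc) fun S _ => ?_
    exact_mod_cast cnt_eq_sum_len (R1 θ x) (G1 θ x) S n (RG C1 θ x n)
  have h2 := Finset.sum_le_sum h
  rw [Finset.sum_add_distrib, Finset.sum_const, nsmul_eq_mul] at h2
  have h3 : ((RG C1 θ x n).card : ℝ) * (1 / (x : ℝ) ^ 3) ≤ 1 / (x : ℝ) ^ 2 := by
    have h4 : (RG C1 θ x n).card ≤ x := by
      have h5 : RG C1 θ x n ⊆ Finset.Icc 1 x := fun r hr => Finset.mem_Icc.2 (HMO_mem hr).1
      have := Finset.card_le_card h5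
      rw [Nat.card_Icc] at this
      omega
    have h5 : ((RG C1 θ x n).card : ℝ) ≤ x := by exact_mod_cast h4
    have h6 := mul_le_mul_of_nonneg_right h5 (show 0 ≤ 1 / (x : ℝ) ^ 3 by positivity)
    have h7 : (x : ℝ) * (1 / (x : ℝ) ^ 3) = 1 / (x : ℝ) ^ 2 := by
      field_simp
    linarith
  have h4 : c2 / Real.log x * (∑ r ∈ RG C1 θ x n, 1 / (r : ℝ) - HMO_D C1 c θ x n) =
      ∑ r ∈ RG C1 θ x n, c2 * Pb (pp c) (VV θ x) (fun S => PT S r n) / (r * Real.log x) := by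
    unfold HMO_D
    rw [← Finset.sum_sub_distrib, Finset.mul_sum]
    refine Finset.sum_congr rfl fun r hr => ?_
    have h5 : (r : ℝ) ≠ 0 := by
      have := (HMO_mem hr).1.1
      positivity
    rw [show (1 : ℝ) / r - (1 - Pb (pp c) (VV θ x) (fun S => PT S r n)) / r =
      Pb (pp c) (VV θ x) (fun S => PT S r n) / r by field_simp; ring, div_mul_div_comm,
      mul_comm (Real.log x) (r : ℝ)]
  linarith

theorem p_HMO (h1 : Stmt_GDR) (h2 : Stmt_HLB) (h3 : Stmt_NPE) : Stmt_HMO := by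
  intro c θ hP
  obtain ⟨C1, hC1, hG⟩ := h1
  obtain ⟨c7, hc7, hG⟩ := hG θ hP.t0 hP.t1.le
  obtain ⟨c2, hc2, hH⟩ := h2 C1 hC1 c θ hP
  obtain ⟨C8, hC8, hN⟩ := h3 C1 hC1 c θ hP
  refine ⟨c2 * c7 / 3, by positivity, ?_⟩
  intro η hη
  have e0 : ∀ᶠ x : ℕ in atTop, (3 : ℝ) ≤ x :=
    tendsto_natCast_atTop_atTop.eventually_ge_atTop 3
  have e1 : ∀ᶠ x : ℕ in atTop, (2000 : ℝ) ≤ (x : ℝ) ^ (23 / 50 : ℝ) :=
    ((tendsto_rpow_atTop (by norm_num)).comp tendsto_natCast_atTop_atTop).eventually_ge_atTop 2000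
  have e2 : ∀ᶠ x : ℕ in atTop, 6 / (c2 * c7) ≤ (x : ℝ) :=
    tendsto_natCast_atTop_atTop.eventually_ge_atTop _
  have e3 : ∀ᶠ x : ℕ in atTop, max 1 (4 * C8 / (c7 * η)) ≤ Real.log x :=
    (Real.tendsto_log_atTop.comp tendsto_natCast_atTop_atTop).eventually_ge_atTop _
  filter_upwards [hG, hH, hN, e0, e1, e2, e3] with x hGx hHx hNx hx3 hx1 hx2 hxL
  have hX0 : (0 : ℝ) < x := by linarith
  have hX1 : (1 : ℝ) ≤ x := by linarith
  have hx1' : 1 ≤ x := by exact_mod_cast hX1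
  have hL1 : 1 ≤ Real.log x := (le_max_left _ _).trans hxL
  have hL2 : 4 * C8 / (c7 * η) ≤ Real.log x := (le_max_right _ _).trans hxL
  have hL0 : 0 < Real.log x := by linarith
  -- the sum of the losses
  have hsum : ∑ n ∈ (Finset.Icc 1 x).filter (fun n => x ≤ 1000 * n), HMO_D C1 c θ x n ≤
      2 * C8 * x := by
    have h4 := HMO_swap (C1 := C1) (θ := θ) hP.c0 x
      ((Finset.Icc 1 x).filter (fun n => x ≤ 1000 * n)) (Finset.filter_subset _ _)
      (C8 * (x / Real.log x)) (by positivity) (by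
        intro r _ hex
        obtain ⟨n, hn, hr⟩ := hex
        obtain ⟨hn1, hn2⟩ := Finset.mem_filter.1 hn
        have hn1' := Finset.mem_Icc.1 hn1
        obtain ⟨-, hr1, hr2⟩ := HMO_mem hr
        refine hNx r ?_ (by omega)
        by_contra hcon
        have h5 : r ≤ 2 := by omega
        have h6 : 2 * n ≤ A2 θ x * 2 := hr2.trans (Nat.mul_le_mul_left _ h5)
        have h7 : n ≤ A2 θ x := by omega
        have h8 : (A2 θ x : ℝ) ≤ (x : ℝ) ^ (1 / 2 + 8 * θ) := Nat.floor_le (by positivity)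
        have h9 : (x : ℝ) ^ (1 / 2 + 8 * θ) ≤ (x : ℝ) ^ (27 / 50 : ℝ) :=
          Real.rpow_le_rpow_of_exponent_le hX1 (by linarith [hP.t1])
        have h10 : (x : ℝ) ≤ 1000 * n := by exact_mod_cast hn2
        have h11 : (n : ℝ) ≤ A2 θ x := by exact_mod_cast h7
        have h12 : (x : ℝ) ^ (23 / 50 : ℝ) * (x : ℝ) ^ (27 / 50 : ℝ) = x := by
          rw [← Real.rpow_add hX0]
          norm_num
        have h13 : 2000 * (x : ℝ) ^ (27 / 50 : ℝ) ≤ x := by
          calc 2000 * (x : ℝ) ^ (27 / 50 : ℝ)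
              ≤ (x : ℝ) ^ (23 / 50 : ℝ) * (x : ℝ) ^ (27 / 50 : ℝ) :=
                mul_le_mul_of_nonneg_right hx1 (by positivity)
            _ = x := h12
        have h14 : (0 : ℝ) < (x : ℝ) ^ (27 / 50 : ℝ) := by positivity
        linarith)
    refine h4.trans ?_
    have h5 : ∑ r ∈ Finset.Icc 1 x, 1 / (r : ℝ) ≤ 1 + Real.log x := by
      have h6 := harmonic_le_one_add_log x
      rw [harmonic_eq_sum_Icc] at h6
      push_cast at h6
      simpa [one_div] using h6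
    have h6 : (∑ r ∈ Finset.Icc 1 x, 1 / (r : ℝ)) * (C8 * (x / Real.log x)) ≤
        (2 * Real.log x) * (C8 * (x / Real.log x)) :=
      mul_le_mul_of_nonneg_right (by linarith) (by positivity)
    refine h6.trans (le_of_eq ?_)
    field_simp
  have hDnn : ∀ n, 0 ≤ HMO_D C1 c θ x n := by
    intro n
    unfold HMO_D
    refine Finset.sum_nonneg fun r _ => ?_
    have := Pb_le_one (prob_pp hP.c0) (VV θ x) (fun S => PT S r n)
    exact div_nonneg (by linarith) (Nat.cast_nonneg _)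
  -- the bad `n`
  have hbad : ∀ n ∈ (Finset.Icc 1 x).filter (fun n => x ≤ 1000 * n ∧
      HH (pp c) (VV θ x) (R1 θ x) (G1 θ x) n < c2 * c7 / 3),
      c7 / 2 * Real.log x ≤ HMO_D C1 c θ x n := by
    intro n hn
    obtain ⟨hn1, hn2, hn3⟩ := Finset.mem_filter.1 hn
    have hn1' := Finset.mem_Icc.1 hn1
    have h4 := HMO_lower (C1 := C1) (θ := θ) (c2 := c2) hP.c0 x n hx1'
      (fun r hr => hHx n r hn2 hn1'.2 hr)
    have h5 := hGx n hn2 hn1'.2
    have h6 : 1 / (x : ℝ) ^ 2 ≤ c2 * c7 / 6 := by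
      have h7 : 1 / (x : ℝ) ^ 2 ≤ 1 / x := by
        apply one_div_le_one_div_of_le hX0
        nlinarith
      have h8 : 1 / (x : ℝ) ≤ c2 * c7 / 6 := by
        rw [div_le_iff₀ hX0]
        rw [div_le_iff₀ (by positivity)] at hx2
        linarith
      linarith
    have h7 : c2 / Real.log x * (c7 * Real.log x - HMO_D C1 c θ x n) ≤
        c2 / Real.log x * (∑ r ∈ RG C1 θ x n, 1 / (r : ℝ) - HMO_D C1 c θ x n) :=
      mul_le_mul_of_nonneg_left (by linarith) (by positivity)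
    have h8 : c2 / Real.log x * (c7 * Real.log x - HMO_D C1 c θ x n) =
        c2 * c7 - c2 * HMO_D C1 c θ x n / Real.log x := by
      field_simp
    have h9 : c2 * c7 / 2 ≤ c2 * HMO_D C1 c θ x n / Real.log x := by linarith
    rw [le_div_iff₀ hL0] at h9
    have h10 : c2 * (c7 / 2 * Real.log x) ≤ c2 * HMO_D C1 c θ x n := by linarith
    exact le_of_mul_le_mul_left h10 hc2
  have h4 := Finset.card_nsmul_le_sum _ _ _ hbad
  rw [nsmul_eq_mul] at h4
  have h5 : ∑ n ∈ (Finset.Icc 1 x).filter (fun n => x ≤ 1000 * n ∧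
      HH (pp c) (VV θ x) (R1 θ x) (G1 θ x) n < c2 * c7 / 3), HMO_D C1 c θ x n ≤
      ∑ n ∈ (Finset.Icc 1 x).filter (fun n => x ≤ 1000 * n), HMO_D C1 c θ x n := by
    refine Finset.sum_le_sum_of_subset_of_nonneg ?_ fun n _ _ => hDnn n
    intro n hn
    obtain ⟨hn1, hn2, -⟩ := Finset.mem_filter.1 hn
    exact Finset.mem_filter.2 ⟨hn1, hn2⟩
  have h6 := (h4.trans h5).trans hsum
  have h7 : 4 * C8 ≤ c7 * η * Real.log x := by
    rw [div_le_iff₀ (by positivity)] at hL2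
    linarith
  have h8 : 2 * C8 * x ≤ η * x * (c7 / 2 * Real.log x) := by
    have := mul_le_mul_of_nonneg_right h7 (show 0 ≤ (x : ℝ) / 2 by positivity)
    linarith
  exact le_of_mul_le_mul_right (h6.trans h8) (by positivity)

end Pool.Agent.Work.MP_7d0410_sp
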