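import Pool.Agent.Work.MP_7d0410_sp.Interface

/-! # MCL: lower bound for the expected number of removable elements -/

set_option autoImplicit false

namespace Pool.Agent.Work.MP_7d0410_sp

open Finset Filter MeasureTheory ProbabilityTheory
open Pool.Agent.Work.MP_7d0410_cr
open scoped Classical

lemma MCL_odds {c : ℝ} (hc : 0 < c) {z : ℕ} (hz : 2 ≤ z) (hp : ¬ z.Prime) :
    (z : ℝ) ^ (-c) ≤ pp c z / (1 - pp c z) := by
  rw [pp_not_prime hp]
  have h2 : (1 : ℝ) < z := by
    have : 1 < z := by omega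
    exact_mod_cast this
  have h1 : (z : ℝ) ^ (-c) < 1 := Real.rpow_lt_one_of_one_lt_of_neg h2 (by linarith)
  have h0 : 0 ≤ (z : ℝ) ^ (-c) := Real.rpow_nonneg (Nat.cast_nonneg z) _
  rw [le_div_iff₀ (by linarith)]
  nlinarith

theorem p_MCL (h1 : Stmt_MCK) : Stmt_MCL := by
  intro c hc a b r n Z ha hZ
  rw [h1 c hc (Finset.Icc a b) r n (fun m hm => by
    rw [Finset.mem_Icc] at hm
    omega)]
  have hR : ∑ z ∈ (Finset.Icc a b).filter (fun z => ¬ z.Prime), pp c z / (1 - pp c z) *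
        Ex (pp c) (Finset.Icc a b) (fun S => if z ∈ S then 0 else (FF S r n z : ℝ)) =
      Ex (pp c) (Finset.Icc a b) (fun S => ∑ z ∈ (Finset.Icc a b).filter (fun z => ¬ z.Prime),
        pp c z / (1 - pp c z) * (if z ∈ S then 0 else (FF S r n z : ℝ))) := by
    rw [Ex_sum]
    refine Finset.sum_congr rfl fun z _ => ?_
    rw [Ex_const_mul]
  rw [hR]
  unfold Pb
  rw [← Ex_const_mul]
  refine Ex_mono_pp hc fun S hS hpr => ?_
  have hnn : ∀ z ∈ (Finset.Icc a b).filter (fun z => ¬ z.Prime),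
      0 ≤ pp c z / (1 - pp c z) * (if z ∈ S then 0 else (FF S r n z : ℝ)) := by
    intro z hz
    rw [Finset.mem_filter, Finset.mem_Icc] at hz
    refine mul_nonneg ((Real.rpow_nonneg (Nat.cast_nonneg z) _).trans
      (MCL_odds hc (by omega) hz.2)) ?_
    split_ifs
    · exact le_rfl
    · exact Nat.cast_nonneg _
  by_cases hA : ∃ q ∈ runs S, len S q + 1 = r ∧
      q.1 + sm S q < n ∧ n < sm S q + q.2 ∧ n - sm S q ∉ S ∧ ((n - sm S q : ℕ) : ℝ) ≤ Z
  · rw [if_pos hA, mul_one]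
    obtain ⟨q, hq, hlen, hlo, hhi, hnS, hz⟩ := hA
    have hq' := hq
    unfold runs at hq'
    rw [Finset.mem_filter, Finset.mem_product] at hq'
    have hq1 := Finset.mem_Icc.1 (hS hq'.1.1)
    have hq2 := Finset.mem_Icc.1 (hS hq'.1.2)
    set z := n - sm S q with hzdef
    have hz1 : q.1 < z := by omega
    have hz2 : z < q.2 := by omega
    have hzI : z ∈ Finset.Icc a b := Finset.mem_Icc.2 ⟨by omega, by omega⟩
    have hzp : ¬ z.Prime := fun hp => hnS (hpr z hzI hp)
    refine le_trans ?_ (Finset.single_le_sum hnn (Finset.mem_filter.2 ⟨hzI, hzp⟩))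
    rw [if_neg hnS]
    have hF : (1 : ℝ) ≤ (FF S r n z : ℝ) := by
      have : 1 ≤ FF S r n z := by
        unfold FF
        refine Finset.card_pos.2 ⟨q, Finset.mem_filter.2 ⟨hq, hz1, hz2, hlen, by omega⟩⟩
      exact_mod_cast this
    have hz0 : (0 : ℝ) < z := by
      have : 0 < z := by omega
      exact_mod_cast this
    have h3 : Z ^ (-c) ≤ (z : ℝ) ^ (-c) := Real.rpow_le_rpow_of_nonpos hz0 hz (by linarith)
    have h4 := MCL_odds hc (show 2 ≤ z by omega) hzp
    have h5 : 0 ≤ Z ^ (-c) := Real.rpow_nonneg hZ.le _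
    calc Z ^ (-c) ≤ pp c z / (1 - pp c z) * 1 := by rw [mul_one]; exact h3.trans h4
      _ ≤ pp c z / (1 - pp c z) * (FF S r n z : ℝ) :=
        mul_le_mul_of_nonneg_left hF (h5.trans (h3.trans h4))
  · rw [if_neg hA, mul_zero]
    exact Finset.sum_nonneg hnn

end Pool.Agent.Work.MP_7d0410_sp
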