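import Pool.Agent.Work.MP_7d0410_sp.Interface
import Pool.Agent.Work.MP_7d0410_cr.B_UPP

/-! # MCU: upper bound for the expected number of removable elements (helper55) -/

set_option autoImplicit false

namespace Pool.Agent.Work.MP_7d0410_sp

open Finset Filter MeasureTheory ProbabilityTheory
open Pool.Agent.Work.MP_7d0410_cr
open scoped Classical

lemma MCU_one (hS : Stmt_SFT) (S : Finset ℕ) (r n : ℕ) :
    ((runs S).filter (fun q => len S q + 1 = r ∧ q.1 + sm S q < n ∧ n < sm S q + q.2)).card ≤ 1 := by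
  rw [Finset.card_le_one]
  have key : ∀ q q' : ℕ × ℕ, q ∈ runs S → q' ∈ runs S → len S q = len S q' →
      q'.1 + sm S q' < n → n < sm S q + q.2 → ¬ q.1 < q'.1 := by
    intro q q' hq hq' hl h1 h2 h3
    obtain ⟨h4, h5⟩ := hS S q q' hq hq' hl h3
    omega
  intro q hq q' hq'
  rw [Finset.mem_filter] at hq hq'
  have hl : len S q = len S q' := by omega
  have h1 := key q q' hq.1 hq'.1 hl hq'.2.2.1 hq.2.2.2
  have h2 := key q' q hq'.1 hq.1 hl.symm hq.2.2.1 hq'.2.2.2
  exact UPP_end S q q' hq.1 hq'.1 hl (by omega)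

lemma MCU_sum (hS : Stmt_SFT) (S Z : Finset ℕ) (r n : ℕ) :
    ∑ z ∈ Z, FF S r n z ≤ 1 := by
  unfold FF
  simp only [Finset.card_filter]
  rw [Finset.sum_comm]
  refine le_trans (Finset.sum_le_sum fun q _ => ?_)
    ((Finset.card_filter _ _).symm.le.trans (MCU_one hS S r n))
  rw [← Finset.card_filter]
  split_ifs with h
  · rw [Finset.card_le_one]
    intro z hz z' hz'
    rw [Finset.mem_filter] at hz hz'
    omega
  · rw [Nat.le_zero, Finset.card_eq_zero, Finset.filter_eq_empty_iff]
    intro z _ hz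
    apply h
    omega

theorem p_MCU (h1 : Stmt_MCK) (h2 : Stmt_SFT) : Stmt_MCU := by
  intro c hc a b r n ha hac
  rw [h1 c hc (Finset.Icc a b) r n (fun m hm => by
    rw [Finset.mem_Icc] at hm
    omega)]
  have ha0 : (0 : ℝ) < a := by
    have : 0 < a := by omega
    exact_mod_cast this
  have hP := prob_pp hc
  have hE : ∀ z, 0 ≤ Ex (pp c) (Finset.Icc a b) (fun S => if z ∈ S then 0 else (FF S r n z : ℝ)) :=
    fun z => Ex_nonneg hP fun S _ => by
      split_ifs
      · exact le_rfl
      · exact Nat.cast_nonneg _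
  calc ∑ z ∈ (Finset.Icc a b).filter (fun z => ¬ z.Prime), pp c z / (1 - pp c z) *
        Ex (pp c) (Finset.Icc a b) (fun S => if z ∈ S then 0 else (FF S r n z : ℝ))
      ≤ ∑ z ∈ (Finset.Icc a b).filter (fun z => ¬ z.Prime), 2 * (a : ℝ) ^ (-c) *
        Ex (pp c) (Finset.Icc a b) (fun S => if z ∈ S then 0 else (FF S r n z : ℝ)) := by
        refine Finset.sum_le_sum fun z hz => ?_
        refine mul_le_mul_of_nonneg_right ?_ (hE z)
        rw [Finset.mem_filter, Finset.mem_Icc] at hz
        rw [pp_not_prime hz.2]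
        have h3 : (z : ℝ) ^ (-c) ≤ (a : ℝ) ^ (-c) := by
          refine Real.rpow_le_rpow_of_nonpos ha0 ?_ (by linarith)
          exact_mod_cast hz.1.1
        have h4 : 0 ≤ (z : ℝ) ^ (-c) := Real.rpow_nonneg (Nat.cast_nonneg z) _
        rw [div_le_iff₀ (by linarith)]
        nlinarith
    _ = 2 * (a : ℝ) ^ (-c) * Ex (pp c) (Finset.Icc a b)
        (fun S => ∑ z ∈ (Finset.Icc a b).filter (fun z => ¬ z.Prime),
          if z ∈ S then 0 else (FF S r n z : ℝ)) := by
        rw [← Finset.mul_sum, Ex_sum]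
    _ ≤ 2 * (a : ℝ) ^ (-c) * 1 := by
        refine mul_le_mul_of_nonneg_left ?_ (by positivity)
        refine Ex_le_const hP fun S _ => ?_
        have h5 := MCU_sum h2 S ((Finset.Icc a b).filter (fun z => ¬ z.Prime)) r n
        calc ∑ z ∈ (Finset.Icc a b).filter (fun z => ¬ z.Prime),
              (if z ∈ S then 0 else (FF S r n z : ℝ))
            ≤ ∑ z ∈ (Finset.Icc a b).filter (fun z => ¬ z.Prime), (FF S r n z : ℝ) := by
              refine Finset.sum_le_sum fun z _ => ?_
              split_ifs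
              · exact Nat.cast_nonneg _
              · exact le_rfl
          _ ≤ 1 := by exact_mod_cast h5
    _ = 2 * (a : ℝ) ^ (-c) := by rw [mul_one]

end Pool.Agent.Work.MP_7d0410_sp
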