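import Pool.Agent.Work.MP_7d0410_sp.Interface

set_option autoImplicit false

/-! Block NPD (helper40): for most `n` there is a run of length `r - 1` with room for one more
element. -/

namespace Pool.Agent.Work.MP_7d0410_sp

open Finset Filter MeasureTheory ProbabilityTheory
open Pool.Agent.Work.MP_7d0410_cr
open scoped Classical Topology

/-- an element with `k` elements up to it -/
theorem NPD_pick (S : Finset ℕ) (k : ℕ) (hk : 1 ≤ k) (h : k ≤ S.card) (h0 : 0 ∉ S) :
    ∃ v ∈ S, (S.filter (fun s => s ≤ v)).card = k := by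
  have hex : ∃ t, k ≤ (S.filter (fun s => s ≤ t)).card := by
    refine ⟨S.sup id, ?_⟩
    have : S.filter (fun s => s ≤ S.sup id) = S :=
      Finset.filter_true_of_mem fun s hs => Finset.le_sup (f := id) hs
    rw [this]
    exact h
  set t := Nat.find hex with ht
  have h1 : k ≤ (S.filter (fun s => s ≤ t)).card := Nat.find_spec hex
  have ht0 : t ≠ 0 := by
    intro h2
    rw [h2] at h1
    have : S.filter (fun s => s ≤ 0) = ∅ := by
      refine Finset.filter_eq_empty_iff.2 ?_
      intro s hs h3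
      have : s = 0 := by omega
      exact h0 (this ▸ hs)
    rw [this, Finset.card_empty] at h1
    omega
  have h2 : (S.filter (fun s => s ≤ t - 1)).card < k := by
    have := Nat.find_min hex (m := t - 1) (by omega)
    omega
  have htS : t ∈ S := by
    by_contra hc
    have : S.filter (fun s => s ≤ t) = S.filter (fun s => s ≤ t - 1) := by
      ext s
      rw [Finset.mem_filter, Finset.mem_filter]
      constructor
      · rintro ⟨h3, h4⟩
        refine ⟨h3, ?_⟩
        have : s ≠ t := fun h5 => hc (h5 ▸ h3)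
        omega
      · rintro ⟨h3, h4⟩
        exact ⟨h3, by omega⟩
    rw [this] at h1
    omega
  refine ⟨t, htS, le_antisymm ?_ h1⟩
  have h3 : S.filter (fun s => s ≤ t) ⊆ insert t (S.filter (fun s => s ≤ t - 1)) := by
    intro s hs
    rw [Finset.mem_filter] at hs
    rw [Finset.mem_insert, Finset.mem_filter]
    by_cases h5 : s = t
    · exact Or.inl h5
    · exact Or.inr ⟨hs.1, by omega⟩
  have h4 := (Finset.card_le_card h3).trans (Finset.card_insert_le _ _)
  omega

theorem NPD_end (S : Finset ℕ) (q q' : ℕ × ℕ) (hq : q ∈ runs S) (hq' : q' ∈ runs S)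
    (hl : len S q = len S q') (h : q.1 = q'.1) : q = q' := by
  have key : ∀ q q' : ℕ × ℕ, q' ∈ runs S → q.1 = q'.1 → q.2 < q'.2 → len S q < len S q' := by
    intro q q' hq' h hlt
    unfold len
    apply Finset.card_lt_card
    rw [Finset.ssubset_iff_of_subset]
    · refine ⟨q'.2, mem_seg.2 ⟨(mem_runs.1 hq').2.1, (mem_runs.1 hq').2.2, le_rfl⟩, ?_⟩
      rw [mem_seg]
      rintro ⟨_, _, h'⟩
      omega
    · intro m hm
      rw [mem_seg] at hm ⊢
      exact ⟨hm.1, by omega, by omega⟩
  apply Prod.ext h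
  rcases lt_trichotomy q.2 q'.2 with h1 | h1 | h1
  · have := key q q' hq' h h1
    omega
  · exact h1
  · have := key q' q hq h.symm h1
    omega

/-- the maximal short run and the next one -/
theorem NPD_key (a b Λ r n : ℕ) (S : Finset ℕ) (hS : S ⊆ Finset.Icc a b)
    (hP : ∀ q ∈ Finset.Icc a b, q.Prime → q ∈ S) (hr : 3 ≤ r) (ha : 1 ≤ a) (hΛ : Λ ≤ a)
    (hΛb : 2 * Λ ≤ b) (hG : GR Λ n r) (h1 : 2 * a * r ≤ n) (h2 : 2 * n ≤ b * r) :
    ∃ u v u' v' : ℕ, (u, v) ∈ runs S ∧ len S (u, v) = r - 1 ∧ sm S (u, v) + u < n ∧ u' ∈ S ∧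
      v' ∈ S ∧ u < u' ∧ v < v' ∧ (∀ s ∈ S, u < s → u' ≤ s) ∧ (∀ s ∈ S, v < s → v' ≤ s) ∧
      n + u ≤ sm S (u, v) + v' + u' := by
  obtain ⟨hG1, hG2⟩ := hG
  have h0S : 0 ∉ S := by
    intro h
    have := (Finset.mem_Icc.1 (hS h)).1
    omega
  -- many small and many large elements
  have hlow : r ≤ (S.filter (fun s => r * s < n)).card := by
    refine hG1.trans (Finset.card_le_card ?_)
    intro p hp
    rw [Finset.mem_filter] at hp
    obtain ⟨_, hp1, hp2, hp3⟩ := hp
    rw [Finset.mem_filter]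
    refine ⟨hP p ?_ hp1, hp2⟩
    rw [Finset.mem_Icc]
    constructor
    · have h3 : r * (2 * a) ≤ r * (p + Λ) := by
        calc r * (2 * a) = 2 * a * r := by ring
          _ ≤ n := h1
          _ ≤ _ := hp3
      have h4 := Nat.le_of_mul_le_mul_left h3 (by omega)
      omega
    · have h3 : r * (2 * p) ≤ r * b := by
        calc r * (2 * p) = 2 * (r * p) := by ring
          _ ≤ 2 * n := by omega
          _ ≤ b * r := h2
          _ = r * b := by ring
      have h4 := Nat.le_of_mul_le_mul_left h3 (by omega)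
      omega
  have hhigh : r ≤ (S.filter (fun s => n < r * s)).card := by
    refine hG2.trans (Finset.card_le_card ?_)
    intro p hp
    rw [Finset.mem_filter] at hp
    obtain ⟨_, hp1, hp2, hp3⟩ := hp
    rw [Finset.mem_filter]
    refine ⟨hP p ?_ hp1, hp2⟩
    rw [Finset.mem_Icc]
    constructor
    · have h3 : r * (2 * a) ≤ r * p := by
        calc r * (2 * a) = 2 * a * r := by ring
          _ ≤ n := h1
          _ ≤ _ := hp2.le
      have h4 := Nat.le_of_mul_le_mul_left h3 (by omega)
      omega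
    · have h3 : r * (2 * p) ≤ r * (b + 2 * Λ) := by
        calc r * (2 * p) = 2 * (r * p) := by ring
          _ ≤ 2 * (n + r * Λ) := by omega
          _ = 2 * n + r * (2 * Λ) := by ring
          _ ≤ b * r + r * (2 * Λ) := by omega
          _ = r * (b + 2 * Λ) := by ring
      have h4 := Nat.le_of_mul_le_mul_left h3 (by omega)
      omega
  -- the short runs with small sum
  set Q := (runs S).filter (fun q => len S q = r - 1 ∧ sm S q + q.1 < n) with hQ
  have hQne : Q.Nonempty := by
    have hcard : r - 1 ≤ S.card := by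
      have := Finset.card_filter_le S (fun s => r * s < n)
      omega
    obtain ⟨v, hv, hvc⟩ := NPD_pick S (r - 1) (by omega) hcard h0S
    have hne : S.Nonempty := ⟨v, hv⟩
    set u := S.min' hne with hu
    have huS : u ∈ S := S.min'_mem hne
    have hul : ∀ s ∈ S, u ≤ s := fun s hs => S.min'_le s hs
    have hseg : seg S (u, v) = S.filter (fun s => s ≤ v) := by
      ext s
      rw [mem_seg, Finset.mem_filter]
      constructor
      · rintro ⟨h3, _, h4⟩
        exact ⟨h3, h4⟩
      · rintro ⟨h3, h4⟩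
        exact ⟨h3, hul s h3, h4⟩
    have hlen : len S (u, v) = r - 1 := by
      unfold len
      rw [hseg, hvc]
    have hrv : r * v < n := by
      by_contra hc
      push Not at hc
      have h3 : S.filter (fun s => r * s < n) ⊆ S.filter (fun s => s ≤ v) := by
        intro s hs
        rw [Finset.mem_filter] at hs ⊢
        refine ⟨hs.1, ?_⟩
        have h4 : r * s < r * v := lt_of_lt_of_le hs.2 hc
        exact (Nat.lt_of_mul_lt_mul_left h4).le
      have h4 := Finset.card_le_card h3
      omega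
    refine ⟨(u, v), Finset.mem_filter.2 ⟨mem_runs.2 ⟨huS, hv, hul v hv⟩, hlen, ?_⟩⟩
    have h3 := sm_le_len_mul S (u, v)
    rw [hlen] at h3
    have h4 : u ≤ v := hul v hv
    have h5 : (r - 1) * v + v = r * v := by
      obtain ⟨r', rfl⟩ : ∃ r', r = r' + 1 := ⟨r - 1, by omega⟩
      rw [Nat.add_sub_cancel]
      ring
    dsimp only at h3 ⊢
    omega
  obtain ⟨q, hqQ, hmax⟩ := Finset.exists_max_image Q (fun q => q.1) hQne
  obtain ⟨u, v⟩ := q
  obtain ⟨hqr, hql, hqs⟩ := Finset.mem_filter.1 hqQ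
  dsimp only at hqs
  obtain ⟨huS, hvS, huv⟩ := mem_runs.1 hqr
  dsimp only at huS hvS huv
  have huv' : u < v := by
    rcases Nat.lt_or_ge u v with h | h
    · exact h
    · exfalso
      have h3 : seg S (u, v) ⊆ {u} := by
        intro s hs
        rw [mem_seg] at hs
        rw [Finset.mem_singleton]
        dsimp only at hs
        omega
      have h4 := Finset.card_le_card h3
      rw [Finset.card_singleton] at h4
      unfold len at hql
      omega
  have hsegu : u ∈ seg S (u, v) := mem_seg.2 ⟨huS, le_refl _, huv⟩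
  have hru : r * u < n := by
    have h3 := len_mul_le_sm S (u, v)
    rw [hql] at h3
    dsimp only at h3
    have h5 : (r - 1) * u + u = r * u := by
      obtain ⟨r', rfl⟩ : ∃ r', r = r' + 1 := ⟨r - 1, by omega⟩
      rw [Nat.add_sub_cancel]
      ring
    omega
  -- the successors
  have hne1 : (S.filter (fun s => u < s)).Nonempty := ⟨v, Finset.mem_filter.2 ⟨hvS, huv'⟩⟩
  have hne2 : (S.filter (fun s => v < s)).Nonempty := by
    by_contra hc
    rw [Finset.not_nonempty_iff_eq_empty, Finset.filter_eq_empty_iff] at hc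
    have h3 : S.filter (fun s => n < r * s) ⊆ (seg S (u, v)).erase u := by
      intro s hs
      rw [Finset.mem_filter] at hs
      have h4 : u < s := by
        have : r * u < r * s := hru.trans hs.2
        exact Nat.lt_of_mul_lt_mul_left this
      rw [Finset.mem_erase, mem_seg]
      have h5 := hc hs.1
      exact ⟨by omega, hs.1, h4.le, by dsimp only; omega⟩
    have h4 := Finset.card_le_card h3
    rw [Finset.card_erase_of_mem hsegu] at h4
    unfold len at hql
    omega
  set u' := (S.filter (fun s => u < s)).min' hne1 with hu'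
  set v' := (S.filter (fun s => v < s)).min' hne2 with hv'
  have hu'1 := Finset.mem_filter.1 ((S.filter (fun s => u < s)).min'_mem hne1)
  have hv'1 := Finset.mem_filter.1 ((S.filter (fun s => v < s)).min'_mem hne2)
  rw [← hu'] at hu'1
  rw [← hv'] at hv'1
  have hu'2 : ∀ s ∈ S, u < s → u' ≤ s := fun s hs h =>
    Finset.min'_le _ s (Finset.mem_filter.2 ⟨hs, h⟩)
  have hv'2 : ∀ s ∈ S, v < s → v' ≤ s := fun s hs h =>
    Finset.min'_le _ s (Finset.mem_filter.2 ⟨hs, h⟩)
  have huv2 : u' ≤ v' := hu'2 v' hv'1.1 (by omega)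
  have hq'r : (u', v') ∈ runs S := mem_runs.2 ⟨hu'1.1, hv'1.1, huv2⟩
  have hv'n : v' ∉ (seg S (u, v)).erase u := by
    intro h
    have h3 := mem_seg.1 (Finset.mem_erase.1 h).2
    dsimp only at h3
    omega
  have hseg' : seg S (u', v') = insert v' ((seg S (u, v)).erase u) := by
    ext s
    rw [mem_seg, Finset.mem_insert, Finset.mem_erase, mem_seg]
    dsimp only
    constructor
    · rintro ⟨h3, h4, h5⟩
      by_cases h6 : s = v'
      · exact Or.inl h6
      · refine Or.inr ⟨by omega, h3, by omega, ?_⟩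
        by_contra h7
        push Not at h7
        have := hv'2 s h3 h7
        omega
    · rintro (h3 | ⟨h3, h4, h5, h6⟩)
      · rw [h3]
        exact ⟨hv'1.1, huv2, le_refl _⟩
      · have h7 := hu'2 s h4 (by omega)
        exact ⟨h4, h7, by omega⟩
  have hlen' : len S (u', v') = r - 1 := by
    unfold len at hql ⊢
    rw [hseg', Finset.card_insert_of_notMem hv'n, Finset.card_erase_of_mem hsegu]
    omega
  have hsm' : sm S (u', v') + u = sm S (u, v) + v' := by
    unfold sm
    rw [hseg', Finset.sum_insert hv'n]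
    have h3 := Finset.sum_erase_add (seg S (u, v)) (fun m => m) hsegu
    omega
  refine ⟨u, v, u', v', hqr, hql, hqs, hu'1.1, hv'1.1, hu'1.2, hv'1.2, hu'2, hv'2, ?_⟩
  by_contra hc
  push Not at hc
  have h3 : (u', v') ∈ Q := Finset.mem_filter.2 ⟨hq'r, hlen', by dsimp only; omega⟩
  have h4 := hmax (u', v') h3
  dsimp only at h4
  omega

theorem p_NPD (hSFT : Stmt_SFT) : Stmt_NPD := by
  intro a b Λ r x S hS hP hr ha hΛ hΛb
  set N := (Finset.Icc 1 x).filter
    (fun n => GR Λ n r ∧ 2 * a * r ≤ n ∧ 2 * n ≤ b * r ∧ ¬ PT S r n) with hN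
  set A := N.filter (fun n => ∃ q ∈ runs S, len S q = r - 1 ∧ sm S q + q.1 < n ∧
    n < sm S q + q.2 ∧ n - sm S q ∈ S) with hA
  set B := N.filter (fun n => ¬ ∃ q ∈ runs S, len S q = r - 1 ∧ sm S q + q.1 < n ∧
    n < sm S q + q.2 ∧ n - sm S q ∈ S) with hB
  have hcard : N.card = A.card + B.card := (Finset.card_filter_add_card_filter_not _).symm
  -- the first kind
  have hAc : A.card ≤ r * (S.filter (fun m => (r - 1) * m ≤ x)).card := by
    set T := S.filter (fun m => (r - 1) * m ≤ x) with hT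
    set Q := (runs S).filter (fun q => len S q = r - 1 ∧ q.1 ∈ T) with hQ
    have hsub : A ⊆ Q.biUnion (fun q => (seg S q).image (fun s => sm S q + s)) := by
      intro n hn
      rw [hA, Finset.mem_filter] at hn
      obtain ⟨hnN, q, hq, hl, hs1, hs2, hs3⟩ := hn
      have hnx : n ≤ x := (Finset.mem_Icc.1 (Finset.mem_filter.1 hnN).1).2
      rw [Finset.mem_biUnion]
      refine ⟨q, ?_, ?_⟩
      · rw [hQ, Finset.mem_filter]
        refine ⟨hq, hl, Finset.mem_filter.2 ⟨(mem_runs.1 hq).1, ?_⟩⟩
        have h3 := len_mul_le_sm S q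
        rw [hl] at h3
        omega
      · rw [Finset.mem_image]
        exact ⟨n - sm S q, mem_seg.2 ⟨hs3, by omega, by omega⟩, by omega⟩
    have hQc : Q.card ≤ T.card := by
      refine Finset.card_le_card_of_injOn (fun q => q.1) ?_ ?_
      · intro q hq
        have h3 := Finset.mem_filter.1 (Finset.mem_coe.1 hq)
        exact h3.2.2
      · intro q hq q' hq' h
        have h3 := Finset.mem_filter.1 (Finset.mem_coe.1 hq)
        have h4 := Finset.mem_filter.1 (Finset.mem_coe.1 hq')
        exact NPD_end S q q' h3.1 h4.1 (h3.2.1.trans h4.2.1.symm) h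
    calc A.card ≤ (Q.biUnion (fun q => (seg S q).image (fun s => sm S q + s))).card :=
          Finset.card_le_card hsub
      _ ≤ ∑ q ∈ Q, ((seg S q).image (fun s => sm S q + s)).card := Finset.card_biUnion_le
      _ ≤ ∑ q ∈ Q, r := by
          refine Finset.sum_le_sum fun q hq => Finset.card_image_le.trans ?_
          have h3 := (Finset.mem_filter.1 hq).2.1
          unfold len at h3
          omega
      _ = Q.card * r := by rw [Finset.sum_const, smul_eq_mul]
      _ ≤ T.card * r := Nat.mul_le_mul_right _ hQc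
      _ = r * T.card := by ring
  -- the second kind
  have hBk : ∀ n ∈ B, ∃ u v u' v' : ℕ, (u, v) ∈ runs S ∧ len S (u, v) = r - 1 ∧
      sm S (u, v) + v ≤ n ∧ u' ∈ S ∧ v' ∈ S ∧ u < u' ∧ v < v' ∧ (∀ s ∈ S, u < s → u' ≤ s) ∧
      (∀ s ∈ S, v < s → v' ≤ s) ∧ n + u ≤ sm S (u, v) + v' + u' := by
    intro n hn
    rw [hB, Finset.mem_filter] at hn
    obtain ⟨hnN, hnA⟩ := hn
    obtain ⟨_, hG, h1, h2, hPT⟩ := Finset.mem_filter.1 hnN
    obtain ⟨u, v, u', v', k1, k2, k3, k4⟩ := NPD_key a b Λ r n S hS hP hr ha hΛ hΛb hG h1 h2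
    refine ⟨u, v, u', v', k1, k2, ?_, k4⟩
    by_contra hc
    push Not at hc
    by_cases h3 : n - sm S (u, v) ∈ S
    · exact hnA ⟨(u, v), k1, k2, k3, hc, h3⟩
    · exact hPT ⟨(u, v), k1, by omega, by dsimp only; omega, hc, h3⟩
  choose! u v u' v' k using hBk
  have hab : (Finset.Icc a b).card ≤ b := by
    rw [Nat.card_Icc]
    omega
  have hSab : ∀ s ∈ S, a ≤ s ∧ s ≤ b := fun s hs => Finset.mem_Icc.1 (hS hs)
  -- equal first elements
  have hsame : ∀ n ∈ B, ∀ m ∈ B, u n = u m → v n = v m ∧ u' n = u' m ∧ v' n = v' m := by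
    intro n hn m hm h
    obtain ⟨a1, a2, a3, a4, a5, a6, a7, a8, a9, a10⟩ := k n hn
    obtain ⟨b1, b2, b3, b4, b5, b6, b7, b8, b9, b10⟩ := k m hm
    have h3 := NPD_end S (u n, v n) (u m, v m) a1 b1 (a2.trans b2.symm) h
    have h4 : v n = v m := (Prod.mk.inj h3).2
    refine ⟨h4, le_antisymm ?_ ?_, le_antisymm ?_ ?_⟩
    · exact a8 _ b4 (by omega)
    · exact b8 _ a4 (by omega)
    · exact a9 _ b5 (by omega)
    · exact b9 _ a5 (by omega)
  -- equal last elements
  have hsame2 : ∀ n ∈ B, ∀ m ∈ B, v n = v m → u n = u m := by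
    intro n hn m hm h
    obtain ⟨a1, a2, -⟩ := k n hn
    obtain ⟨b1, b2, -⟩ := k m hm
    rcases lt_trichotomy (u n) (u m) with h1 | h1 | h1
    · have h2 := (hSFT S (u n, v n) (u m, v m) a1 b1 (a2.trans b2.symm) h1).1
      dsimp only at h2
      omega
    · exact h1
    · have h2 := (hSFT S (u m, v m) (u n, v n) b1 a1 (b2.trans a2.symm) h1).1
      dsimp only at h2
      omega
  have hB0 : (B.filter (fun n => n < sm S (u n, v n) + v' n)).card ≤ b := by
    refine le_trans (Finset.card_le_card_of_injOn (fun n => n - sm S (u n, v n))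
      (t := Finset.Icc a b) ?_ ?_) hab
    · intro n hn
      obtain ⟨hn1, hn2⟩ := Finset.mem_filter.1 (Finset.mem_coe.1 hn)
      obtain ⟨a1, a2, a3, a4, a5, a6, a7, a8, a9, a10⟩ := k n hn1
      have h3 := hSab _ (mem_runs.1 a1).2.1
      have h4 := hSab _ a5
      rw [Finset.mem_coe, Finset.mem_Icc]
      dsimp only at h3 ⊢
      omega
    · intro n hn m hm h
      obtain ⟨hn1, hn2⟩ := Finset.mem_filter.1 (Finset.mem_coe.1 hn)
      obtain ⟨hm1, hm2⟩ := Finset.mem_filter.1 (Finset.mem_coe.1 hm)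
      obtain ⟨a1, a2, a3, a4, a5, a6, a7, a8, a9, a10⟩ := k n hn1
      obtain ⟨b1, b2, b3, b4, b5, b6, b7, b8, b9, b10⟩ := k m hm1
      have h3 := (mem_runs.1 a1).2.1
      have h4 := (mem_runs.1 b1).2.1
      dsimp only at h h3 h4
      have h5 : v n = v m := by
        rcases lt_trichotomy (v n) (v m) with h6 | h6 | h6
        · have := a9 _ h4 h6
          omega
        · exact h6
        · have := b9 _ h3 h6
          omega
      have h6 := hsame2 n hn1 m hm1 h5
      rw [h5, h6] at h a3
      omega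
  have hB1 : (B.filter (fun n => sm S (u n, v n) + v' n ≤ n ∧
      n + u n < sm S (u n, v n) + v' n + u' n)).card ≤ b := by
    refine le_trans (Finset.card_le_card_of_injOn (fun n => u n + (n - (sm S (u n, v n) + v' n)))
      (t := Finset.Icc a b) ?_ ?_) hab
    · intro n hn
      obtain ⟨hn1, hn2⟩ := Finset.mem_filter.1 (Finset.mem_coe.1 hn)
      obtain ⟨a1, a2, a3, a4, a5, a6, a7, a8, a9, a10⟩ := k n hn1
      have h3 := hSab _ (mem_runs.1 a1).1
      have h4 := hSab _ a4
      rw [Finset.mem_coe, Finset.mem_Icc]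
      dsimp only at h3 ⊢
      omega
    · intro n hn m hm h
      obtain ⟨hn1, hn2⟩ := Finset.mem_filter.1 (Finset.mem_coe.1 hn)
      obtain ⟨hm1, hm2⟩ := Finset.mem_filter.1 (Finset.mem_coe.1 hm)
      obtain ⟨a1, a2, a3, a4, a5, a6, a7, a8, a9, a10⟩ := k n hn1
      obtain ⟨b1, b2, b3, b4, b5, b6, b7, b8, b9, b10⟩ := k m hm1
      have h3 := (mem_runs.1 a1).1
      have h4 := (mem_runs.1 b1).1
      dsimp only at h h3 h4
      have h5 : u n = u m := by
        rcases lt_trichotomy (u n) (u m) with h6 | h6 | h6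
        · have := a8 _ h4 h6
          omega
        · exact h6
        · have := b8 _ h3 h6
          omega
      obtain ⟨h6, h7, h8⟩ := hsame n hn1 m hm1 h5
      rw [h5, h6, h8] at h hn2
      omega
  have hB2 : (B.filter (fun n => n + u n = sm S (u n, v n) + v' n + u' n)).card ≤ b := by
    refine le_trans (Finset.card_le_card_of_injOn (fun n => u n) (t := Finset.Icc a b) ?_ ?_) hab
    · intro n hn
      obtain ⟨hn1, hn2⟩ := Finset.mem_filter.1 (Finset.mem_coe.1 hn)
      obtain ⟨a1, a2, a3, a4, a5, a6, a7, a8, a9, a10⟩ := k n hn1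
      have h3 := hSab _ (mem_runs.1 a1).1
      rw [Finset.mem_coe, Finset.mem_Icc]
      exact h3
    · intro n hn m hm h
      obtain ⟨hn1, hn2⟩ := Finset.mem_filter.1 (Finset.mem_coe.1 hn)
      obtain ⟨hm1, hm2⟩ := Finset.mem_filter.1 (Finset.mem_coe.1 hm)
      dsimp only at h
      obtain ⟨h6, h7, h8⟩ := hsame n hn1 m hm1 h
      rw [h, h6, h7, h8] at hn2
      omega
  have hBu : B ⊆ (B.filter (fun n => n < sm S (u n, v n) + v' n)) ∪
      ((B.filter (fun n => sm S (u n, v n) + v' n ≤ n ∧
        n + u n < sm S (u n, v n) + v' n + u' n)) ∪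
      (B.filter (fun n => n + u n = sm S (u n, v n) + v' n + u' n))) := by
    intro n hn
    obtain ⟨a1, a2, a3, a4, a5, a6, a7, a8, a9, a10⟩ := k n hn
    rw [Finset.mem_union, Finset.mem_union]
    rcases Nat.lt_or_ge n (sm S (u n, v n) + v' n) with h3 | h3
    · exact Or.inl (Finset.mem_filter.2 ⟨hn, h3⟩)
    · rcases Nat.lt_or_ge (n + u n) (sm S (u n, v n) + v' n + u' n) with h4 | h4
      · exact Or.inr (Or.inl (Finset.mem_filter.2 ⟨hn, h3, h4⟩))
      · exact Or.inr (Or.inr (Finset.mem_filter.2 ⟨hn, by omega⟩))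
  have hBc := (Finset.card_le_card hBu).trans (Finset.card_union_le _ _)
  have hBc2 := Finset.card_union_le (B.filter (fun n => sm S (u n, v n) + v' n ≤ n ∧
        n + u n < sm S (u n, v n) + v' n + u' n))
      (B.filter (fun n => n + u n = sm S (u n, v n) + v' n + u' n))
  omega

end Pool.Agent.Work.MP_7d0410_sp
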