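import Pool.Agent.Work.MP_7d0410_sp.Interface

/-! # NPE: the expected number of exceptions -/

set_option autoImplicit false

namespace Pool.Agent.Work.MP_7d0410_sp

open Finset Filter MeasureTheory ProbabilityTheory
open Pool.Agent.Work.MP_7d0410_cr
open scoped Classical Topology

theorem NPE_log (K ε : ℝ) (hε : 0 < ε) : ∀ᶠ x : ℕ in atTop, K * Real.log x ≤ (x : ℝ) ^ ε := by
  have h1 : (fun x : ℝ => K * Real.log x) =o[atTop] fun x : ℝ => x ^ ε :=
    (isLittleO_log_rpow_atTop hε).const_mul_left K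
  have h2 := (h1.bound (show (0 : ℝ) < 1 by norm_num))
  have h3 := tendsto_natCast_atTop_atTop (R := ℝ) |>.eventually h2
  filter_upwards [h3] with x hx
  rw [one_mul, Real.norm_eq_abs, Real.norm_eq_abs, abs_of_nonneg (Real.rpow_nonneg (Nat.cast_nonneg x) _)] at hx
  exact (le_abs_self _).trans hx

theorem NPE_big (K ε : ℝ) (hε : 0 < ε) : ∀ᶠ x : ℕ in atTop, K ≤ (x : ℝ) ^ ε :=
  ((tendsto_rpow_atTop hε).comp (tendsto_natCast_atTop_atTop (R := ℝ))).eventually_ge_atTop K

theorem p_NPE (h1 : Stmt_NPD) (h2 : Stmt_BTT) : Stmt_NPE := by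
  intro C1 hC1 c θ hP
  obtain ⟨C, hC, hBT⟩ := h2
  have ht0 := hP.t0
  have ht1 := hP.t1
  have hc0 := hP.c0
  refine ⟨4 * C + 3, by linarith, ?_⟩
  filter_upwards [NPE_log C1 (8 * θ) (by linarith), NPE_big 4 (4 * θ) (by linarith),
    NPE_log 3 (1 / 2 - 8 * θ) (by linarith), NPE_log 1 (c / 2) (by linarith),
    eventually_ge_atTop 16] with x e1 e2 e3 e4 e5 r hr hrx
  have hx0 : (0 : ℝ) < x := by
    have : 0 < x := by omega
    exact_mod_cast this
  have hx1 : (1 : ℝ) ≤ x := by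
    have : 1 ≤ x := by omega
    exact_mod_cast this
  have hlog : 0 < Real.log x := Real.log_pos (by
    have : 1 < x := by omega
    exact_mod_cast this)
  set a := A1 θ x with ha
  set b := A2 θ x with hb
  set Λ := LL C1 x r with hΛ
  have haw : (x : ℝ) ^ (1 / 2 + 4 * θ) ≤ a := Nat.le_ceil _
  have hbw : (b : ℝ) ≤ (x : ℝ) ^ (1 / 2 + 8 * θ) := Nat.floor_le (Real.rpow_nonneg hx0.le _)
  have hsq : (x : ℝ) ^ (1 / 2 : ℝ) ≤ a := (Real.rpow_le_rpow_of_exponent_le hx1 (by linarith)).trans haw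
  have ha1' : (1 : ℝ) ≤ a := (Real.one_le_rpow hx1 (by norm_num)).trans hsq
  have ha1 : 1 ≤ a := by exact_mod_cast ha1'
  have ha0 : (0 : ℝ) < a := by linarith
  have hr0 : (0 : ℝ) < r := by
    have : 0 < r := by omega
    exact_mod_cast this
  have hrx' : 2 * (a : ℝ) * r ≤ x := by exact_mod_cast hrx
  -- F1
  have hΛa : Λ ≤ a := by
    refine Nat.ceil_le.2 ?_
    have h3 : (x : ℝ) * (x : ℝ) ^ (8 * θ) ≤ a * a := by
      calc (x : ℝ) * (x : ℝ) ^ (8 * θ) = (x : ℝ) ^ (1 / 2 + 4 * θ) * (x : ℝ) ^ (1 / 2 + 4 * θ) := by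
            rw [← Real.rpow_add hx0, ← Real.rpow_one_add' hx0.le (by linarith)]
            congr 1
            ring
        _ ≤ a * a := mul_le_mul haw haw (Real.rpow_nonneg hx0.le _) ha0.le
    have h4 : (a : ℝ) * (C1 * r * Real.log x) ≤ a * a := by
      calc (a : ℝ) * (C1 * r * Real.log x) = a * r * (C1 * Real.log x) := by ring
        _ ≤ a * r * (x : ℝ) ^ (8 * θ) := mul_le_mul_of_nonneg_left e1 (by positivity)
        _ ≤ x * (x : ℝ) ^ (8 * θ) := mul_le_mul_of_nonneg_right (by nlinarith)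
            (Real.rpow_nonneg hx0.le _)
        _ ≤ a * a := h3
    exact le_of_mul_le_mul_left h4 ha0
  -- F2
  have hab : 2 * a ≤ b := by
    refine Nat.le_floor ?_
    have h3 : (a : ℝ) ≤ 2 * (x : ℝ) ^ (1 / 2 + 4 * θ) := by
      have h4 : (a : ℝ) < (x : ℝ) ^ (1 / 2 + 4 * θ) + 1 := Nat.ceil_lt_add_one (Real.rpow_nonneg hx0.le _)
      have h5 : 1 ≤ (x : ℝ) ^ (1 / 2 + 4 * θ) := Real.one_le_rpow hx1 (by linarith)
      linarith
    have h6 : (x : ℝ) ^ (1 / 2 + 8 * θ) = (x : ℝ) ^ (1 / 2 + 4 * θ) * (x : ℝ) ^ (4 * θ) := by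
      rw [← Real.rpow_add hx0]
      congr 1
      ring
    rw [h6]
    push_cast
    have h7 : 0 ≤ (x : ℝ) ^ (1 / 2 + 4 * θ) := Real.rpow_nonneg hx0.le _
    nlinarith
  have hΛb : 2 * Λ ≤ b := by omega
  -- F3
  have hb3 : 3 * (b : ℝ) ≤ x / Real.log x := by
    rw [le_div_iff₀ hlog]
    calc 3 * (b : ℝ) * Real.log x = b * (3 * Real.log x) := by ring
      _ ≤ (x : ℝ) ^ (1 / 2 + 8 * θ) * (x : ℝ) ^ (1 / 2 - 8 * θ) :=
          mul_le_mul hbw e3 (by positivity) (Real.rpow_nonneg hx0.le _)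
      _ = x := by
          rw [← Real.rpow_add hx0]
          have : (1 / 2 + 8 * θ + (1 / 2 - 8 * θ) : ℝ) = 1 := by ring
          rw [this, Real.rpow_one]
  -- F4
  have hac : (a : ℝ) ^ (-c) ≤ 1 / Real.log x := by
    have h3 : (x : ℝ) ^ (c / 2) ≤ (a : ℝ) ^ c := by
      calc (x : ℝ) ^ (c / 2) = ((x : ℝ) ^ (1 / 2 : ℝ)) ^ c := by
            rw [← Real.rpow_mul hx0.le]
            congr 1
            ring
        _ ≤ (a : ℝ) ^ c := Real.rpow_le_rpow (Real.rpow_nonneg hx0.le _) hsq hc0.le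
    rw [Real.rpow_neg ha0.le, ← one_div]
    refine one_div_le_one_div_of_le hlog ?_
    linarith
  -- F5
  set y := x / (r - 1) with hy
  have hr1 : 0 < r - 1 := by omega
  have hya : 2 * a ≤ y := by
    rw [hy, Nat.le_div_iff_mul_le hr1]
    calc 2 * a * (r - 1) ≤ 2 * a * r := Nat.mul_le_mul_left _ (by omega)
      _ ≤ x := hrx
  have hry : r * y ≤ 2 * x := by
    have h3 : (r - 1) * y ≤ x := Nat.mul_div_le x (r - 1)
    calc r * y ≤ 2 * (r - 1) * y := Nat.mul_le_mul_right _ (by omega)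
      _ = 2 * ((r - 1) * y) := by ring
      _ ≤ 2 * x := Nat.mul_le_mul_left _ h3
  have hry' : (r : ℝ) * y ≤ 2 * x := by exact_mod_cast hry
  have hy0 : (0 : ℝ) < y := by
    have : 0 < y := by omega
    exact_mod_cast this
  have hlogy : 1 / 2 * Real.log x ≤ Real.log y := by
    rw [← Real.log_rpow hx0]
    refine Real.log_le_log (Real.rpow_pos_of_pos hx0 _) (hsq.trans ?_)
    have : a ≤ y := by omega
    exact_mod_cast this
  -- primes up to `y`
  have hpin : (pin 0 y : ℝ) ≤ 2 * C * y / Real.log x := by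
    refine (hBT 0 y (by omega)).trans ?_
    have h3 : (y : ℝ) / Real.log y ≤ y / (1 / 2 * Real.log x) :=
      div_le_div_of_nonneg_left hy0.le (by positivity) hlogy
    calc C * (y / Real.log y) ≤ C * (y / (1 / 2 * Real.log x)) :=
          mul_le_mul_of_nonneg_left h3 (by linarith)
      _ = 2 * C * y / Real.log x := by
          field_simp
  -- the expected number of small elements
  have hEx : Ex (pp c) (VV θ x) (fun S => ((S.filter (fun m => (r - 1) * m ≤ x)).card : ℝ)) ≤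
      (2 * C + 1) * y / Real.log x := by
    rw [Ex_card_filter]
    set F := (VV θ x).filter (fun m => (r - 1) * m ≤ x) with hF
    have hFs : F ⊆ Finset.Ioc 0 y := by
      intro m hm
      rw [hF, Finset.mem_filter, VV, Finset.mem_Icc] at hm
      rw [Finset.mem_Ioc]
      refine ⟨by omega, ?_⟩
      rw [hy, Nat.le_div_iff_mul_le hr1, mul_comm]
      exact hm.2
    have hFc : (F.card : ℝ) ≤ y := by
      have := Finset.card_le_card hFs
      rw [Nat.card_Ioc, Nat.sub_zero] at this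
      exact_mod_cast this
    have hFp : ((F.filter Nat.Prime).card : ℝ) ≤ pin 0 y := by
      have : (F.filter Nat.Prime).card ≤ pin 0 y := by
        unfold pin
        rw [zero_add]
        exact Finset.card_le_card (Finset.filter_subset_filter _ hFs)
      exact_mod_cast this
    have h3 : ∀ m ∈ F, pp c m ≤ (if m.Prime then (1 : ℝ) else 0) + (a : ℝ) ^ (-c) := by
      intro m hm
      have hac0 : 0 ≤ (a : ℝ) ^ (-c) := Real.rpow_nonneg ha0.le _
      unfold pp
      split_ifs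
      · linarith
      · rw [zero_add]
        rw [hF, Finset.mem_filter, VV, Finset.mem_Icc] at hm
        exact Real.rpow_le_rpow_of_nonpos ha0 (by exact_mod_cast hm.1.1) (by linarith)
    calc ∑ m ∈ F, pp c m ≤ ∑ m ∈ F, ((if m.Prime then (1 : ℝ) else 0) + (a : ℝ) ^ (-c)) :=
          Finset.sum_le_sum h3
      _ = ((F.filter Nat.Prime).card : ℝ) + F.card * (a : ℝ) ^ (-c) := by
          rw [Finset.sum_add_distrib, Finset.sum_const, nsmul_eq_mul, ← Finset.sum_filter,
            Finset.sum_const, nsmul_eq_mul, mul_one]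
      _ ≤ 2 * C * y / Real.log x + y * (1 / Real.log x) :=
          add_le_add (hFp.trans hpin) (mul_le_mul hFc hac (Real.rpow_nonneg ha0.le _) hy0.le)
      _ = (2 * C + 1) * y / Real.log x := by ring
  -- the main estimate
  have hmain : Ex (pp c) (VV θ x) (fun S => (((Finset.Icc 1 x).filter
      (fun n => r ∈ RG C1 θ x n ∧ ¬ PT S r n)).card : ℝ)) ≤
      Ex (pp c) (VV θ x) (fun S => (3 * (b : ℝ) +
        (r : ℝ) * ((S.filter (fun m => (r - 1) * m ≤ x)).card : ℝ))) := by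
    refine Ex_mono_pp hc0 fun S hS hSp => ?_
    have h3 := h1 a b Λ r x S hS hSp hr ha1 hΛa hΛb
    have h4 : ((Finset.Icc 1 x).filter (fun n => r ∈ RG C1 θ x n ∧ ¬ PT S r n)).card ≤
        ((Finset.Icc 1 x).filter (fun n => GR Λ n r ∧ 2 * a * r ≤ n ∧ 2 * n ≤ b * r ∧
          ¬ PT S r n)).card := by
      refine Finset.card_le_card fun n hn => ?_
      rw [Finset.mem_filter] at hn ⊢
      obtain ⟨hn1, hn2, hn3⟩ := hn
      unfold RG at hn2
      rw [Finset.mem_filter] at hn2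
      exact ⟨hn1, hn2.2.1, hn2.2.2.1, hn2.2.2.2, hn3⟩
    exact_mod_cast h4.trans h3
  refine hmain.trans ?_
  rw [Ex_add, Ex_const, Ex_const_mul]
  calc 3 * (b : ℝ) + r * Ex (pp c) (VV θ x)
        (fun S => ((S.filter (fun m => (r - 1) * m ≤ x)).card : ℝ))
      ≤ x / Real.log x + r * ((2 * C + 1) * y / Real.log x) :=
        add_le_add hb3 (mul_le_mul_of_nonneg_left hEx hr0.le)
    _ = x / Real.log x + (2 * C + 1) * (r * y) / Real.log x := by ring
    _ ≤ x / Real.log x + (2 * C + 1) * (2 * x) / Real.log x := by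
        refine add_le_add le_rfl (div_le_div_of_nonneg_right ?_ hlog.le)
        exact mul_le_mul_of_nonneg_left hry' (by linarith)
    _ = (4 * C + 3) * (x / Real.log x) := by ring

end Pool.Agent.Work.MP_7d0410_sp
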