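import Pool.Agent.Work.MP_7d0410_sp.Defs

/-!
# The primes with a sparse random set added: basic facts on expectations
-/

set_option autoImplicit false

namespace Pool.Agent.Work.MP_7d0410_sp

open Finset Filter MeasureTheory ProbabilityTheory
open Pool.Agent.Work.MP_7d0410_cr
open scoped Classical

/-! ## Expectations -/

lemma wt_nonneg {p : ℕ → ℝ} (hp : Prob p) (U S : Finset ℕ) : 0 ≤ wt p U S :=
  mul_nonneg (Finset.prod_nonneg fun i _ => (hp i).1)
    (Finset.prod_nonneg fun i _ => sub_nonneg.2 (hp i).2)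

lemma sum_wt {p : ℕ → ℝ} (U : Finset ℕ) : ∑ S ∈ U.powerset, wt p U S = 1 := by
  unfold wt
  rw [← Finset.prod_add]
  simp

/-- generating function -/
lemma Ex_prod {p : ℕ → ℝ} (U : Finset ℕ) (f : ℕ → ℝ) :
    Ex p U (fun S => ∏ m ∈ S, f m) = ∏ m ∈ U, (1 - p m + p m * f m) := by
  unfold Ex wt
  have : ∏ m ∈ U, (1 - p m + p m * f m) = ∏ m ∈ U, (p m * f m + (1 - p m)) :=
    Finset.prod_congr rfl fun m _ => by ring
  rw [this, Finset.prod_add]
  refine Finset.sum_congr rfl fun S _ => ?_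
  rw [Finset.prod_mul_distrib]
  ring

lemma Ex_const {p : ℕ → ℝ} (U : Finset ℕ) (c : ℝ) : Ex p U (fun _ => c) = c := by
  unfold Ex
  rw [← Finset.sum_mul, sum_wt, one_mul]

lemma Ex_add {p : ℕ → ℝ} (U : Finset ℕ) (F K : Finset ℕ → ℝ) : Ex p U (fun S => F S + K S) = Ex p U F + Ex p U K := by
  unfold Ex
  rw [← Finset.sum_add_distrib]
  exact Finset.sum_congr rfl fun S _ => by ring

lemma Ex_sub {p : ℕ → ℝ} (U : Finset ℕ) (F K : Finset ℕ → ℝ) : Ex p U (fun S => F S - K S) = Ex p U F - Ex p U K := by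
  unfold Ex
  rw [← Finset.sum_sub_distrib]
  exact Finset.sum_congr rfl fun S _ => by ring

lemma Ex_const_mul {p : ℕ → ℝ} (U : Finset ℕ) (c : ℝ) (F : Finset ℕ → ℝ) :
    Ex p U (fun S => c * F S) = c * Ex p U F := by
  unfold Ex
  rw [Finset.mul_sum]
  exact Finset.sum_congr rfl fun S _ => by ring

lemma Ex_mul_const {p : ℕ → ℝ} (U : Finset ℕ) (c : ℝ) (F : Finset ℕ → ℝ) :
    Ex p U (fun S => F S * c) = Ex p U F * c := by
  unfold Ex
  rw [Finset.sum_mul]
  exact Finset.sum_congr rfl fun S _ => by ring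

lemma Ex_sum {p : ℕ → ℝ} {ι : Type*} (U : Finset ℕ) (I : Finset ι) (F : ι → Finset ℕ → ℝ) :
    Ex p U (fun S => ∑ i ∈ I, F i S) = ∑ i ∈ I, Ex p U (F i) := by
  unfold Ex
  rw [Finset.sum_comm]
  exact Finset.sum_congr rfl fun S _ => by rw [Finset.mul_sum]

lemma Ex_congr {p : ℕ → ℝ} {U : Finset ℕ} {F K : Finset ℕ → ℝ} (h : ∀ S ⊆ U, F S = K S) : Ex p U F = Ex p U K := by
  unfold Ex
  exact Finset.sum_congr rfl fun S hS => by rw [h S (Finset.mem_powerset.1 hS)]

lemma Ex_mono {p : ℕ → ℝ} (hp : Prob p) {U : Finset ℕ} {F K : Finset ℕ → ℝ} (h : ∀ S ⊆ U, F S ≤ K S) : Ex p U F ≤ Ex p U K := by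
  unfold Ex
  exact Finset.sum_le_sum fun S hS =>
    mul_le_mul_of_nonneg_left (h S (Finset.mem_powerset.1 hS)) (wt_nonneg hp U S)

lemma Ex_nonneg {p : ℕ → ℝ} (hp : Prob p) {U : Finset ℕ} {F : Finset ℕ → ℝ} (h : ∀ S ⊆ U, 0 ≤ F S) : 0 ≤ Ex p U F := by
  have := Ex_mono hp h
  rwa [Ex_const] at this

lemma Ex_le_const {p : ℕ → ℝ} (hp : Prob p) {U : Finset ℕ} {F : Finset ℕ → ℝ} {c : ℝ} (h : ∀ S ⊆ U, F S ≤ c) : Ex p U F ≤ c := by
  have := Ex_mono hp h
  rwa [Ex_const] at this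

lemma const_le_Ex {p : ℕ → ℝ} (hp : Prob p) {U : Finset ℕ} {F : Finset ℕ → ℝ} {c : ℝ} (h : ∀ S ⊆ U, c ≤ F S) : c ≤ Ex p U F := by
  have := Ex_mono hp h
  rwa [Ex_const] at this

lemma abs_Ex_le {p : ℕ → ℝ} (hp : Prob p) (U : Finset ℕ) (F : Finset ℕ → ℝ) : |Ex p U F| ≤ Ex p U (fun S => |F S|) := by
  unfold Ex
  refine (Finset.abs_sum_le_sum_abs _ _).trans (Finset.sum_le_sum fun S _ => ?_)
  rw [abs_mul, abs_of_nonneg (wt_nonneg hp U S)]

/-- independence of disjoint parts -/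
lemma Ex_union {p : ℕ → ℝ} {U V : Finset ℕ} (h : Disjoint U V) (F : Finset ℕ → ℝ) :
    Ex p (U ∪ V) F = Ex p U (fun S => Ex p V (fun T => F (S ∪ T))) := by
  have hR : Ex p U (fun S => Ex p V (fun T => F (S ∪ T))) =
      ∑ z ∈ U.powerset ×ˢ V.powerset, wt p U z.1 * wt p V z.2 * F (z.1 ∪ z.2) := by
    rw [Finset.sum_product]
    unfold Ex
    refine Finset.sum_congr rfl fun S _ => ?_
    rw [Finset.mul_sum]
    exact Finset.sum_congr rfl fun T _ => by ring
  rw [hR]
  unfold Ex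
  refine Finset.sum_bij' (fun S _ => (S ∩ U, S ∩ V)) (fun z _ => z.1 ∪ z.2) ?_ ?_ ?_ ?_ ?_
  · intro S _
    exact Finset.mem_product.2 ⟨Finset.mem_powerset.2 Finset.inter_subset_right,
      Finset.mem_powerset.2 Finset.inter_subset_right⟩
  · intro z hz
    obtain ⟨h1, h2⟩ := Finset.mem_product.1 hz
    exact Finset.mem_powerset.2 (Finset.union_subset_union (Finset.mem_powerset.1 h1)
      (Finset.mem_powerset.1 h2))
  · intro S hS
    have hS := Finset.mem_powerset.1 hS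
    simp only
    rw [← Finset.inter_union_distrib_left]
    exact Finset.inter_eq_left.2 hS
  · rintro ⟨S, T⟩ hz
    obtain ⟨h1, h2⟩ := Finset.mem_product.1 hz
    have h1 := Finset.mem_powerset.1 h1
    have h2 := Finset.mem_powerset.1 h2
    simp only at h1 h2
    have e1 : (S ∪ T) ∩ U = S := by
      rw [Finset.union_inter_distrib_right, Finset.inter_eq_left.2 h1,
        Finset.disjoint_iff_inter_eq_empty.1 (Finset.disjoint_of_subset_left h2 h.symm),
        Finset.union_empty]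
    have e2 : (S ∪ T) ∩ V = T := by
      rw [Finset.union_inter_distrib_right, Finset.inter_eq_left.2 h2,
        Finset.disjoint_iff_inter_eq_empty.1 (Finset.disjoint_of_subset_left h1 h),
        Finset.empty_union]
    simp only [e1, e2]
  · intro S hS
    have hS := Finset.mem_powerset.1 hS
    have hSU : (S ∩ U) ∪ (S ∩ V) = S := by
      rw [← Finset.inter_union_distrib_left]
      exact Finset.inter_eq_left.2 hS
    have hd : Disjoint (S ∩ U) (S ∩ V) :=
      Finset.disjoint_of_subset_left Finset.inter_subset_right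
        (Finset.disjoint_of_subset_right Finset.inter_subset_right h)
    have hd2 : Disjoint (U \ (S ∩ U)) (V \ (S ∩ V)) :=
      Finset.disjoint_of_subset_left Finset.sdiff_subset
        (Finset.disjoint_of_subset_right Finset.sdiff_subset h)
    have hc : (U ∪ V) \ S = (U \ (S ∩ U)) ∪ (V \ (S ∩ V)) := by
      ext m
      simp only [Finset.mem_sdiff, Finset.mem_union, Finset.mem_inter]
      tauto
    simp only [hSU]
    congr 1
    unfold wt
    rw [hc, Finset.prod_union hd2]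
    have : ∏ m ∈ S, p m = (∏ m ∈ S ∩ U, p m) * ∏ m ∈ S ∩ V, p m := by
      rw [← Finset.prod_union hd, hSU]
    rw [this]
    ring

lemma Ex_split {p : ℕ → ℝ} {U V : Finset ℕ} (h : V ⊆ U) (F : Finset ℕ → ℝ) :
    Ex p U F = Ex p V (fun T => Ex p (U \ V) (fun S => F (T ∪ S))) := by
  rw [← Ex_union Finset.disjoint_sdiff, Finset.union_sdiff_of_subset h]

/-- marginal law -/
lemma Ex_inter {p : ℕ → ℝ} {U V : Finset ℕ} (h : V ⊆ U) (F : Finset ℕ → ℝ) :
    Ex p U (fun S => F (S ∩ V)) = Ex p V F := by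
  rw [Ex_split h]
  refine Ex_congr fun T hT => ?_
  have : Ex p (U \ V) (fun S => F ((T ∪ S) ∩ V)) = Ex p (U \ V) (fun _ => F T) := by
    refine Ex_congr fun S hS => ?_
    have : (T ∪ S) ∩ V = T := by
      ext m
      simp only [Finset.mem_inter, Finset.mem_union]
      constructor
      · rintro ⟨h1 | h1, h2⟩
        · exact h1
        · exact absurd h2 (Finset.mem_sdiff.1 (hS h1)).2
      · intro h1
        exact ⟨Or.inl h1, hT h1⟩
    rw [this]
  rw [this, Ex_const]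

/-- independence -/
lemma Ex_indep {p : ℕ → ℝ} {U V : Finset ℕ} (h : V ⊆ U) (F K : Finset ℕ → ℝ) :
    Ex p U (fun S => F (S ∩ V) * K (S \ V)) = Ex p V F * Ex p (U \ V) K := by
  rw [Ex_split h, ← Ex_mul_const]
  refine Ex_congr fun T hT => ?_
  rw [← Ex_const_mul]
  refine Ex_congr fun S hS => ?_
  have e1 : (T ∪ S) ∩ V = T := by
    ext m
    simp only [Finset.mem_inter, Finset.mem_union]
    constructor
    · rintro ⟨h1 | h1, h2⟩
      · exact h1
      · exact absurd h2 (Finset.mem_sdiff.1 (hS h1)).2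
    · intro h1
      exact ⟨Or.inl h1, hT h1⟩
  have e2 : (T ∪ S) \ V = S := by
    ext m
    simp only [Finset.mem_sdiff, Finset.mem_union]
    constructor
    · rintro ⟨h1 | h1, h2⟩
      · exact absurd (hT h1) h2
      · exact h1
    · intro h1
      exact ⟨Or.inr h1, (Finset.mem_sdiff.1 (hS h1)).2⟩
  rw [e1, e2]

lemma Ex_sdiff {p : ℕ → ℝ} {U V : Finset ℕ} (h : V ⊆ U) (K : Finset ℕ → ℝ) :
    Ex p U (fun S => K (S \ V)) = Ex p (U \ V) K := by
  have := Ex_indep (p := p) h (fun _ => 1) K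
  simpa [Ex_const] using this

/-! ## Probabilities of events -/

/-- `Pb` with any decidability instance (rewrite with this before using `if`) -/
lemma Pb_eq {p : ℕ → ℝ} (U : Finset ℕ) (A : Finset ℕ → Prop) [inst : ∀ S, Decidable (A S)] :
    Pb p U A = Ex p U (fun S => if A S then 1 else 0) := by
  unfold Pb
  refine Ex_congr fun S _ => ?_
  congr

lemma Pb_nonneg {p : ℕ → ℝ} (hp : Prob p) (U : Finset ℕ) (A : Finset ℕ → Prop) : 0 ≤ Pb p U A :=
  Ex_nonneg hp fun S _ => by split_ifs <;> norm_num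

lemma Pb_le_one {p : ℕ → ℝ} (hp : Prob p) (U : Finset ℕ) (A : Finset ℕ → Prop) : Pb p U A ≤ 1 :=
  Ex_le_const hp fun S _ => by split_ifs <;> norm_num

lemma Pb_mono {p : ℕ → ℝ} (hp : Prob p) {U : Finset ℕ} {A B : Finset ℕ → Prop} (h : ∀ S ⊆ U, A S → B S) : Pb p U A ≤ Pb p U B := by
  refine Ex_mono hp fun S hS => ?_
  by_cases hA : A S
  · rw [if_pos hA, if_pos (h S hS hA)]
  · rw [if_neg hA]
    split_ifs <;> norm_num

lemma Pb_congr {p : ℕ → ℝ} (hp : Prob p) {U : Finset ℕ} {A B : Finset ℕ → Prop} (h : ∀ S ⊆ U, (A S ↔ B S)) : Pb p U A = Pb p U B :=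
  le_antisymm (Pb_mono hp fun S hS => (h S hS).1) (Pb_mono hp fun S hS => (h S hS).2)

/-- Markov's inequality -/
lemma Pb_le_Ex {p : ℕ → ℝ} (hp : Prob p) {U : Finset ℕ} {A : Finset ℕ → Prop} {F : Finset ℕ → ℝ} (h0 : ∀ S ⊆ U, 0 ≤ F S)
    (h : ∀ S ⊆ U, A S → 1 ≤ F S) : Pb p U A ≤ Ex p U F := by
  refine Ex_mono hp fun S hS => ?_
  by_cases hA : A S
  · rw [if_pos hA]
    exact h S hS hA
  · rw [if_neg hA]
    exact h0 S hS

/-- the union bound -/
lemma Pb_exists_le {p : ℕ → ℝ} (hp : Prob p) {ι : Type*} (U : Finset ℕ) (I : Finset ι) (A : ι → Finset ℕ → Prop) :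
    Pb p U (fun S => ∃ i ∈ I, A i S) ≤ ∑ i ∈ I, Pb p U (A i) := by
  unfold Pb
  rw [← Ex_sum]
  refine Ex_mono hp fun S _ => ?_
  split_ifs with h
  · obtain ⟨i, hi, hA⟩ := h
    have : (if A i S then (1 : ℝ) else 0) ≤ ∑ j ∈ I, if A j S then (1 : ℝ) else 0 :=
      Finset.single_le_sum (f := fun j => if A j S then (1 : ℝ) else 0)
        (fun j _ => by split_ifs <;> norm_num) hi
    rwa [if_pos hA] at this
  · exact Finset.sum_nonneg fun j _ => by split_ifs <;> norm_num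

lemma Pb_compl {p : ℕ → ℝ} (U : Finset ℕ) (A : Finset ℕ → Prop) : Pb p U (fun S => ¬ A S) = 1 - Pb p U A := by
  unfold Pb
  rw [← Ex_const (p := p) U 1, ← Ex_sub, Ex_const]
  refine Ex_congr fun S _ => ?_
  by_cases h : A S <;> simp [h]

/-- marginal law -/
lemma Pb_inter {p : ℕ → ℝ} {U V : Finset ℕ} (h : V ⊆ U) (A : Finset ℕ → Prop) :
    Pb p U (fun S => A (S ∩ V)) = Pb p V A := Ex_inter h (fun S => if A S then 1 else 0)


/-! ## Probabilities -/

lemma pp_nonneg (c : ℝ) (m : ℕ) : 0 ≤ pp c m := by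
  unfold pp
  split_ifs
  · norm_num
  · exact Real.rpow_nonneg (Nat.cast_nonneg m) _

lemma pp_prime {c : ℝ} {m : ℕ} (h : m.Prime) : pp c m = 1 := by
  unfold pp
  rw [if_pos h]

lemma pp_not_prime {c : ℝ} {m : ℕ} (h : ¬ m.Prime) : pp c m = (m : ℝ) ^ (-c) := by
  unfold pp
  rw [if_neg h]

lemma pp_le_one {c : ℝ} (hc : 0 < c) (m : ℕ) : pp c m ≤ 1 := by
  unfold pp
  split_ifs
  · exact le_rfl
  · rcases Nat.eq_zero_or_pos m with h | h
    · subst h
      rw [Nat.cast_zero, Real.zero_rpow (by linarith)]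
      norm_num
    · exact Real.rpow_le_one_of_one_le_of_nonpos (by exact_mod_cast h) (by linarith)

lemma prob_pp {c : ℝ} (hc : 0 < c) : Prob (pp c) := fun m => ⟨pp_nonneg c m, pp_le_one hc m⟩

/-- sets which do not contain all primes of `U` have weight `0` -/
lemma wt_pp_eq_zero {c : ℝ} {U S : Finset ℕ} {q : ℕ} (hq : q.Prime) (hU : q ∈ U) (hS : q ∉ S) :
    wt (pp c) U S = 0 := by
  unfold wt
  rw [Finset.prod_eq_zero (i := q) (s := U \ S) (Finset.mem_sdiff.2 ⟨hU, hS⟩)]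
  · ring
  · rw [pp_prime hq]
    ring

/-- expectations only depend on the sets which contain all primes of `U` -/
lemma Ex_mono_pp {c : ℝ} (hc : 0 < c) {U : Finset ℕ} {F K : Finset ℕ → ℝ}
    (h : ∀ S ⊆ U, (∀ q ∈ U, q.Prime → q ∈ S) → F S ≤ K S) : Ex (pp c) U F ≤ Ex (pp c) U K := by
  unfold Ex
  refine Finset.sum_le_sum fun S hS => ?_
  by_cases hq : ∀ q ∈ U, q.Prime → q ∈ S
  · exact mul_le_mul_of_nonneg_left (h S (Finset.mem_powerset.1 hS) hq) (wt_nonneg (prob_pp hc) U S)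
  · push Not at hq
    obtain ⟨q, h1, h2, h3⟩ := hq
    rw [wt_pp_eq_zero h2 h1 h3, zero_mul, zero_mul]

/-- insertion formula -/
lemma Ex_insert {p : ℕ → ℝ} (U : Finset ℕ) (z : ℕ) (hz : z ∈ U) (hp1 : p z < 1) (F : Finset ℕ → ℝ) :
    Ex p U (fun S => (if z ∈ S then 1 else 0) * F (S.erase z)) =
      p z / (1 - p z) * Ex p U (fun S => (if z ∈ S then 0 else 1) * F S) := by
  have hV : ({z} : Finset ℕ) ⊆ U := Finset.singleton_subset_iff.2 hz
  have key : ∀ K : Finset ℕ → ℝ, Ex p {z} K = (1 - p z) * K ∅ + p z * K {z} := by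
    intro K
    unfold Ex wt
    have : ({z} : Finset ℕ).powerset = {∅, {z}} := rfl
    rw [this, Finset.sum_pair (by exact (Finset.singleton_ne_empty z).symm)]
    simp
  rw [Ex_split hV, Ex_split hV (fun S => (if z ∈ S then 0 else 1) * F S), key, key]
  have e1 : Ex p (U \ {z}) (fun S => (if z ∈ (∅ : Finset ℕ) ∪ S then 1 else 0) * F ((∅ ∪ S).erase z)) = 0 := by
    have : Ex p (U \ {z}) (fun S => (if z ∈ (∅ : Finset ℕ) ∪ S then 1 else 0) * F ((∅ ∪ S).erase z)) =
        Ex p (U \ {z}) (fun _ => (0 : ℝ)) := by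
      refine Ex_congr fun S hS => ?_
      have : z ∉ (∅ : Finset ℕ) ∪ S := by
        rw [Finset.empty_union]
        intro h
        exact (Finset.mem_sdiff.1 (hS h)).2 (Finset.mem_singleton_self z)
      rw [if_neg this, zero_mul]
    rw [this, Ex_const]
  have e2 : Ex p (U \ {z}) (fun S => (if z ∈ ({z} : Finset ℕ) ∪ S then 1 else 0) * F (({z} ∪ S).erase z)) =
      Ex p (U \ {z}) F := by
    refine Ex_congr fun S hS => ?_
    have h1 : z ∈ ({z} : Finset ℕ) ∪ S := Finset.mem_union_left _ (Finset.mem_singleton_self z)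
    have h2 : z ∉ S := fun h => (Finset.mem_sdiff.1 (hS h)).2 (Finset.mem_singleton_self z)
    have h3 : ({z} ∪ S).erase z = S := by
      rw [← Finset.insert_eq, Finset.erase_insert h2]
    rw [if_pos h1, one_mul, h3]
  have e3 : Ex p (U \ {z}) (fun S => (if z ∈ (∅ : Finset ℕ) ∪ S then 0 else 1) * F (∅ ∪ S)) =
      Ex p (U \ {z}) F := by
    refine Ex_congr fun S hS => ?_
    have h2 : z ∉ S := fun h => (Finset.mem_sdiff.1 (hS h)).2 (Finset.mem_singleton_self z)
    rw [Finset.empty_union, if_neg h2, one_mul]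
  have e4 : Ex p (U \ {z}) (fun S => (if z ∈ ({z} : Finset ℕ) ∪ S then 0 else 1) * F ({z} ∪ S)) = 0 := by
    have : Ex p (U \ {z}) (fun S => (if z ∈ ({z} : Finset ℕ) ∪ S then 0 else 1) * F ({z} ∪ S)) =
        Ex p (U \ {z}) (fun _ => (0 : ℝ)) := by
      refine Ex_congr fun S hS => ?_
      have h1 : z ∈ ({z} : Finset ℕ) ∪ S := Finset.mem_union_left _ (Finset.mem_singleton_self z)
      rw [if_pos h1, zero_mul]
    rw [this, Ex_const]
  rw [e1, e2, e3, e4]
  have : 1 - p z ≠ 0 := by linarith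
  field_simp
  ring

lemma Ex_mem {p : ℕ → ℝ} {U : Finset ℕ} {b : ℕ} (hb : b ∈ U) (g : ℝ) :
    Ex p U (fun S => if b ∈ S then g else 0) = p b * g := by
  have hsub : ({b} : Finset ℕ) ⊆ U := Finset.singleton_subset_iff.2 hb
  have h1 := Ex_inter (p := p) hsub (fun S => if b ∈ S then g else 0)
  have h2 : Ex p U (fun S => (fun S => if b ∈ S then g else 0) (S ∩ {b})) =
      Ex p U (fun S => if b ∈ S then g else 0) := by
    refine Ex_congr fun S _ => ?_
    simp
  rw [← h2, h1]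
  unfold Ex
  rw [show ({b} : Finset ℕ).powerset = {∅, {b}} from rfl,
    Finset.sum_insert (by
      rw [Finset.mem_singleton]
      exact (Finset.singleton_ne_empty b).symm), Finset.sum_singleton]
  unfold wt
  simp

/-- the expectation of a sum over the elements -/
lemma Ex_sum_mem {p : ℕ → ℝ} (U : Finset ℕ) (g : ℕ → ℝ) :
    Ex p U (fun S => ∑ b ∈ S, g b) = ∑ b ∈ U, p b * g b := by
  have : Ex p U (fun S => ∑ b ∈ S, g b) = Ex p U (fun S => ∑ b ∈ U, if b ∈ S then g b else 0) := by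
    refine Ex_congr fun S hS => ?_
    rw [← Finset.sum_filter, Finset.filter_mem_eq_inter, Finset.inter_eq_right.2 hS]
  rw [this, Ex_sum]
  exact Finset.sum_congr rfl fun b hb => Ex_mem hb (g b)

/-- the expected number of elements with the property `A` -/
lemma Ex_card_filter {p : ℕ → ℝ} (U : Finset ℕ) (A : ℕ → Prop) [DecidablePred A] :
    Ex p U (fun S => ((S.filter A).card : ℝ)) = ∑ b ∈ U.filter A, p b := by
  have h1 := Ex_sum_mem (p := p) U (fun b => if A b then 1 else 0)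
  have h2 : Ex p U (fun S => ((S.filter A).card : ℝ)) =
      Ex p U (fun S => ∑ b ∈ S, (if A b then (1 : ℝ) else 0)) := by
    refine Ex_congr fun S _ => ?_
    rw [← Finset.sum_filter, Finset.sum_const, nsmul_eq_mul, mul_one]
  rw [h2, h1, Finset.sum_filter]
  refine Finset.sum_congr rfl fun b _ => ?_
  split_ifs <;> ring

/-- the expected number of good runs of length `r` -/
lemma cnt_eq_sum_len (R G : ℕ) (S : Finset ℕ) (n : ℕ) (I : Finset ℕ) :
    ∑ r ∈ I, ((gr R G S n).filter (fun q => len S q = r)).card ≤ cnt R G S n := by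
  unfold cnt
  have h : (I.biUnion (fun r => (gr R G S n).filter (fun q => len S q = r))).card =
      ∑ r ∈ I, ((gr R G S n).filter (fun q => len S q = r)).card := by
    refine Finset.card_biUnion fun r _ r' _ hne => ?_
    refine Finset.disjoint_left.2 ?_
    intro q hq hq'
    exact hne ((Finset.mem_filter.1 hq).2.symm.trans (Finset.mem_filter.1 hq').2)
  rw [← h]
  refine Finset.card_le_card fun q hq => ?_
  obtain ⟨r, _, hr⟩ := Finset.mem_biUnion.1 hq
  exact (Finset.mem_filter.1 hr).1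

lemma Par.t0 {c θ : ℝ} (h : Par c θ) : 0 < θ := by
  have := h.c1
  rw [h.th]
  linarith

lemma Par.t1 {c θ : ℝ} (h : Par c θ) : θ < 1 / 200 := by
  have := h.c0
  rw [h.th]
  linarith

lemma Par.ceq {c θ : ℝ} (h : Par c θ) : c = 1 / 2 - 100 * θ := by
  rw [h.th]
  ring

end Pool.Agent.Work.MP_7d0410_sp
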