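import Pool.Agent.Work.MP_7d0410_sp.Moser2
import Pool.Agent.Work.MP_7d0410_cr.Interface

/-!
# The primes with a sparse random set added: definitions for the proof

The notions of runs (`seg`, `sm`, `len`, `runs`, `rr`, `good`, `gr`, `cnt`, `DD`, `meet`, `AB`, `PP`,
`CountReg`) and the parameters `a0`, `UU`, `SS`, `AA` are those of `Pool.Agent.Work.MP_7d0410_cr`
(which is open; a name which is also declared here is the one declared here). The expectations
are now for arbitrary probabilities `p m`.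
-/

set_option autoImplicit false

namespace Pool.Agent.Work.MP_7d0410_sp

open Finset Filter MeasureTheory ProbabilityTheory
open Pool.Agent.Work.MP_7d0410_cr
open scoped Classical

/-! ## Expectations -/

/-- The numbers `p m` are probabilities. -/
def Prob (p : ℕ → ℝ) : Prop := ∀ m, 0 ≤ p m ∧ p m ≤ 1

/-- The probability that the random subset of `U` is `S`. -/
noncomputable def wt (p : ℕ → ℝ) (U S : Finset ℕ) : ℝ := (∏ m ∈ S, p m) * ∏ m ∈ U \ S, (1 - p m)

/-- The expectation over random subsets of `U`. -/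
noncomputable def Ex (p : ℕ → ℝ) (U : Finset ℕ) (F : Finset ℕ → ℝ) : ℝ :=
  ∑ S ∈ U.powerset, wt p U S * F S

/-- The probability of the event `A`. -/
noncomputable def Pb (p : ℕ → ℝ) (U : Finset ℕ) (A : Finset ℕ → Prop) : ℝ :=
  Ex p U (fun S => if A S then 1 else 0)

/-- The expected number of runs of length `r` with the sum `n`. -/
noncomputable def hh (p : ℕ → ℝ) (U : Finset ℕ) (r n : ℕ) : ℝ := Ex p U (fun S => ((rr S r n).card : ℝ))

/-- The probability that `q` is a good run with the sum `n`. -/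
noncomputable def gg (p : ℕ → ℝ) (U : Finset ℕ) (R G n : ℕ) (q : ℕ × ℕ) : ℝ :=
  Pb p U (fun S => q ∈ gr R G S n)

/-- The expected number of good runs with the sum `n`. -/
noncomputable def HH (p : ℕ → ℝ) (U : Finset ℕ) (R G n : ℕ) : ℝ := Ex p U (fun S => (cnt R G S n : ℝ))

/-- The expected number of pairs of different good runs with the sum `n` whose hulls meet. -/
noncomputable def T1 (p : ℕ → ℝ) (U : Finset ℕ) (R G n : ℕ) : ℝ :=
  Ex p U (fun S => ∑ q ∈ gr R G S n, (((gr R G S n).filter (fun q' => q' ≠ q ∧ meet q q')).card : ℝ))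

/-- The same for two independent sets. -/
noncomputable def T2 (p : ℕ → ℝ) (U : Finset ℕ) (R G n : ℕ) : ℝ :=
  ∑ q ∈ U ×ˢ U, ∑ q' ∈ (U ×ˢ U).filter (fun q' => meet q q'), gg p U R G n q * gg p U R G n q'

/-! ## The parameters -/

/-- The probabilities: `1` for the primes, `m ^ (-c)` for the other `m`. -/
noncomputable def pp (c : ℝ) (m : ℕ) : ℝ := if m.Prime then 1 else (m : ℝ) ^ (-c)

/-- `x ^ (1/2 + 4 θ)`. -/
noncomputable def A1 (θ : ℝ) (x : ℕ) : ℕ := ⌈(x : ℝ) ^ (1 / 2 + 4 * θ)⌉₊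

/-- `x ^ (1/2 + 8 θ)`. -/
noncomputable def A2 (θ : ℝ) (x : ℕ) : ℕ := ⌊(x : ℝ) ^ (1 / 2 + 8 * θ)⌋₊

/-- The elements in this interval are used. -/
noncomputable def VV (θ : ℝ) (x : ℕ) : Finset ℕ := Finset.Icc (A1 θ x) (A2 θ x)

/-- The bound for the mean gap of a run. -/
noncomputable def G1 (θ : ℝ) (x : ℕ) : ℕ := ⌈(x : ℝ) ^ θ⌉₊

/-- The least length of the runs which are used. -/
noncomputable def R1 (θ : ℝ) (x : ℕ) : ℕ := ⌈(x : ℝ) ^ (1 / 2 - 9 * θ)⌉₊

/-- Runs of at least this length contain many of the random elements. -/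
noncomputable def L0 (c θ : ℝ) (x : ℕ) : ℕ := ⌈(x : ℝ) ^ (2 * θ) * (A2 θ x : ℝ) ^ c⌉₊

/-- The length scale of `r` primes. -/
noncomputable def LL (C : ℝ) (x r : ℕ) : ℕ := ⌈C * r * Real.log x⌉₊

/-- `r` is good for `n`: there are `r` primes on both sides of `n / r` within distance `Λ`. -/
def GR (Λ n r : ℕ) : Prop :=
  r ≤ ((Finset.range (n + 1)).filter (fun p => p.Prime ∧ r * p < n ∧ n ≤ r * (p + Λ))).card ∧
  r ≤ ((Finset.range (2 * n + 1)).filter (fun p => p.Prime ∧ n < r * p ∧ r * p ≤ n + r * Λ)).card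

/-- There is a run of length `r - 1` which becomes a run of length `r` with the sum `n` when one
element is added. -/
def PT (S : Finset ℕ) (r n : ℕ) : Prop :=
  ∃ q ∈ runs S, len S q + 1 = r ∧ q.1 + sm S q < n ∧ n < sm S q + q.2 ∧ n - sm S q ∉ S

/-- The number of the non-primes in `S` between the ends of `q`. -/
def KK (S : Finset ℕ) (q : ℕ × ℕ) : ℕ := (S.filter (fun z => ¬ z.Prime ∧ q.1 < z ∧ z < q.2)).card

/-- The number of runs of `S` which become runs of length `r` with the sum `n` when `z` is added. -/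
def FF (S : Finset ℕ) (r n z : ℕ) : ℕ :=
  ((runs S).filter (fun q => q.1 < z ∧ z < q.2 ∧ len S q + 1 = r ∧ sm S q + z = n)).card

/-- The number of primes in `(y, y + h]`. -/
def pin (y h : ℕ) : ℕ := ((Finset.Ioc y (y + h)).filter Nat.Prime).card

/-- The lengths which are good for `n`. -/
noncomputable def RG (C θ : ℝ) (x n : ℕ) : Finset ℕ :=
  (Finset.Icc 1 x).filter (fun r => GR (LL C x r) n r ∧ 2 * A1 θ x * r ≤ n ∧ 2 * n ≤ A2 θ x * r)

/-- The number of runs with the sum `n` below `A` or above `B`. -/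
def F0 (A B : ℕ) (S : Finset ℕ) (n : ℕ) : ℕ :=
  ((runs S).filter (fun q => sm S q = n ∧ (q.2 < A ∨ B < q.1))).card

/-- The number of the other runs with the sum `n` which are not good runs in `[A, B]`. -/
def XX (A B R G : ℕ) (S : Finset ℕ) (n : ℕ) : ℕ :=
  ((runs S).filter (fun q => sm S q = n ∧ ((q.1 < A ∧ A ≤ q.2) ∨ (q.1 ≤ B ∧ B < q.2) ∨
    (A ≤ q.1 ∧ q.2 ≤ B ∧ q ∉ good R G S)))).card

/-- The parameters: `0 < c < 1/2` and `θ = (1/2 - c) / 100`. -/
structure Par (c θ : ℝ) : Prop where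
  c0 : 0 < c
  c1 : c < 1 / 2
  th : θ = (1 / 2 - c) / 100

/-- The hypotheses on the events: independent, with `μ (E m) = m ^ (-c)`. -/
structure Sparse {Ω : Type*} [MeasurableSpace Ω] (μ : Measure Ω) (E : ℕ → Set Ω) (c : ℝ) : Prop where
  meas : ∀ m, MeasurableSet (E m)
  indep : iIndepSet E μ
  prob : ∀ m : ℕ, 2 ≤ m → μ (E m) = ENNReal.ofReal ((m : ℝ) ^ (-c))

end Pool.Agent.Work.MP_7d0410_sp
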