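import Pool.Agent.Work.MP_7d0410_sp.B_BTT
import Pool.Agent.Work.MP_7d0410_sp.B_CHB
import Pool.Agent.Work.MP_7d0410_sp.B_MRT
import Pool.Agent.Work.MP_7d0410_sp.B_GDA
import Pool.Agent.Work.MP_7d0410_sp.B_GDB
import Pool.Agent.Work.MP_7d0410_sp.B_GDC
import Pool.Agent.Work.MP_7d0410_sp.B_GD1
import Pool.Agent.Work.MP_7d0410_sp.B_GDR
import Pool.Agent.Work.MP_7d0410_sp.B_SFT
import Pool.Agent.Work.MP_7d0410_sp.B_NCR
import Pool.Agent.Work.MP_7d0410_sp.B_XCR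
import Pool.Agent.Work.MP_7d0410_sp.B_XXB
import Pool.Agent.Work.MP_7d0410_sp.B_NPD
import Pool.Agent.Work.MP_7d0410_sp.B_NPE
import Pool.Agent.Work.MP_7d0410_sp.B_MCK
import Pool.Agent.Work.MP_7d0410_sp.B_MCU
import Pool.Agent.Work.MP_7d0410_sp.B_MCL
import Pool.Agent.Work.MP_7d0410_sp.B_CHE
import Pool.Agent.Work.MP_7d0410_sp.B_CRB
import Pool.Agent.Work.MP_7d0410_sp.B_C1L
import Pool.Agent.Work.MP_7d0410_sp.B_C1S
import Pool.Agent.Work.MP_7d0410_sp.B_C1B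
import Pool.Agent.Work.MP_7d0410_sp.B_C2A
import Pool.Agent.Work.MP_7d0410_sp.B_CO
import Pool.Agent.Work.MP_7d0410_sp.B_MEC
import Pool.Agent.Work.MP_7d0410_sp.B_HGD
import Pool.Agent.Work.MP_7d0410_sp.B_HLB
import Pool.Agent.Work.MP_7d0410_sp.B_HMO
import Pool.Agent.Work.MP_7d0410_sp.B_EAV
import Pool.Agent.Work.MP_7d0410_sp.B_PKL
import Pool.Agent.Work.MP_7d0410_sp.B_EDA
import Pool.Agent.Work.MP_7d0410_sp.B_SPL
import Pool.Agent.Work.MP_7d0410_sp.B_EDK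
import Pool.Agent.Work.MP_7d0410_sp.B_TEN
import Pool.Agent.Work.MP_7d0410_sp.B_VAR
import Pool.Agent.Work.MP_7d0410_sp.B_LAW
import Pool.Agent.Work.MP_7d0410_sp.B_BCL
import Pool.Agent.Work.MP_7d0410_sp.B_CRG
import Pool.Agent.Work.MP_7d0410_sp.B_BDQ
import Pool.Agent.Work.MP_7d0410_sp.B_FIN
import Pool.Agent.Work.MP_7d0410_cr.B_INF

/-!
# The primes with a sparse random set added: the theorem
-/

set_option autoImplicit false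

namespace Pool.Agent.Work.MP_7d0410_sp

theorem f_CRB : Stmt_CRB := p_CRB (p_MCU p_MCK p_SFT) p_CHL

theorem f_GDR : Stmt_GDR := p_GDR (p_GD1 (p_GDC p_BTT p_CHB) p_GDA p_GDB p_BTT)

theorem f_NPE : Stmt_NPE := p_NPE (p_NPD p_SFT) p_BTT

theorem f_CO : Stmt_CO := p_CO (p_C1B (p_C1S p_C1L) f_CRB) p_C2A f_CRB

theorem f_HMO : Stmt_HMO := p_HMO f_GDR (p_HLB p_HGD (p_MCL p_MCK) p_CHU) f_NPE

theorem f_EAV : Stmt_EAV := p_EAV p_MRT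

theorem f_EDA : Stmt_EDA := p_EDA f_HMO f_CO f_EAV p_MEC p_PKL

theorem f_EDK : Stmt_EDK := p_EDK f_EDA p_SPL f_EAV (p_XXB (p_NCR p_SFT) p_XCR)

theorem final.{u} : Stmt_FIN.{u} :=
  p_FIN (p_BCL (p_VAR p_TEN Pool.Agent.Work.MP_7d0410_cr.p_INF) p_LAW) f_EDK
    (p_CRG p_CHU p_LAW) p_BDQ

end Pool.Agent.Work.MP_7d0410_sp
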