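import Pool.Agent.Work.MP_7d0410_cr.Moser

/-!
# Moser's problem for the primes with a sparse random set added: the definition used in the theorem

`repCount P n`, the number of representations of `n` as a sum of one or more consecutive elements
of `P`, is defined in `Pool.Agent.Work.MP_7d0410_cr.Moser`.
-/

set_option autoImplicit false

namespace Pool.Agent.Work.MP_7d0410_sp

/-- The primes together with the `m ≥ 2` for which `E m` occurs. -/
def primesPlus {Ω : Type*} (E : ℕ → Set Ω) (ω : Ω) : Set ℕ := {m | m.Prime ∨ (2 ≤ m ∧ ω ∈ E m)}

end Pool.Agent.Work.MP_7d0410_sp
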